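import Pool.Agent.Helper706_TE.Defs2

set_option autoImplicit false
open Set Filter Topology MeasureTheory
open scoped ComplexConjugate ContDiff

namespace H706T.JSC

/-! ### One-dimensional integrals and the orthogonality of the exponentials -/

theorem int1 (n : ℤ) : ∫ t in Icc (-Real.pi) Real.pi, Complex.exp (Complex.I * ((n : ℝ) * t : ℝ)) =
    if n = 0 then (2 * Real.pi : ℂ) else 0 := by
  rw [integral_Icc_eq_integral_Ioc, ← intervalIntegral.integral_of_le (by linarith [Real.pi_pos])]
  split_ifs with h
  · subst h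
    simp
    ring
  · have hc : Complex.I * (n : ℂ) ≠ 0 := mul_ne_zero Complex.I_ne_zero (by exact_mod_cast h)
    have h1 : ∀ t : ℝ, Complex.exp (Complex.I * ((n : ℝ) * t : ℝ)) =
        Complex.exp (Complex.I * (n : ℂ) * t) := by
      intro t
      congr 1
      push_cast
      ring
    simp only [h1]
    rw [integral_exp_mul_complex hc]
    have h2 : Complex.exp (Complex.I * (n : ℂ) * (Real.pi : ℝ)) =
        Complex.exp (Complex.I * (n : ℂ) * ((-Real.pi : ℝ) : ℂ)) := by
      rw [Complex.exp_eq_exp_iff_exists_int]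
      refine ⟨n, ?_⟩
      push_cast
      ring
    rw [h2, sub_self, zero_div]

theorem int3 (k : K) : ∫ x in torus, Complex.exp (Complex.I * (dot k x : ℂ)) =
    if k = 0 then ((2 * Real.pi) ^ 3 : ℂ) else 0 := by
  have h1 : torus = Set.univ.pi fun _ : Fin 3 => Icc (-Real.pi) Real.pi := by
    unfold torus
    exact (Set.pi_univ_Icc _ _).symm
  have h2 : ∀ x : V, Complex.exp (Complex.I * (dot k x : ℂ)) =
      ∏ i, Complex.exp (Complex.I * ((k i : ℝ) * x i : ℝ)) := by
    intro x
    rw [← Complex.exp_sum]
    congr 1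
    unfold dot
    push_cast
    rw [Finset.mul_sum]
  rw [h1, volume_pi, Measure.restrict_pi_pi]
  simp only [h2]
  rw [integral_fintype_prod_eq_prod
    (f := fun i (t : ℝ) => Complex.exp (Complex.I * ((k i : ℝ) * t : ℝ)))]
  simp only [int1]
  split_ifs with h
  · subst h
    simp
  · obtain ⟨i, hi⟩ := Function.ne_iff.1 h
    exact Finset.prod_eq_zero (Finset.mem_univ i) (if_neg hi)

theorem torus_vol : volume torus ≠ ⊤ := by
  unfold torus
  exact (isCompact_Icc.measure_lt_top).ne

theorem norm_ei (k : K) (x : V) : ‖Complex.exp (Complex.I * (dot k x : ℂ))‖ = 1 := by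
  rw [mul_comm]
  exact Complex.norm_exp_ofReal_mul_I _

theorem cont_dot (k : K) : Continuous (dot k) := by
  unfold dot
  fun_prop

theorem dot_neg (k : K) (x : V) : dot (-k) x = -dot k x := by
  unfold dot
  rw [← Finset.sum_neg_distrib]
  refine Finset.sum_congr rfl fun i _ => ?_
  rw [Pi.neg_apply]
  push_cast
  ring

theorem dot_sub (k l : K) (x : V) : dot (k - l) x = dot k x - dot l x := by
  unfold dot
  rw [← Finset.sum_sub_distrib]
  refine Finset.sum_congr rfl fun i _ => ?_
  rw [Pi.sub_apply]
  push_cast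
  ring

/-- TARGET -/
theorem series_coeff {c : K → W} (hs : Summable fun k => ‖c k‖) (hc : ∀ k, c (-k) = cj (c k)) (l : K) :
    coeff (fun (x : V) (j : Fin 3) =>
      (∑' k : K, c k j * Complex.exp (Complex.I * (dot k x : ℂ))).re) l = c l := by
  classical
  ext j
  have hn : ∀ k, ‖c k j‖ ≤ ‖c k‖ := fun k => PiLp.norm_apply_le (c k) j
  have hsj : Summable fun k => ‖c k j‖ := hs.of_nonneg_of_le (fun k => norm_nonneg _) hn
  -- the series is real
  have hreal : ∀ x : V, (((∑' k : K, c k j * Complex.exp (Complex.I * (dot k x : ℂ))).re : ℝ) : ℂ) =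
      ∑' k : K, c k j * Complex.exp (Complex.I * (dot k x : ℂ)) := by
    intro x
    rw [← Complex.conj_eq_iff_re, Complex.conj_tsum]
    rw [← (Equiv.neg K).tsum_eq]
    refine tsum_congr fun k => ?_
    simp only [Equiv.neg_apply]
    rw [hc, map_mul, ← Complex.exp_conj, map_mul, Complex.conj_I, Complex.conj_ofReal, dot_neg]
    simp only [cj, Complex.conj_conj]
    push_cast
    rw [neg_mul_neg]
  unfold coeff
  simp only [hreal]
  have h1 : ∀ x : V, (∑' k : K, c k j * Complex.exp (Complex.I * (dot k x : ℂ))) *
      Complex.exp (-Complex.I * (dot l x : ℂ)) =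
      ∑' k : K, c k j * Complex.exp (Complex.I * (dot (k - l) x : ℂ)) := by
    intro x
    rw [← tsum_mul_right]
    refine tsum_congr fun k => ?_
    rw [mul_assoc, ← Complex.exp_add, dot_sub]
    congr 2
    push_cast
    ring
  simp only [h1]
  have hfin : IsFiniteMeasure (volume.restrict torus) :=
    ⟨by rw [Measure.restrict_apply_univ]; exact torus_vol.lt_top⟩
  have hI : ∀ k : K, Integrable (fun x : V => c k j * Complex.exp (Complex.I * (dot (k - l) x : ℂ)))
      (volume.restrict torus) := by
    intro k
    refine (integrable_const (‖c k j‖)).mono' ?_ (Filter.Eventually.of_forall fun x => ?_)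
    · have := cont_dot (k - l)
      have h2 : Continuous (fun x : V => c k j * Complex.exp (Complex.I * (dot (k - l) x : ℂ))) := by
        fun_prop
      exact h2.aestronglyMeasurable
    · rw [norm_mul, norm_ei, mul_one]
  have h2 := integral_tsum_of_summable_integral_norm hI (by
    refine (hsj.mul_left ((volume.restrict torus).real univ)).congr fun k => ?_
    simp only [norm_mul, norm_ei, mul_one]
    rw [integral_const, smul_eq_mul])
  rw [← h2]
  have h3 : ∀ k : K, ∫ x in torus, c k j * Complex.exp (Complex.I * (dot (k - l) x : ℂ)) =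
      if k = l then c l j * (2 * Real.pi) ^ 3 else 0 := by
    intro k
    rw [integral_const_mul, int3]
    by_cases h : k = l
    · subst h
      simp
    · rw [if_neg (sub_ne_zero.2 h), if_neg h, mul_zero]
  simp only [h3]
  rw [tsum_ite_eq]
  have hpi : ((2 * Real.pi : ℂ)) ^ 3 ≠ 0 := by
    have : (Real.pi : ℂ) ≠ 0 := by exact_mod_cast Real.pi_ne_zero
    exact pow_ne_zero 3 (mul_ne_zero two_ne_zero this)
  field_simp

end H706T.JSC

namespace H706T

alias series_coeff := JSC.series_coeff

end H706T
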