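import Pool.Agent.Helper706_TE.Defs2
import Pool.Agent.Y302.Tri.Trans

/-!
Basic properties of the Fourier coefficients.
-/

set_option autoImplicit false

open Set Filter Topology MeasureTheory
open scoped ComplexConjugate ContDiff

namespace H706T.JCB

open Pool.Agent.H708R2.EulerSign (Dom sq3 integral_divergence_eq_zero dom_lt_top dom_bdd dom_meas)
open Pool.Agent.H708R2.EulerModes (cube ph integral_cube)
open Pool.Agent.Y302.Tri

theorem torus_eq : torus = cube := rfl

theorem torus_compact : IsCompact torus := isCompact_Icc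

theorem coeff_apply (v : V → V) (k : K) (i : Fin 3) :
    coeff v k i = (∫ x in torus, (v x i : ℂ) * Complex.exp (-Complex.I * (dot k x : ℂ)))
      / (2 * Real.pi) ^ 3 := rfl

theorem comp_cont {v : V → V} (hv : Continuous v) (i : Fin 3) : Continuous fun x => v x i :=
  (continuous_apply i).comp hv

theorem comp_per {v : V → V} (pv : Periodic3 v) (i : Fin 3) :
    Pool.Agent.H708R2.EulerSign.Periodic3 (fun x => v x i) := by
  intro j x
  have := pv j x
  simp only
  rw [this]

theorem coeff_cf {v : V → V} (hv : Continuous v) (pv : Periodic3 v) (k : K) (i : Fin 3) :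
    coeff v k i = cf (fun x => v x i) k :=
  co_eq (comp_per pv i) (comp_cont hv i) k

/-- TARGET -/
theorem coeff_neg (v : V → V) (k : K) : coeff v (-k) = cj (coeff v k) := by
  ext i
  have h1 : cj (coeff v k) i = conj (coeff v k i) := rfl
  rw [h1, coeff_apply, coeff_apply, map_div₀, ← integral_conj]
  have h2 : conj ((2 * (Real.pi : ℂ)) ^ 3) = (2 * (Real.pi : ℂ)) ^ 3 := by
    rw [map_pow, map_mul, Complex.conj_ofReal, map_ofNat]
  rw [h2]
  congr 1
  congr 1
  funext x
  rw [map_mul, Complex.conj_ofReal, ← Complex.exp_conj, map_mul, map_neg, Complex.conj_I,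
    Complex.conj_ofReal]
  congr 2
  have h3 : dot (-k) x = -dot k x := by
    unfold dot
    rw [← Finset.sum_neg_distrib]
    refine Finset.sum_congr rfl fun i _ => ?_
    rw [Pi.neg_apply]
    push_cast
    ring
  rw [h3]
  push_cast
  ring

theorem dot_cont (k : K) : Continuous (dot k) := by
  unfold dot
  fun_prop

theorem int_torus {f : V → ℝ} (hf : Continuous f) (k : K) :
    IntegrableOn (fun x => (f x : ℂ) * Complex.exp (-Complex.I * (dot k x : ℂ))) torus := by
  have h1 := dot_cont k
  refine ContinuousOn.integrableOn_compact torus_compact (Continuous.continuousOn ?_)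
  fun_prop

/-- TARGET -/
theorem coeff_sub {v w : V → V} (hv : Continuous v) (hw : Continuous w) (k : K) :
    coeff (fun x i => v x i - w x i) k = coeff v k - coeff w k := by
  ext i
  rw [PiLp.sub_apply, coeff_apply, coeff_apply, coeff_apply, ← sub_div,
    ← integral_sub (int_torus (comp_cont hv i) k) (int_torus (comp_cont hw i) k)]
  congr 2
  funext x
  push_cast
  ring

theorem D_eq {v : V → V} (hv : ContDiff ℝ 1 v) (x : V) (j i : Fin 3) :
    D v x j i = fderiv ℝ (fun y => v y i) x (Pi.single j 1) := by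
  have h4 : HasFDerivAt (fun x => v x i)
      ((ContinuousLinearMap.proj i : V →L[ℝ] ℝ).comp (fderiv ℝ v x)) x :=
    (ContinuousLinearMap.proj i : V →L[ℝ] ℝ).hasFDerivAt.comp x
      ((hv.differentiable one_ne_zero) x).hasFDerivAt
  rw [h4.fderiv]
  rfl

theorem D_cont {v : V → V} (hv : ContDiff ℝ 1 v) (j i : Fin 3) : Continuous fun x => D v x j i :=
  (continuous_apply i).comp ((hv.continuous_fderiv one_ne_zero).clm_apply continuous_const)

theorem D_per {v : V → V} (pv : Periodic3 v) (j i : Fin 3) :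
    Pool.Agent.H708R2.EulerSign.Periodic3 (fun x => D v x j i) := by
  intro l x
  have h : fderiv ℝ v (x + Pi.single l (2 * Real.pi)) = fderiv ℝ v x :=
    Pool.Agent.H708R2.EulerSign.Periodic3.fderiv pv l x
  simp only [D, h]

theorem cf_D {v : V → V} (hv : ContDiff ℝ 1 v) (pv : Periodic3 v) (k : K) (j i : Fin 3) :
    cf (fun x => D v x j i) k = Complex.I * (k j : ℂ) * coeff v k i := by
  have hvi : ContDiff ℝ 1 (fun x => v x i) := (contDiff_apply ℝ ℝ i).comp hv
  have h := cf_pd (comp_per pv i) hvi j k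
  rw [coeff_cf hv.continuous pv]
  rw [← h]
  congr 1
  funext x
  exact D_eq hv x j i

theorem curl_cont {v : V → V} (hv : ContDiff ℝ 1 v) : Continuous (curl v) := by
  refine continuous_pi fun i => ?_
  fin_cases i
  · exact (D_cont hv 1 2).sub (D_cont hv 2 1)
  · exact (D_cont hv 2 0).sub (D_cont hv 0 2)
  · exact (D_cont hv 0 1).sub (D_cont hv 1 0)

theorem curl_per {v : V → V} (pv : Periodic3 v) : Periodic3 (curl v) := by
  intro l x
  have h : ∀ i j, D v (x + Pi.single l (2 * Real.pi)) j i = D v x j i := fun i j => D_per pv j i l x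
  unfold curl
  simp only [h]

/-- TARGET -/
theorem coeff_curl {v : V → V} (hv : ContDiff ℝ 1 v) (pv : Periodic3 v) (k : K) :
    coeff (curl v) k = cu k (coeff v k) := by
  have key : ∀ i j l m : Fin 3, cf (fun x => D v x i j - D v x l m) k
      = Complex.I * (k i : ℂ) * coeff v k j - Complex.I * (k l : ℂ) * coeff v k m := by
    intro i j l m
    rw [cf_sub (D_cont hv i j) (D_cont hv l m), cf_D hv pv, cf_D hv pv]
  ext i
  rw [coeff_cf (curl_cont hv) (curl_per pv)]
  fin_cases i
  · have h1 : (fun x => curl v x 0) = fun x => D v x 1 2 - D v x 2 1 := rfl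
    have h2 : cu k (coeff v k) 0 = Complex.I * ((k 1 : ℂ) * coeff v k 2 - (k 2 : ℂ) * coeff v k 1) := rfl
    change cf (fun x => curl v x 0) k = cu k (coeff v k) 0
    rw [h1, h2, key]
    ring
  · have h1 : (fun x => curl v x 1) = fun x => D v x 2 0 - D v x 0 2 := rfl
    have h2 : cu k (coeff v k) 1 = Complex.I * ((k 2 : ℂ) * coeff v k 0 - (k 0 : ℂ) * coeff v k 2) := rfl
    change cf (fun x => curl v x 1) k = cu k (coeff v k) 1
    rw [h1, h2, key]
    ring
  · have h1 : (fun x => curl v x 2) = fun x => D v x 0 1 - D v x 1 0 := rfl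
    have h2 : cu k (coeff v k) 2 = Complex.I * ((k 0 : ℂ) * coeff v k 1 - (k 1 : ℂ) * coeff v k 0) := rfl
    change cf (fun x => curl v x 2) k = cu k (coeff v k) 2
    rw [h1, h2, key]
    ring

theorem parseval_sq {f : V → ℝ} (hc : Continuous f)
    (hp : Pool.Agent.H708R2.EulerSign.Periodic3 f) :
    HasSum (fun k => ‖cf f k‖ ^ 2) (((2 * Real.pi) ^ 3)⁻¹ * ∫ x in torus, f x ^ 2) := by
  have h2 := parseval hp hc hp hc
  have h3 := Complex.hasSum_re h2
  rw [Complex.ofReal_re] at h3
  have h4 : Pool.Agent.H708R2.EulerSign.Periodic3 (fun x => f x * f x) := by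
    intro j x
    have := hp j x
    simp only
    rw [this]
  rw [← integral_cube h4, vi_eq] at h3
  have e : ∫ x in torus, f x ^ 2 = ∫ x in cube, f x * f x := by
    rw [torus_eq]
    congr 1
    funext x
    ring
  rw [e]
  refine h3.congr_fun fun k => ?_
  rw [← Complex.normSq_eq_conj_mul_self, Complex.ofReal_re, Complex.normSq_eq_norm_sq]

/-- TARGET -/
theorem coeff_sq0 {v : V → V} (hv : Continuous v) (pv : Periodic3 v) :
    HasSum (fun k => ‖coeff v k‖ ^ 2) (((2 * Real.pi) ^ 3)⁻¹ * ∫ x in torus, ∑ i, v x i ^ 2) := by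
  have h1 := hasSum_sum (s := Finset.univ) fun i _ => parseval_sq (comp_cont hv i) (comp_per pv i)
  have h2 : ∑ i, ((2 * Real.pi) ^ 3)⁻¹ * ∫ x in torus, v x i ^ 2
      = ((2 * Real.pi) ^ 3)⁻¹ * ∫ x in torus, ∑ i, v x i ^ 2 := by
    rw [← Finset.mul_sum, integral_finsetSum]
    intro i _
    exact ((comp_cont hv i).pow 2).continuousOn.integrableOn_compact torus_compact
  rw [h2] at h1
  refine h1.congr_fun fun k => ?_
  rw [EuclideanSpace.norm_sq_eq]
  refine Finset.sum_congr rfl fun i _ => ?_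
  rw [coeff_cf hv pv]

theorem coeff_sq_hasSum {v : V → V} (hv : ContDiff ℝ 1 v) (pv : Periodic3 v) :
    HasSum (fun k => nq k * ‖coeff v k‖ ^ 2)
      (∑ j, ∑ i, ((2 * Real.pi) ^ 3)⁻¹ * ∫ x in torus, D v x j i ^ 2) := by
  have h1 := hasSum_sum (s := Finset.univ) fun j _ => hasSum_sum (s := Finset.univ) fun i _ =>
    parseval_sq (D_cont hv j i) (D_per pv j i)
  refine h1.congr_fun fun k => ?_
  rw [EuclideanSpace.norm_sq_eq]
  unfold nq
  rw [Finset.sum_mul]
  refine Finset.sum_congr rfl fun j _ => ?_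
  rw [Finset.mul_sum]
  refine Finset.sum_congr rfl fun i _ => ?_
  rw [cf_D hv pv, norm_mul, norm_mul, Complex.norm_I, one_mul, mul_pow, Complex.norm_intCast,
    sq_abs]

/-- TARGET -/
theorem coeff_sq {v : V → V} (hv : ContDiff ℝ 1 v) (pv : Periodic3 v) :
    Summable (fun k => nq k * ‖coeff v k‖ ^ 2) ∧
      ∀ B : ℝ, (∀ x i j, |D v x j i| ≤ B) → ∑' k, nq k * ‖coeff v k‖ ^ 2 ≤ (3 * B) ^ 2 := by
  have h := coeff_sq_hasSum hv pv
  refine ⟨h.summable, fun B hB => ?_⟩
  rw [h.tsum_eq]
  have hvol : ∫ _x in torus, (1 : ℝ) = (2 * Real.pi) ^ 3 := by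
    rw [setIntegral_const, smul_eq_mul, mul_one]
    unfold torus Measure.real
    rw [Real.volume_Icc_pi_toReal (fun _ => by linarith [Real.pi_pos])]
    simp
    ring
  have hpi : (0 : ℝ) < (2 * Real.pi) ^ 3 := by positivity
  have hterm : ∀ j i : Fin 3, ((2 * Real.pi) ^ 3)⁻¹ * ∫ x in torus, D v x j i ^ 2 ≤ B ^ 2 := by
    intro j i
    have h1 : ∫ x in torus, D v x j i ^ 2 ≤ ∫ _x in torus, B ^ 2 := by
      refine setIntegral_mono_on ?_ ?_ measurableSet_Icc fun x _ => ?_
      · exact ((D_cont hv j i).pow 2).continuousOn.integrableOn_compact torus_compact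
      · exact continuous_const.continuousOn.integrableOn_compact torus_compact
      · have h2 := hB x i j
        rw [← sq_abs]
        exact pow_le_pow_left₀ (abs_nonneg _) h2 2
    have h3 : ∫ _x in torus, B ^ 2 = B ^ 2 * (2 * Real.pi) ^ 3 := by
      rw [← hvol, ← integral_const_mul]
      simp
    rw [h3] at h1
    rw [inv_mul_le_iff₀ hpi]
    linarith
  calc ∑ j, ∑ i, ((2 * Real.pi) ^ 3)⁻¹ * ∫ x in torus, D v x j i ^ 2
      ≤ ∑ _j : Fin 3, ∑ _i : Fin 3, B ^ 2 :=
        Finset.sum_le_sum fun j _ => Finset.sum_le_sum fun i _ => hterm j i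
    _ = (3 * B) ^ 2 := by
        simp
        ring

/-- TARGET -/
theorem int_D {g : V → V} (hg : ContDiff ℝ 1 g) (pg : Periodic3 g) :
    ∫ x in torus, ∑ i, D g x i i = 0 := by
  have h1 : Pool.Agent.H708R2.EulerSign.Periodic3 (fun x => ∑ i, D g x i i) := by
    intro j x
    exact Finset.sum_congr rfl fun i _ => D_per pg i i j x
  rw [torus_eq, integral_cube h1]
  exact integral_divergence_eq_zero hg pg

end H706T.JCB

namespace H706T

alias coeff_neg := JCB.coeff_neg
alias coeff_sub := JCB.coeff_sub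
alias coeff_curl := JCB.coeff_curl
alias coeff_sq0 := JCB.coeff_sq0
alias coeff_sq := JCB.coeff_sq
alias int_D := JCB.int_D

end H706T
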