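import Pool.Agent.Helper706_TE.Defs4
import Pool.Agent.Helper706_TE.SC
import Pool.Agent.Helper706_TE.CB

set_option autoImplicit false
open Set Filter Topology MeasureTheory
open scoped ComplexConjugate ContDiff

namespace H706T.JWG

/-- multiples of a non-zero frequency are different -/
theorem wg_inj {n : K} (hn : n ≠ 0) : Function.Injective fun l : ℤ => l • n := by
  intro l m h
  obtain ⟨i, hi⟩ : ∃ i, n i ≠ 0 := by
    by_contra hcon
    push Not at hcon
    exact hn (funext hcon)
  have := congrFun h i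
  simp only [Pi.smul_apply, smul_eq_mul] at this
  exact mul_right_cancel₀ hi this

open Classical in
/-- the coefficients of the sine series -/
noncomputable def wgc (n : K) (e : V) (b : ℕ → ℝ) (k : K) : W :=
  if h : ∃ l : ℤ, k = l • n then (-Complex.I * ((sgr h.choose * b h.choose.natAbs : ℝ) : ℂ)) • vW e else 0

theorem wgc_smul {n : K} (hn : n ≠ 0) (e : V) (b : ℕ → ℝ) (l : ℤ) :
    wgc n e b (l • n) = (-Complex.I * ((sgr l * b l.natAbs : ℝ) : ℂ)) • vW e := by
  have h : ∃ m : ℤ, l • n = m • n := ⟨l, rfl⟩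
  have h2 : h.choose = l := (wg_inj hn h.choose_spec).symm
  unfold wgc
  rw [dif_pos h, h2]

theorem wgc_zero {n : K} (e : V) (b : ℕ → ℝ) {k : K} (hk : ∀ l : ℤ, k ≠ l • n) :
    wgc n e b k = 0 := by
  unfold wgc
  rw [dif_neg]
  rintro ⟨l, hl⟩
  exact hk l hl

theorem wgc_not_range {n : K} (e : V) (b : ℕ → ℝ) {k : K}
    (hk : k ∉ Set.range fun l : ℤ => l • n) : wgc n e b k = 0 :=
  wgc_zero e b fun l hl => hk ⟨l, hl.symm⟩

theorem wg_sgr_le (l : ℤ) : |sgr l| ≤ 1 := by
  unfold sgr
  rcases lt_trichotomy l 0 with h | h | h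
  · rw [Int.sign_eq_neg_one_of_neg h]; norm_num
  · rw [h]; norm_num
  · rw [Int.sign_eq_one_of_pos h]; norm_num

theorem wg_sgr_neg (l : ℤ) : sgr (-l) = - sgr l := by
  unfold sgr
  rw [Int.sign_neg]
  push_cast
  ring

theorem wgc_summable {n : K} (hn : n ≠ 0) (e : V) {b : ℕ → ℝ}
    (hb : Summable fun l : ℕ => |b l|) : Summable fun k => ‖wgc n e b k‖ := by
  have h0 : ∀ k ∉ Set.range (fun l : ℤ => l • n), ‖wgc n e b k‖ = 0 := by
    intro k hk
    rw [wgc_not_range e b hk, norm_zero]
  rw [← (wg_inj hn).summable_iff h0]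
  have key : ∀ l : ℤ, ‖wgc n e b (l • n)‖ ≤ |b l.natAbs| * ‖vW e‖ := by
    intro l
    rw [wgc_smul hn, norm_smul, norm_mul, norm_neg, Complex.norm_I, one_mul, Complex.norm_real,
      Real.norm_eq_abs, abs_mul]
    have h1 := wg_sgr_le l
    have h2 := abs_nonneg (b l.natAbs)
    have h3 := norm_nonneg (vW e)
    nlinarith [mul_le_mul_of_nonneg_right h1 h2, mul_nonneg h2 h3]
  have hs : Summable fun l : ℤ => |b l.natAbs| * ‖vW e‖ := by
    apply Summable.mul_right
    apply Summable.of_nat_of_neg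
    · simpa using hb
    · simpa using hb
  exact Summable.of_nonneg_of_le (fun l => norm_nonneg _) key hs

theorem wg_cj_smul (z : ℂ) (e : V) : cj (z • vW e) = conj z • vW e := by
  unfold cj vW
  ext j
  simp

theorem wgc_neg {n : K} (hn : n ≠ 0) (e : V) (b : ℕ → ℝ) (k : K) :
    wgc n e b (-k) = cj (wgc n e b k) := by
  by_cases hk : ∃ l : ℤ, k = l • n
  · obtain ⟨l, rfl⟩ := hk
    rw [← neg_smul, wgc_smul hn, wgc_smul hn, wg_cj_smul, wg_sgr_neg, Int.natAbs_neg]
    congr 1
    rw [map_mul, map_neg, Complex.conj_I, Complex.conj_ofReal]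
    push_cast
    ring
  · push Not at hk
    rw [wgc_zero e b hk, wgc_zero e b]
    · unfold cj
      ext j
      simp
    · intro l hl
      apply hk (-l)
      rw [neg_smul, ← hl, neg_neg]

theorem wg_dot (l : ℤ) (n : K) (x : V) : dot (l • n) x = l * dot n x := by
  unfold dot
  rw [Finset.mul_sum]
  refine Finset.sum_congr rfl fun i _ => ?_
  simp only [Pi.smul_apply, smul_eq_mul]
  push_cast
  ring

theorem wg_pointwise {n : K} (hn : n ≠ 0) (e : V) {b : ℕ → ℝ} (h0 : b 0 = 0)
    (hb : Summable fun l : ℕ => |b l|) (x : V) (j : Fin 3) :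
    (∑' k : K, wgc n e b k j * Complex.exp (Complex.I * (dot k x : ℂ))).re
      = (∑' m : ℕ, 2 * b m * Real.sin (m * dot n x)) * e j := by
  set φ : ℝ := dot n x with hφ
  set f : ℤ → ℂ := fun l => wgc n e b (l • n) j * Complex.exp (Complex.I * (dot (l • n) x : ℂ))
    with hf
  have hf' : ∀ l : ℤ, f l = (-Complex.I * ((sgr l * b l.natAbs : ℝ) : ℂ)) * (e j : ℂ)
      * Complex.exp (Complex.I * ((l * φ : ℝ) : ℂ)) := by
    intro l
    simp only [hf]
    rw [wgc_smul hn, wg_dot]
    rfl
  have h1 : (∑' k : K, wgc n e b k j * Complex.exp (Complex.I * (dot k x : ℂ))) = ∑' l : ℤ, f l := by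
    refine ((wg_inj hn).tsum_eq (f := fun k : K => wgc n e b k j
      * Complex.exp (Complex.I * (dot k x : ℂ))) ?_).symm
    intro k hk
    by_contra hcon
    apply hk
    have : wgc n e b k = 0 := wgc_not_range e b hcon
    simp [this]
  have hsum : Summable f := by
    have hs : Summable fun l : ℤ => |b l.natAbs| * |e j| := by
      apply Summable.mul_right
      apply Summable.of_nat_of_neg
      · simpa using hb
      · simpa using hb
    refine Summable.of_norm_bounded hs fun l => ?_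
    rw [hf' l, norm_mul, norm_mul, norm_mul, norm_neg, Complex.norm_I, one_mul, Complex.norm_real,
      Complex.norm_real, Real.norm_eq_abs, Real.norm_eq_abs, abs_mul, mul_comm Complex.I,
      Complex.norm_exp_ofReal_mul_I, mul_one]
    have h1 := wg_sgr_le l
    have h2 := abs_nonneg (b l.natAbs)
    have h3 := abs_nonneg (e j)
    nlinarith [mul_le_mul_of_nonneg_right h1 h2, mul_nonneg h2 h3]
  have h2 := hsum.hasSum.nat_add_neg
  have hf0 : f 0 = 0 := by
    rw [hf' 0]
    simp [sgr]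
  rw [hf0, add_zero] at h2
  have h3 : (fun m : ℕ => f m + f (-(m : ℤ)))
      = fun m : ℕ => (((2 * b m * Real.sin (m * φ)) * e j : ℝ) : ℂ) := by
    funext m
    rcases Nat.eq_zero_or_pos m with hm | hm
    · subst hm
      simp [hf0, h0]
    · rw [hf', hf']
      have hs1 : sgr (m : ℤ) = 1 := by
        unfold sgr
        rw [Int.sign_eq_one_of_pos (by exact_mod_cast hm)]
        norm_num
      rw [wg_sgr_neg, hs1, Int.natAbs_neg, Int.natAbs_natCast]
      have hsin : Complex.exp (Complex.I * (((m : ℤ) * φ : ℝ) : ℂ))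
          - Complex.exp (Complex.I * (((-(m : ℤ) : ℤ) * φ : ℝ) : ℂ))
          = 2 * Complex.I * Complex.sin ((m * φ : ℝ) : ℂ) := by
        rw [mul_comm Complex.I, mul_comm Complex.I, Complex.exp_mul_I, Complex.exp_mul_I]
        push_cast
        rw [neg_mul, Complex.cos_neg, Complex.sin_neg]
        ring
      have hI : Complex.I * Complex.I = -1 := Complex.I_mul_I
      rw [show (-Complex.I * ((1 * b m : ℝ) : ℂ)) * (e j : ℂ)
            * Complex.exp (Complex.I * (((m : ℤ) * φ : ℝ) : ℂ))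
          + (-Complex.I * ((-1 * b m : ℝ) : ℂ)) * (e j : ℂ)
            * Complex.exp (Complex.I * (((-(m : ℤ) : ℤ) * φ : ℝ) : ℂ))
          = -Complex.I * (b m : ℂ) * (e j : ℂ)
            * (Complex.exp (Complex.I * (((m : ℤ) * φ : ℝ) : ℂ))
              - Complex.exp (Complex.I * (((-(m : ℤ) : ℤ) * φ : ℝ) : ℂ))) by push_cast; ring, hsin]
      push_cast
      linear_combination (-(2 * (b m : ℂ) * (e j : ℂ) * Complex.sin (m * φ))) * hI
  rw [h3] at h2
  rw [h1, ← h2.tsum_eq, ← Complex.ofReal_tsum, Complex.ofReal_re, tsum_mul_right]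

/-- TARGET -/
theorem coeff_series {n : K} (hn : n ≠ 0) (e : V) {b : ℕ → ℝ} (h0 : b 0 = 0)
    (hb : Summable fun l : ℕ => |b l|) :
    (∀ l : ℤ, coeff (fun x => (∑' j : ℕ, 2 * b j * Real.sin (j * dot n x)) • e) (l • n)
      = (-Complex.I * ((sgr l * b l.natAbs : ℝ) : ℂ)) • vW e) ∧
    ∀ k : K, (∀ l : ℤ, k ≠ l • n) →
      coeff (fun x => (∑' j : ℕ, 2 * b j * Real.sin (j * dot n x)) • e) k = 0 := by
  have key : ∀ k : K, coeff (fun x => (∑' j : ℕ, 2 * b j * Real.sin (j * dot n x)) • e) k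
      = wgc n e b k := by
    intro k
    rw [← series_coeff (wgc_summable hn e hb) (wgc_neg hn e b) k]
    congr 1
    funext x j
    rw [wg_pointwise hn e h0 hb x j]
    rfl
  refine ⟨fun l => ?_, fun k hk => ?_⟩
  · rw [key, wgc_smul hn]
  · rw [key, wgc_zero e b hk]

end H706T.JWG

namespace H706T

alias coeff_series := JWG.coeff_series

end H706T
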