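import Pool.Agent.Helper706_TE.Defs4
import Pool.Agent.Helper706_TE.SC
import Pool.Agent.Helper706_TE.WG

set_option autoImplicit false
open Set Filter Topology MeasureTheory
open scoped ComplexConjugate ContDiff

namespace H706T.JC1

/-- Auxiliary. One-dimensional change of variables for a periodic function. -/
theorem int_one {F : ℝ → ℂ} (hF : Continuous F) (pF : ∀ φ, F (φ + 2 * Real.pi) = F φ) {m : ℤ}
    (hm : m ≠ 0) (c : ℝ) :
    ∫ t in (-Real.pi)..Real.pi, F ((m : ℝ) * t + c) = ∫ t in (-Real.pi)..Real.pi, F t := by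
  have hmr : (m : ℝ) ≠ 0 := by exact_mod_cast hm
  rw [intervalIntegral.integral_comp_mul_add F hmr c]
  have hp : Function.Periodic F (2 * Real.pi) := pF
  have h1 : (m : ℝ) * Real.pi + c = ((m : ℝ) * -Real.pi + c) + m • (2 * Real.pi) := by
    rw [zsmul_eq_mul]; ring
  rw [h1, hp.intervalIntegral_add_zsmul_eq m _ (fun _ _ => hF.intervalIntegrable _ _)]
  have h2 : ∫ x in (0 : ℝ)..(2 * Real.pi), F x = ∫ t in (-Real.pi)..Real.pi, F t := by
    have := hp.intervalIntegral_add_eq 0 (-Real.pi)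
    rw [zero_add] at this
    rw [this]; congr 1; ring
  have h3 : ∫ x in (m : ℝ) * -Real.pi + c..(m : ℝ) * -Real.pi + c + 2 * Real.pi, F x
      = ∫ t in (-Real.pi)..Real.pi, F t := by
    have := hp.intervalIntegral_add_eq ((m : ℝ) * -Real.pi + c) (-Real.pi)
    rw [this]; congr 1; ring
  first
    | rw [h2]
    | rw [h3]
  rw [← Int.cast_smul_eq_zsmul ℝ, smul_smul, inv_mul_cancel₀ hmr, one_smul]

theorem dot_split (n : K) (i : Fin 3) (t : ℝ) (y : Fin 2 → ℝ) :
    dot n (Fin.insertNth i t y) = (n i : ℝ) * t + ∑ j, (n (i.succAbove j) : ℝ) * y j := by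
  unfold dot
  rw [Fin.sum_univ_succAbove _ i]
  simp

theorem int_torus {F : ℝ → ℂ} (hF : Continuous F) (pF : ∀ φ, F (φ + 2 * Real.pi) = F φ) {n : K}
    (hn : n ≠ 0) :
    ∫ x in torus, F (dot n x) = (2 * Real.pi) ^ 2 * ∫ t in (-Real.pi)..Real.pi, F t := by
  obtain ⟨i, hi⟩ : ∃ i, n i ≠ 0 := by
    by_contra h
    push Not at h
    exact hn (funext h)
  have hpi : -Real.pi ≤ Real.pi := by linarith [Real.pi_pos]
  set e := MeasurableEquiv.piFinSuccAbove (fun _ : Fin 3 => ℝ) i with he
  have hmp : MeasurePreserving e.symm (volume.prod volume) volume :=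
    (volume_preserving_piFinSuccAbove (fun _ : Fin 3 => ℝ) i).symm e
  set T2 : Set (Fin 2 → ℝ) := Icc (fun _ => -Real.pi) (fun _ => Real.pi) with hT2
  have hpre : e.symm ⁻¹' torus = Icc (-Real.pi) Real.pi ×ˢ T2 := by
    ext ⟨t, y⟩
    simp only [mem_preimage, mem_prod, torus, hT2]
    have hsy : e.symm (t, y) = Fin.insertNth i t y := rfl
    rw [hsy]
    simp only [mem_Icc, Pi.le_def]
    constructor
    · rintro ⟨h1, h2⟩
      have a1 := h1 i
      have a2 := h2 i
      rw [Fin.insertNth_apply_same] at a1 a2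
      refine ⟨⟨a1, a2⟩, fun j => ?_, fun j => ?_⟩
      · have := h1 (i.succAbove j); rwa [Fin.insertNth_apply_succAbove] at this
      · have := h2 (i.succAbove j); rwa [Fin.insertNth_apply_succAbove] at this
    · rintro ⟨⟨a1, a2⟩, b1, b2⟩
      refine ⟨fun k => ?_, fun k => ?_⟩
      · rcases Fin.eq_self_or_eq_succAbove i k with rfl | ⟨j, rfl⟩
        · rwa [Fin.insertNth_apply_same]
        · rw [Fin.insertNth_apply_succAbove]; exact b1 j
      · rcases Fin.eq_self_or_eq_succAbove i k with rfl | ⟨j, rfl⟩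
        · rwa [Fin.insertNth_apply_same]
        · rw [Fin.insertNth_apply_succAbove]; exact b2 j
  have hcont : Continuous fun x : V => F (dot n x) := by
    apply hF.comp
    unfold dot
    fun_prop
  rw [← hmp.setIntegral_preimage_emb e.symm.measurableEmbedding, hpre]
  have hsy : ∀ z : ℝ × (Fin 2 → ℝ), F (dot n (e.symm z))
      = F ((n i : ℝ) * z.1 + ∑ j, (n (i.succAbove j) : ℝ) * z.2 j) := by
    rintro ⟨t, y⟩
    have : e.symm (t, y) = Fin.insertNth i t y := rfl
    rw [this, dot_split]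
  simp_rw [hsy]
  have hG : Continuous fun z : ℝ × (Fin 2 → ℝ) =>
      F ((n i : ℝ) * z.1 + ∑ j, (n (i.succAbove j) : ℝ) * z.2 j) := by
    apply hF.comp
    fun_prop
  have hint : IntegrableOn (fun z : ℝ × (Fin 2 → ℝ) =>
      F ((n i : ℝ) * z.1 + ∑ j, (n (i.succAbove j) : ℝ) * z.2 j))
      (Icc (-Real.pi) Real.pi ×ˢ T2) (volume.prod volume) := by
    apply hG.continuousOn.integrableOn_compact
    exact isCompact_Icc.prod isCompact_Icc
  rw [← Measure.prod_restrict]
  rw [IntegrableOn, ← Measure.prod_restrict] at hint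
  rw [integral_prod_symm _ hint]
  have hin : ∀ y : Fin 2 → ℝ, ∫ t in Icc (-Real.pi) Real.pi,
      F ((n i : ℝ) * t + ∑ j, (n (i.succAbove j) : ℝ) * y j)
        = ∫ t in (-Real.pi)..Real.pi, F t := by
    intro y
    rw [integral_Icc_eq_integral_Ioc, ← intervalIntegral.integral_of_le hpi]
    exact int_one hF pF hi _
  simp only [hin]
  rw [setIntegral_const]
  have hvol : (volume : Measure (Fin 2 → ℝ)).real T2 = (2 * Real.pi) ^ 2 := by
    rw [Measure.real, hT2, Real.volume_Icc_pi]
    simp only [sub_neg_eq_add, Finset.prod_const, Finset.card_univ, Fintype.card_fin]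
    rw [ENNReal.toReal_pow, ENNReal.toReal_ofReal (by linarith [Real.pi_pos])]
    ring
  rw [hvol]
  rw [Complex.real_smul]
  push_cast
  ring

/-- TARGET -/
theorem coeff_shear {n : K} (hn : n ≠ 0) (e : V) {g : ℝ → ℝ} (hg : ContDiff ℝ 1 g)
    (pg : ∀ φ, g (φ + 2 * Real.pi) = g φ) (og : ∀ φ, g (-φ) = -g φ) (l : ℤ) :
    coeff (fun x => g (dot n x) • e) (l • n)
      = (-Complex.I * (((1 / Real.pi) * ∫ φ in (0 : ℝ)..Real.pi, g φ * Real.sin (l * φ) : ℝ) : ℂ)) • vW e := by
  have hgc : Continuous g := hg.continuous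
  set F : ℝ → ℂ := fun φ => (g φ : ℂ) * Complex.exp (-Complex.I * ((l : ℝ) * φ : ℝ)) with hF
  have hFc : Continuous F := by
    rw [hF]; fun_prop
  have pF : ∀ φ, F (φ + 2 * Real.pi) = F φ := by
    intro φ
    simp only [hF, pg]
    congr 1
    rw [Complex.exp_eq_exp_iff_exists_int]
    refine ⟨-l, ?_⟩
    push_cast
    ring
  have hdot : ∀ x : V, dot (l • n) x = (l : ℝ) * dot n x := by
    intro x
    unfold dot
    rw [Finset.mul_sum]
    refine Finset.sum_congr rfl fun i _ => ?_
    simp only [Pi.smul_apply, smul_eq_mul]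
    push_cast
    ring
  have hsym : ∫ t in (-Real.pi)..Real.pi, F t
      = -2 * Complex.I * ((∫ φ in (0 : ℝ)..Real.pi, g φ * Real.sin (l * φ) : ℝ) : ℂ) := by
    rw [← intervalIntegral.integral_add_adjacent_intervals (hFc.intervalIntegrable (-Real.pi) 0)
      (hFc.intervalIntegrable 0 Real.pi)]
    have h1 : ∫ t in (-Real.pi)..0, F t = ∫ t in (0 : ℝ)..Real.pi, F (-t) := by
      rw [intervalIntegral.integral_comp_neg]; simp
    have hFn : Continuous fun t => F (-t) := hFc.comp continuous_neg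
    rw [h1, ← intervalIntegral.integral_add (hFn.intervalIntegrable 0 Real.pi)
      (hFc.intervalIntegrable 0 Real.pi)]
    rw [← intervalIntegral.integral_ofReal, ← intervalIntegral.integral_const_mul]
    refine intervalIntegral.integral_congr fun t _ => ?_
    simp only [hF, og]
    have e1 : Complex.exp (-Complex.I * ((l : ℝ) * -t : ℝ))
        = Complex.cos (l * t) + Complex.sin (l * t) * Complex.I := by
      rw [← Complex.exp_mul_I]; congr 1; push_cast; ring
    have e2 : Complex.exp (-Complex.I * ((l : ℝ) * t : ℝ))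
        = Complex.cos (l * t) - Complex.sin (l * t) * Complex.I := by
      have : -Complex.I * ((l : ℝ) * t : ℝ) = (-(l * t : ℂ)) * Complex.I := by push_cast; ring
      rw [this, Complex.exp_mul_I, Complex.cos_neg, Complex.sin_neg]; ring
    rw [e1, e2]
    push_cast
    ring
  have hpi : (Real.pi : ℂ) ≠ 0 := by exact_mod_cast Real.pi_ne_zero
  ext i
  have hci : coeff (fun x => g (dot n x) • e) (l • n) i
      = (∫ x in torus, ((g (dot n x) • e) i : ℂ) * Complex.exp (-Complex.I * (dot (l • n) x : ℂ)))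
        / (2 * Real.pi) ^ 3 := rfl
  have hvi : ((-Complex.I * (((1 / Real.pi) * ∫ φ in (0 : ℝ)..Real.pi, g φ * Real.sin (l * φ) : ℝ) : ℂ))
      • vW e) i = (-Complex.I * (((1 / Real.pi) * ∫ φ in (0 : ℝ)..Real.pi, g φ * Real.sin (l * φ) : ℝ) : ℂ))
        * (e i : ℂ) := rfl
  rw [hci, hvi]
  have hI : ∫ x in torus, ((g (dot n x) • e) i : ℂ) * Complex.exp (-Complex.I * (dot (l • n) x : ℂ))
      = (e i : ℂ) * ∫ x in torus, F (dot n x) := by
    rw [← integral_const_mul]
    refine integral_congr_ae (Filter.Eventually.of_forall fun x => ?_)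
    simp only [hF, Pi.smul_apply, smul_eq_mul, hdot]
    push_cast
    ring
  rw [hI, int_torus hFc pF hn, hsym]
  push_cast
  field_simp

end H706T.JC1

namespace H706T

alias coeff_shear := JC1.coeff_shear

end H706T
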