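import Pool.Agent.Helper706_TE.Defs4

set_option autoImplicit false
open Set Filter Topology MeasureTheory
open scoped ComplexConjugate ContDiff

namespace H706T.JC2

/-- The sum of the geometric series of sines. -/
theorem aux_hasSum_sin {x : ℝ} (hx0 : 0 < x) (hx1 : x < 1) (φ : ℝ) :
    HasSum (fun l : ℕ => x ^ l * Real.sin (l * φ))
      (x * Real.sin φ / (1 - 2 * x * Real.cos φ + x ^ 2)) := by
  set z : ℂ := (x : ℂ) * Complex.exp ((φ : ℂ) * Complex.I) with hz
  have hn : ‖z‖ = x := by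
    rw [hz, norm_mul, Complex.norm_exp_ofReal_mul_I, mul_one, Complex.norm_real,
      Real.norm_of_nonneg hx0.le]
  have h1 : HasSum (fun l : ℕ => z ^ l) (1 - z)⁻¹ :=
    hasSum_geometric_of_norm_lt_one (by rw [hn]; exact hx1)
  have h2 := Complex.hasSum_im h1
  have e1 : (fun l : ℕ => (z ^ l).im) = fun l : ℕ => x ^ l * Real.sin (l * φ) := by
    funext l
    have : z ^ l = ((x ^ l : ℝ) : ℂ) * Complex.exp (((l * φ : ℝ) : ℂ) * Complex.I) := by
      rw [hz, mul_pow, ← Complex.exp_nat_mul]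
      push_cast
      congr 2
      ring
    rw [this, Complex.im_ofReal_mul, Complex.exp_ofReal_mul_I_im]
  have zr : z.re = x * Real.cos φ := by
    rw [hz, Complex.re_ofReal_mul, Complex.exp_ofReal_mul_I_re]
  have zi : z.im = x * Real.sin φ := by
    rw [hz, Complex.im_ofReal_mul, Complex.exp_ofReal_mul_I_im]
  have e2 : ((1 - z)⁻¹).im = x * Real.sin φ / (1 - 2 * x * Real.cos φ + x ^ 2) := by
    rw [Complex.inv_im, Complex.normSq_apply, Complex.sub_re, Complex.sub_im, Complex.one_re,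
      Complex.one_im, zr, zi]
    congr 1
    · ring
    · have := Real.sin_sq_add_cos_sq φ
      nlinarith [this]
  rw [e1, e2] at h2
  exact h2

theorem aux_pos {x : ℝ} (hx0 : 0 < x) (hx1 : x < 1) (φ : ℝ) :
    0 < 1 - 2 * x * Real.cos φ + x ^ 2 ∧ 1 - 2 * x * Real.cos φ + x ^ 2 ≤ 4 := by
  have h1 := Real.cos_le_one φ
  have h2 := Real.neg_one_le_cos φ
  constructor
  · nlinarith [mul_pos hx0 (sub_pos.2 hx1), mul_nonneg hx0.le (sub_nonneg.2 h1)]
  · nlinarith [mul_pos hx0 (sub_pos.2 hx1), mul_nonneg hx0.le (by linarith : 0 ≤ Real.cos φ + 1)]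

/-- The generating function of the sine coefficients. -/
theorem aux_gen {g : ℝ → ℝ} (hg : Continuous g) (hpos : ∀ φ ∈ Icc 0 Real.pi, 0 ≤ g φ)
    {x : ℝ} (hx0 : 0 < x) (hx1 : x < 1) :
    ∃ s : ℝ, HasSum (fun l : ℕ => x ^ l * ((1 / Real.pi) *
      ∫ φ in (0 : ℝ)..Real.pi, g φ * Real.sin (l * φ))) s ∧
      x * (1 / 4 * ((1 / Real.pi) * ∫ φ in (0 : ℝ)..Real.pi, g φ * Real.sin φ)) ≤ s := by
  obtain ⟨M, hM⟩ := isCompact_Icc.exists_bound_of_continuousOn (s := Icc (0 : ℝ) Real.pi)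
    hg.continuousOn
  have key : HasSum (fun l : ℕ => ∫ φ in (0 : ℝ)..Real.pi, g φ * (x ^ l * Real.sin (l * φ)))
      (∫ φ in (0 : ℝ)..Real.pi,
        g φ * (x * Real.sin φ / (1 - 2 * x * Real.cos φ + x ^ 2))) := by
    apply intervalIntegral.hasSum_integral_of_dominated_convergence (fun l _ => M * x ^ l)
    · intro n
      exact (by fun_prop : Continuous fun φ => g φ * (x ^ n * Real.sin (n * φ))).aestronglyMeasurable
    · intro n
      refine Filter.Eventually.of_forall fun t ht => ?_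
      rw [uIoc_of_le Real.pi_pos.le] at ht
      have h1 := hM t ⟨ht.1.le, ht.2⟩
      rw [norm_mul]
      refine mul_le_mul h1 ?_ (norm_nonneg _) ((norm_nonneg _).trans h1)
      rw [norm_mul, norm_pow, Real.norm_of_nonneg hx0.le]
      exact mul_le_of_le_one_right (by positivity) (Real.abs_sin_le_one _)
    · refine Filter.Eventually.of_forall fun t _ => ?_
      exact (summable_geometric_of_lt_one hx0.le hx1).mul_left M
    · exact _root_.intervalIntegrable_const
    · refine Filter.Eventually.of_forall fun t _ => ?_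
      exact (aux_hasSum_sin hx0 hx1 t).mul_left (g t)
  refine ⟨(1 / Real.pi) * ∫ φ in (0 : ℝ)..Real.pi,
    g φ * (x * Real.sin φ / (1 - 2 * x * Real.cos φ + x ^ 2)), ?_, ?_⟩
  · have h2 := key.mul_left (1 / Real.pi)
    have e : (fun l : ℕ => x ^ l * ((1 / Real.pi) *
        ∫ φ in (0 : ℝ)..Real.pi, g φ * Real.sin (l * φ)))
        = fun l : ℕ => (1 / Real.pi) *
          ∫ φ in (0 : ℝ)..Real.pi, g φ * (x ^ l * Real.sin (l * φ)) := by
      funext l
      have : ∫ φ in (0 : ℝ)..Real.pi, g φ * (x ^ l * Real.sin (l * φ))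
          = x ^ l * ∫ φ in (0 : ℝ)..Real.pi, g φ * Real.sin (l * φ) := by
        rw [← intervalIntegral.integral_const_mul]
        congr 1
        funext φ
        ring
      rw [this]
      ring
    rw [e]
    exact h2
  · have h3 : ∫ φ in (0 : ℝ)..Real.pi, x / 4 * (g φ * Real.sin φ)
        ≤ ∫ φ in (0 : ℝ)..Real.pi,
          g φ * (x * Real.sin φ / (1 - 2 * x * Real.cos φ + x ^ 2)) := by
      apply intervalIntegral.integral_mono_on Real.pi_pos.le
      · exact (by fun_prop : Continuous fun φ => x / 4 * (g φ * Real.sin φ)).intervalIntegrable _ _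
      · refine Continuous.intervalIntegrable ?_ _ _
        refine hg.mul (Continuous.div (by fun_prop) (by fun_prop) fun φ => ?_)
        exact (aux_pos hx0 hx1 φ).1.ne'
      · intro φ hφ
        have hs := Real.sin_nonneg_of_mem_Icc hφ
        have hgp := hpos φ hφ
        obtain ⟨hd, hd4⟩ := aux_pos hx0 hx1 φ
        have h4 : x * Real.sin φ / 4 ≤ x * Real.sin φ / (1 - 2 * x * Real.cos φ + x ^ 2) := by
          apply div_le_div_of_nonneg_left (by positivity) hd hd4
        calc x / 4 * (g φ * Real.sin φ) = g φ * (x * Real.sin φ / 4) := by ring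
          _ ≤ _ := mul_le_mul_of_nonneg_left h4 hgp
    rw [intervalIntegral.integral_const_mul] at h3
    have h5 : (0 : ℝ) ≤ 1 / Real.pi := by positivity
    calc x * (1 / 4 * ((1 / Real.pi) * ∫ φ in (0 : ℝ)..Real.pi, g φ * Real.sin φ))
        = (1 / Real.pi) * (x / 4 * ∫ φ in (0 : ℝ)..Real.pi, g φ * Real.sin φ) := by ring
      _ ≤ _ := mul_le_mul_of_nonneg_left h3 h5

theorem aux_intble {r : ℝ} (hr : 0 < r) :
    IntegrableOn (fun t : ℝ => t ^ ((1 / 4 : ℝ) - 1) * Real.exp (-(r * t))) (Ioi 0) := by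
  apply Integrable.of_integral_ne_zero
  rw [Real.integral_rpow_mul_exp_neg_mul_Ioi (by norm_num) hr]
  have := Real.Gamma_pos_of_pos (show (0 : ℝ) < 1 / 4 by norm_num)
  positivity

/-- Positivity of the generating function implies positivity of the sum with the weights
`l ^ (-1/4)`. -/
theorem aux_mellin {c : ℕ → ℝ} (hc0 : c 0 = 0) (hc : Summable fun l => |c l|)
    (h : ∀ x : ℝ, 0 < x → x < 1 → 0 ≤ ∑' l : ℕ, x ^ l * c l) :
    0 ≤ ∑' l : ℕ, (l : ℝ) ^ (-(1 / 4) : ℝ) * c l := by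
  have hG := Real.Gamma_pos_of_pos (show (0 : ℝ) < 1 / 4 by norm_num)
  set F : ℕ → ℝ → ℝ := fun l t => t ^ ((1 / 4 : ℝ) - 1) * Real.exp (-((l : ℝ) * t)) * c l with hF
  have hI : ∀ l, Integrable (F l) (volume.restrict (Ioi 0)) := by
    intro l
    rcases Nat.eq_zero_or_pos l with rfl | hl
    · have : F 0 = fun _ => 0 := by funext t; simp [hF, hc0]
      rw [this]
      exact integrable_zero _ _ _
    · exact (aux_intble (r := l) (by exact_mod_cast hl)).mul_const _
  have hval : ∀ l, ∫ t in Ioi 0, F l t = Real.Gamma (1 / 4) * ((l : ℝ) ^ (-(1 / 4) : ℝ) * c l) := by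
    intro l
    rcases Nat.eq_zero_or_pos l with rfl | hl
    · simp [hF, hc0]
    · have hl' : (0 : ℝ) < l := by exact_mod_cast hl
      simp only [hF]
      rw [integral_mul_const, Real.integral_rpow_mul_exp_neg_mul_Ioi (by norm_num) hl',
        one_div, Real.inv_rpow hl'.le, ← Real.rpow_neg hl'.le]
      ring
  have hnorm : ∀ l, ∫ t in Ioi 0, ‖F l t‖
      = Real.Gamma (1 / 4) * ((l : ℝ) ^ (-(1 / 4) : ℝ) * |c l|) := by
    intro l
    rcases Nat.eq_zero_or_pos l with rfl | hl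
    · simp [hF, hc0]
    · have hl' : (0 : ℝ) < l := by exact_mod_cast hl
      have e : ∫ t in Ioi 0, ‖F l t‖
          = ∫ t in Ioi 0, t ^ ((1 / 4 : ℝ) - 1) * Real.exp (-((l : ℝ) * t)) * |c l| := by
        refine setIntegral_congr_fun measurableSet_Ioi fun t ht => ?_
        have ht' : (0 : ℝ) < t := ht
        simp only [hF]
        rw [norm_mul, Real.norm_of_nonneg (by positivity), Real.norm_eq_abs]
      rw [e, integral_mul_const, Real.integral_rpow_mul_exp_neg_mul_Ioi (by norm_num) hl',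
        one_div, Real.inv_rpow hl'.le, ← Real.rpow_neg hl'.le]
      ring
  have hle : ∀ l : ℕ, (l : ℝ) ^ (-(1 / 4) : ℝ) ≤ 1 := by
    intro l
    rcases Nat.eq_zero_or_pos l with rfl | hl
    · rw [Nat.cast_zero, Real.zero_rpow (by norm_num)]
      norm_num
    · exact Real.rpow_le_one_of_one_le_of_nonpos (by exact_mod_cast hl) (by norm_num)
  have hsum : Summable fun l => ∫ t in Ioi 0, ‖F l t‖ := by
    simp only [hnorm]
    refine Summable.mul_left _ (Summable.of_nonneg_of_le (fun l => by positivity) (fun l => ?_) hc)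
    exact mul_le_of_le_one_left (abs_nonneg _) (hle l)
  have key := hasSum_integral_of_summable_integral_norm hI hsum
  simp only [hval] at key
  have h1 : ∑' l : ℕ, Real.Gamma (1 / 4) * ((l : ℝ) ^ (-(1 / 4) : ℝ) * c l)
      = ∫ t in Ioi 0, ∑' l, F l t := key.tsum_eq
  rw [tsum_mul_left] at h1
  have h2 : 0 ≤ ∫ t in Ioi 0, ∑' l, F l t := by
    refine setIntegral_nonneg measurableSet_Ioi fun t ht => ?_
    have ht' : (0 : ℝ) < t := ht
    have e : ∀ l, F l t = t ^ ((1 / 4 : ℝ) - 1) * (Real.exp (-t) ^ l * c l) := by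
      intro l
      simp only [hF]
      rw [← Real.exp_nat_mul, mul_neg]
      ring
    simp only [e]
    rw [tsum_mul_left]
    refine mul_nonneg (by positivity) (h _ (Real.exp_pos _) ?_)
    rw [Real.exp_lt_one_iff]
    linarith
  rw [← h1] at h2
  exact (mul_nonneg_iff_of_pos_left hG).1 h2

/-- TARGET -/
theorem sine_pos {g : ℝ → ℝ} (hg : Continuous g) (hpos : ∀ φ ∈ Icc 0 Real.pi, 0 ≤ g φ)
    (hs : Summable fun l : ℕ => |(1 / Real.pi) * ∫ φ in (0 : ℝ)..Real.pi, g φ * Real.sin (l * φ)|) :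
    1 / 4 * ((1 / Real.pi) * ∫ φ in (0 : ℝ)..Real.pi, g φ * Real.sin φ)
      ≤ ∑' l : ℕ, (l : ℝ) ^ (-(1 / 4) : ℝ)
        * ((1 / Real.pi) * ∫ φ in (0 : ℝ)..Real.pi, g φ * Real.sin (l * φ)) := by
  set β : ℕ → ℝ := fun l => (1 / Real.pi) * ∫ φ in (0 : ℝ)..Real.pi, g φ * Real.sin (l * φ) with hβ
  set B : ℝ := 1 / 4 * ((1 / Real.pi) * ∫ φ in (0 : ℝ)..Real.pi, g φ * Real.sin φ) with hB
  have hβ0 : β 0 = 0 := by simp [hβ]
  set c : ℕ → ℝ := fun l => β l - (if l = 1 then B else 0) with hc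
  have hβs : Summable fun l => |β l| := hs
  have hβs' : Summable β := hβs.of_abs
  have hdelta : ∀ w : ℕ → ℝ, HasSum (fun l : ℕ => w l * (if l = 1 then B else 0)) (w 1 * B) := by
    intro w
    have := hasSum_ite_eq (1 : ℕ) (w 1 * B)
    convert this using 2 with l
    split_ifs with hl
    · rw [hl]
    · rw [mul_zero]
  have hcs : Summable fun l => |c l| := by
    have h1 : Summable c := hβs'.sub (by simpa using (hdelta (fun _ => 1)).summable)
    exact h1.abs
  have hmain : 0 ≤ ∑' l : ℕ, (l : ℝ) ^ (-(1 / 4) : ℝ) * c l := by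
    apply aux_mellin _ hcs
    · intro x hx0 hx1
      obtain ⟨s, hs1, hs2⟩ := aux_gen hg hpos hx0 hx1
      have h3 := hs1.sub (hdelta fun l => x ^ l)
      have h4 : ∑' l : ℕ, x ^ l * c l = s - x ^ 1 * B := by
        rw [← h3.tsum_eq]
        congr 1
        funext l
        simp only [hc, hβ]
        ring
      rw [h4, pow_one]
      have h8 : x * B ≤ s := hs2
      linarith
    · simp [hc, hβ0]
  have hle : ∀ l : ℕ, |(l : ℝ) ^ (-(1 / 4) : ℝ)| ≤ 1 := by
    intro l
    rw [abs_of_nonneg (by positivity)]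
    rcases Nat.eq_zero_or_pos l with rfl | hl
    · rw [Nat.cast_zero, Real.zero_rpow (by norm_num)]
      norm_num
    · exact Real.rpow_le_one_of_one_le_of_nonpos (by exact_mod_cast hl) (by norm_num)
  have hws : Summable fun l : ℕ => (l : ℝ) ^ (-(1 / 4) : ℝ) * β l := by
    refine Summable.of_norm_bounded hβs fun l => ?_
    rw [norm_mul]
    exact mul_le_of_le_one_left (norm_nonneg _) (hle l)
  have h5 : ∑' l : ℕ, (l : ℝ) ^ (-(1 / 4) : ℝ) * c l
      = ∑' l : ℕ, (l : ℝ) ^ (-(1 / 4) : ℝ) * β l - B := by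
    have h6 := hdelta fun l : ℕ => (l : ℝ) ^ (-(1 / 4) : ℝ)
    have h7 := hws.hasSum.sub h6
    rw [← (hws.hasSum.sub h6).tsum_eq.trans (by
      rw [Nat.cast_one, Real.one_rpow, one_mul] : _ = ∑' l : ℕ, (l : ℝ) ^ (-(1 / 4) : ℝ) * β l - B)]
    congr 1
    funext l
    simp only [hc]
    ring
  rw [h5] at hmain
  linarith

end H706T.JC2

namespace H706T

alias sine_pos := JC2.sine_pos

end H706T
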