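import Pool.Agent.Helper706_TE.Defs3

set_option autoImplicit false
open Set Filter Topology MeasureTheory
open scoped ComplexConjugate ContDiff

namespace H706T.JCD

lemma contDot (k : K) : Continuous (dot k) := by
  unfold dot
  fun_prop

lemma isCompact_torus : IsCompact torus := isCompact_Icc

lemma contE (k : K) : Continuous (fun x : V => Complex.exp (-Complex.I * (dot k x : ℂ))) := by
  have h := contDot k
  fun_prop

lemma aux_cont {T : ℝ} {w : ℝ → V → V}
    (hw : ContDiffOn ℝ 1 (fun z : ℝ × V => w z.1 z.2) (Ico 0 T ×ˢ univ)) (k : K) (i : Fin 3) :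
    ContinuousOn (fun t => ∫ x in torus, (w t x i : ℂ) * Complex.exp (-Complex.I * (dot k x : ℂ)))
      (Ico 0 T) := by
  rw [continuousOn_iff_continuous_restrict]
  haveI : LocallyCompactSpace (Ico (0:ℝ) T) := isLocallyClosed_Ico.locallyCompactSpace
  have hc : Continuous (Function.uncurry fun (t : Ico (0:ℝ) T) (x : V) =>
      (w t x i : ℂ) * Complex.exp (-Complex.I * (dot k x : ℂ))) := by
    have h1 : Continuous (fun z : Ico (0:ℝ) T × V => w z.1 z.2) := by
      have h2 := hw.continuousOn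
      refine h2.comp_continuous (f := fun z : Ico (0:ℝ) T × V => ((z.1 : ℝ), z.2)) (by fun_prop) ?_
      intro z
      exact ⟨z.1.2, mem_univ _⟩
    have h3 : Continuous (fun z : Ico (0:ℝ) T × V => w z.1 z.2 i) := (continuous_apply i).comp h1
    have h4 := (contE k).comp (continuous_snd : Continuous (fun z : Ico (0:ℝ) T × V => z.2))
    exact (Complex.continuous_ofReal.comp h3).mul h4
  exact continuous_parametric_integral_of_continuous hc isCompact_torus

lemma aux_slice {T : ℝ} {w : ℝ → V → V}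
    (hw : ContDiffOn ℝ 1 (fun z : ℝ × V => w z.1 z.2) (Ico 0 T ×ˢ univ)) {s : ℝ} (hs : s ∈ Ioo 0 T)
    (x : V) :
    HasDerivAt (fun r => w r x) (fderiv ℝ (fun z : ℝ × V => w z.1 z.2) (s, x) (1, 0)) s := by
  have hnb : (Ico 0 T ×ˢ (univ : Set V)) ∈ 𝓝 (s, x) :=
    prod_mem_nhds (Ico_mem_nhds hs.1 hs.2) univ_mem
  have hd : DifferentiableAt ℝ (fun z : ℝ × V => w z.1 z.2) (s, x) :=
    (hw.contDiffAt hnb).differentiableAt (by norm_num)
  have h1 := hd.hasFDerivAt
  have h2 : HasDerivAt (fun r : ℝ => ((r, x) : ℝ × V)) ((1 : ℝ), (0 : V)) s :=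
    (hasDerivAt_id s).prodMk (hasDerivAt_const s x)
  exact h1.comp_hasDerivAt s h2

lemma aux_deriv {T : ℝ} {w : ℝ → V → V}
    (hw : ContDiffOn ℝ 1 (fun z : ℝ × V => w z.1 z.2) (Ico 0 T ×ˢ univ)) (k : K) (i : Fin 3)
    {t : ℝ} (ht : t ∈ Ioo 0 T) :
    HasDerivAt (fun s => ∫ x in torus, (w s x i : ℂ) * Complex.exp (-Complex.I * (dot k x : ℂ)))
      (∫ x in torus, ((derivWithin (fun s => w s x i) (Ico 0 T) t : ℝ) : ℂ)
        * Complex.exp (-Complex.I * (dot k x : ℂ))) t := by
  set Wf : ℝ × V → V := fun z => w z.1 z.2 with hWf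
  set F' : ℝ → V → ℂ := fun s x => ((fderiv ℝ Wf (s, x) (1, 0) i : ℝ) : ℂ)
    * Complex.exp (-Complex.I * (dot k x : ℂ)) with hF'
  have hcd : ContinuousOn (fun z => fderiv ℝ Wf z) (Ioo 0 T ×ˢ univ) :=
    (hw.mono (prod_mono_left Ioo_subset_Ico_self)).continuousOn_fderiv_of_isOpen
      (isOpen_Ioo.prod isOpen_univ) le_rfl
  have hcF : ContinuousOn (fun z : ℝ × V => F' z.1 z.2) (Ioo 0 T ×ˢ univ) := by
    have h1 : ContinuousOn (fun z => fderiv ℝ Wf z (1, 0)) (Ioo 0 T ×ˢ univ) :=
      hcd.clm_apply continuousOn_const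
    have h2 : ContinuousOn (fun z => fderiv ℝ Wf z (1, 0) i) (Ioo 0 T ×ˢ univ) :=
      (continuous_apply i).comp_continuousOn h1
    have h4 : Continuous (fun z : ℝ × V => Complex.exp (-Complex.I * (dot k z.2 : ℂ))) :=
      (contE k).comp continuous_snd
    exact (Complex.continuous_ofReal.comp_continuousOn h2).mul h4.continuousOn
  -- a compact neighbourhood
  obtain ⟨ε, hε, hball⟩ : ∃ ε > 0, Metric.closedBall t ε ⊆ Ioo 0 T :=
    Metric.nhds_basis_closedBall.mem_iff.1 (Ioo_mem_nhds ht.1 ht.2)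
  have hsub : Metric.closedBall t ε ×ˢ torus ⊆ Ioo 0 T ×ˢ (univ : Set V) :=
    prod_mono hball (subset_univ _)
  obtain ⟨C, hC⟩ := ((isCompact_closedBall t ε).prod isCompact_torus).exists_bound_of_continuousOn
    (hcF.mono hsub)
  have hslice : ∀ s ∈ Ioo 0 T, Continuous (fun x : V => w s x) := by
    intro s hs
    refine hw.continuousOn.comp_continuous (f := fun x : V => (s, x)) (by fun_prop) ?_
    intro x
    exact ⟨Ioo_subset_Ico_self hs, mem_univ _⟩
  have hcont : ∀ s ∈ Ioo 0 T, Continuous (fun x : V => (w s x i : ℂ)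
      * Complex.exp (-Complex.I * (dot k x : ℂ))) := by
    intro s hs
    exact (Complex.continuous_ofReal.comp ((continuous_apply i).comp (hslice s hs))).mul (contE k)
  have hmem : MeasurableSet torus := isCompact_torus.measurableSet
  have key := hasDerivAt_integral_of_dominated_loc_of_deriv_le (μ := volume.restrict torus)
    (𝕜 := ℝ) (s := Metric.closedBall t ε) (x₀ := t) (bound := fun _ => C)
    (F := fun s x => (w s x i : ℂ) * Complex.exp (-Complex.I * (dot k x : ℂ)))
    (F' := F') (Metric.closedBall_mem_nhds t hε)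
    (by
      filter_upwards [Ioo_mem_nhds ht.1 ht.2] with s hs
      exact (hcont s hs).aestronglyMeasurable)
    ((hcont t ht).continuousOn.integrableOn_compact isCompact_torus)
    (by
      have : Continuous (F' t) := by
        refine hcF.comp_continuous (f := fun x : V => (t, x)) (by fun_prop) ?_
        intro x
        exact ⟨ht, mem_univ _⟩
      exact this.aestronglyMeasurable)
    (by
      rw [ae_restrict_iff' hmem]
      refine Eventually.of_forall fun x hx s hs => ?_
      exact hC (s, x) ⟨hs, hx⟩)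
    (integrableOn_const isCompact_torus.measure_ne_top)
    (by
      refine Eventually.of_forall fun x s hs => ?_
      have h1 := aux_slice hw (hball hs) x
      have h2 := (hasDerivAt_pi.1 h1) i
      exact (h2.ofReal_comp).mul_const _)
  have h := key.2
  have heq : ∀ x, ((derivWithin (fun s => w s x i) (Ico 0 T) t : ℝ) : ℂ)
        * Complex.exp (-Complex.I * (dot k x : ℂ)) = F' t x := by
    intro x
    have h1 := aux_slice hw ht x
    have h2 := (hasDerivAt_pi.1 h1) i
    have h3 : derivWithin (fun s => w s x i) (Ico 0 T) t = fderiv ℝ Wf (t, x) (1, 0) i :=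
      h2.hasDerivWithinAt.derivWithin ((uniqueDiffOn_Ico 0 T) t (Ioo_subset_Ico_self ht))
    rw [h3]
  simp_rw [heq]
  exact h

/-- TARGET -/
theorem coeff_deriv {T : ℝ} {w : ℝ → V → V}
    (hw : ContDiffOn ℝ 1 (fun z : ℝ × V => w z.1 z.2) (Ico 0 T ×ˢ univ)) (k : K) :
    ContinuousOn (fun t => coeff (w t) k) (Ico 0 T) ∧ ∀ t ∈ Ioo 0 T,
      HasDerivAt (fun s => coeff (w s) k)
        (coeff (fun x i => derivWithin (fun s => w s x i) (Ico 0 T) t) k) t := by
  constructor
  · have h : ContinuousOn (fun t => (fun i : Fin 3 =>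
        (∫ x in torus, (w t x i : ℂ) * Complex.exp (-Complex.I * (dot k x : ℂ)))
          / (2 * Real.pi) ^ 3 : Fin 3 → ℂ)) (Ico 0 T) := by
      rw [continuousOn_pi]
      intro i
      exact (aux_cont hw k i).div_const _
    exact (PiLp.continuous_toLp 2 (fun _ : Fin 3 => ℂ)).comp_continuousOn h
  · intro t ht
    have h : HasDerivAt (fun s => (fun i : Fin 3 =>
        (∫ x in torus, (w s x i : ℂ) * Complex.exp (-Complex.I * (dot k x : ℂ)))
          / (2 * Real.pi) ^ 3 : Fin 3 → ℂ))
        (fun i : Fin 3 => (∫ x in torus, ((derivWithin (fun s => w s x i) (Ico 0 T) t : ℝ) : ℂ)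
        * Complex.exp (-Complex.I * (dot k x : ℂ))) / (2 * Real.pi) ^ 3) t := by
      rw [hasDerivAt_pi]
      intro i
      exact (aux_deriv hw k i ht).div_const _
    exact ((PiLp.continuousLinearEquiv 2 ℝ (fun _ : Fin 3 => ℂ)).symm.toContinuousLinearMap
      |>.hasFDerivAt).comp_hasDerivAt t h

end H706T.JCD

namespace H706T

alias coeff_deriv := JCD.coeff_deriv

end H706T
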