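import Pool.Agent.Helper706_TE.Defs3
import Pool.Agent.Helper706_TE.CB
import Pool.Agent.Helper706_TE.SC

set_option autoImplicit false
open Set Filter Topology MeasureTheory
open scoped ComplexConjugate ContDiff

namespace H706T.JCP

theorem CP_tsum_apply {ι : Type} {f : ι → W} (hf : Summable f) (i : Fin 3) :
    (∑' z, f z) i = ∑' z, f z i := by
  have h := (EuclideanSpace.proj (𝕜 := ℂ) i).map_tsum hf
  simpa using h

theorem CP_norm_apply_le (a : W) (i : Fin 3) : ‖a i‖ ≤ ‖a‖ := PiLp.norm_apply_le a i

/-- The reindexing `(k, q) ↦ (k - q, q)`. -/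
def CP_e : K × K ≃ K × K where
  toFun z := (z.1 - z.2, z.2)
  invFun z := (z.1 + z.2, z.2)
  left_inv z := by simp
  right_inv z := by simp

theorem CP_cj_tsum {ι : Type} {f : ι → W} (hf : Summable f) :
    cj (∑' z, f z) = ∑' z, cj (f z) := by
  have hcj : ∀ a : W, ∀ j, cj a j = conj (a j) := fun a j => rfl
  have hn : ∀ a : W, ‖cj a‖ = ‖a‖ := by
    intro a
    rw [EuclideanSpace.norm_eq, EuclideanSpace.norm_eq]
    congr 1
    refine Finset.sum_congr rfl fun j _ => ?_
    rw [hcj, RCLike.norm_conj]
  have hs : Summable fun z => cj (f z) := by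
    refine Summable.of_norm ?_
    simp only [hn]
    exact hf.norm
  ext j
  rw [hcj, CP_tsum_apply hf, CP_tsum_apply hs, Complex.conj_tsum]
  rfl

/-- TARGET -/
theorem coeff_op {δ : ℝ} {M : K → K → W → W → W} (h : IsSymbol δ M) {v w : V → V}
    (hs : Summable fun z : K × K => ‖M z.1 z.2 (coeff v z.1) (coeff w z.2)‖) (k : K) :
    coeff (op M v w) k = ∑' q : K, M (k - q) q (coeff v (k - q)) (coeff w q) := by
  set T : K × K → W := fun z => M z.1 z.2 (coeff v z.1) (coeff w z.2) with hT
  have hs1 : Summable fun z : K × K => ‖T (CP_e z)‖ := (CP_e.summable_iff (f := fun z => ‖T z‖)).2 hs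
  have hfac : ∀ k : K, Summable fun q : K => ‖T (k - q, q)‖ := fun k => hs1.prod_factor k
  have hfac' : ∀ k : K, Summable fun q : K => T (k - q, q) := fun k => (hfac k).of_norm
  set c : K → W := fun k => ∑' q : K, T (k - q, q) with hc
  have hcs : Summable fun k => ‖c k‖ := by
    refine Summable.of_nonneg_of_le (fun _ => norm_nonneg _) (fun k => ?_) hs1.prod
    exact norm_tsum_le_tsum_norm (hfac k)
  have hcc : ∀ k, c (-k) = cj (c k) := by
    intro k
    rw [hc]
    simp only
    rw [CP_cj_tsum (hfac' k), ← (Equiv.neg K).tsum_eq (fun q : K => T (-k - q, q))]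
    refine tsum_congr fun q => ?_
    simp only [Equiv.neg_apply, hT]
    rw [← h.real, ← coeff_neg, ← coeff_neg]
    have : -k - -q = -(k - q) := by abel
    rw [this]
  have hop : op M v w = fun (x : V) (j : Fin 3) =>
      (∑' k : K, c k j * Complex.exp (Complex.I * (dot k x : ℂ))).re := by
    funext x j
    unfold op
    congr 1
    have hsum : Summable fun z : K × K =>
        T (CP_e z) j * Complex.exp (Complex.I * (dot ((CP_e z).1 + (CP_e z).2) x : ℂ)) := by
      refine Summable.of_norm_bounded hs1 fun z => ?_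
      rw [norm_mul, mul_comm Complex.I, Complex.norm_exp_ofReal_mul_I, mul_one]
      exact CP_norm_apply_le _ _
    have h1 := CP_e.tsum_eq (fun z : K × K =>
      T z j * Complex.exp (Complex.I * (dot (z.1 + z.2) x : ℂ)))
    have h2 : (∑' z : K × K, M z.1 z.2 (coeff v z.1) (coeff w z.2) j
        * Complex.exp (Complex.I * (dot (z.1 + z.2) x : ℂ)))
        = ∑' z : K × K, T z j * Complex.exp (Complex.I * (dot (z.1 + z.2) x : ℂ)) := rfl
    rw [h2, ← h1, hsum.tsum_prod]
    refine tsum_congr fun k => ?_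
    have h3 : ∀ q : K, T (CP_e (k, q)) j
        * Complex.exp (Complex.I * (dot ((CP_e (k, q)).1 + (CP_e (k, q)).2) x : ℂ))
        = T (k - q, q) j * Complex.exp (Complex.I * (dot k x : ℂ)) := by
      intro q
      simp [CP_e]
    simp only [h3]
    rw [tsum_mul_right, hc]
    simp only
    rw [CP_tsum_apply (hfac' k)]
  rw [hop, series_coeff hcs hcc k]

end H706T.JCP

namespace H706T

alias coeff_op := JCP.coeff_op

end H706T
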