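import Pool.Agent.Helper706_TE.Defs2

set_option autoImplicit false
open Set Filter Topology MeasureTheory
open scoped ComplexConjugate ContDiff

namespace H706T.JIV

theorem iv_pos : (2 * Real.pi : ℝ) ≠ 0 := by positivity

/-- the lattice of the periods -/
noncomputable def iv_b : Module.Basis (Fin 3) ℝ V :=
  (Pi.basisFun ℝ (Fin 3)).unitsSMul (fun _ => Units.mk0 (2 * Real.pi) iv_pos)

theorem iv_b_apply (i : Fin 3) : iv_b i = Pi.single i (2 * Real.pi) := by
  unfold iv_b
  rw [Module.Basis.unitsSMul_apply, Pi.basisFun_apply]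
  funext j
  rw [Units.smul_mk0, Pi.smul_apply]
  by_cases h : j = i
  · subst h
    simp
  · simp [h]

theorem iv_inv {g : V → ℂ} (hg : ∀ (i : Fin 3) (x : V), g (x + Pi.single i (2 * Real.pi)) = g x)
    (l : Submodule.span ℤ (Set.range iv_b)) (x : V) : g (l +ᵥ x) = g x := by
  obtain ⟨l, hl⟩ := l
  change g (l + x) = g x
  rw [add_comm]
  revert x
  have hl' : l ∈ (Submodule.span ℤ (Set.range iv_b)).toAddSubgroup := hl
  rw [Submodule.span_int_eq_addSubgroupClosure] at hl'
  have key : ∀ y ∈ AddSubgroup.closure (Set.range iv_b), ∀ x, g (x + y) = g x := by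
    intro y hy
    induction hy using AddSubgroup.closure_induction with
    | mem z hz =>
      obtain ⟨i, rfl⟩ := hz
      intro x
      rw [iv_b_apply]
      exact hg i x
    | zero => intro x; rw [add_zero]
    | add y z _ _ h1 h2 => intro x; rw [← add_assoc, h2, h1]
    | neg y _ h1 =>
      intro x
      have := h1 (x + -y)
      rw [neg_add_cancel_right] at this
      exact this.symm
  exact key l hl'

open Pointwise in
theorem iv_box {g : V → ℂ} (hg : ∀ (i : Fin 3) (x : V), g (x + Pi.single i (2 * Real.pi)) = g x)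
    (a : V) : ∫ y in torus, g (y + a) = ∫ y in torus, g y := by
  set D : Set V := ZSpan.fundamentalDomain iv_b with hD
  have hF : IsAddFundamentalDomain (Submodule.span ℤ (Set.range iv_b)) D volume :=
    ZSpan.isAddFundamentalDomain iv_b volume
  set c : V := fun _ => -Real.pi with hc
  have hF1 : IsAddFundamentalDomain (Submodule.span ℤ (Set.range iv_b)) (c +ᵥ D) volume :=
    hF.vadd_of_comm c
  have hF2 : IsAddFundamentalDomain (Submodule.span ℤ (Set.range iv_b)) (a +ᵥ (c +ᵥ D)) volume :=
    hF1.vadd_of_comm a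
  have hE : c +ᵥ D = Set.pi univ fun _ : Fin 3 => Ico (-Real.pi) Real.pi := by
    ext x
    rw [Set.mem_vadd_set_iff_neg_vadd_mem, hD, ZSpan.mem_fundamentalDomain, Set.mem_univ_pi]
    refine forall_congr' fun i => ?_
    unfold iv_b
    rw [Module.Basis.repr_unitsSMul, Pi.basisFun_repr]
    have hp : 0 < 2 * Real.pi := by positivity
    have h1 : ((Units.mk0 (2 * Real.pi) iv_pos)⁻¹ • ((-c +ᵥ x : V) i) : ℝ) =
        (x i + Real.pi) / (2 * Real.pi) := by
      rw [Units.smul_def, Units.val_inv_eq_inv_val, Units.val_mk0, hc, vadd_eq_add, Pi.add_apply,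
        Pi.neg_apply, smul_eq_mul]
      field_simp
      ring
    rw [h1, Set.mem_Ico, Set.mem_Ico, div_lt_one hp]
    constructor
    · rintro ⟨h2, h3⟩
      have h4 : 0 ≤ x i + Real.pi := by
        by_contra h5
        push Not at h5
        exact absurd h2 (not_le.2 (div_neg_of_neg_of_pos h5 hp))
      constructor <;> linarith
    · rintro ⟨h2, h3⟩
      exact ⟨div_nonneg (by linarith) hp.le, by linarith⟩
  have hI : (c +ᵥ D : Set V) =ᵐ[volume] torus := by
    rw [hE, volume_pi]
    exact Measure.univ_pi_Ico_ae_eq_Icc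
  haveI : VAddInvariantMeasure (Submodule.span ℤ (Set.range iv_b)) V volume :=
    ⟨fun l s _ => measure_preimage_add volume (l : V) s⟩
  haveI : MeasurableConstVAdd (Submodule.span ℤ (Set.range iv_b)) V :=
    ⟨fun l => measurable_const_add (l : V)⟩
  rw [← setIntegral_congr_set hI, ← setIntegral_congr_set hI]
  rw [hF1.setIntegral_eq hF2 (iv_inv hg)]
  have h5 := (measurePreserving_add_right volume a).setIntegral_preimage_emb
    (measurableEmbedding_addRight a) g (a +ᵥ (c +ᵥ D))
  rw [← h5]
  have h6 : (fun x => x + a) ⁻¹' (a +ᵥ (c +ᵥ D) : Set V) = c +ᵥ D := by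
    ext x
    rw [Set.mem_preimage, Set.mem_vadd_set_iff_neg_vadd_mem, vadd_eq_add, add_comm x a,
      neg_add_cancel_left]
  rw [h6]

theorem iv_dot_add (k : K) (x y : V) : dot k (x + y) = dot k x + dot k y := by
  unfold dot
  rw [← Finset.sum_add_distrib]
  refine Finset.sum_congr rfl fun i _ => ?_
  rw [Pi.add_apply, mul_add]

theorem iv_dot_add' (k l : K) (x : V) : dot (k + l) x = dot k x + dot l x := by
  unfold dot
  rw [← Finset.sum_add_distrib]
  refine Finset.sum_congr rfl fun i _ => ?_
  rw [Pi.add_apply]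
  push_cast
  ring

theorem iv_dot_single (k : K) (i : Fin 3) (t : ℝ) : dot k (Pi.single i t) = k i * t := by
  unfold dot
  rw [Finset.sum_eq_single i]
  · rw [Pi.single_eq_same]
  · intro j _ hj
    rw [Pi.single_eq_of_ne hj, mul_zero]
  · intro h
    exact absurd (Finset.mem_univ i) h

/-- TARGET -/
theorem coeff_translate {v : V → V} (hv : Continuous v) (pv : Periodic3 v) (a : V) (k : K) :
    coeff (fun y => v (y + a)) k = Complex.exp (Complex.I * (dot k a : ℂ)) • coeff v k := by
  unfold coeff
  rw [← WithLp.toLp_smul]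
  congr 1
  funext i
  rw [Pi.smul_apply, smul_eq_mul, ← mul_div_assoc]
  congr 1
  set G : V → ℂ := fun x => (v x i : ℂ) * Complex.exp (-Complex.I * (dot k x : ℂ)) with hG
  have hper : ∀ (j : Fin 3) (x : V), G (x + Pi.single j (2 * Real.pi)) = G x := by
    intro j x
    rw [hG]
    simp only
    rw [pv j x, iv_dot_add, iv_dot_single]
    congr 1
    rw [Complex.exp_eq_exp_iff_exists_int]
    refine ⟨-(k j), ?_⟩
    push_cast
    ring
  have h1 := iv_box hper a
  change _ = _ * ∫ x in torus, G x
  rw [← h1, ← integral_const_mul]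
  congr 1
  funext x
  rw [hG]
  simp only
  rw [iv_dot_add, mul_left_comm, ← Complex.exp_add]
  congr 2
  push_cast
  ring

/-- TARGET -/
theorem op_translate {δ : ℝ} {M : K → K → W → W → W} (h : IsSymbol δ M) {v w : V → V}
    (hv : Continuous v) (pv : Periodic3 v) (hw : Continuous w) (pw : Periodic3 w) (a x : V) :
    op M (fun y => v (y + a)) (fun y => w (y + a)) x = op M v w (x + a) := by
  have z1 : ∀ p q b, M p q 0 b = 0 := by
    intro p q b
    have := h.lin₁ p q 1 0 0 b
    rw [smul_zero, add_zero, one_smul] at this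
    exact left_eq_add.1 this
  have z2 : ∀ p q b, M p q b 0 = 0 := by
    intro p q b
    have := h.lin₂ p q 1 b 0 0
    rw [smul_zero, add_zero, one_smul] at this
    exact left_eq_add.1 this
  have s1 : ∀ p q (c : ℂ) b b', M p q (c • b) b' = c • M p q b b' := by
    intro p q c b b'
    have := h.lin₁ p q c 0 b b'
    rwa [zero_add, z1, zero_add] at this
  have s2 : ∀ p q (c : ℂ) b b', M p q b (c • b') = c • M p q b b' := by
    intro p q c b b'
    have := h.lin₂ p q c b 0 b'
    rwa [zero_add, z2, zero_add] at this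
  funext i
  unfold op
  congr 1
  refine tsum_congr fun z => ?_
  rw [coeff_translate hv pv, coeff_translate hw pw, s1, s2, iv_dot_add]
  rw [PiLp.smul_apply, PiLp.smul_apply, smul_eq_mul, smul_eq_mul, iv_dot_add' z.1 z.2 a]
  have h1 : Complex.exp (Complex.I * ((dot (z.1 + z.2) x + (dot z.1 a + dot z.2 a) : ℝ) : ℂ)) =
      Complex.exp (Complex.I * (dot z.1 a : ℂ)) * Complex.exp (Complex.I * (dot z.2 a : ℂ)) *
        Complex.exp (Complex.I * (dot (z.1 + z.2) x : ℂ)) := by
    rw [← Complex.exp_add, ← Complex.exp_add]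
    congr 1
    push_cast
    ring
  rw [h1]
  ring

end H706T.JIV

namespace H706T

alias coeff_translate := JIV.coeff_translate
alias op_translate := JIV.op_translate

end H706T
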