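import Pool.Agent.Helper706_TE.Defs3
import Pool.Agent.Helper706_TE.IV
import Pool.Agent.Helper706_TE.CB

set_option autoImplicit false
open Set Filter Topology MeasureTheory
open scoped ComplexConjugate ContDiff

namespace H706T.JCS

theorem dot_add_right (k : K) (x y : V) : dot k (x + y) = dot k x + dot k y := by
  simp only [dot, Pi.add_apply, mul_add, Finset.sum_add_distrib]

theorem coeff_supp_aux {v : V → V} (hv : Continuous v) (pv : Periodic3 v) {n : K}
    (hinv : ∀ a : V, (∃ m : ℤ, dot n a = 2 * Real.pi * m) → ∀ x, v (x + a) = v x) (k : K)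
    (a : V) (ha : ∃ m : ℤ, dot n a = 2 * Real.pi * m)
    (hne : Complex.exp (Complex.I * (dot k a : ℂ)) ≠ 1) : coeff v k = 0 := by
  have h1 := coeff_translate hv pv a k
  have h2 : (fun y => v (y + a)) = v := funext (fun y => hinv a ha y)
  rw [h2] at h1
  have h3 : (1 - Complex.exp (Complex.I * (dot k a : ℂ))) • coeff v k = 0 := by
    rw [sub_smul, one_smul, ← h1, sub_self]
  rcases smul_eq_zero.1 h3 with h | h
  · exact absurd (sub_eq_zero.1 h).symm hne
  · exact h

theorem exp_pi_ne_one : Complex.exp (Complex.I * ((Real.pi : ℝ) : ℂ)) ≠ 1 := by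
  rw [mul_comm, Complex.exp_pi_mul_I]
  norm_num

/-- TARGET -/
theorem coeff_supp {v : V → V} (hv : Continuous v) (pv : Periodic3 v) {n : K}
    (hinv : ∀ a : V, (∃ m : ℤ, dot n a = 2 * Real.pi * m) → ∀ x, v (x + a) = v x) (k : K)
    (hk : ∀ l : ℤ, k ≠ l • n) : coeff v k = 0 := by
  -- the real scalars
  set N : ℝ := ∑ i, (n i : ℝ) ^ 2 with hN
  set P : ℝ := ∑ i, (k i : ℝ) * (n i : ℝ) with hP
  set Q : ℝ := ∑ i, (k i : ℝ) ^ 2 with hQ
  by_cases hn : n = 0
  · -- n = 0
    have hk0 : k ≠ 0 := by
      have := hk 0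
      simpa using this
    have hQpos : 0 < Q := by
      obtain ⟨i, hi⟩ : ∃ i, k i ≠ 0 := by
        by_contra hcon
        push Not at hcon
        exact hk0 (funext hcon)
      have h1 : (k i : ℝ) ^ 2 ≤ Q :=
        Finset.single_le_sum (f := fun i => (k i : ℝ) ^ 2) (fun j _ => sq_nonneg _) (Finset.mem_univ i)
      have h2 : (0 : ℝ) < (k i : ℝ) ^ 2 := by
        have : (k i : ℝ) ≠ 0 := by exact_mod_cast hi
        positivity
      linarith
    refine coeff_supp_aux hv pv hinv k (fun i => Real.pi / Q * (k i : ℝ)) ⟨0, ?_⟩ ?_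
    · simp [dot, hn]
    · have : dot k (fun i => Real.pi / Q * (k i : ℝ)) = Real.pi := by
        have h1 : dot k (fun i => Real.pi / Q * (k i : ℝ)) = Real.pi / Q * Q := by
          rw [dot, hQ, Finset.mul_sum]
          refine Finset.sum_congr rfl fun i _ => ?_
          ring
        rw [h1]
        field_simp
      rw [this]
      exact exp_pi_ne_one
  · have hNpos : 0 < N := by
      obtain ⟨i, hi⟩ : ∃ i, n i ≠ 0 := by
        by_contra hcon
        push Not at hcon
        exact hn (funext hcon)
      have h1 : (n i : ℝ) ^ 2 ≤ N :=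
        Finset.single_le_sum (f := fun i => (n i : ℝ) ^ 2) (fun j _ => sq_nonneg _) (Finset.mem_univ i)
      have h2 : (0 : ℝ) < (n i : ℝ) ^ 2 := by
        have : (n i : ℝ) ≠ 0 := by exact_mod_cast hi
        positivity
      linarith
    by_cases hpar : ∀ i, N * (k i : ℝ) - P * (n i : ℝ) = 0
    · -- parallel
      refine coeff_supp_aux hv pv hinv k (fun i => 2 * Real.pi / N * (n i : ℝ)) ⟨1, ?_⟩ ?_
      · have h1 : dot n (fun i => 2 * Real.pi / N * (n i : ℝ)) = 2 * Real.pi / N * N := by
          rw [dot, hN, Finset.mul_sum]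
          refine Finset.sum_congr rfl fun i _ => ?_
          ring
        rw [h1]
        push_cast
        field_simp
      · have h1 : dot k (fun i => 2 * Real.pi / N * (n i : ℝ)) = 2 * Real.pi / N * P := by
          rw [dot, hP, Finset.mul_sum]
          refine Finset.sum_congr rfl fun i _ => ?_
          ring
        rw [h1]
        intro hexp
        rw [Complex.exp_eq_one_iff] at hexp
        obtain ⟨l, hl⟩ := hexp
        have h2 : ((2 * Real.pi / N * P : ℝ) : ℂ) = ((l * (2 * Real.pi) : ℝ) : ℂ) := by
          have h3 : Complex.I * ((2 * Real.pi / N * P : ℝ) : ℂ)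
              = Complex.I * ((l * (2 * Real.pi) : ℝ) : ℂ) := by
            rw [hl]
            push_cast
            ring
          exact mul_left_cancel₀ Complex.I_ne_zero h3
        have h3 : 2 * Real.pi / N * P = l * (2 * Real.pi) := by exact_mod_cast h2
        have h4 : P = l * N := by
          have hpi := Real.pi_pos
          field_simp at h3
          nlinarith [h3]
        refine hk l (funext fun i => ?_)
        have h5 := hpar i
        rw [h4] at h5
        have h6 : N * ((k i : ℝ) - l * (n i : ℝ)) = 0 := by linarith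
        have h7 : (k i : ℝ) - l * (n i : ℝ) = 0 := by
          rcases mul_eq_zero.1 h6 with h | h
          · exact absurd h hNpos.ne'
          · exact h
        have h8 : (k i : ℝ) = ((l * n i : ℤ) : ℝ) := by
          push_cast
          linarith
        have h9 : k i = l * n i := by exact_mod_cast h8
        simpa using h9
    · -- not parallel
      push Not at hpar
      obtain ⟨i0, hi0⟩ := hpar
      set R : ℝ := ∑ i, (N * (k i : ℝ) - P * (n i : ℝ)) ^ 2 with hR
      have hRpos : 0 < R := by
        have h1 : (N * (k i0 : ℝ) - P * (n i0 : ℝ)) ^ 2 ≤ R :=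
          Finset.single_le_sum (f := fun i => (N * (k i : ℝ) - P * (n i : ℝ)) ^ 2)
            (fun j _ => sq_nonneg _) (Finset.mem_univ i0)
        have h2 : 0 < (N * (k i0 : ℝ) - P * (n i0 : ℝ)) ^ 2 := by positivity
        linarith
      have hRe : R = N * (N * Q - P * P) := by
        have : R = N ^ 2 * Q - 2 * N * P * P + P ^ 2 * N := by
          rw [hR]
          have e1 : ∀ i, (N * (k i : ℝ) - P * (n i : ℝ)) ^ 2
              = N ^ 2 * (k i : ℝ) ^ 2 - 2 * N * P * ((k i : ℝ) * (n i : ℝ)) + P ^ 2 * (n i : ℝ) ^ 2 := by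
            intro i
            ring
          rw [Finset.sum_congr rfl (fun i _ => e1 i), Finset.sum_add_distrib, Finset.sum_sub_distrib,
            ← Finset.mul_sum, ← Finset.mul_sum, ← Finset.mul_sum]
        rw [this]
        ring
      have hSpos : 0 < N * Q - P * P := by
        rw [hRe] at hRpos
        exact (pos_iff_pos_of_mul_pos hRpos).1 hNpos
      refine coeff_supp_aux hv pv hinv k
        (fun i => Real.pi / (N * Q - P * P) * (N * (k i : ℝ) - P * (n i : ℝ))) ⟨0, ?_⟩ ?_
      · have h1 : dot n (fun i => Real.pi / (N * Q - P * P) * (N * (k i : ℝ) - P * (n i : ℝ)))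
            = Real.pi / (N * Q - P * P) * (N * P - P * N) := by
          have e1 : ∀ i, (n i : ℝ) * (Real.pi / (N * Q - P * P) * (N * (k i : ℝ) - P * (n i : ℝ)))
              = Real.pi / (N * Q - P * P) * N * ((k i : ℝ) * (n i : ℝ))
                - Real.pi / (N * Q - P * P) * P * (n i : ℝ) ^ 2 := by
            intro i
            ring
          rw [dot, Finset.sum_congr rfl (fun i _ => e1 i), Finset.sum_sub_distrib,
            ← Finset.mul_sum, ← Finset.mul_sum]
          ring
        rw [h1]
        push_cast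
        ring
      · have h1 : dot k (fun i => Real.pi / (N * Q - P * P) * (N * (k i : ℝ) - P * (n i : ℝ)))
            = Real.pi / (N * Q - P * P) * (N * Q - P * P) := by
          have e1 : ∀ i, (k i : ℝ) * (Real.pi / (N * Q - P * P) * (N * (k i : ℝ) - P * (n i : ℝ)))
              = Real.pi / (N * Q - P * P) * N * ((k i : ℝ) ^ 2)
                - Real.pi / (N * Q - P * P) * P * ((k i : ℝ) * (n i : ℝ)) := by
            intro i
            ring
          rw [dot, Finset.sum_congr rfl (fun i _ => e1 i), Finset.sum_sub_distrib,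
            ← Finset.mul_sum, ← Finset.mul_sum]
          ring
        have h2 : dot k (fun i => Real.pi / (N * Q - P * P) * (N * (k i : ℝ) - P * (n i : ℝ)))
            = Real.pi := by
          rw [h1]
          exact div_mul_cancel₀ _ hSpos.ne'
        rw [h2]
        exact exp_pi_ne_one

theorem torus_closure : torus ⊆ closure (interior torus) := by
  have h1 : torus = Set.pi univ (fun _ : Fin 3 => Icc (-Real.pi) Real.pi) := by
    rw [torus, ← Set.pi_univ_Icc]
  rw [h1, interior_pi_set finite_univ, closure_pi_set]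
  refine Set.pi_mono fun i _ => ?_
  rw [interior_Icc, closure_Ioo]
  have := Real.pi_pos
  linarith

/-- TARGET -/
theorem eq_zero_of_coeff {v : V → V} (hv : Continuous v) (pv : Periodic3 v)
    (h : ∀ k, coeff v k = 0) (x : V) : v x = 0 := by
  have hpi := Real.pi_pos
  have h1 := coeff_sq0 hv pv
  have h2 : HasSum (fun k => ‖coeff v k‖ ^ 2) 0 := by
    simp only [h, norm_zero]
    simp
  have h3 : ((2 * Real.pi) ^ 3)⁻¹ * ∫ x in torus, ∑ i, v x i ^ 2 = 0 := h1.unique h2
  have h4 : ∫ x in torus, ∑ i, v x i ^ 2 = 0 := by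
    rcases mul_eq_zero.1 h3 with h | h
    · exact absurd h (by positivity)
    · exact h
  have hc : Continuous (fun x : V => ∑ i, v x i ^ 2) :=
    continuous_finsetSum _ fun i _ => ((continuous_apply i).comp hv).pow 2
  have hcomp : IsCompact torus := isCompact_Icc
  have hint : IntegrableOn (fun x : V => ∑ i, v x i ^ 2) torus volume :=
    hc.continuousOn.integrableOn_compact hcomp
  have h5 : (fun x : V => ∑ i, v x i ^ 2) =ᵐ[volume.restrict torus] 0 := by
    refine (integral_eq_zero_iff_of_nonneg (fun x => ?_) hint).1 h4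
    exact Finset.sum_nonneg fun i _ => sq_nonneg _
  have h6 : EqOn (fun x : V => ∑ i, v x i ^ 2) 0 torus :=
    MeasureTheory.Measure.eqOn_of_ae_eq h5 hc.continuousOn continuousOn_const torus_closure
  have h7 : ∀ y ∈ torus, v y = 0 := by
    intro y hy
    have h8 := h6 hy
    simp only [Pi.zero_apply] at h8
    funext i
    have h9 := (Finset.sum_eq_zero_iff_of_nonneg (fun i _ => sq_nonneg (v y i))).1 h8 i (Finset.mem_univ i)
    simpa using h9
  -- the translation
  have hper : ∀ (i : Fin 3) (m : ℤ) (y : V), v (y + m • Pi.single i (2 * Real.pi)) = v y := by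
    intro i m y
    have hp : Function.Periodic v (Pi.single i (2 * Real.pi)) := fun z => pv i z
    exact (hp.zsmul m) y
  have hex : ∀ t : ℝ, ∃ m : ℤ, t + m * (2 * Real.pi) ∈ Icc (-Real.pi) Real.pi := by
    intro t
    refine ⟨-(toIcoDiv (by positivity : (0:ℝ) < 2 * Real.pi) (-Real.pi) t), ?_⟩
    have h8 := sub_toIcoDiv_zsmul_mem_Ico (by positivity : (0:ℝ) < 2 * Real.pi) (-Real.pi) t
    rw [zsmul_eq_mul] at h8
    refine ⟨?_, ?_⟩
    · have := h8.1
      push_cast
      linarith
    · have := h8.2
      push_cast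
      linarith
  choose m hm using fun i => hex (x i)
  have h8 : v x = v (((x + m 0 • Pi.single 0 (2 * Real.pi)) + m 1 • Pi.single 1 (2 * Real.pi))
      + m 2 • Pi.single 2 (2 * Real.pi)) := by
    rw [hper, hper, hper]
  rw [h8]
  apply h7
  rw [torus, Set.mem_Icc]
  have e : ∀ i, (((x + m 0 • Pi.single 0 (2 * Real.pi)) + m 1 • Pi.single 1 (2 * Real.pi))
      + m 2 • Pi.single 2 (2 * Real.pi) : V) i = x i + m i * (2 * Real.pi) := by
    intro i
    fin_cases i <;> simp
  constructor
  · intro i
    rw [e i]
    exact (hm i).1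
  · intro i
    rw [e i]
    exact (hm i).2

end H706T.JCS

namespace H706T

alias coeff_supp := JCS.coeff_supp
alias eq_zero_of_coeff := JCS.eq_zero_of_coeff

end H706T
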