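import Mathlib

/-!
Euler equations on `𝕋³` with an additional bilinear term of order zero: definitions.
-/

set_option autoImplicit false

open MeasureTheory Set
open scoped ComplexConjugate

namespace H706T

/-- The space `ℝ³`. -/
abbrev V := Fin 3 → ℝ

/-- Frequencies. -/
abbrev K := Fin 3 → ℤ

/-- The space `ℂ³` of amplitudes. -/
abbrev W := EuclideanSpace ℂ (Fin 3)

/-- `f` is `2π`-periodic in each of the three coordinates. -/
def Periodic3 {F : Type} (f : V → F) : Prop :=
  ∀ (i : Fin 3) (x : V), f (x + Pi.single i (2 * Real.pi)) = f x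

/-- The torus `𝕋³ = [-π, π]³`. -/
def torus : Set V := Icc (fun _ => -Real.pi) (fun _ => Real.pi)

/-- `k · x`. -/
noncomputable def dot (k : K) (x : V) : ℝ := ∑ i, (k i : ℝ) * x i

/-- The partial derivative `∂ⱼ vᵢ (x)` of the vector field `v`. -/
noncomputable def D (v : V → V) (x : V) (j i : Fin 3) : ℝ := fderiv ℝ v x (Pi.single j 1) i

/-- The vorticity `curl v`. -/
noncomputable def curl (v : V → V) (x : V) : V :=
  ![D v x 1 2 - D v x 2 1, D v x 2 0 - D v x 0 2, D v x 0 1 - D v x 1 0]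

/-- The Fourier coefficient `(2π)⁻³ ∫ v(x) exp(-i k·x) dx` of the vector field `v`. -/
noncomputable def coeff (v : V → V) (k : K) : W :=
  WithLp.toLp 2 fun i =>
    (∫ x in torus, (v x i : ℂ) * Complex.exp (-Complex.I * (dot k x : ℂ))) / (2 * Real.pi) ^ 3

/-- The bilinear Fourier multiplier operator with the symbol `M`: the real part of
`∑ M(p, q)(v̂(p), ŵ(q)) exp(i (p + q)·x)`, the sum being over all pairs `(p, q)` of frequencies. -/
noncomputable def op (M : K → K → W → W → W) (v w : V → V) (x : V) : V := fun i =>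
  (∑' z : K × K, M z.1 z.2 (coeff v z.1) (coeff w z.2) i
    * Complex.exp (Complex.I * (dot (z.1 + z.2) x : ℂ))).re

/-- `(u, p)` is a classical solution for `0 ≤ t < T` of the Euler equations on `𝕋³` with the
additional term `B(u, u)`, where `B` is the operator with the symbol `M`: `u` and `p` are
continuously differentiable in `(t, x)` and `2π`-periodic in `x`, `div u = 0` and
`∂ₜ uᵢ + ∑ⱼ uⱼ ∂ⱼ uᵢ + ∂ᵢ p = B(u, u)ᵢ`. -/
structure IsSolution (M : K → K → W → W → W) (T : ℝ) (u : ℝ → V → V) (p : ℝ → V → ℝ) : Prop where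
  contDiffOn_u : ContDiffOn ℝ 1 (fun z : ℝ × V => u z.1 z.2) (Ico 0 T ×ˢ univ)
  contDiffOn_p : ContDiffOn ℝ 1 (fun z : ℝ × V => p z.1 z.2) (Ico 0 T ×ˢ univ)
  periodic_u : ∀ t ∈ Ico 0 T, Periodic3 (u t)
  periodic_p : ∀ t ∈ Ico 0 T, Periodic3 (p t)
  div_free : ∀ t ∈ Ico 0 T, ∀ x, ∑ i, D (u t) x i i = 0
  momentum : ∀ t ∈ Ico 0 T, ∀ x i, derivWithin (fun s => u s x i) (Ico 0 T) t
    + ∑ j, u t x j * D (u t) x j i + fderiv ℝ (p t) x (Pi.single i 1) = op M (u t) (u t) x i

/-- The isometry `x ↦ (±x_{σ(0)}, ±x_{σ(1)}, ±x_{σ(2)})` with the signs `ε`. -/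
def actV (σ : Equiv.Perm (Fin 3)) (ε : Fin 3 → ℤˣ) (x : V) : V := fun i => ((ε i : ℤ) : ℝ) * x (σ i)

/-- The complex conjugate of a vector. -/
noncomputable def cj (a : W) : W := WithLp.toLp 2 fun j => conj (a j)

/-- `M` is the symbol of a real bilinear operator of order zero with norm at most `δ` into the
divergence-free fields. -/
structure IsSymbol (δ : ℝ) (M : K → K → W → W → W) : Prop where
  lin₁ : ∀ (p q : K) (c : ℂ) (a a' b : W), M p q (a + c • a') b = M p q a b + c • M p q a' b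
  lin₂ : ∀ (p q : K) (c : ℂ) (a b b' : W), M p q a (b + c • b') = M p q a b + c • M p q a b'
  bdd : ∀ p q a b, ‖M p q a b‖ ≤ δ * (‖a‖ * ‖b‖)
  real : ∀ p q a b, M (-p) (-q) (cj a) (cj b) = cj (M p q a b)
  divf : ∀ p q a b, ∑ j, ((p + q) j : ℂ) * M p q a b j = 0

end H706T
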