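import Pool.Agent.Helper706_TE.Defs

/-!
Auxiliary definitions.
-/

set_option autoImplicit false

open MeasureTheory Set
open scoped ComplexConjugate

namespace H706T

/-- The dot product (complex bilinear) of `ℂ³`. -/
noncomputable def dt (a b : W) : ℂ := ∑ j, a j * b j

/-- The vector product in `ℂ³`. -/
noncomputable def crw (a b : W) : W :=
  !₂[a 1 * b 2 - a 2 * b 1, a 2 * b 0 - a 0 * b 2, a 0 * b 1 - a 1 * b 0]

/-- A frequency as an element of `ℂ³`. -/
noncomputable def kW (k : K) : W := WithLp.toLp 2 fun j => (k j : ℂ)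

/-- A real vector as an element of `ℂ³`. -/
noncomputable def vW (e : V) : W := WithLp.toLp 2 fun j => (e j : ℂ)

/-- `i k × a`. -/
noncomputable def cu (k : K) (a : W) : W := Complex.I • crw (kW k) a

/-- `|k|²`. -/
def nq (k : K) : ℝ := ∑ i, (k i : ℝ) ^ 2

/-- `p` and `q` are collinear and not zero. -/
def col (p q : K) : Prop := (∀ i j, p i * q j = p j * q i) ∧ p ≠ 0 ∧ q ≠ 0

/-- The pairs of collinear non-zero frequencies with non-zero sum. -/
def cset : Set (K × K) := {z | col z.1 z.2 ∧ z.1 + z.2 ≠ 0}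

/-- The action of the signed permutations on frequencies. -/
def actK (σ : Equiv.Perm (Fin 3)) (ε : Fin 3 → ℤˣ) (k : K) : K := fun i => (ε i : ℤ) * k (σ i)

/-- The action of the signed permutations on amplitudes. -/
noncomputable def actW (σ : Equiv.Perm (Fin 3)) (ε : Fin 3 → ℤˣ) (a : W) : W :=
  WithLp.toLp 2 fun i => ((ε i : ℤ) : ℂ) * a (σ i)

/-- Further properties of the symbols: conservation of energy and helicity, symmetries. -/
structure Sy2 (N : ℕ) (M : K → K → W → W → W) : Prop where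
  supp : ∀ p q a b, M p q a b ≠ 0 → col p q ∧ p + q ≠ 0 ∧
    (N : ℝ) ^ 2 ≤ nq p ∧ (N : ℝ) ^ 2 ≤ nq q ∧ (N : ℝ) ^ 2 ≤ nq (p + q)
  skew : ∀ p q a b c, dt (M (-p) (p + q) (cj a) c) (cj b) = -conj (dt (M p q a b) (cj c))
  hel : ∀ p q a b c,
    dt (M p q a b + M q p b a) (cu (-(p + q)) c)
      + dt (M q (-(p + q)) b c + M (-(p + q)) q c b) (cu p a)
      + dt (M (-(p + q)) p c a + M p (-(p + q)) a c) (cu q b) = 0
  eqv : ∀ σ ε p q a b,
    M (actK σ ε p) (actK σ ε q) (actW σ ε a) (actW σ ε b) = actW σ ε (M p q a b)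

/-- The sign of an integer as a real number. -/
noncomputable def sgr (l : ℤ) : ℝ := (l.sign : ℝ)

/-- `n` has two non-zero components with different absolute values. -/
def Gen (n : K) : Prop := ∃ i j, n i ≠ 0 ∧ n j ≠ 0 ∧ |n i| ≠ |n j|

/-- The values of the symbol on the multiples of `n`, for the polarization `e`. -/
def Val (κ : ℝ) (M : K → K → W → W → W) (n : K) (e : V) : Prop :=
  ∀ l m : ℤ, l ≠ 0 → m ≠ 0 → l + m ≠ 0 →
    M (l • n) (m • n) (vW e) (vW e) + M (m • n) (l • n) (vW e) (vW e)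
      = (((κ * (if 0 < l * m then 2 * sgr l else sgr (l + m)) : ℝ) : ℂ) * Complex.I) • vW e

/-- The Fourier coefficients of the explicit solution. -/
noncomputable def bb (α c r : ℝ) (l : ℤ) : ℝ := sgr l * (α * c * r ^ (l.natAbs - 1))

/-- The profile of the explicit solution. -/
noncomputable def ff (s φ : ℝ) : ℝ :=
  Real.cos s * Real.sin φ / (1 - 2 * Real.sin s * Real.cos φ + Real.sin s ^ 2)

end H706T
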