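import Pool.Agent.Helper706_TE.Defs2

/-!
Auxiliary definitions for general shear flows.
-/

set_option autoImplicit false

open MeasureTheory Set
open scoped ComplexConjugate

namespace H706T

/-- The reflection in the plane orthogonal to the unit vector `f`. -/
noncomputable def refl (f a : V) : V := fun i => a i - 2 * (∑ j, f j * a j) * f i

/-- The reflection in the plane orthogonal to the real unit vector `f`. -/
noncomputable def reflW (f : V) (a : W) : W := a - (2 * dt (vW f) a) • vW f

/-- Weights on the triads of multiples of one frequency. -/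
structure LW (L : ℤ → ℤ → ℝ) : Prop where
  symm : ∀ l m, L m l = L l m
  neg : ∀ l m, L (-l) (-m) = L l m
  third : ∀ l m, L (-l) (l + m) = L l m
  bdd : ∀ l m, |L l m| ≤ 1

/-- The values of the symbol on the multiples of `n`, for the polarization `e`. -/
def ValL (κ : ℝ) (L : ℤ → ℤ → ℝ) (M : K → K → W → W → W) (n : K) (e : V) : Prop :=
  ∀ l m : ℤ, l ≠ 0 → m ≠ 0 → l + m ≠ 0 →
    M (l • n) (m • n) (vW e) (vW e) + M (m • n) (l • n) (vW e) (vW e)
      = (((κ * L l m * (if 0 < l * m then 2 * sgr l else sgr (l + m)) : ℝ) : ℂ) * Complex.I) • vW e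

end H706T
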