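import Pool.Agent.Helper706_TE.Defs3

/-!
Auxiliary definitions for the symbols of negative order.
-/

set_option autoImplicit false

open MeasureTheory Set
open scoped ComplexConjugate

namespace H706T

/-- The weights on the pairs of positive integers. -/
structure Wt (s : ℝ) (lam : ℕ → ℕ → ℝ) : Prop where
  nonneg : ∀ j m, 0 ≤ lam j m
  symm : ∀ j m, lam j m = lam m j
  bdd : ∀ j m, 0 < j → 0 < m → lam j m ≤ 12 * ((j : ℝ) + m) ^ (-s)
  homog : ∀ c j m, 0 < c → lam (c * j) (c * m) = (c : ℝ) ^ (-s) * lam j m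
  diag : ∀ m, 0 < m → lam m m * (2 * (m : ℝ)) ^ (-(1 / 4) : ℝ) = 1 / 2 * (m : ℝ) ^ (-s - 1 / 4)
  recu : ∀ j m, 0 < m → m < j → 2 * (lam j m * ((j : ℝ) + m) ^ (-(1 / 4) : ℝ))
    - lam (j - m) m * ((j : ℝ) - m) ^ (-(1 / 4) : ℝ)
      = (m : ℝ) ^ (1 / 4 : ℝ) * (j : ℝ) ^ (-(1 / 2) - s)

/-- The quadratic term of the system of the coefficients. -/
noncomputable def qt (L : ℕ → ℕ → ℝ) (b : ℕ → ℝ) (l : ℕ) : ℝ :=
  ∑ m ∈ Finset.Ico 1 l, L (l - m) m * (b (l - m) * b m)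
    - ∑' m : ℕ, L l (m + 1) * (b (m + 1) * b (l + m + 1))

end H706T
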