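import Pool.Agent.Helper706_TE.Defs2

set_option autoImplicit false
open Set Filter Topology MeasureTheory
open scoped ComplexConjugate ContDiff

namespace H706T.JEN

theorem dt_add_EN (x y z : W) : dt (x + y) z = dt x z + dt y z := by
  simp only [dt, PiLp.add_apply, add_mul, Finset.sum_add_distrib]

theorem norm_cj_EN (x : W) : ‖cj x‖ = ‖x‖ := by
  simp only [cj, EuclideanSpace.norm_eq, RCLike.norm_conj]

theorem norm_dt_le_EN (x y : W) : ‖dt x y‖ ≤ ‖x‖ * ‖y‖ := by
  have h1 : dt x y = inner ℂ (cj x) y := by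
    simp only [dt, cj, PiLp.inner_apply, RCLike.inner_apply, RingHomCompTriple.comp_apply,
      RingHom.id_apply]
    exact Finset.sum_congr rfl fun j _ => by simp [mul_comm]
  rw [h1]
  exact (norm_inner_le_norm _ _).trans (by rw [norm_cj_EN])

theorem cj_cu_EN (k : K) (x : W) : cj (cu k x) = cu (-k) (cj x) := by
  ext j
  fin_cases j <;>
  · simp [cj, cu, crw, kW]
    try ring

/-- TARGET -/
theorem tsum_skew {δ : ℝ} {N : ℕ} {M : K → K → W → W → W} (h : IsSymbol δ M) (h2 : Sy2 N M)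
    {a b : K → W} (ha : ∀ k, a (-k) = cj (a k)) (hb : ∀ k, b (-k) = cj (b k))
    (hs : Summable fun z : K × K => ‖M z.1 z.2 (a z.1) (b z.2)‖) {C : ℝ} (hC : ∀ k, ‖b k‖ ≤ C) :
    (∑' z : K × K, dt (M z.1 z.2 (a z.1) (b z.2)) (cj (b (z.1 + z.2)))).re = 0 := by
  set f : K × K → ℂ := fun z => dt (M z.1 z.2 (a z.1) (b z.2)) (cj (b (z.1 + z.2))) with hf
  let σ : K × K ≃ K × K :=
    { toFun := fun z => (-z.1, z.1 + z.2)
      invFun := fun z => (-z.1, z.1 + z.2)
      left_inv := fun z => by ext <;> simp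
      right_inv := fun z => by ext <;> simp }
  have hσ : ∀ z, f (σ z) = -conj (f z) := by
    intro z
    show dt (M (-z.1) (z.1 + z.2) (a (-z.1)) (b (z.1 + z.2))) (cj (b (-z.1 + (z.1 + z.2)))) = _
    rw [ha, neg_add_cancel_left, h2.skew]
  have h1 : ∑' z, f z = -conj (∑' z, f z) := by
    calc ∑' z, f z = ∑' z, f (σ z) := (σ.tsum_eq f).symm
      _ = ∑' z, -conj (f z) := tsum_congr hσ
      _ = -∑' z, conj (f z) := tsum_neg
      _ = -conj (∑' z, f z) := by rw [Complex.conj_tsum]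
  have h3 := congrArg Complex.re h1
  simp only [Complex.neg_re, Complex.conj_re] at h3
  linarith

theorem tsum_six_EN (T : K × K → ℂ) (hsT : Summable T)
    (hz : ∀ p q : K, (T (p, q) + T (q, p)) + (T (q, -(p + q)) + T (-(p + q), q)) +
      (T (-(p + q), p) + T (p, -(p + q))) = 0) : ∑' z, T z = 0 := by
  let e2 : K × K ≃ K × K := Equiv.prodComm K K
  let e3 : K × K ≃ K × K :=
    { toFun := fun z => (z.2, -(z.1 + z.2))
      invFun := fun z => (-(z.1 + z.2), z.1)
      left_inv := fun z => by ext <;> simp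
      right_inv := fun z => by ext <;> simp }
  have t2 : ∑' z : K × K, T (z.2, z.1) = ∑' z, T z := e2.tsum_eq T
  have t3 : ∑' z : K × K, T (z.2, -(z.1 + z.2)) = ∑' z, T z := e3.tsum_eq T
  have t5 : ∑' z : K × K, T (-(z.1 + z.2), z.1) = ∑' z, T z := e3.symm.tsum_eq T
  have t4 : ∑' z : K × K, T (-(z.1 + z.2), z.2) = ∑' z, T z := (e3.trans e2).tsum_eq T
  have t6 : ∑' z : K × K, T (z.1, -(z.1 + z.2)) = ∑' z, T z := (e3.symm.trans e2).tsum_eq T
  have s2 : Summable fun z : K × K => T (z.2, z.1) := (Equiv.summable_iff e2).2 hsT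
  have s3 : Summable fun z : K × K => T (z.2, -(z.1 + z.2)) := (Equiv.summable_iff e3).2 hsT
  have s5 : Summable fun z : K × K => T (-(z.1 + z.2), z.1) := (Equiv.summable_iff e3.symm).2 hsT
  have s4 : Summable fun z : K × K => T (-(z.1 + z.2), z.2) :=
    (Equiv.summable_iff (e3.trans e2)).2 hsT
  have s6 : Summable fun z : K × K => T (z.1, -(z.1 + z.2)) :=
    (Equiv.summable_iff (e3.symm.trans e2)).2 hsT
  have a1 := hsT.tsum_add s2
  have a2 := s3.tsum_add s4
  have a3 := s5.tsum_add s6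
  have a4 := (hsT.add s2).tsum_add (s3.add s4)
  have a5 := ((hsT.add s2).add (s3.add s4)).tsum_add (s5.add s6)
  have hsum : (6 : ℂ) * ∑' z, T z = 0 := by
    have h0 : ∑' z : K × K, (T z + T (z.2, z.1) + (T (z.2, -(z.1 + z.2)) + T (-(z.1 + z.2), z.2)) +
        (T (-(z.1 + z.2), z.1) + T (z.1, -(z.1 + z.2)))) = 0 := by
      rw [← tsum_zero (α := ℂ) (β := K × K)]
      exact tsum_congr fun z => hz z.1 z.2
    rw [a5, a4, a1, a2, a3, t2, t3, t4, t5, t6] at h0
    linear_combination h0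
  simpa using hsum

/-- TARGET -/
theorem tsum_hel {δ : ℝ} {N : ℕ} {M : K → K → W → W → W} (h : IsSymbol δ M) (h2 : Sy2 N M)
    {a : K → W} (ha : ∀ k, a (-k) = cj (a k))
    (hs : Summable fun z : K × K => ‖M z.1 z.2 (a z.1) (a z.2)‖) {C : ℝ}
    (hC : ∀ k, ‖cu k (a k)‖ ≤ C) :
    (∑' z : K × K, dt (M z.1 z.2 (a z.1) (a z.2)) (cj (cu (z.1 + z.2) (a (z.1 + z.2))))).re = 0 := by
  have hT : ∀ z : K × K, dt (M z.1 z.2 (a z.1) (a z.2)) (cj (cu (z.1 + z.2) (a (z.1 + z.2)))) =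
      dt (M z.1 z.2 (a z.1) (a z.2)) (cu (-(z.1 + z.2)) (a (-(z.1 + z.2)))) := by
    intro z
    rw [cj_cu_EN, ha]
  rw [tsum_congr hT]
  have hsT : Summable fun z : K × K =>
      dt (M z.1 z.2 (a z.1) (a z.2)) (cu (-(z.1 + z.2)) (a (-(z.1 + z.2)))) := by
    refine Summable.of_norm_bounded (hs.mul_right C) fun z => ?_
    exact (norm_dt_le_EN _ _).trans (mul_le_mul_of_nonneg_left (hC _) (norm_nonneg _))
  rw [tsum_six_EN _ hsT ?_, Complex.zero_re]
  intro p q
  have key := h2.hel p q (a p) (a q) (a (-(p + q)))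
  have r1 : -(q + p) = -(p + q) := by rw [add_comm]
  have r2 : -(q + -(p + q)) = p := by abel
  have r3 : -(-(p + q) + q) = p := by abel
  have r4 : -(-(p + q) + p) = q := by abel
  have r5 : -(p + -(p + q)) = q := by abel
  rw [dt_add_EN, dt_add_EN, dt_add_EN] at key
  simp only [r1, r2, r3, r4, r5]
  exact key

end H706T.JEN

namespace H706T

alias tsum_skew := JEN.tsum_skew
alias tsum_hel := JEN.tsum_hel

end H706T
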