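import Pool.Agent.Helper706_TE.Defs2

set_option autoImplicit false
open Set Filter Topology MeasureTheory
open scoped ComplexConjugate ContDiff

namespace H706T.JLS

theorem col_symm {p q : K} (h : col p q) : col q p := by
  obtain ⟨h1, h2, h3⟩ := h
  refine ⟨fun i j => ?_, h3, h2⟩
  have := h1 j i
  linarith [mul_comm (p i) (q j), mul_comm (p j) (q i)]

theorem col_ne {p q : K} (h : col p q) {i : Fin 3} (hi : p i ≠ 0) : q i ≠ 0 := by
  intro h0
  apply h.2.2
  funext j
  have := h.1 i j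
  rw [h0, mul_zero] at this
  rcases mul_eq_zero.mp this with h1 | h1
  · exact absurd h1 hi
  · simpa using h1

theorem col_inj {p q q' : K} (h : col p q) (h' : col p q') {i : Fin 3} (hi : p i ≠ 0)
    (he : q i = q' i) : q = q' := by
  funext j
  have h1 := h.1 i j
  have h2 := h'.1 i j
  rw [he] at h1
  rw [← h2] at h1
  exact mul_left_cancel₀ hi h1

theorem sq_le_nq (q : K) (i : Fin 3) : ((q i : ℤ) : ℝ) ^ 2 ≤ nq q := by
  unfold nq
  exact Finset.single_le_sum (f := fun i => ((q i : ℤ) : ℝ) ^ 2) (fun j _ => sq_nonneg _)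
    (Finset.mem_univ i)

theorem nq_nonneg (q : K) : 0 ≤ nq q := by
  unfold nq
  exact Finset.sum_nonneg fun j _ => sq_nonneg _

theorem one_le_nq {q : K} (hq : q ≠ 0) : 1 ≤ nq q := by
  obtain ⟨i, hi⟩ : ∃ i, q i ≠ 0 := by
    by_contra h
    push Not at h
    exact hq (funext h)
  refine le_trans ?_ (sq_le_nq q i)
  have h1 : (1 : ℤ) ≤ (q i) ^ 2 := by
    have : 0 < (q i) ^ 2 := by positivity
    omega
  exact_mod_cast h1

theorem line_gen {p : K} (hp : p ≠ 0) {f : K → ℝ} {g : ℤ → ℝ} (hg0 : ∀ l, 0 ≤ g l)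
    (hg : Summable g) (hf : ∀ q, 0 ≤ f q)
    (hfg : ∀ (i : Fin 3) (q : K), q i ≠ 0 → f q ≤ g (q i)) :
    Summable ({q | col p q}.indicator f) ∧ ∑' q, {q | col p q}.indicator f q ≤ ∑' l, g l := by
  classical
  obtain ⟨i, hi⟩ : ∃ i, p i ≠ 0 := by
    by_contra h
    push Not at h
    exact hp (funext h)
  have hnn : ∀ q, 0 ≤ {q | col p q}.indicator f q := fun q =>
    Set.indicator_nonneg (fun q _ => hf q) q
  have key : ∀ S : Finset K, ∑ q ∈ S, {q | col p q}.indicator f q ≤ ∑' l, g l := by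
    intro S
    have h1 : ∑ q ∈ S, {q | col p q}.indicator f q = ∑ q ∈ S with col p q, f q := by
      rw [Finset.sum_filter]
      refine Finset.sum_congr rfl fun q _ => ?_
      by_cases h : col p q
      · rw [if_pos h, Set.indicator_of_mem (show q ∈ {q | col p q} from h)]
      · rw [if_neg h, Set.indicator_of_notMem (show q ∉ {q | col p q} from h)]
    rw [h1]
    calc ∑ q ∈ S with col p q, f q ≤ ∑ q ∈ S with col p q, g (q i) := by
          refine Finset.sum_le_sum fun q hq => hfg i q ?_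
          exact col_ne (Finset.mem_filter.mp hq).2 hi
      _ = ∑ l ∈ (S.filter fun q => col p q).image (fun q => q i), g l := by
          rw [Finset.sum_image]
          intro q hq q' hq' he
          exact col_inj (Finset.mem_filter.mp hq).2 (Finset.mem_filter.mp hq').2 hi he
      _ ≤ ∑' l, g l := hg.sum_le_tsum _ fun l _ => hg0 l
  exact ⟨summable_of_sum_le hnn key, Real.tsum_le_of_sum_le hnn key⟩

theorem int_sum : HasSum (fun l : ℤ => (((l : ℝ)) ^ 2)⁻¹) (Real.pi ^ 2 / 6 + Real.pi ^ 2 / 6) := by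
  have h := hasSum_zeta_two
  have h1 : HasSum (fun n : ℕ => ((((n : ℤ) : ℝ)) ^ 2)⁻¹) (Real.pi ^ 2 / 6) := by
    simpa using h
  have h2 : HasSum (fun n : ℕ => ((((-(n : ℤ) : ℤ) : ℝ)) ^ 2)⁻¹) (Real.pi ^ 2 / 6) := by
    simpa using h
  have := HasSum.of_nat_of_neg (f := fun l : ℤ => (((l : ℝ)) ^ 2)⁻¹) h1 h2
  simpa using this

/-- TARGET -/
theorem line_sum {p : K} (hp : p ≠ 0) :
    Summable ({q : K | col p q}.indicator fun q => (nq q)⁻¹) ∧
      ∑' q, {q : K | col p q}.indicator (fun q => (nq q)⁻¹) q ≤ 4 := by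
  have h := line_gen hp (f := fun q => (nq q)⁻¹) (g := fun l : ℤ => (((l : ℝ)) ^ 2)⁻¹)
    (fun l => by positivity) int_sum.summable (fun q => inv_nonneg.mpr (nq_nonneg q))
    (fun i q hq => by
      have h0 : (0 : ℝ) < ((q i : ℤ) : ℝ) ^ 2 := by positivity
      exact inv_anti₀ h0 (sq_le_nq q i))
  refine ⟨h.1, h.2.trans ?_⟩
  rw [int_sum.tsum_eq]
  have h1 := Real.pi_lt_d2
  have h2 := Real.pi_pos
  nlinarith

/-- TARGET -/
theorem line_l1 {p : K} (hp : p ≠ 0) {a : K → ℝ} (ha : ∀ k, 0 ≤ a k) {B : ℝ} (hB0 : 0 ≤ B)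
    (hs : Summable fun k => nq k * a k ^ 2) (hB : ∑' k, nq k * a k ^ 2 ≤ B ^ 2) :
    Summable ({q : K | col p q}.indicator a) ∧ ∑' q, {q : K | col p q}.indicator a q ≤ 2 * B := by
  classical
  obtain ⟨hs1, hs2⟩ := line_sum hp
  have hnn : ∀ q, 0 ≤ {q | col p q}.indicator a q := fun q =>
    Set.indicator_nonneg (fun q _ => ha q) q
  have hnn1 : ∀ q, 0 ≤ {q : K | col p q}.indicator (fun q => (nq q)⁻¹) q := fun q =>
    Set.indicator_nonneg (fun q _ => inv_nonneg.mpr (nq_nonneg q)) q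
  have key : ∀ S : Finset K, ∑ q ∈ S, {q | col p q}.indicator a q ≤ 2 * B := by
    intro S
    have h1 : (∑ q ∈ S, {q | col p q}.indicator a q) ^ 2 ≤
        (∑ q ∈ S, {q : K | col p q}.indicator (fun q => (nq q)⁻¹) q) *
          ∑ q ∈ S, nq q * a q ^ 2 := by
      have h1a : (∑ q ∈ S, {q | col p q}.indicator a q) ^ 2 ≤
          (∑ q ∈ S, {q : K | col p q}.indicator (fun q => (nq q)⁻¹) q) *
          ∑ q ∈ S, {q : K | col p q}.indicator (fun q => nq q * a q ^ 2) q := by
        refine Finset.sum_sq_le_sum_mul_sum_of_sq_le_mul S (fun q _ => hnn1 q)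
          (fun q _ => Set.indicator_nonneg
            (fun q _ => mul_nonneg (nq_nonneg q) (sq_nonneg _)) q) ?_
        intro q _
        by_cases h : col p q
        · have hq : q ∈ {q | col p q} := h
          rw [Set.indicator_of_mem hq, Set.indicator_of_mem hq, Set.indicator_of_mem hq]
          have h0 := one_le_nq h.2.2
          have h00 : nq q ≠ 0 := by linarith
          refine le_of_eq ?_
          field_simp
        · have hq : q ∉ {q | col p q} := h
          rw [Set.indicator_of_notMem hq, Set.indicator_of_notMem hq,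
            Set.indicator_of_notMem hq]
          norm_num
      refine h1a.trans ?_
      refine mul_le_mul_of_nonneg_left ?_ (Finset.sum_nonneg fun q _ => hnn1 q)
      exact Finset.sum_le_sum fun q _ => Set.indicator_le_self' (s := {q : K | col p q})
        (f := fun q => nq q * a q ^ 2)
        (fun q _ => mul_nonneg (nq_nonneg q) (sq_nonneg _)) q
    have h2 : ∑ q ∈ S, {q : K | col p q}.indicator (fun q => (nq q)⁻¹) q ≤ 4 :=
      (hs1.sum_le_tsum S fun q _ => hnn1 q).trans hs2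
    have h3 : ∑ q ∈ S, nq q * a q ^ 2 ≤ B ^ 2 :=
      (hs.sum_le_tsum S fun q _ => mul_nonneg (nq_nonneg q) (sq_nonneg _)).trans hB
    have h4 : (0 : ℝ) ≤ ∑ q ∈ S, nq q * a q ^ 2 :=
      Finset.sum_nonneg fun q _ => mul_nonneg (nq_nonneg q) (sq_nonneg _)
    have h5 : (∑ q ∈ S, {q | col p q}.indicator a q) ^ 2 ≤ (2 * B) ^ 2 := by
      calc _ ≤ _ := h1
        _ ≤ 4 * B ^ 2 := mul_le_mul h2 h3 h4 (by norm_num)
        _ = (2 * B) ^ 2 := by ring
    exact (abs_le_of_sq_le_sq' h5 (by linarith)).2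
  exact ⟨summable_of_sum_le hnn key, Real.tsum_le_of_sum_le hnn key⟩

theorem gen_pair {A : K → ℝ} (hA : ∀ k, 0 ≤ A k) (hAs : Summable A) {f : K → ℝ}
    (hf : ∀ k, 0 ≤ f k) {C : ℝ} (hC0 : 0 ≤ C)
    (hC : ∀ p : K, p ≠ 0 → Summable ({q | col p q}.indicator f) ∧
      ∑' q, {q | col p q}.indicator f q ≤ C) :
    Summable ({z : K × K | col z.1 z.2}.indicator fun z => A z.1 * f z.2) ∧
      ∑' z, ({z : K × K | col z.1 z.2}.indicator fun z => A z.1 * f z.2) z ≤ C * ∑' k, A k := by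
  have heq : ∀ p q : K, ({z : K × K | col z.1 z.2}.indicator fun z => A z.1 * f z.2) (p, q)
      = A p * {q | col p q}.indicator f q := by
    intro p q
    by_cases h : col p q
    · rw [Set.indicator_of_mem (show (p, q) ∈ {z : K × K | col z.1 z.2} from h),
        Set.indicator_of_mem (show q ∈ {q | col p q} from h)]
    · rw [Set.indicator_of_notMem (show (p, q) ∉ {z : K × K | col z.1 z.2} from h),
        Set.indicator_of_notMem (show q ∉ {q | col p q} from h), mul_zero]
  have hnn : ∀ z, 0 ≤ ({z : K × K | col z.1 z.2}.indicator fun z => A z.1 * f z.2) z := fun z =>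
    Set.indicator_nonneg (fun z _ => mul_nonneg (hA _) (hf _)) z
  have hrow : ∀ p : K, Summable ({q | col p q}.indicator f) ∧
      ∑' q, {q | col p q}.indicator f q ≤ C := by
    intro p
    by_cases hp : p = 0
    · have h0 : {q | col p q}.indicator f = fun _ => 0 := by
        funext q
        exact Set.indicator_of_notMem (show q ∉ {q | col p q} from fun h => h.2.1 hp) f
      rw [h0]
      exact ⟨summable_zero, by simpa using hC0⟩
    · exact hC p hp
  have hsum1 : ∀ p : K, Summable fun q : K =>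
      ({z : K × K | col z.1 z.2}.indicator fun z => A z.1 * f z.2) (p, q) := by
    intro p
    simp_rw [heq]
    exact (hrow p).1.mul_left _
  have hval : ∀ p : K, ∑' q : K,
      ({z : K × K | col z.1 z.2}.indicator fun z => A z.1 * f z.2) (p, q)
        = A p * ∑' q, {q | col p q}.indicator f q := by
    intro p
    simp_rw [heq]
    exact tsum_mul_left
  have hle : ∀ p : K, ∑' q : K,
      ({z : K × K | col z.1 z.2}.indicator fun z => A z.1 * f z.2) (p, q) ≤ C * A p := by
    intro p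
    rw [hval, mul_comm C]
    exact mul_le_mul_of_nonneg_left (hrow p).2 (hA p)
  have hsum2 : Summable fun p : K => ∑' q : K,
      ({z : K × K | col z.1 z.2}.indicator fun z => A z.1 * f z.2) (p, q) :=
    Summable.of_nonneg_of_le (fun p => tsum_nonneg fun q => hnn (p, q)) hle (hAs.mul_left C)
  have hS : Summable ({z : K × K | col z.1 z.2}.indicator fun z => A z.1 * f z.2) :=
    (summable_prod_of_nonneg hnn).mpr ⟨hsum1, hsum2⟩
  refine ⟨hS, ?_⟩
  rw [hS.tsum_prod]
  calc _ ≤ ∑' p, C * A p := hsum2.tsum_le_tsum hle (hAs.mul_left C)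
    _ = C * ∑' k, A k := tsum_mul_left

theorem w_line {p : K} (hp : p ≠ 0) :
    Summable ({q | col p q}.indicator fun q => (nq q) ^ (-(3 / 4) : ℝ)) ∧
      ∑' q, {q | col p q}.indicator (fun q => (nq q) ^ (-(3 / 4) : ℝ)) q
        ≤ ∑' l : ℤ, |(l : ℝ)| ^ (-(3 / 2) : ℝ) := by
  refine line_gen hp (g := fun l : ℤ => |(l : ℝ)| ^ (-(3 / 2) : ℝ))
    (fun l => Real.rpow_nonneg (abs_nonneg _) _) (Real.summable_abs_int_rpow (by norm_num))
    (fun q => Real.rpow_nonneg (nq_nonneg q) _) ?_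
  intro i q hq
  have h0 : (0 : ℝ) < |((q i : ℤ) : ℝ)| := by positivity
  have h1 : |((q i : ℤ) : ℝ)| ^ (-(3 / 2) : ℝ) = (((q i : ℤ) : ℝ) ^ 2) ^ (-(3 / 4) : ℝ) := by
    rw [← sq_abs, ← Real.rpow_natCast, ← Real.rpow_mul h0.le]
    norm_num
  rw [h1]
  exact Real.rpow_le_rpow_of_nonpos (by positivity) (sq_le_nq q i) (by norm_num)

theorem pair_ineq {x y P Q : ℝ} (hP : 1 ≤ P) (hQ : 1 ≤ Q) :
    x * y ≤ (P * x ^ 2) * Q ^ (-(3 / 4) : ℝ) + (Q * y ^ 2) * P ^ (-(3 / 4) : ℝ) := by
  have hP0 : 0 < P := by linarith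
  have hQ0 : 0 < Q := by linarith
  set u := P ^ (-(3 / 4) : ℝ) with hu
  set v := Q ^ (-(3 / 4) : ℝ) with hv
  have hu0 : 0 < u := Real.rpow_pos_of_pos hP0 _
  have hv0 : 0 < v := Real.rpow_pos_of_pos hQ0 _
  have hPu : 1 ≤ P * u := by
    have : P * u = P ^ (1 / 4 : ℝ) := by
      rw [hu]
      nth_rewrite 1 [← Real.rpow_one P]
      rw [← Real.rpow_add hP0]
      norm_num
    rw [this]
    exact Real.one_le_rpow hP (by norm_num)
  have hQv : 1 ≤ Q * v := by
    have : Q * v = Q ^ (1 / 4 : ℝ) := by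
      rw [hv]
      nth_rewrite 1 [← Real.rpow_one Q]
      rw [← Real.rpow_add hQ0]
      norm_num
    rw [this]
    exact Real.one_le_rpow hQ (by norm_num)
  have hXY : 1 ≤ (P * v) * (Q * u) := by
    have : (P * v) * (Q * u) = (P * u) * (Q * v) := by ring
    rw [this]
    nlinarith
  have hX : 0 < P * v := by positivity
  have hY : 0 < Q * u := by positivity
  have h1 : (x * y) ^ 2 ≤ ((P * x ^ 2) * v + (Q * y ^ 2) * u) ^ 2 := by
    have h2 : (x * y) ^ 2 ≤ ((P * v) * (Q * u)) * (x * y) ^ 2 := by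
      nlinarith [sq_nonneg (x * y)]
    have h3 : ((P * x ^ 2) * v + (Q * y ^ 2) * u) ^ 2
        = ((P * v) * x ^ 2) ^ 2 + ((Q * u) * y ^ 2) ^ 2
          + 2 * (((P * v) * (Q * u)) * (x * y) ^ 2) := by ring
    rw [h3]
    have h4 : 0 ≤ ((P * v) * (Q * u)) * (x * y) ^ 2 := by positivity
    nlinarith [sq_nonneg ((P * v) * x ^ 2), sq_nonneg ((Q * u) * y ^ 2)]
  have h5 : 0 ≤ (P * x ^ 2) * v + (Q * y ^ 2) * u := by positivity
  exact (abs_le_of_sq_le_sq' h1 h5).2

/-- TARGET -/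
theorem pair_summable {a b : K → ℝ} (ha : ∀ k, 0 ≤ a k) (hb : ∀ k, 0 ≤ b k)
    (hsa : Summable fun k => nq k * a k ^ 2) (hsb : Summable fun k => nq k * b k ^ 2) :
    Summable (cset.indicator fun z => a z.1 * b z.2) := by
  have hC0 : (0 : ℝ) ≤ ∑' l : ℤ, |(l : ℝ)| ^ (-(3 / 2) : ℝ) :=
    tsum_nonneg fun l => Real.rpow_nonneg (abs_nonneg _) _
  have h1 := (gen_pair (fun k => mul_nonneg (nq_nonneg k) (sq_nonneg (a k))) hsa
    (f := fun q => (nq q) ^ (-(3 / 4) : ℝ)) (fun q => Real.rpow_nonneg (nq_nonneg q) _)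
    hC0 (fun p hp => w_line hp)).1
  have h2 := (gen_pair (fun k => mul_nonneg (nq_nonneg k) (sq_nonneg (b k))) hsb
    (f := fun q => (nq q) ^ (-(3 / 4) : ℝ)) (fun q => Real.rpow_nonneg (nq_nonneg q) _)
    hC0 (fun p hp => w_line hp)).1
  have h2' := (Equiv.prodComm K K).summable_iff.mpr h2
  refine Summable.of_nonneg_of_le (fun z => Set.indicator_nonneg
    (fun z _ => mul_nonneg (ha _) (hb _)) z) ?_ (h1.add h2')
  rintro ⟨p, q⟩
  by_cases h : (p, q) ∈ cset
  · have hc : col p q := h.1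
    rw [Set.indicator_of_mem h]
    simp only [Function.comp_apply, Equiv.prodComm_apply, Prod.swap_prod_mk]
    rw [Set.indicator_of_mem (show (p, q) ∈ {z : K × K | col z.1 z.2} from hc),
      Set.indicator_of_mem (show (q, p) ∈ {z : K × K | col z.1 z.2} from col_symm hc)]
    exact pair_ineq (one_le_nq hc.2.1) (one_le_nq hc.2.2)
  · rw [Set.indicator_of_notMem h]
    refine add_nonneg ?_ ?_
    · exact Set.indicator_nonneg (fun z _ => mul_nonneg
        (mul_nonneg (nq_nonneg _) (sq_nonneg _)) (Real.rpow_nonneg (nq_nonneg _) _)) _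
    · exact Set.indicator_nonneg (fun z _ => mul_nonneg
        (mul_nonneg (nq_nonneg _) (sq_nonneg _)) (Real.rpow_nonneg (nq_nonneg _) _)) _

/-- The shear `(p, q) ↦ (p + q, q)`. -/
def shr : K × K ≃ K × K where
  toFun z := (z.1 + z.2, z.2)
  invFun z := (z.1 - z.2, z.2)
  left_inv z := by simp
  right_inv z := by simp

theorem col_add {p q : K} (h : col p q) (hs : p + q ≠ 0) : col (p + q) q := by
  refine ⟨fun i j => ?_, hs, h.2.2⟩
  have := h.1 i j
  simp only [Pi.add_apply]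
  linarith [add_mul (p i) (q i) (q j), add_mul (p j) (q j) (q i), mul_comm (q i) (q j)]

/-- TARGET -/
theorem tri_bound {d u : K → ℝ} (hd : ∀ k, 0 ≤ d k) (hu : ∀ k, 0 ≤ u k) {B : ℝ} (hB0 : 0 ≤ B)
    (hs : Summable fun k => nq k * u k ^ 2) (hB : ∑' k, nq k * u k ^ 2 ≤ B ^ 2)
    (hd2 : Summable fun k => d k ^ 2) :
    Summable (cset.indicator fun z => d z.1 * u z.2 * d (z.1 + z.2)) ∧
      ∑' z, cset.indicator (fun z => d z.1 * u z.2 * d (z.1 + z.2)) z ≤ 2 * B * ∑' k, d k ^ 2 := by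
  obtain ⟨hF, hFb⟩ := gen_pair (A := fun k => d k ^ 2) (fun k => sq_nonneg _) hd2 (f := u) hu
    (C := 2 * B) (by linarith) (fun p hp => line_l1 hp hu hB0 hs hB)
  have hF2 : Summable fun z => ({z : K × K | col z.1 z.2}.indicator fun z => d z.1 ^ 2 * u z.2)
      (shr z) := shr.summable_iff.mpr hF
  have hF2b := shr.tsum_eq ({z : K × K | col z.1 z.2}.indicator fun z => d z.1 ^ 2 * u z.2)
  have hle : ∀ z, cset.indicator (fun z => d z.1 * u z.2 * d (z.1 + z.2)) z
      ≤ (1 / 2) * (({z : K × K | col z.1 z.2}.indicator fun z => d z.1 ^ 2 * u z.2) z)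
        + (1 / 2) * (({z : K × K | col z.1 z.2}.indicator fun z => d z.1 ^ 2 * u z.2) (shr z)) := by
    rintro ⟨p, q⟩
    by_cases h : (p, q) ∈ cset
    · have hc : col p q := h.1
      have hc2 : col (p + q) q := col_add hc h.2
      rw [Set.indicator_of_mem h,
        Set.indicator_of_mem (show (p, q) ∈ {z : K × K | col z.1 z.2} from hc),
        Set.indicator_of_mem (show shr (p, q) ∈ {z : K × K | col z.1 z.2} from hc2)]
      simp only [shr, Equiv.coe_fn_mk]
      nlinarith [mul_nonneg (hu q) (sq_nonneg (d p - d (p + q)))]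
    · rw [Set.indicator_of_notMem h]
      have h1 : 0 ≤ ({z : K × K | col z.1 z.2}.indicator fun z => d z.1 ^ 2 * u z.2) (p, q) :=
        Set.indicator_nonneg (fun z _ => mul_nonneg (sq_nonneg _) (hu _)) _
      have h2 : 0 ≤ ({z : K × K | col z.1 z.2}.indicator fun z => d z.1 ^ 2 * u z.2)
          (shr (p, q)) := Set.indicator_nonneg (fun z _ => mul_nonneg (sq_nonneg _) (hu _)) _
      linarith
  have hSum := (hF.mul_left (1 / 2)).add (hF2.mul_left (1 / 2))
  have hS : Summable (cset.indicator fun z => d z.1 * u z.2 * d (z.1 + z.2)) :=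
    Summable.of_nonneg_of_le (fun z => Set.indicator_nonneg
      (fun z _ => mul_nonneg (mul_nonneg (hd _) (hu _)) (hd _)) z) hle hSum
  refine ⟨hS, ?_⟩
  calc _ ≤ _ := hS.tsum_le_tsum hle hSum
    _ = (1 / 2) * (∑' z, ({z : K × K | col z.1 z.2}.indicator fun z => d z.1 ^ 2 * u z.2) z)
        + (1 / 2) * ∑' z, ({z : K × K | col z.1 z.2}.indicator fun z => d z.1 ^ 2 * u z.2)
          (shr z) := by
        rw [(hF.mul_left (1 / 2)).tsum_add (hF2.mul_left (1 / 2)), tsum_mul_left, tsum_mul_left]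
    _ ≤ 2 * B * ∑' k, d k ^ 2 := by
        rw [hF2b]
        linarith

end H706T.JLS

namespace H706T

alias line_sum := JLS.line_sum
alias line_l1 := JLS.line_l1
alias pair_summable := JLS.pair_summable
alias tri_bound := JLS.tri_bound

end H706T
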