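import Pool.Agent.Helper706_TE.Defs2

set_option autoImplicit false
open Set Filter Topology MeasureTheory
open scoped ComplexConjugate ContDiff

namespace H706T.JSF

theorem norm_E (k : K) (x : V) : ‖Complex.exp (Complex.I * (dot k x : ℂ))‖ = 1 := by
  rw [mul_comm]
  exact Complex.norm_exp_ofReal_mul_I _

theorem norm_term {c : W} (k : K) (x : V) (j : Fin 3) :
    ‖c j * Complex.exp (Complex.I * (dot k x : ℂ))‖ ≤ ‖c‖ := by
  rw [norm_mul, norm_E, mul_one]
  exact PiLp.norm_apply_le c j

theorem dot_cont (k : K) : Continuous (dot k) := by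
  unfold dot
  fun_prop

theorem E_cont (k : K) : Continuous fun x : V => Complex.exp (Complex.I * (dot k x : ℂ)) := by
  have := dot_cont k
  fun_prop

theorem E_per (k : K) (l : Fin 3) (x : V) :
    Complex.exp (Complex.I * (dot k (x + Pi.single l (2 * Real.pi)) : ℂ)) =
      Complex.exp (Complex.I * (dot k x : ℂ)) := by
  have h : dot k (x + Pi.single l (2 * Real.pi)) = dot k x + (k l : ℝ) * (2 * Real.pi) := by
    unfold dot
    simp only [Pi.add_apply, mul_add, Finset.sum_add_distrib]
    congr 1
    rw [Finset.sum_eq_single l]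
    · simp
    · intro j _ hj
      rw [Pi.single_eq_of_ne hj, mul_zero]
    · simp
  rw [h]
  push_cast
  rw [mul_add, Complex.exp_add]
  have h2 : Complex.exp (Complex.I * ((k l : ℂ) * (2 * (Real.pi : ℂ)))) = 1 := by
    rw [Complex.exp_eq_one_iff]
    exact ⟨k l, by ring⟩
  rw [h2, mul_one]

/-- TARGET -/
theorem series_cont {ι : Type} {c : ι → W} {k : ι → K} (hs : Summable fun i => ‖c i‖) :
    Continuous (fun (x : V) (j : Fin 3) =>
      (∑' i, c i j * Complex.exp (Complex.I * (dot (k i) x : ℂ))).re) ∧
    Periodic3 (fun (x : V) (j : Fin 3) =>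
      (∑' i, c i j * Complex.exp (Complex.I * (dot (k i) x : ℂ))).re) := by
  constructor
  · refine continuous_pi fun j => Complex.continuous_re.comp ?_
    refine continuous_tsum (fun i => continuous_const.mul (E_cont (k i))) hs ?_
    intro i x
    exact norm_term (k i) x j
  · intro l x
    funext j
    simp only [E_per]

theorem pair_one {c : W} {k : K} {g : V → V} (j : Fin 3) :
    ∫ x in torus, c j * Complex.exp (Complex.I * (dot k x : ℂ)) * (g x j : ℂ)
      = (2 * Real.pi : ℂ) ^ 3 * (c j * (starRingEnd ℂ) (coeff g k j)) := by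
  have h1 : ∀ x : V, c j * Complex.exp (Complex.I * (dot k x : ℂ)) * (g x j : ℂ) =
      c j * conj ((g x j : ℂ) * Complex.exp (-Complex.I * (dot k x : ℂ))) := by
    intro x
    rw [map_mul, Complex.conj_ofReal, ← Complex.exp_conj, map_mul, map_neg, Complex.conj_I,
      Complex.conj_ofReal, neg_neg]
    ring
  simp only [h1]
  rw [integral_const_mul, integral_conj]
  have h2 : coeff g k j =
    (∫ x in torus, (g x j : ℂ) * Complex.exp (-Complex.I * (dot k x : ℂ))) / (2 * Real.pi) ^ 3 := rfl
  rw [h2, map_div₀, map_pow, map_mul, Complex.conj_ofReal]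
  have h3 : (2 * (Real.pi : ℂ)) ≠ 0 := by
    simp [Real.pi_ne_zero]
  have h4 : (starRingEnd ℂ) 2 = 2 := map_ofNat _ 2
  rw [h4]
  field_simp

/-- TARGET -/
theorem series_pair {ι : Type} [Countable ι] {c : ι → W} {k : ι → K} (hs : Summable fun i => ‖c i‖)
    {g : V → V} (hg : Continuous g) :
    ∫ x in torus, ∑ j, (∑' i, c i j * Complex.exp (Complex.I * (dot (k i) x : ℂ))).re * g x j
      = (2 * Real.pi) ^ 3 * (∑' i, dt (c i) (cj (coeff g (k i)))).re := by
  have hcomp : IsCompact torus := isCompact_Icc
  have hgj : ∀ j, Continuous fun x : V => g x j := fun j => (continuous_apply j).comp hg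
  have hsum : ∀ (x : V) (j : Fin 3),
      Summable fun i => c i j * Complex.exp (Complex.I * (dot (k i) x : ℂ)) := by
    intro x j
    exact Summable.of_norm_bounded hs (fun i => norm_term (k i) x j)
  have hFint : ∀ (j : Fin 3) (i : ι), Integrable
      (fun x : V => c i j * Complex.exp (Complex.I * (dot (k i) x : ℂ)) * (g x j : ℂ))
      (volume.restrict torus) := by
    intro j i
    refine ContinuousOn.integrableOn_compact hcomp ?_
    refine Continuous.continuousOn ?_
    refine (continuous_const.mul (E_cont (k i))).mul ?_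
    exact Complex.continuous_ofReal.comp (hgj j)
  have hgint : ∀ j, Integrable (fun x : V => ‖g x j‖) (volume.restrict torus) := by
    intro j
    exact ContinuousOn.integrableOn_compact hcomp (hgj j).norm.continuousOn
  have hFsum : ∀ j, Summable fun i => ∫ x in torus,
      ‖c i j * Complex.exp (Complex.I * (dot (k i) x : ℂ)) * (g x j : ℂ)‖ := by
    intro j
    have hb : Summable fun i => ‖c i‖ * ∫ x in torus, ‖g x j‖ := hs.mul_right _
    refine Summable.of_nonneg_of_le (fun i => integral_nonneg fun x => norm_nonneg _) ?_ hb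
    intro i
    rw [← integral_const_mul]
    refine integral_mono (hFint j i).norm ((hgint j).const_mul _) ?_
    intro x
    change ‖c i j * Complex.exp (Complex.I * (dot (k i) x : ℂ)) * (g x j : ℂ)‖ ≤ ‖c i‖ * ‖g x j‖
    rw [norm_mul, Complex.norm_real]
    exact mul_le_mul_of_nonneg_right (norm_term (k i) x j) (norm_nonneg _)
  have hS : ∀ j, HasSum (fun i => (2 * Real.pi : ℂ) ^ 3 * (c i j * (starRingEnd ℂ) (coeff g (k i) j)))
      (∫ x in torus, (∑' i, c i j * Complex.exp (Complex.I * (dot (k i) x : ℂ))) * (g x j : ℂ)) := by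
    intro j
    have := hasSum_integral_of_summable_integral_norm (hFint j) (hFsum j)
    simp only [pair_one] at this
    have e : ∀ x : V, ∑' i, c i j * Complex.exp (Complex.I * (dot (k i) x : ℂ)) * (g x j : ℂ) =
        (∑' i, c i j * Complex.exp (Complex.I * (dot (k i) x : ℂ))) * (g x j : ℂ) := by
      intro x
      rw [tsum_mul_right]
    simp only [e] at this
    exact this
  have hcont := (series_cont (k := k) hs).1
  have hcj : ∀ j, Continuous fun x : V =>
      ∑' i, c i j * Complex.exp (Complex.I * (dot (k i) x : ℂ)) := by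
    intro j
    refine continuous_tsum (fun i => continuous_const.mul (E_cont (k i))) hs ?_
    intro i x
    exact norm_term (k i) x j
  have hint : ∀ j, Integrable (fun x : V =>
      (∑' i, c i j * Complex.exp (Complex.I * (dot (k i) x : ℂ))) * (g x j : ℂ))
      (volume.restrict torus) := by
    intro j
    refine ContinuousOn.integrableOn_compact hcomp ?_
    exact ((hcj j).mul (Complex.continuous_ofReal.comp (hgj j))).continuousOn
  have hre : ∀ j (x : V), (∑' i, c i j * Complex.exp (Complex.I * (dot (k i) x : ℂ))).re * g x j =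
      ((∑' i, c i j * Complex.exp (Complex.I * (dot (k i) x : ℂ))) * (g x j : ℂ)).re := by
    intro j x
    rw [Complex.re_mul_ofReal]
  have hne : (2 * (Real.pi : ℂ)) ^ 3 ≠ 0 := by
    simp [Real.pi_ne_zero]
  have hS' : ∀ j, Summable fun i => c i j * (starRingEnd ℂ) (coeff g (k i) j) := by
    intro j
    have := (hS j).summable
    rwa [summable_mul_left_iff hne] at this
  simp only [hre]
  have hint' : ∀ j, Integrable (fun x : V =>
      ((∑' i, c i j * Complex.exp (Complex.I * (dot (k i) x : ℂ))) * (g x j : ℂ)).re)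
      (volume.restrict torus) := fun j => (hint j).re
  rw [integral_finsetSum _ (fun j _ => hint' j)]
  have h1 : ∀ j, ∫ x in torus,
      ((∑' i, c i j * Complex.exp (Complex.I * (dot (k i) x : ℂ))) * (g x j : ℂ)).re =
      ((2 * Real.pi : ℂ) ^ 3 * ∑' i, c i j * (starRingEnd ℂ) (coeff g (k i) j)).re := by
    intro j
    have e1 := integral_re (hint j)
    have e2 := (hS j).tsum_eq
    rw [tsum_mul_left] at e2
    rw [e2]
    exact e1
  simp only [h1]
  have h2 : ∀ z : ℂ, ((2 * Real.pi : ℂ) ^ 3 * z).re = (2 * Real.pi) ^ 3 * z.re := by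
    intro z
    have : ((2 * Real.pi : ℂ) ^ 3 : ℂ) = (((2 * Real.pi) ^ 3 : ℝ) : ℂ) := by push_cast; ring
    rw [this, Complex.re_ofReal_mul]
  simp only [h2]
  rw [← Finset.mul_sum]
  congr 1
  rw [← Complex.re_sum]
  congr 1
  rw [← Summable.tsum_finsetSum (fun j _ => hS' j)]
  rfl

end H706T.JSF

namespace H706T

alias series_cont := JSF.series_cont
alias series_pair := JSF.series_pair

end H706T
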