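import Pool.Agent.Helper706_TE.Defs2
import Pool.Agent.Helper706_TE.CB
import Pool.Agent.Helper706_TE.LS
import Pool.Agent.Helper706_TE.EN
import Pool.Agent.Helper706_TE.SF

set_option autoImplicit false
open Set Filter Topology MeasureTheory
open scoped ComplexConjugate ContDiff

namespace H706T.JFC

theorem M_eq_zero {N : ℕ} {M : K → K → W → W → W} (h2 : Sy2 N M) {p q : K} {a b : W}
    (hz : (p, q) ∉ cset) : M p q a b = 0 := by
  by_contra hne
  obtain ⟨h1, h3, -⟩ := h2.supp p q a b hne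
  exact hz ⟨h1, h3⟩

theorem coeff_bdd {v : V → V} (hv : Continuous v) (pv : Periodic3 v) :
    ∃ C : ℝ, ∀ k, ‖coeff v k‖ ≤ C := by
  have hs := coeff_sq0 hv pv
  refine ⟨Real.sqrt (((2 * Real.pi) ^ 3)⁻¹ * ∫ x in torus, ∑ i, v x i ^ 2), fun k => ?_⟩
  apply Real.le_sqrt_of_sq_le
  exact le_hasSum hs k (fun _ _ => sq_nonneg _)

theorem D_continuous {v : V → V} (hv : ContDiff ℝ 1 v) (j i : Fin 3) :
    Continuous fun x => D v x j i := by
  have h1 : Continuous (fderiv ℝ v) := hv.continuous_fderiv (by norm_num)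
  have h2 : Continuous fun x => fderiv ℝ v x (Pi.single j 1) := h1.clm_apply continuous_const
  exact (continuous_apply i).comp h2

theorem curl_continuous {v : V → V} (hv : ContDiff ℝ 1 v) : Continuous (curl v) := by
  refine continuous_pi fun i => ?_
  fin_cases i
  · exact (D_continuous hv 1 2).sub (D_continuous hv 2 1)
  · exact (D_continuous hv 2 0).sub (D_continuous hv 0 2)
  · exact (D_continuous hv 0 1).sub (D_continuous hv 1 0)

theorem D_periodic {v : V → V} (pv : Periodic3 v) (j i : Fin 3) (l : Fin 3) (x : V) :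
    D v (x + Pi.single l (2 * Real.pi)) j i = D v x j i := by
  unfold D
  have h : (fun y => v (y + Pi.single l (2 * Real.pi))) = v := funext fun y => pv l y
  have h2 := fderiv_comp_add_right (𝕜 := ℝ) (f := v) (x := x) (Pi.single l (2 * Real.pi))
  rw [h] at h2
  rw [h2]

theorem curl_periodic {v : V → V} (pv : Periodic3 v) : Periodic3 (curl v) := by
  intro l x
  unfold curl
  simp only [D_periodic pv]

theorem coeff_const (g : V) {k : K} (hk : k ≠ 0) : coeff (fun _ => g) k = 0 := by
  have hc : ContDiff ℝ 1 (fun _ : V => g) := contDiff_const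
  have pc : Periodic3 (fun _ : V => g) := fun _ _ => rfl
  obtain ⟨hs, hb⟩ := coeff_sq hc pc
  have h0 := hb 0 (fun x i j => by simp [D])
  have hnn : ∀ k, 0 ≤ nq k * ‖coeff (fun _ : V => g) k‖ ^ 2 := fun k =>
    mul_nonneg (Finset.sum_nonneg fun i _ => sq_nonneg _) (sq_nonneg _)
  have h1 : nq k * ‖coeff (fun _ : V => g) k‖ ^ 2 ≤ 0 :=
    (hs.le_tsum k fun j _ => hnn j).trans (h0.trans (by simp))
  have h2 : nq k * ‖coeff (fun _ : V => g) k‖ ^ 2 = 0 := le_antisymm h1 (hnn k)
  have hq : nq k ≠ 0 := by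
    intro h
    apply hk
    funext i
    have := (Finset.sum_eq_zero_iff_of_nonneg (fun i _ => sq_nonneg ((k i : ℤ) : ℝ))).1 h i
      (Finset.mem_univ i)
    have h3 : ((k i : ℤ) : ℝ) = 0 := by simpa using this
    simpa using h3
  have h3 : ‖coeff (fun _ : V => g) k‖ ^ 2 = 0 := by
    rcases mul_eq_zero.1 h2 with h | h
    · exact absurd h hq
    · exact h
  have h4 : ‖coeff (fun _ : V => g) k‖ = 0 := by simpa using h3
  exact norm_eq_zero.1 h4

/-- TARGET -/
theorem sym_summable {δ : ℝ} {N : ℕ} {M : K → K → W → W → W} (h : IsSymbol δ M) (h2 : Sy2 N M)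
    {v w : V → V} (hv : ContDiff ℝ 1 v) (pv : Periodic3 v) (hw : ContDiff ℝ 1 w)
    (pw : Periodic3 w) : Summable fun z : K × K => ‖M z.1 z.2 (coeff v z.1) (coeff w z.2)‖ := by
  have hp := pair_summable (a := fun k => ‖coeff v k‖) (b := fun k => ‖coeff w k‖)
    (fun _ => norm_nonneg _) (fun _ => norm_nonneg _) (coeff_sq hv pv).1 (coeff_sq hw pw).1
  refine Summable.of_nonneg_of_le (fun _ => norm_nonneg _) (fun z => ?_) (hp.mul_left δ)
  by_cases hz : z ∈ cset
  · rw [Set.indicator_of_mem hz]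
    exact h.bdd _ _ _ _
  · rw [Set.indicator_of_notMem hz, M_eq_zero h2 (by simpa using hz)]
    simp

/-- TARGET -/
theorem op_energy {δ : ℝ} {N : ℕ} {M : K → K → W → W → W} (h : IsSymbol δ M) (h2 : Sy2 N M)
    {v w : V → V} (hv : ContDiff ℝ 1 v) (pv : Periodic3 v) (hw : ContDiff ℝ 1 w)
    (pw : Periodic3 w) : ∫ x in torus, ∑ i, op M v w x i * w x i = 0 := by
  have hs := sym_summable h h2 hv pv hw pw
  obtain ⟨C, hC⟩ := coeff_bdd hw.continuous pw
  have e := series_pair (k := fun z : K × K => z.1 + z.2) hs hw.continuous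
  have e2 := tsum_skew h h2 (a := coeff v) (b := coeff w) (coeff_neg v) (coeff_neg w) hs hC
  rw [e2, mul_zero] at e
  exact e

/-- TARGET -/
theorem op_helicity {δ : ℝ} {N : ℕ} {M : K → K → W → W → W} (h : IsSymbol δ M) (h2 : Sy2 N M)
    {v : V → V} (hv : ContDiff ℝ 1 v) (pv : Periodic3 v) :
    ∫ x in torus, ∑ i, op M v v x i * curl v x i = 0 := by
  have hs := sym_summable h h2 hv pv hv pv
  have hcc := curl_continuous hv
  obtain ⟨C, hC⟩ := coeff_bdd hcc (curl_periodic pv)
  have e := series_pair (k := fun z : K × K => z.1 + z.2) hs hcc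
  have hC' : ∀ k, ‖cu k (coeff v k)‖ ≤ C := fun k => by
    rw [← coeff_curl hv pv k]; exact hC k
  have e2 := tsum_hel h h2 (a := coeff v) (coeff_neg v) hs hC'
  simp only [coeff_curl hv pv] at e
  rw [e2, mul_zero] at e
  exact e

/-- TARGET -/
theorem op_mean {δ : ℝ} {N : ℕ} {M : K → K → W → W → W} (h : IsSymbol δ M) (h2 : Sy2 N M)
    {v w : V → V} (hv : ContDiff ℝ 1 v) (pv : Periodic3 v) (hw : ContDiff ℝ 1 w)
    (pw : Periodic3 w) (i : Fin 3) : ∫ x in torus, op M v w x i = 0 := by
  have hs := sym_summable h h2 hv pv hw pw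
  have e := series_pair (k := fun z : K × K => z.1 + z.2) hs
    (g := fun _ => (Pi.single i 1 : V)) continuous_const
  have h0 : ∀ z : K × K, dt (M z.1 z.2 (coeff v z.1) (coeff w z.2))
      (cj (coeff (fun _ => (Pi.single i 1 : V)) (z.1 + z.2))) = 0 := by
    intro z
    by_cases hz : z.1 + z.2 = 0
    · rw [M_eq_zero h2 (fun hh => hh.2 hz)]
      simp [dt]
    · rw [coeff_const _ hz]
      simp [dt, cj]
  simp only [h0] at e
  rw [tsum_zero, Complex.zero_re, mul_zero] at e
  rw [← e]
  refine integral_congr_ae (Filter.Eventually.of_forall fun x => ?_)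
  simp only [Fin.sum_univ_three, op]
  fin_cases i <;> simp [Pi.single_apply]

end H706T.JFC

namespace H706T

alias sym_summable := JFC.sym_summable
alias op_energy := JFC.op_energy
alias op_helicity := JFC.op_helicity
alias op_mean := JFC.op_mean

end H706T
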