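import Pool.Agent.Helper706_TE.Defs2
import Pool.Agent.Helper706_TE.CB
import Pool.Agent.Helper706_TE.LS
import Pool.Agent.Helper706_TE.SF
import Pool.Agent.Helper706_TE.FC

set_option autoImplicit false
open Set Filter Topology MeasureTheory
open scoped ComplexConjugate ContDiff

namespace H706T.JES

theorem es_dt_le (a b : W) : ‖dt a (cj b)‖ ≤ ‖a‖ * ‖b‖ := by
  have h1 : dt a (cj b) = inner ℂ b a := by
    rw [PiLp.inner_apply]
    unfold dt cj
    refine Finset.sum_congr rfl fun j _ => ?_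
    simp
  rw [h1, mul_comm]
  exact norm_inner_le_norm b a

theorem es_comp_summable {c : K × K → W} (hs : Summable fun z => ‖c z‖) (x : V) (i : Fin 3) :
    Summable fun z : K × K => c z i * Complex.exp (Complex.I * (dot (z.1 + z.2) x : ℂ)) := by
  refine Summable.of_norm_bounded hs fun z => ?_
  rw [norm_mul]
  have h1 : ‖Complex.exp (Complex.I * (dot (z.1 + z.2) x : ℂ))‖ = 1 := by
    rw [mul_comm]
    exact Complex.norm_exp_ofReal_mul_I _
  rw [h1, mul_one]
  exact PiLp.norm_apply_le (c z) i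

theorem es_sub {M : K → K → W → W → W} {δ : ℝ} (h : IsSymbol δ M) (p q : K) (a a' b b' : W) :
    M p q a b - M p q a' b' = M p q a (b - b') + M p q (a - a') b' := by
  have e1 : M p q a (b - b') = M p q a b - M p q a b' := by
    have := h.lin₂ p q (-1) a b b'
    rw [neg_one_smul, neg_one_smul] at this
    rw [sub_eq_add_neg, this, sub_eq_add_neg]
  have e2 : M p q (a - a') b' = M p q a b' - M p q a' b' := by
    have := h.lin₁ p q (-1) a a' b'
    rw [neg_one_smul, neg_one_smul] at this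
    rw [sub_eq_add_neg, this, sub_eq_add_neg]
  rw [e1, e2]
  abel

theorem es_op_cont {δ : ℝ} {N : ℕ} {M : K → K → W → W → W} (h : IsSymbol δ M) (h2 : Sy2 N M)
    {v w : V → V} (hv : ContDiff ℝ 1 v) (pv : Periodic3 v) (hw : ContDiff ℝ 1 w)
    (pw : Periodic3 w) : Continuous (fun x => op M v w x) :=
  (series_cont (c := fun z : K × K => M z.1 z.2 (coeff v z.1) (coeff w z.2))
    (k := fun z => z.1 + z.2) (sym_summable h h2 hv pv hw pw)).1

/-- TARGET -/
theorem op_est {δ : ℝ} {N : ℕ} {M : K → K → W → W → W} (hδ : 0 ≤ δ) (h : IsSymbol δ M)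
    (h2 : Sy2 N M) {w u : V → V} (hw : ContDiff ℝ 1 w) (pw : Periodic3 w) (hu : ContDiff ℝ 1 u)
    (pu : Periodic3 u) {B : ℝ} (hB : ∀ x i j, |D u x j i| ≤ B) :
    |∫ x in torus, ∑ i, (w x i - u x i) * (op M w w x i - op M u u x i)|
      ≤ 6 * δ * B * ∫ x in torus, ∑ i, (w x i - u x i) ^ 2 := by
  obtain ⟨d, hd⟩ : ∃ d : V → V, d = fun x i => w x i - u x i := ⟨_, rfl⟩
  have hdd : d = w - u := by rw [hd]; rfl
  have hd1 : ContDiff ℝ 1 d := by rw [hdd]; exact hw.sub hu
  have pd : Periodic3 d := by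
    intro i x
    rw [hdd, Pi.sub_apply, Pi.sub_apply, pw i x, pu i x]
  have hdx : ∀ x i, w x i - u x i = d x i := fun x i => by rw [hd]
  have hdc : ∀ k, coeff d k = coeff w k - coeff u k := fun k => by
    rw [hd]; exact coeff_sub hw.continuous hu.continuous k
  have hB0 : 0 ≤ B := (abs_nonneg _).trans (hB 0 0 0)
  -- the bilinear decomposition
  have hop : ∀ x i, op M w w x i - op M u u x i = op M w d x i + op M d u x i := by
    intro x i
    have s1 := es_comp_summable (sym_summable h h2 hw pw hw pw) x i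
    have s2 := es_comp_summable (sym_summable h h2 hu pu hu pu) x i
    have s3 := es_comp_summable (sym_summable h h2 hw pw hd1 pd) x i
    have s4 := es_comp_summable (sym_summable h h2 hd1 pd hu pu) x i
    unfold op
    rw [← Complex.sub_re, ← Complex.add_re, ← s1.tsum_sub s2, ← s3.tsum_add s4]
    congr 2
    funext z
    rw [← sub_mul, ← add_mul]
    congr 1
    have := es_sub h z.1 z.2 (coeff w z.1) (coeff u z.1) (coeff w z.2) (coeff u z.2)
    rw [hdc, hdc, ← PiLp.sub_apply, this, PiLp.add_apply]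
  have c1 := es_op_cont h h2 hw pw hd1 pd
  have c2 := es_op_cont h h2 hd1 pd hu pu
  have hcd := hd1.continuous
  have hcomp : IsCompact torus := isCompact_Icc
  have i1 : IntegrableOn (fun x => ∑ i, op M w d x i * d x i) torus := by
    apply ContinuousOn.integrableOn_compact hcomp
    apply Continuous.continuousOn
    exact continuous_finsetSum _ fun i _ =>
      ((continuous_apply i).comp c1).mul ((continuous_apply i).comp hcd)
  have i2 : IntegrableOn (fun x => ∑ i, op M d u x i * d x i) torus := by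
    apply ContinuousOn.integrableOn_compact hcomp
    apply Continuous.continuousOn
    exact continuous_finsetSum _ fun i _ =>
      ((continuous_apply i).comp c2).mul ((continuous_apply i).comp hcd)
  have hsplit : ∫ x in torus, ∑ i, (w x i - u x i) * (op M w w x i - op M u u x i) =
      ∫ x in torus, ∑ i, op M d u x i * d x i := by
    have e1 : ∀ x, ∑ i, (w x i - u x i) * (op M w w x i - op M u u x i) =
        (∑ i, op M w d x i * d x i) + ∑ i, op M d u x i * d x i := by
      intro x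
      rw [← Finset.sum_add_distrib]
      refine Finset.sum_congr rfl fun i _ => ?_
      rw [hop, hdx]
      ring
    simp_rw [e1]
    rw [integral_add i1 i2, op_energy h h2 hw pw hd1 pd, zero_add]
  have hpair : ∫ x in torus, ∑ i, op M d u x i * d x i = (2 * Real.pi) ^ 3 *
      (∑' z : K × K, dt (M z.1 z.2 (coeff d z.1) (coeff u z.2)) (cj (coeff d (z.1 + z.2)))).re :=
    series_pair (c := fun z : K × K => M z.1 z.2 (coeff d z.1) (coeff u z.2))
      (k := fun z => z.1 + z.2) (sym_summable h h2 hd1 pd hu pu) hcd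
  have hsq := coeff_sq0 hcd pd
  obtain ⟨t1, t2⟩ := tri_bound (d := fun k => ‖coeff d k‖) (u := fun k => ‖coeff u k‖)
    (fun k => norm_nonneg _) (fun k => norm_nonneg _) (B := 3 * B) (by positivity)
    (coeff_sq hu pu).1 ((coeff_sq hu pu).2 B hB) hsq.summable
  have hterm : ∀ z : K × K,
      ‖dt (M z.1 z.2 (coeff d z.1) (coeff u z.2)) (cj (coeff d (z.1 + z.2)))‖ ≤
      δ * cset.indicator (fun z => ‖coeff d z.1‖ * ‖coeff u z.2‖ * ‖coeff d (z.1 + z.2)‖) z := by
    intro z
    by_cases hz : M z.1 z.2 (coeff d z.1) (coeff u z.2) = 0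
    · rw [hz]
      have h0 : dt 0 (cj (coeff d (z.1 + z.2))) = 0 := by
        unfold dt; simp
      rw [h0, norm_zero]
      apply mul_nonneg hδ
      apply Set.indicator_nonneg
      intro z _
      positivity
    · obtain ⟨s1, s2, -⟩ := h2.supp _ _ _ _ hz
      have hzc : z ∈ cset := ⟨s1, s2⟩
      rw [Set.indicator_of_mem hzc]
      calc _ ≤ ‖M z.1 z.2 (coeff d z.1) (coeff u z.2)‖ * ‖coeff d (z.1 + z.2)‖ := es_dt_le _ _
        _ ≤ (δ * (‖coeff d z.1‖ * ‖coeff u z.2‖)) * ‖coeff d (z.1 + z.2)‖ :=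
          mul_le_mul_of_nonneg_right (h.bdd _ _ _ _) (norm_nonneg _)
        _ = _ := by ring
  have hsum : Summable fun z : K × K => δ * cset.indicator
      (fun z => ‖coeff d z.1‖ * ‖coeff u z.2‖ * ‖coeff d (z.1 + z.2)‖) z := t1.mul_left δ
  have hbound : ‖∑' z : K × K,
      dt (M z.1 z.2 (coeff d z.1) (coeff u z.2)) (cj (coeff d (z.1 + z.2)))‖ ≤
      δ * (2 * (3 * B) * ∑' k, ‖coeff d k‖ ^ 2) := by
    calc _ ≤ ∑' z : K × K, δ * cset.indicator
          (fun z => ‖coeff d z.1‖ * ‖coeff u z.2‖ * ‖coeff d (z.1 + z.2)‖) z :=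
          tsum_of_norm_bounded hsum.hasSum hterm
      _ = δ * ∑' z : K × K, cset.indicator
          (fun z => ‖coeff d z.1‖ * ‖coeff u z.2‖ * ‖coeff d (z.1 + z.2)‖) z := tsum_mul_left
      _ ≤ _ := mul_le_mul_of_nonneg_left t2 hδ
  have hpi : 0 < (2 * Real.pi) ^ 3 := by positivity
  have hfin : ∫ x in torus, ∑ i, (w x i - u x i) ^ 2 = (2 * Real.pi) ^ 3 * ∑' k, ‖coeff d k‖ ^ 2 := by
    rw [hsq.tsum_eq]
    have e2 : ∀ x, ∑ i, (w x i - u x i) ^ 2 = ∑ i, d x i ^ 2 := fun x =>
      Finset.sum_congr rfl fun i _ => by rw [hdx]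
    simp_rw [e2]
    field_simp
  rw [hsplit, hpair, abs_mul, abs_of_pos hpi, hfin]
  calc (2 * Real.pi) ^ 3 * |(∑' z : K × K,
        dt (M z.1 z.2 (coeff d z.1) (coeff u z.2)) (cj (coeff d (z.1 + z.2)))).re|
      ≤ (2 * Real.pi) ^ 3 * (δ * (2 * (3 * B) * ∑' k, ‖coeff d k‖ ^ 2)) :=
        mul_le_mul_of_nonneg_left ((Complex.abs_re_le_norm _).trans hbound) hpi.le
    _ = _ := by ring

end H706T.JES

namespace H706T

alias op_est := JES.op_est

end H706T
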