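import Pool.Agent.Helper706_TE.Defs2

set_option autoImplicit false
open Set Filter Topology MeasureTheory
open scoped ComplexConjugate ContDiff

namespace H706T.JIW

/-! ### One-dimensional integrals and the orthogonality of the exponentials -/

theorem int1 (n : ℤ) : ∫ t in Icc (-Real.pi) Real.pi, Complex.exp (Complex.I * ((n : ℝ) * t : ℝ)) =
    if n = 0 then (2 * Real.pi : ℂ) else 0 := by
  rw [integral_Icc_eq_integral_Ioc, ← intervalIntegral.integral_of_le (by linarith [Real.pi_pos])]
  split_ifs with h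
  · subst h
    simp
    ring
  · have hc : Complex.I * (n : ℂ) ≠ 0 := mul_ne_zero Complex.I_ne_zero (by exact_mod_cast h)
    have h1 : ∀ t : ℝ, Complex.exp (Complex.I * ((n : ℝ) * t : ℝ)) =
        Complex.exp (Complex.I * (n : ℂ) * t) := by
      intro t
      congr 1
      push_cast
      ring
    simp only [h1]
    rw [integral_exp_mul_complex hc]
    have h2 : Complex.exp (Complex.I * (n : ℂ) * (Real.pi : ℝ)) =
        Complex.exp (Complex.I * (n : ℂ) * ((-Real.pi : ℝ) : ℂ)) := by
      rw [Complex.exp_eq_exp_iff_exists_int]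
      refine ⟨n, ?_⟩
      push_cast
      ring
    rw [h2, sub_self, zero_div]

theorem int3 (k : K) : ∫ x in torus, Complex.exp (Complex.I * (dot k x : ℂ)) =
    if k = 0 then ((2 * Real.pi) ^ 3 : ℂ) else 0 := by
  have h1 : torus = Set.univ.pi fun _ : Fin 3 => Icc (-Real.pi) Real.pi := by
    unfold torus
    exact (Set.pi_univ_Icc _ _).symm
  have h2 : ∀ x : V, Complex.exp (Complex.I * (dot k x : ℂ)) =
      ∏ i, Complex.exp (Complex.I * ((k i : ℝ) * x i : ℝ)) := by
    intro x
    rw [← Complex.exp_sum]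
    congr 1
    unfold dot
    push_cast
    rw [Finset.mul_sum]
  rw [h1, volume_pi, Measure.restrict_pi_pi]
  simp only [h2]
  rw [integral_fintype_prod_eq_prod
    (f := fun i (t : ℝ) => Complex.exp (Complex.I * ((k i : ℝ) * t : ℝ)))]
  simp only [int1]
  split_ifs with h
  · subst h
    simp
  · obtain ⟨i, hi⟩ := Function.ne_iff.1 h
    exact Finset.prod_eq_zero (Finset.mem_univ i) (if_neg hi)

theorem torus_vol : volume torus ≠ ⊤ := by
  unfold torus
  exact (isCompact_Icc.measure_lt_top).ne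

theorem norm_ei (k : K) (x : V) : ‖Complex.exp (Complex.I * (dot k x : ℂ))‖ = 1 := by
  rw [mul_comm]
  exact Complex.norm_exp_ofReal_mul_I _

theorem cont_dot (k : K) : Continuous (dot k) := by
  unfold dot
  fun_prop

theorem dot_neg (k : K) (x : V) : dot (-k) x = -dot k x := by
  unfold dot
  rw [← Finset.sum_neg_distrib]
  refine Finset.sum_congr rfl fun i _ => ?_
  rw [Pi.neg_apply]
  push_cast
  ring

theorem dot_sub (k l : K) (x : V) : dot (k - l) x = dot k x - dot l x := by
  unfold dot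
  rw [← Finset.sum_sub_distrib]
  refine Finset.sum_congr rfl fun i _ => ?_
  rw [Pi.sub_apply]
  push_cast
  ring

/-! ### The isometries -/

theorem unit_sq (e : ℤˣ) : ((e : ℤ) : ℝ) * ((e : ℤ) : ℝ) = 1 := by
  rcases Int.units_eq_one_or e with h | h <;> simp [h]

theorem unit_sqZ (e : ℤˣ) : (e : ℤ) * (e : ℤ) = 1 := by
  rcases Int.units_eq_one_or e with h | h <;> simp [h]

theorem pinv1 (σ : Equiv.Perm (Fin 3)) (i : Fin 3) : σ (σ⁻¹ i) = i := σ.apply_symm_apply i

theorem pinv2 (σ : Equiv.Perm (Fin 3)) (i : Fin 3) : σ⁻¹ (σ i) = i := σ.symm_apply_apply i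

theorem actV_inv (σ : Equiv.Perm (Fin 3)) (ε : Fin 3 → ℤˣ) (x : V) :
    actV σ⁻¹ (fun i => ε (σ⁻¹ i)) (actV σ ε x) = x := by
  funext i
  unfold actV
  simp only [pinv1]
  rw [← mul_assoc, unit_sq, one_mul]

theorem actV_inv' (σ : Equiv.Perm (Fin 3)) (ε : Fin 3 → ℤˣ) (x : V) :
    actV σ ε (actV σ⁻¹ (fun i => ε (σ⁻¹ i)) x) = x := by
  funext i
  unfold actV
  simp only [pinv2]
  rw [← mul_assoc, unit_sq, one_mul]

theorem actV_cont (σ : Equiv.Perm (Fin 3)) (ε : Fin 3 → ℤˣ) : Continuous (actV σ ε) := by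
  unfold actV
  fun_prop

/-- The isometry as a homeomorphism. -/
noncomputable def actH (σ : Equiv.Perm (Fin 3)) (ε : Fin 3 → ℤˣ) : V ≃ₜ V where
  toFun := actV σ ε
  invFun := actV σ⁻¹ (fun i => ε (σ⁻¹ i))
  left_inv := actV_inv σ ε
  right_inv := actV_inv' σ ε
  continuous_toFun := actV_cont _ _
  continuous_invFun := actV_cont _ _

theorem actV_mp (σ : Equiv.Perm (Fin 3)) (ε : Fin 3 → ℤˣ) :
    MeasurePreserving (actV σ ε) (volume : Measure V) volume := by
  have h1 : MeasurePreserving (fun x : V => fun i => x (σ i)) volume volume := by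
    have h2 := volume_measurePreserving_piCongrLeft (fun _ : Fin 3 => ℝ) σ⁻¹
    have h3 : (⇑(MeasurableEquiv.piCongrLeft (fun _ : Fin 3 => ℝ) σ⁻¹) : V → V) =
        fun x : V => fun i => x (σ i) := by
      funext x i
      have h4 := Equiv.piCongrLeft_apply_apply (fun _ : Fin 3 => ℝ) σ⁻¹ x (σ i)
      rw [pinv2] at h4
      exact h4
    rw [h3] at h2
    exact h2
  have h4 : MeasurePreserving (fun x : V => fun i => ((ε i : ℤ) : ℝ) * x i) volume volume := by
    refine volume_preserving_pi (f := fun i (t : ℝ) => ((ε i : ℤ) : ℝ) * t) fun i => ?_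
    rcases Int.units_eq_one_or (ε i) with h | h
    · rw [h]
      simp only [Units.val_one, Int.cast_one, one_mul]
      exact MeasurePreserving.id (volume : Measure ℝ)
    · rw [h]
      simpa using Measure.measurePreserving_neg (volume : Measure ℝ)
  exact h4.comp h1

theorem actV_torus (σ : Equiv.Perm (Fin 3)) (ε : Fin 3 → ℤˣ) : actV σ ε ⁻¹' torus = torus := by
  have h1 : ∀ (σ : Equiv.Perm (Fin 3)) (ε : Fin 3 → ℤˣ) (x : V), x ∈ torus → actV σ ε x ∈ torus := by
    intro σ ε x hx
    have h2 : ∀ i, |x i| ≤ Real.pi := fun i => abs_le.2 ⟨hx.1 i, hx.2 i⟩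
    have h3 : ∀ i, |actV σ ε x i| ≤ Real.pi := by
      intro i
      unfold actV
      rcases Int.units_eq_one_or (ε i) with h | h <;> rw [h] <;> simp [h2]
    exact ⟨fun i => (abs_le.1 (h3 i)).1, fun i => (abs_le.1 (h3 i)).2⟩
  ext x
  refine ⟨fun hx => ?_, fun hx => h1 σ ε x hx⟩
  have h2 := h1 σ⁻¹ (fun i => ε (σ⁻¹ i)) _ hx
  rwa [actV_inv] at h2

theorem dot_act (σ : Equiv.Perm (Fin 3)) (ε : Fin 3 → ℤˣ) (k : K) (x : V) :
    dot (actK σ ε k) (actV σ ε x) = dot k x := by
  unfold dot actK actV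
  rw [← Equiv.sum_comp σ (fun i => (k i : ℝ) * x i)]
  refine Finset.sum_congr rfl fun i _ => ?_
  push_cast
  have h := unit_sq (ε i)
  linear_combination (k (σ i) : ℝ) * x (σ i) * h

theorem int_act {E : Type} [NormedAddCommGroup E] [NormedSpace ℝ E] (σ : Equiv.Perm (Fin 3))
    (ε : Fin 3 → ℤˣ) (f : V → E) : ∫ x in torus, f x = ∫ x in torus, f (actV σ ε x) := by
  have h := (actV_mp σ ε).setIntegral_preimage_emb (actH σ ε).measurableEmbedding f torus
  rw [← h, actV_torus]

/-- TARGET -/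
theorem coeff_act {v v' : V → V} (hv : Continuous v) (σ : Equiv.Perm (Fin 3)) (ε : Fin 3 → ℤˣ)
    (h : ∀ x, v' (actV σ ε x) = actV σ ε (v x)) (k : K) :
    coeff v' (actK σ ε k) = actW σ ε (coeff v k) := by
  ext i
  unfold coeff actW
  simp only
  rw [int_act σ ε, ← mul_div_assoc, ← integral_const_mul]
  congr 1
  refine integral_congr_ae (Filter.Eventually.of_forall fun x => ?_)
  simp only
  rw [h, dot_act]
  unfold actV
  push_cast
  ring

theorem coeff_add {v : V → V} (hv : Continuous v) (c : V) {k : K} (hk : k ≠ 0) :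
    coeff (fun y => v y + c) k = coeff v k := by
  ext i
  unfold coeff
  simp only
  congr 1
  have hfin : IsFiniteMeasure (volume.restrict torus) :=
    ⟨by rw [Measure.restrict_apply_univ]; exact torus_vol.lt_top⟩
  have hcd := cont_dot k
  have h1 : ∀ y : V, (((v y + c) i : ℝ) : ℂ) * Complex.exp (-Complex.I * (dot k y : ℂ)) =
      (v y i : ℂ) * Complex.exp (-Complex.I * (dot k y : ℂ)) +
        (c i : ℂ) * Complex.exp (Complex.I * (dot (-k) y : ℂ)) := by
    intro y
    rw [Pi.add_apply, dot_neg]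
    push_cast
    rw [add_mul, mul_neg, neg_mul]
  simp only [h1]
  have hcomp : IsCompact torus := by
    unfold torus
    exact isCompact_Icc
  have hi1 : IntegrableOn (fun y : V => (v y i : ℂ) * Complex.exp (-Complex.I * (dot k y : ℂ)))
      torus := by
    refine ContinuousOn.integrableOn_compact hcomp (Continuous.continuousOn ?_)
    fun_prop
  have hcd2 := cont_dot (-k)
  have hi2 : IntegrableOn (fun y : V => (c i : ℂ) * Complex.exp (Complex.I * (dot (-k) y : ℂ)))
      torus := by
    refine ContinuousOn.integrableOn_compact hcomp (Continuous.continuousOn ?_)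
    fun_prop
  rw [integral_add hi1 hi2, integral_const_mul, int3, if_neg (neg_ne_zero.2 hk), mul_zero, add_zero]

/-- TARGET -/
theorem op_galilei {N : ℕ} {M : K → K → W → W → W} (h2 : Sy2 N M) {v w : V → V}
    (hv : Continuous v) (hw : Continuous w) (c c' x : V) :
    op M (fun y => v y + c) (fun y => w y + c') x = op M v w x := by
  funext i
  unfold op
  congr 1
  refine tsum_congr fun z => ?_
  by_cases h : z.1 ≠ 0 ∧ z.2 ≠ 0
  · rw [coeff_add hv c h.1, coeff_add hw c' h.2]
  · have h0 : ∀ a b, M z.1 z.2 a b = 0 := by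
      intro a b
      by_contra hne
      have := (h2.supp _ _ a b hne).1
      exact h ⟨this.2.1, this.2.2⟩
    rw [h0, h0]

theorem actK_bij (σ : Equiv.Perm (Fin 3)) (ε : Fin 3 → ℤˣ) : Function.Bijective (actK σ ε) := by
  refine Function.bijective_iff_has_inverse.2 ⟨actK σ⁻¹ (fun i => ε (σ⁻¹ i)), fun k => ?_,
    fun k => ?_⟩
  · funext i
    unfold actK
    simp only [pinv1]
    rw [← mul_assoc, unit_sqZ, one_mul]
  · funext i
    unfold actK
    simp only [pinv2]
    rw [← mul_assoc, unit_sqZ, one_mul]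

theorem actK_add (σ : Equiv.Perm (Fin 3)) (ε : Fin 3 → ℤˣ) (k l : K) :
    actK σ ε (k + l) = actK σ ε k + actK σ ε l := by
  funext i
  unfold actK
  simp only [Pi.add_apply]
  ring

/-- TARGET -/
theorem op_act {N : ℕ} {M : K → K → W → W → W} (h2 : Sy2 N M) {v w v' w' : V → V}
    (hv : Continuous v) (hw : Continuous w) (σ : Equiv.Perm (Fin 3)) (ε : Fin 3 → ℤˣ)
    (hv' : ∀ x, v' (actV σ ε x) = actV σ ε (v x)) (hw' : ∀ x, w' (actV σ ε x) = actV σ ε (w x))
    (x : V) : op M v' w' (actV σ ε x) = actV σ ε (op M v w x) := by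
  funext i
  have hb : Function.Bijective (Prod.map (actK σ ε) (actK σ ε)) :=
    (actK_bij σ ε).prodMap (actK_bij σ ε)
  have h3 : (∑' z : K × K, M z.1 z.2 (coeff v' z.1) (coeff w' z.2) i *
      Complex.exp (Complex.I * (dot (z.1 + z.2) (actV σ ε x) : ℂ))) =
      ((ε i : ℤ) : ℂ) * ∑' z : K × K, M z.1 z.2 (coeff v z.1) (coeff w z.2) (σ i) *
        Complex.exp (Complex.I * (dot (z.1 + z.2) x : ℂ)) := by
    rw [← (Equiv.ofBijective _ hb).tsum_eq, ← tsum_mul_left]
    refine tsum_congr fun z => ?_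
    simp only [Equiv.ofBijective_apply, Prod.map_fst, Prod.map_snd]
    rw [coeff_act hv σ ε hv', coeff_act hw σ ε hw', h2.eqv, ← actK_add, dot_act]
    simp only [actW]
    ring
  unfold op actV
  simp only
  have h4 := congrArg Complex.re h3
  unfold actV at h4
  rw [h4]
  have h5 : ((ε i : ℤ) : ℂ) = (((ε i : ℤ) : ℝ) : ℂ) := by push_cast; rfl
  rw [h5, Complex.re_ofReal_mul]

end H706T.JIW

namespace H706T

alias coeff_act := JIW.coeff_act
alias op_galilei := JIW.op_galilei
alias op_act := JIW.op_act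

end H706T
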