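import Pool.Agent.Helper706_TE.Defs3

set_option autoImplicit false
open Set Filter Topology MeasureTheory
open scoped ComplexConjugate ContDiff

namespace H706T.JLC

theorem lc_zero₁ {δ : ℝ} {M : K → K → W → W → W} (h : IsSymbol δ M) (p q : K) (b : W) :
    M p q 0 b = 0 := by
  have := h.bdd p q 0 b
  rw [norm_zero, zero_mul, mul_zero] at this
  exact norm_le_zero_iff.mp this

theorem lc_zero₂ {δ : ℝ} {M : K → K → W → W → W} (h : IsSymbol δ M) (p q : K) (a : W) :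
    M p q a 0 = 0 := by
  have := h.bdd p q a 0
  rw [norm_zero, mul_zero, mul_zero] at this
  exact norm_le_zero_iff.mp this

theorem lc_smul {δ : ℝ} {M : K → K → W → W → W} (h : IsSymbol δ M) (p q : K) (c d : ℂ) (a b : W) :
    M p q (c • a) (d • b) = (c * d) • M p q a b := by
  have h1 := h.lin₁ p q c 0 a (d • b)
  have h2 := h.lin₂ p q d a 0 b
  rw [zero_add, lc_zero₁ h, zero_add] at h1
  rw [zero_add, lc_zero₂ h, zero_add] at h2
  rw [h1, h2, smul_smul]

theorem lc_symm (T : ℤ → W) (hT : Summable T) (l : ℤ) :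
    ∑' m : ℤ, (T m + T (l - m)) = (2 : ℂ) • ∑' m : ℤ, T m := by
  have h1 : ∑' m : ℤ, T (l - m) = ∑' m : ℤ, T m := (Equiv.subLeft l).tsum_eq T
  have h2 : Summable fun m : ℤ => T (l - m) := (Equiv.subLeft l).summable_iff.mpr hT
  rw [hT.tsum_add h2, h1, two_smul]

/-- the real sum over all integers -/
theorem lc_real {L : ℤ → ℤ → ℝ} (hL : LW L) {b : ℤ → ℝ} (hodd : ∀ l, b (-l) = -b l) {l : ℕ}
    (hl : 0 < l)
    (hs : Summable fun m : ℤ => L ((l : ℤ) - m) m * (b ((l : ℤ) - m) * b m) *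
      (if 0 < ((l : ℤ) - m) * m then 2 * sgr ((l : ℤ) - m) else sgr (((l : ℤ) - m) + m))) :
    ∑' m : ℤ, L ((l : ℤ) - m) m * (b ((l : ℤ) - m) * b m) *
      (if 0 < ((l : ℤ) - m) * m then 2 * sgr ((l : ℤ) - m) else sgr (((l : ℤ) - m) + m))
    = 2 * (∑ m ∈ Finset.Ico 1 l, L ((l : ℤ) - m) m * (b ((l : ℤ) - m) * b m)
          - ∑' m : ℕ, L l (m + 1) * (b (m + 1) * b (l + m + 1))) := by
  have hb0 : b 0 = 0 := by
    have := hodd 0
    rw [neg_zero] at this
    linarith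
  set d : ℤ → ℝ := fun m : ℤ => L ((l : ℤ) - m) m * (b ((l : ℤ) - m) * b m) *
      (if 0 < ((l : ℤ) - m) * m then 2 * sgr ((l : ℤ) - m) else sgr (((l : ℤ) - m) + m)) with hd
  have hlz : (0 : ℤ) < (l : ℤ) := by exact_mod_cast hl
  have hsl : sgr (l : ℤ) = 1 := by
    rw [sgr, Int.sign_eq_one_of_pos hlz]
    norm_num
  have hLL : ∀ j : ℕ, L (-((j : ℤ) + 1)) ((l : ℤ) + j + 1) = L l (j + 1) := by
    intro j
    have h1 := hL.third ((j : ℤ) + 1) (l : ℤ)
    have e : (l : ℤ) + j + 1 = ((j : ℤ) + 1) + l := by ring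
    rw [e, h1, hL.symm]
  have hneg : ∀ j : ℕ, d (-((j : ℤ) + 1)) = -(L l (j + 1) * (b (j + 1) * b (l + j + 1))) := by
    intro j
    simp only [hd]
    have e1 : (l : ℤ) - -((j : ℤ) + 1) = (l : ℤ) + j + 1 := by ring
    have e2 : (l : ℤ) + j + 1 + -((j : ℤ) + 1) = (l : ℤ) := by ring
    have hj : (0 : ℤ) ≤ (j : ℤ) := Int.natCast_nonneg j
    have hn : ¬ (0 < ((l : ℤ) + j + 1) * -((j : ℤ) + 1)) := by
      push Not
      nlinarith
    rw [e1, if_neg hn, e2, hsl, hodd, hL.symm, hLL]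
    ring
  have hpos : ∀ j : ℕ, d (((j + (l + 1) : ℕ)) : ℤ) = -(L l (j + 1) * (b (j + 1) * b (l + j + 1))) := by
    intro j
    simp only [hd]
    have e0 : (((j + (l + 1) : ℕ)) : ℤ) = (l : ℤ) + j + 1 := by push_cast; ring
    have e1 : (l : ℤ) - ((l : ℤ) + j + 1) = -((j : ℤ) + 1) := by ring
    have e2 : -((j : ℤ) + 1) + ((l : ℤ) + j + 1) = (l : ℤ) := by ring
    have hj : (0 : ℤ) ≤ (j : ℤ) := Int.natCast_nonneg j
    have hn : ¬ (0 < -((j : ℤ) + 1) * ((l : ℤ) + j + 1)) := by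
      push Not
      nlinarith
    rw [e0, e1, if_neg hn, e2, hsl, hodd, hLL]
    ring
  have hmid : ∑ m ∈ Finset.range (l + 1), d (m : ℤ) =
      2 * ∑ m ∈ Finset.Ico 1 l, L ((l : ℤ) - m) m * (b ((l : ℤ) - m) * b m) := by
    rw [Finset.sum_range_succ]
    have hdl : d (l : ℤ) = 0 := by
      simp only [hd, sub_self, hb0]
      ring
    rw [hdl, add_zero, Finset.range_eq_Ico, Finset.sum_eq_sum_Ico_succ_bot hl]
    have hd0 : d ((0 : ℕ) : ℤ) = 0 := by
      simp only [hd, Nat.cast_zero, hb0]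
      ring
    rw [hd0, zero_add, Finset.mul_sum]
    apply Finset.sum_congr rfl
    intro m hm
    rw [Finset.mem_Ico] at hm
    simp only [hd]
    have h1 : (0 : ℤ) < (m : ℤ) := by exact_mod_cast (by omega : 0 < m)
    have h2 : (0 : ℤ) < (l : ℤ) - m := by
      have : (m : ℤ) < l := by exact_mod_cast hm.2
      linarith
    rw [if_pos (mul_pos h2 h1), sgr, Int.sign_eq_one_of_pos h2]
    push_cast
    ring
  have hs1 : Summable fun m : ℕ => d (m : ℤ) := hs.comp_injective Nat.cast_injective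
  have hs2 : Summable fun m : ℕ => d (-((m : ℤ) + 1)) := by
    refine hs.comp_injective (i := fun m : ℕ => (-((m : ℤ) + 1))) ?_
    intro x y hxy
    simp only [neg_inj, add_left_inj, Nat.cast_inj] at hxy
    exact hxy
  rw [tsum_of_nat_of_neg_add_one hs1 hs2, ← hs1.sum_add_tsum_nat_add (l + 1), hmid]
  have t1 : ∑' i : ℕ, d ((i + (l + 1) : ℕ) : ℤ) = -∑' m : ℕ, L l (m + 1) * (b (m + 1) * b (l + m + 1)) := by
    rw [← tsum_neg]
    exact tsum_congr hpos
  have t2 : ∑' i : ℕ, d (-((i : ℤ) + 1)) = -∑' m : ℕ, L l (m + 1) * (b (m + 1) * b (l + m + 1)) := by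
    rw [← tsum_neg]
    exact tsum_congr hneg
  rw [t1, t2]
  ring

/-- TARGET -/
theorem line_conv {κ δ : ℝ} {N : ℕ} {L : ℤ → ℤ → ℝ} {M : K → K → W → W → W} (h : IsSymbol δ M)
    (h2 : Sy2 N M) {n : K} {e : V} (hn : n ≠ 0) (hL : LW L) (hv : ValL κ L M n e) {b : ℤ → ℝ}
    (hb : Summable b) (hodd : ∀ l, b (-l) = -b l) {a : K → W}
    (ha : ∀ l : ℤ, a (l • n) = (-Complex.I * (b l : ℂ)) • vW e)
    (ha0 : ∀ k : K, (∀ l : ℤ, k ≠ l • n) → a k = 0) {l : ℕ} (hl : 0 < l) :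
    ∑' q : K, M ((l : ℤ) • n - q) q (a ((l : ℤ) • n - q)) (a q)
      = (-Complex.I * ((κ * (∑ m ∈ Finset.Ico 1 l, L ((l : ℤ) - m) m * (b ((l : ℤ) - m) * b m)
          - ∑' m : ℕ, L l (m + 1) * (b (m + 1) * b (l + m + 1))) : ℝ) : ℂ)) • vW e := by
  have hb0 : b 0 = 0 := by
    have := hodd 0
    rw [neg_zero] at this
    linarith
  have hlz : (0 : ℤ) < (l : ℤ) := by exact_mod_cast hl
  have hinj : Function.Injective (fun m : ℤ => m • n) := by
    intro x y hxy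
    obtain ⟨i, hi⟩ := Function.ne_iff.mp hn
    have h1 := congrFun hxy i
    simp only [Pi.smul_apply, smul_eq_mul] at h1
    exact mul_right_cancel₀ hi h1
  set F : K → W := fun q : K => M ((l : ℤ) • n - q) q (a ((l : ℤ) • n - q)) (a q) with hF
  have hsupp : Function.support F ⊆ Set.range (fun m : ℤ => m • n) := by
    intro q hq
    by_contra hcon
    apply hq
    have : ∀ m : ℤ, q ≠ m • n := by
      intro m hm
      exact hcon ⟨m, hm.symm⟩
    simp only [hF]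
    rw [ha0 q this, lc_zero₂ h]
  rw [← hinj.tsum_eq hsupp]
  set G : ℤ → ℤ → W := fun p q => M (p • n) (q • n) (vW e) (vW e) with hG
  set T : ℤ → W := fun m => (-((b ((l : ℤ) - m) * b m : ℝ) : ℂ)) • G ((l : ℤ) - m) m with hT
  have hFT : ∀ m : ℤ, F (m • n) = T m := by
    intro m
    simp only [hF, hT, hG]
    rw [← sub_smul, ha, ha, lc_smul h]
    congr 1
    push_cast
    linear_combination ((b ((l : ℤ) - m) : ℂ) * (b m : ℂ)) * Complex.I_mul_I
  have hbs : Summable fun m : ℤ => |b m| := hb.abs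
  obtain ⟨B, hB⟩ : ∃ B : ℝ, ∀ m : ℤ, |b m| ≤ B := ⟨∑' m : ℤ, |b m|, fun m =>
    hbs.le_tsum m (fun j _ => abs_nonneg _)⟩
  have hB0 : 0 ≤ B := (abs_nonneg _).trans (hB 0)
  have hbb : Summable fun m : ℤ => |b ((l : ℤ) - m) * b m| := by
    refine Summable.of_nonneg_of_le (fun m => abs_nonneg _) (fun m => ?_) (hbs.mul_left B)
    rw [abs_mul]
    exact mul_le_mul_of_nonneg_right (hB _) (abs_nonneg _)
  have hTs : Summable T := by
    refine Summable.of_norm_bounded (hbb.mul_right (δ * (‖vW e‖ * ‖vW e‖))) (fun m => ?_)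
    simp only [hT, hG]
    rw [norm_smul, norm_neg, Complex.norm_real, Real.norm_eq_abs]
    exact mul_le_mul_of_nonneg_left (h.bdd _ _ _ _) (abs_nonneg _)
  set τ : ℤ → ℝ := fun m => if 0 < ((l : ℤ) - m) * m then 2 * sgr ((l : ℤ) - m) else sgr (((l : ℤ) - m) + m)
    with hτ
  set d : ℤ → ℝ := fun m => L ((l : ℤ) - m) m * (b ((l : ℤ) - m) * b m) * τ m with hd
  have hτb : ∀ m, |τ m| ≤ 2 := by
    intro m
    have hsg : ∀ x : ℤ, |sgr x| ≤ 1 := by
      intro x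
      rw [sgr]
      rcases lt_trichotomy x 0 with hx | hx | hx
      · rw [Int.sign_eq_neg_one_of_neg hx]; norm_num
      · rw [hx]; norm_num
      · rw [Int.sign_eq_one_of_pos hx]; norm_num
    simp only [hτ]
    split_ifs
    · rw [abs_mul, abs_two]
      have := hsg ((l : ℤ) - m)
      linarith
    · have := hsg (((l : ℤ) - m) + m)
      linarith
  have hds : Summable d := by
    refine Summable.of_norm_bounded (hbb.mul_right 2) (fun m => ?_)
    simp only [hd]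
    rw [Real.norm_eq_abs, abs_mul, abs_mul]
    have h1 : |L ((l : ℤ) - m) m| * |b ((l : ℤ) - m) * b m| ≤ 1 * |b ((l : ℤ) - m) * b m| :=
      mul_le_mul_of_nonneg_right (hL.bdd _ _) (abs_nonneg _)
    calc |L ((l : ℤ) - m) m| * |b ((l : ℤ) - m) * b m| * |τ m|
        ≤ 1 * |b ((l : ℤ) - m) * b m| * 2 := mul_le_mul h1 (hτb m) (abs_nonneg _) (by positivity)
      _ = |b ((l : ℤ) - m) * b m| * 2 := by ring
  have hsym : ∀ m : ℤ, T m + T ((l : ℤ) - m) = (-Complex.I * ((κ * d m : ℝ) : ℂ)) • vW e := by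
    intro m
    have e1 : (l : ℤ) - ((l : ℤ) - m) = m := by ring
    simp only [hT, e1]
    by_cases hm0 : m = 0
    · subst hm0
      simp [hd, hb0]
    by_cases hml : (l : ℤ) - m = 0
    · simp [hd, hml, hb0]
    have hv1 := hv ((l : ℤ) - m) m hml hm0 (by
      rw [sub_add_cancel]
      exact hlz.ne')
    have e2 : G ((l : ℤ) - m) m + G m ((l : ℤ) - m) =
        (((κ * L ((l : ℤ) - m) m * τ m : ℝ) : ℂ) * Complex.I) • vW e := hv1
    have e3 : (b m * b ((l : ℤ) - m) : ℝ) = b ((l : ℤ) - m) * b m := mul_comm _ _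
    rw [e3, ← smul_add, e2, smul_smul]
    congr 1
    simp only [hd]
    push_cast
    ring
  have h2T : (2 : ℂ) • ∑' m : ℤ, T m = (-Complex.I * ((κ * ∑' m : ℤ, d m : ℝ) : ℂ)) • vW e := by
    have h2 := lc_symm T hTs (l : ℤ)
    rw [← h2]
    have h3 : ∑' m : ℤ, (T m + T ((l : ℤ) - m)) = ∑' m : ℤ, (-Complex.I * ((κ * d m : ℝ) : ℂ)) • vW e :=
      tsum_congr hsym
    have hdc : Summable fun m : ℤ => (-Complex.I * ((κ * d m : ℝ) : ℂ)) := by
      apply Summable.mul_left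
      exact Complex.summable_ofReal.mpr (hds.mul_left κ)
    rw [h3, hdc.tsum_smul_const, tsum_mul_left, ← Complex.ofReal_tsum, tsum_mul_left]
  have hr := lc_real hL hodd hl hds
  have hr' : ∑' m : ℤ, d m = 2 * (∑ m ∈ Finset.Ico 1 l, L ((l : ℤ) - m) m * (b ((l : ℤ) - m) * b m)
          - ∑' m : ℕ, L l (m + 1) * (b (m + 1) * b (l + m + 1))) := hr
  rw [hr'] at h2T
  have hfin : ∑' m : ℤ, F (m • n) = ∑' m : ℤ, T m := tsum_congr hFT
  rw [hfin]
  have h4 : ∑' m : ℤ, T m = (1 / 2 : ℂ) • ((2 : ℂ) • ∑' m : ℤ, T m) := by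
    rw [smul_smul]
    norm_num
  rw [h4, h2T, smul_smul]
  congr 1
  push_cast
  ring

end H706T.JLC

namespace H706T

alias line_conv := JLC.line_conv

end H706T
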