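import Pool.Agent.Helper706_TE.Defs4

set_option autoImplicit false
open Set Filter Topology MeasureTheory
open scoped ComplexConjugate ContDiff

namespace H706T.JMX

/-- TARGET -/
theorem exists_max {M : K → K → W → W → W} {u₀ : V → V} {B : ℝ}
    (huniq : ∀ (T : ℝ) (w u : ℝ → V → V) (q p : ℝ → V → ℝ), IsSolution M T w q →
      IsSolution M T u p → w 0 = u 0 → ∀ t ∈ Ico 0 T, w t = u t)
    (hmono : ∀ (T T' : ℝ) (u : ℝ → V → V) (p : ℝ → V → ℝ), IsSolution M T u p → T' ≤ T →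
      IsSolution M T' u p)
    (hne : ∃ T > 0, ∃ (w : ℝ → V → V) (q : ℝ → V → ℝ), IsSolution M T w q ∧ w 0 = u₀)
    (hB : ∀ (T : ℝ) (w : ℝ → V → V) (q : ℝ → V → ℝ), IsSolution M T w q → w 0 = u₀ → T ≤ B)
    (hz : ∀ (T : ℝ) (w : ℝ → V → V) (q : ℝ → V → ℝ), IsSolution M T w q → w 0 = u₀ →
      IsSolution M T w (fun _ _ => 0)) :
    ∃ Tm : ℝ, 0 < Tm ∧ Tm ≤ B ∧ ∃ u : ℝ → V → V, IsSolution M Tm u (fun _ _ => 0) ∧ u 0 = u₀ ∧
      ∀ (T : ℝ) (w : ℝ → V → V) (q : ℝ → V → ℝ), IsSolution M T w q → w 0 = u₀ →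
        T ≤ Tm ∧ ∀ t ∈ Ico 0 T, w t = u t := by
  classical
  have hS : ∃ T > 0, ∃ (w : ℝ → V → V) (q : ℝ → V → ℝ), IsSolution M T w q ∧ w 0 = u₀ := hne
  set S : Set ℝ := {T | 0 < T ∧ ∃ w : ℝ → V → V, IsSolution M T w (fun _ _ => 0) ∧ w 0 = u₀} with hSdef
  have hmem : ∀ (T : ℝ) (w : ℝ → V → V) (q : ℝ → V → ℝ), IsSolution M T w q → w 0 = u₀ → 0 < T → T ∈ S :=
    fun T w q hw h0 hT => ⟨hT, w, hz T w q hw h0, h0⟩
  have hbd : BddAbove S := ⟨B, fun T hT => by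
    obtain ⟨_, w, hw, h0⟩ := hT
    exact hB T w _ hw h0⟩
  obtain ⟨T₀, hT₀, w₀, q₀, hw₀, h00⟩ := hS
  have hT₀S : T₀ ∈ S := hmem T₀ w₀ q₀ hw₀ h00 hT₀
  have hne' : S.Nonempty := ⟨T₀, hT₀S⟩
  set Tm := sSup S with hTm
  have hTm0 : 0 < Tm := lt_of_lt_of_le hT₀ (le_csSup hbd hT₀S)
  have hTmB : Tm ≤ B := csSup_le hne' (fun T hT => by
    obtain ⟨_, w, hw, h0⟩ := hT
    exact hB T w _ hw h0)
  -- the choice
  have hch : ∀ t : ℝ, t < Tm → ∃ T' : ℝ, ∃ w : ℝ → V → V, t < T' ∧ T' ≤ Tm ∧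
      IsSolution M T' w (fun _ _ => 0) ∧ w 0 = u₀ := by
    intro t ht
    obtain ⟨T', hT', htT'⟩ := exists_lt_of_lt_csSup hne' ht
    have hle : T' ≤ Tm := le_csSup hbd hT'
    obtain ⟨_, w, hw, h0⟩ := hT'
    exact ⟨T', w, htT', hle, hw, h0⟩
  choose! T' w' hT'1 hT'2 hw' hw'0 using hch
  set u : ℝ → V → V := fun t => w' t t with hu
  have key : ∀ (T : ℝ) (w : ℝ → V → V) (q : ℝ → V → ℝ), IsSolution M T w q → w 0 = u₀ →
      T ≤ Tm ∧ ∀ t ∈ Ico 0 T, w t = u t := by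
    intro T w q hw h0
    have hTT : T ≤ Tm := by
      rcases le_or_gt T 0 with h | h
      · exact h.trans hTm0.le
      · exact le_csSup hbd (hmem T w q hw h0 h)
    refine ⟨hTT, fun t ht => ?_⟩
    have htm : t < Tm := lt_of_lt_of_le ht.2 hTT
    have h1 := hmono T (min T (T' t)) w q hw (min_le_left _ _)
    have h2 := hmono (T' t) (min T (T' t)) (w' t) _ (hw' t htm) (min_le_right _ _)
    exact huniq _ w (w' t) q _ h1 h2 (by rw [h0, hw'0 t htm]) t ⟨ht.1, lt_min ht.2 (hT'1 t htm)⟩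
  have keyu : ∀ t₀ ∈ Ico (0 : ℝ) Tm, ∀ s ∈ Ico (0 : ℝ) (T' t₀), u s = w' t₀ s := by
    intro t₀ ht₀ s hs
    exact ((key (T' t₀) (w' t₀) _ (hw' t₀ ht₀.2) (hw'0 t₀ ht₀.2)).2 s hs).symm
  refine ⟨Tm, hTm0, hTmB, u, ?_, hw'0 0 hTm0, key⟩
  constructor
  · apply contDiffOn_of_locally_contDiffOn
    rintro ⟨t₀, x₀⟩ hz₀
    have ht₀ : t₀ ∈ Ico (0 : ℝ) Tm := hz₀.1
    refine ⟨Iio (T' t₀) ×ˢ univ, isOpen_Iio.prod isOpen_univ, ⟨hT'1 t₀ ht₀.2, mem_univ _⟩, ?_⟩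
    have hsub : (Ico (0 : ℝ) Tm ×ˢ (univ : Set V)) ∩ (Iio (T' t₀) ×ˢ (univ : Set V)) ⊆
        Ico (0 : ℝ) (T' t₀) ×ˢ (univ : Set V) := by
      rintro ⟨s, x⟩ hs
      exact ⟨⟨hs.1.1.1, hs.2.1⟩, mem_univ _⟩
    refine ((hw' t₀ ht₀.2).contDiffOn_u.mono hsub).congr ?_
    rintro ⟨s, x⟩ hs
    have := hsub hs
    show u s x = w' t₀ s x
    rw [keyu t₀ ht₀ s this.1]
  · exact contDiffOn_const
  · intro t ht
    have h1 := (hw' t ht.2).periodic_u t ⟨ht.1, hT'1 t ht.2⟩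
    rw [keyu t ht t ⟨ht.1, hT'1 t ht.2⟩]
    exact h1
  · intro t ht i x
    rfl
  · intro t ht x
    have h1 := (hw' t ht.2).div_free t ⟨ht.1, hT'1 t ht.2⟩ x
    rw [keyu t ht t ⟨ht.1, hT'1 t ht.2⟩]
    exact h1
  · intro t ht x i
    have hmt : t ∈ Ico (0 : ℝ) (T' t) := ⟨ht.1, hT'1 t ht.2⟩
    have h1 := (hw' t ht.2).momentum t hmt x i
    have h2 : derivWithin (fun s => u s x i) (Ico 0 Tm) t =
        derivWithin (fun s => w' t s x i) (Ico 0 (T' t)) t := by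
      have h3 : (Ico (0 : ℝ) Tm) =ᶠ[𝓝 t] (Ico (0 : ℝ) (T' t)) := by
        filter_upwards [Iio_mem_nhds (hT'1 t ht.2)] with s hs
        apply propext
        constructor
        · intro h
          exact ⟨h.1, hs⟩
        · intro h
          exact ⟨h.1, lt_of_lt_of_le h.2 (hT'2 t ht.2)⟩
      rw [derivWithin_congr_set h3]
      apply derivWithin_congr
      · intro s hs
        show u s x i = w' t s x i
        rw [keyu t ht s hs]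
      · show u t x i = w' t t x i
        rfl
    rw [h2, keyu t ht t hmt]
    exact h1

end H706T.JMX

namespace H706T

alias exists_max := JMX.exists_max

end H706T
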