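import Pool.Agent.Helper706_TE.Sy3

/-!
Symmetries of the symbols on the torus; transfer to integer frequencies.
-/

set_option autoImplicit false

open Set Filter Topology MeasureTheory
open scoped ComplexConjugate ContDiff

namespace H706Y

open H706N H706N.JHV2
open H706T (K actK actW)

/-- Signed permutations of the coordinates. -/
noncomputable def gE (σ : Equiv.Perm (Fin 3)) (ε : Fin 3 → ℤˣ) (x : E) : E :=
  WithLp.toLp 2 fun i => ((ε i : ℤ) : ℝ) * x (σ i)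

theorem gE_apply (σ : Equiv.Perm (Fin 3)) (ε : Fin 3 → ℤˣ) (x : E) (i : Fin 3) :
    gE σ ε x i = ((ε i : ℤ) : ℝ) * x (σ i) := rfl

theorem actW_apply (σ : Equiv.Perm (Fin 3)) (ε : Fin 3 → ℤˣ) (x : W) (i : Fin 3) :
    actW σ ε x i = ((ε i : ℤ) : ℂ) * x (σ i) := rfl

theorem eps_sq (u : ℤˣ) : ((u : ℤ) : ℝ) * ((u : ℤ) : ℝ) = 1 := by
  rcases Int.units_eq_one_or u with h | h <;> rw [h] <;> norm_num

theorem eps_sqC (u : ℤˣ) : ((u : ℤ) : ℂ) * ((u : ℤ) : ℂ) = 1 := by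
  rcases Int.units_eq_one_or u with h | h <;> rw [h] <;> norm_num

theorem pe_apply (k : E) (i : Fin 3) :
    pe k i = (∑ j, k j ^ 2) * k i ^ 3 - (∑ j, k j ^ 4) * k i := by
  rw [Fin.sum_univ_three, Fin.sum_univ_three]
  fin_cases i
  · exact pe_apply0 k
  · exact pe_apply1 k
  · exact pe_apply2 k

theorem sum_sq_gE (σ : Equiv.Perm (Fin 3)) (ε : Fin 3 → ℤˣ) (x : E) :
    ∑ j, gE σ ε x j ^ 2 = ∑ j, x j ^ 2 := by
  rw [← Equiv.sum_comp σ (fun j => x j ^ 2)]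
  refine Finset.sum_congr rfl fun j _ => ?_
  rw [gE_apply, mul_pow, sq ((ε j : ℤ) : ℝ), eps_sq, one_mul]

theorem sum_four_gE (σ : Equiv.Perm (Fin 3)) (ε : Fin 3 → ℤˣ) (x : E) :
    ∑ j, gE σ ε x j ^ 4 = ∑ j, x j ^ 4 := by
  rw [← Equiv.sum_comp σ (fun j => x j ^ 4)]
  refine Finset.sum_congr rfl fun j _ => ?_
  rw [gE_apply, mul_pow]
  have : ((ε j : ℤ) : ℝ) ^ 4 = 1 := by
    have h := eps_sq (ε j)
    calc ((ε j : ℤ) : ℝ) ^ 4 = (((ε j : ℤ) : ℝ) * ((ε j : ℤ) : ℝ)) ^ 2 := by ring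
      _ = 1 := by rw [h]; norm_num
  rw [this, one_mul]

theorem norm_gE (σ : Equiv.Perm (Fin 3)) (ε : Fin 3 → ℤˣ) (x : E) : ‖gE σ ε x‖ = ‖x‖ := by
  rw [EuclideanSpace.norm_eq, EuclideanSpace.norm_eq]
  simp only [Real.norm_eq_abs, sq_abs]
  rw [sum_sq_gE]

theorem pe_gE (σ : Equiv.Perm (Fin 3)) (ε : Fin 3 → ℤˣ) (x : E) :
    pe (gE σ ε x) = gE σ ε (pe x) := by
  ext i
  rw [gE_apply, pe_apply, pe_apply, sum_sq_gE, sum_four_gE, gE_apply]
  have h := eps_sq (ε i)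
  linear_combination ((∑ j, x j ^ 2) * x (σ i) ^ 3 * ((ε i : ℤ) : ℝ)) * h

theorem gE_smul (σ : Equiv.Perm (Fin 3)) (ε : Fin 3 → ℤˣ) (r : ℝ) (x : E) :
    gE σ ε (r • x) = r • gE σ ε x := by
  ext i
  simp only [gE_apply, PiLp.smul_apply, smul_eq_mul]
  ring

theorem gE_neg (σ : Equiv.Perm (Fin 3)) (ε : Fin 3 → ℤˣ) (x : E) :
    gE σ ε (-x) = -gE σ ε x := by
  ext i
  simp only [gE_apply, PiLp.neg_apply]
  ring

theorem gE_add (σ : Equiv.Perm (Fin 3)) (ε : Fin 3 → ℤˣ) (x y : E) :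
    gE σ ε (x + y) = gE σ ε x + gE σ ε y := by
  ext i
  simp only [gE_apply, PiLp.add_apply]
  ring

theorem gE_eq_zero (σ : Equiv.Perm (Fin 3)) (ε : Fin 3 → ℤˣ) (x : E) :
    gE σ ε x = 0 ↔ x = 0 := by
  rw [← norm_eq_zero, norm_gE, norm_eq_zero]

theorem po_gE (σ : Equiv.Perm (Fin 3)) (ε : Fin 3 → ℤˣ) (x : E) :
    po (gE σ ε x) = gE σ ε (po x) := by
  unfold po
  rw [pe_gE, norm_gE, gE_smul]

theorem perm_cases (σ : Equiv.Perm (Fin 3)) :
    (σ 0 = 0 ∧ σ 1 = 1 ∧ σ 2 = 2) ∨ (σ 0 = 0 ∧ σ 1 = 2 ∧ σ 2 = 1) ∨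
    (σ 0 = 1 ∧ σ 1 = 0 ∧ σ 2 = 2) ∨ (σ 0 = 1 ∧ σ 1 = 2 ∧ σ 2 = 0) ∨
    (σ 0 = 2 ∧ σ 1 = 0 ∧ σ 2 = 1) ∨ (σ 0 = 2 ∧ σ 1 = 1 ∧ σ 2 = 0) := by
  revert σ
  decide

theorem cr_gE (σ : Equiv.Perm (Fin 3)) (ε : Fin 3 → ℤˣ) :
    (∀ p q, cr (gE σ ε p) (gE σ ε q) = gE σ ε (cr p q)) ∨
    (∀ p q, cr (gE σ ε p) (gE σ ε q) = -gE σ ε (cr p q)) := by
  rcases Int.units_eq_one_or (ε 0) with h0 | h0 <;> rcases Int.units_eq_one_or (ε 1) with h1 | h1 <;>
    rcases Int.units_eq_one_or (ε 2) with h2 | h2 <;>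
    rcases perm_cases σ with ⟨s0, s1, s2⟩ | ⟨s0, s1, s2⟩ | ⟨s0, s1, s2⟩ | ⟨s0, s1, s2⟩ |
      ⟨s0, s1, s2⟩ | ⟨s0, s1, s2⟩ <;>
    first
    | (left
       intro p q
       apply hv2_extE <;>
       simp only [hv2_cr0, hv2_cr1, hv2_cr2, gE_apply, h0, h1, h2, s0, s1, s2, Units.val_one,
         Units.val_neg, Int.cast_one, Int.cast_neg, one_mul, neg_mul] <;> ring1)
    | (right
       intro p q
       apply hv2_extE <;>
       simp only [hv2_cr0, hv2_cr1, hv2_cr2, gE_apply, h0, h1, h2, s0, s1, s2, Units.val_one,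
         Units.val_neg, Int.cast_one, Int.cast_neg, one_mul, neg_mul, PiLp.neg_apply] <;> ring1)

theorem toW_gE (σ : Equiv.Perm (Fin 3)) (ε : Fin 3 → ℤˣ) (x : E) :
    toW (gE σ ε x) = actW σ ε (toW x) := by
  ext i
  rw [hv2_toW, gE_apply, actW_apply, hv2_toW]
  push_cast
  rfl

theorem actW_add (σ : Equiv.Perm (Fin 3)) (ε : Fin 3 → ℤˣ) (x y : W) :
    actW σ ε (x + y) = actW σ ε x + actW σ ε y := by
  ext i
  simp only [actW_apply, PiLp.add_apply]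
  ring

theorem actW_smul (σ : Equiv.Perm (Fin 3)) (ε : Fin 3 → ℤˣ) (r : ℂ) (x : W) :
    actW σ ε (r • x) = r • actW σ ε x := by
  ext i
  simp only [actW_apply, PiLp.smul_apply, smul_eq_mul]
  ring

theorem actW_neg (σ : Equiv.Perm (Fin 3)) (ε : Fin 3 → ℤˣ) (x : W) :
    actW σ ε (-x) = -actW σ ε x := by
  ext i
  simp only [actW_apply, PiLp.neg_apply]
  ring

theorem cj_actW (σ : Equiv.Perm (Fin 3)) (ε : Fin 3 → ℤˣ) (x : W) :
    cj (actW σ ε x) = actW σ ε (cj x) := by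
  ext i
  rw [hv2_cj, actW_apply, actW_apply, hv2_cj, map_mul, map_intCast]

theorem dt_actW (σ : Equiv.Perm (Fin 3)) (ε : Fin 3 → ℤˣ) (x y : W) :
    dt (actW σ ε x) (actW σ ε y) = dt x y := by
  unfold dt
  rw [← Equiv.sum_comp σ (fun j => x j * y j)]
  refine Finset.sum_congr rfl fun j _ => ?_
  rw [actW_apply, actW_apply]
  have h := eps_sqC (ε j)
  linear_combination (x (σ j) * y (σ j)) * h

theorem pf_gE (σ : Equiv.Perm (Fin 3)) (ε : Fin 3 → ℤˣ)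
    (h : ∀ p q, cr (gE σ ε p) (gE σ ε q) = gE σ ε (cr p q)) (k : E) :
    pf (gE σ ε k) = gE σ ε (pf k) := by
  unfold pf
  rw [norm_gE, po_gE, h, gE_smul]

theorem pf_gE' (σ : Equiv.Perm (Fin 3)) (ε : Fin 3 → ℤˣ)
    (h : ∀ p q, cr (gE σ ε p) (gE σ ε q) = -gE σ ε (cr p q)) (k : E) :
    pf (gE σ ε k) = -gE σ ε (pf k) := by
  unfold pf
  rw [norm_gE, po_gE, h, gE_smul, smul_neg]

theorem pw_gE (σ : Equiv.Perm (Fin 3)) (ε : Fin 3 → ℤˣ)
    (h : ∀ p q, cr (gE σ ε p) (gE σ ε q) = gE σ ε (cr p q)) (s : Bool) (k : E) :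
    pw s (gE σ ε k) = actW σ ε (pw s k) := by
  unfold pw
  rw [po_gE, pf_gE σ ε h, toW_gE, toW_gE, actW_add, actW_smul, actW_smul]

theorem pw_gE' (σ : Equiv.Perm (Fin 3)) (ε : Fin 3 → ℤˣ)
    (h : ∀ p q, cr (gE σ ε p) (gE σ ε q) = -gE σ ε (cr p q)) (s : Bool) (k : E) :
    pw s (gE σ ε k) = actW σ ε (pw (!s) k) := by
  unfold pw
  have h1 : sg (!s) = -sg s := by cases s <;> simp [sg]
  rw [po_gE, pf_gE' σ ε h, hv2_toW_neg, toW_gE, toW_gE, actW_add, actW_smul, actW_smul, h1,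
    Complex.ofReal_neg, smul_neg, neg_smul (sg s : ℂ)]

theorem wt_gE (N : ℝ) (σ : Equiv.Perm (Fin 3)) (ε : Fin 3 → ℤˣ) (p q : E) :
    wt N (gE σ ε p) (gE σ ε q) = wt N p q := by
  have hc : cr (gE σ ε p) (gE σ ε q) = 0 ↔ cr p q = 0 := by
    rcases cr_gE σ ε with h | h
    · rw [h, gE_eq_zero]
    · rw [h, neg_eq_zero, gE_eq_zero]
  unfold wt
  refine if_congr ?_ rfl rfl
  rw [hc, ← gE_add, pe_gE, pe_gE, pe_gE, norm_gE, norm_gE, norm_gE]
  simp only [ne_eq, gE_eq_zero]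

theorem sy_gE (P : ℝ → ℝ → ℝ → ℝ) (κ N : ℝ) (σ : Equiv.Perm (Fin 3)) (ε : Fin 3 → ℤˣ) (p q : E)
    (a b : W) :
    sy P κ N (gE σ ε p) (gE σ ε q) (actW σ ε a) (actW σ ε b) = actW σ ε (sy P κ N p q a b) := by
  rcases cr_gE σ ε with h | h
  · unfold sy
    simp only [Fintype.sum_bool, ← gE_add, pw_gE σ ε h, norm_gE, wt_gE, dt_actW, cj_actW, actW_add,
      actW_smul]
  · have k : ∀ s₁ s₂ s₃ : Bool, PS P (!s₁) (!s₂) (!s₃) ‖p‖ ‖q‖ ‖p + q‖
        = PS P s₁ s₂ s₃ ‖p‖ ‖q‖ ‖p + q‖ := fun s₁ s₂ s₃ => H706N.PS_not P s₁ s₂ s₃ _ _ _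
    have k1 := k true true true
    have k2 := k true true false
    have k3 := k true false true
    have k4 := k true false false
    simp only [Bool.not_true, Bool.not_false] at k1 k2 k3 k4
    unfold sy
    simp only [Fintype.sum_bool, ← gE_add, pw_gE' σ ε h, norm_gE, wt_gE, dt_actW, cj_actW, actW_add,
      actW_smul, Bool.not_true, Bool.not_false]
    rw [k1, k2, k3, k4]
    abel

/-- Integer frequencies as elements of `E`. -/
noncomputable def kE (k : K) : E := WithLp.toLp 2 fun j => (k j : ℝ)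

theorem kE_apply (k : K) (j : Fin 3) : kE k j = (k j : ℝ) := rfl

theorem kE_add (p q : K) : kE (p + q) = kE p + kE q := by
  ext i
  rw [PiLp.add_apply, kE_apply, kE_apply, kE_apply, Pi.add_apply, Int.cast_add]

theorem kE_neg (p : K) : kE (-p) = -kE p := by
  ext i
  rw [PiLp.neg_apply, kE_apply, kE_apply, Pi.neg_apply, Int.cast_neg]

theorem kE_smul (l : ℤ) (p : K) : kE (l • p) = (l : ℝ) • kE p := by
  ext i
  rw [PiLp.smul_apply, kE_apply, kE_apply, Pi.smul_apply, smul_eq_mul, smul_eq_mul, Int.cast_mul]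

theorem kE_act (σ : Equiv.Perm (Fin 3)) (ε : Fin 3 → ℤˣ) (p : K) :
    kE (actK σ ε p) = gE σ ε (kE p) := by
  ext i
  rw [kE_apply, gE_apply, kE_apply]
  unfold actK
  push_cast
  rfl

theorem norm_kE (k : K) : ‖kE k‖ ^ 2 = H706T.nq k := by
  rw [hv2_norm_sq, H706T.nq, Fin.sum_univ_three]
  rfl

theorem pe_kE_zero : pe (kE 0) = 0 := by
  have : kE 0 = 0 := by
    ext i
    rw [kE_apply]
    simp
  rw [this]
  have h := pe_smul 0 (0 : E)
  rw [zero_smul] at h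
  rw [h]
  norm_num

theorem cu_kE (k : K) (a : W) : cu (kE k) a = H706T.cu k a := by
  have : toW (kE k) = H706T.kW k := by
    ext i
    rw [hv2_toW, kE_apply]
    unfold H706T.kW
    push_cast
    rfl
  unfold cu H706T.cu
  rw [this]
  rfl

theorem pe_gen {n : K} (h : H706T.Gen n) : pe (kE n) ≠ 0 := by
  obtain ⟨i, j, hi, hj, hij⟩ := h
  intro h0
  have key : ∀ m : Fin 3, n m ≠ 0 →
      (∑ l, kE n l ^ 2) * (n m : ℝ) ^ 2 = ∑ l, kE n l ^ 4 := by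
    intro m hm
    have h1 := pe_apply (kE n) m
    rw [h0, PiLp.zero_apply, kE_apply n m] at h1
    have h2 : (n m : ℝ) ≠ 0 := by exact_mod_cast hm
    apply mul_right_cancel₀ h2
    linear_combination -h1
  have hi' := key i hi
  have hj' := key j hj
  have hpos : 0 < ∑ l, kE n l ^ 2 := by
    have h2 : (n i : ℝ) ≠ 0 := by exact_mod_cast hi
    refine Finset.sum_pos' (fun l _ => sq_nonneg _) ⟨i, Finset.mem_univ i, ?_⟩
    rw [kE_apply]
    positivity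
  have h3 : (n i : ℝ) ^ 2 = (n j : ℝ) ^ 2 := by
    apply mul_left_cancel₀ hpos.ne'
    rw [hi', hj']
  have h4 : (n i) ^ 2 = (n j) ^ 2 := by exact_mod_cast h3
  exact hij ((sq_eq_sq_iff_abs_eq_abs _ _).1 h4)

end H706Y

namespace H706T

open H706Y in
/-- Existence of the symbols. -/
theorem exists_symbol {δ : ℝ} (hδ : 0 < δ) (N : ℕ) :
    ∃ M : K → K → W → W → W, IsSymbol δ M ∧ Sy2 N M ∧
      ∀ n : K, Gen n → (N : ℝ) ^ 2 ≤ nq n →
        ∃ e : V, ∑ i, e i ^ 2 = 1 ∧ ∑ i, (n i : ℝ) * e i = 0 ∧ Val (δ / 256) M n e := by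
  have hκ : 0 ≤ δ / 256 := by positivity
  refine ⟨fun p q a b => sy P0 (δ / 256) N (kE p) (kE q) a b, ⟨?_, ?_, ?_, ?_, ?_⟩,
    ⟨?_, ?_, ?_, ?_⟩, ?_⟩
  · intro p q c a a' b
    exact sy_lin₁ _ _ _ _ _ _ _ _ _
  · intro p q c a b b'
    exact sy_lin₂ _ _ _ _ _ _ _ _ _
  · intro p q a b
    refine (sy_bdd hκ _ _ _ _ _).trans (le_of_eq ?_)
    ring
  · intro p q a b
    simp only [kE_neg]
    exact sy_herm _ _ _ _ _ _ _
  · intro p q a b
    have h := sy_divf P0 (δ / 256) N (kE p) (kE q) a b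
    rw [← kE_add] at h
    unfold H706N.kd at h
    rw [← h]
    refine Finset.sum_congr rfl fun j _ => ?_
    rw [kE_apply]
    push_cast
    rfl
  · intro p q a b h
    obtain ⟨h1, ⟨h2, h3, h4⟩, h5, h6, h7⟩ := wt_supp (sy_supp _ _ _ _ _ _ _ h)
    have hp : p ≠ 0 := by rintro rfl; exact h2 pe_kE_zero
    have hq : q ≠ 0 := by rintro rfl; exact h3 pe_kE_zero
    rw [← kE_add] at h4 h7
    have hpq : p + q ≠ 0 := by intro h8; rw [h8] at h4; exact h4 pe_kE_zero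
    have hN : (0 : ℝ) ≤ N := Nat.cast_nonneg N
    refine ⟨⟨?_, hp, hq⟩, hpq, ?_, ?_, ?_⟩
    · have e0 : (p 1 : ℝ) * q 2 - p 2 * q 1 = 0 := by
        have := congrArg (fun x : H706N.E => x 0) h1
        exact this
      have e1 : (p 2 : ℝ) * q 0 - p 0 * q 2 = 0 := by
        have := congrArg (fun x : H706N.E => x 1) h1
        exact this
      have e2 : (p 0 : ℝ) * q 1 - p 1 * q 0 = 0 := by
        have := congrArg (fun x : H706N.E => x 2) h1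
        exact this
      have f0 : p 1 * q 2 - p 2 * q 1 = 0 := by exact_mod_cast e0
      have f1 : p 2 * q 0 - p 0 * q 2 = 0 := by exact_mod_cast e1
      have f2 : p 0 * q 1 - p 1 * q 0 = 0 := by exact_mod_cast e2
      intro i j
      fin_cases i <;> fin_cases j <;> simp only [Fin.zero_eta, Fin.mk_one, Fin.reduceFinMk] <;>
        linarith
    · rw [← norm_kE]; exact pow_le_pow_left₀ hN h5 2
    · rw [← norm_kE]; exact pow_le_pow_left₀ hN h6 2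
    · rw [← norm_kE]; exact pow_le_pow_left₀ hN h7 2
  · intro p q a b c
    simp only [kE_neg, kE_add]
    exact sy_skew _ _ _ _ _ _ _ _
  · intro p q a b c
    have h := sy_hel P0 (δ / 256) N (kE p) (kE q) a b c
    rw [← kE_add, ← kE_neg, cu_kE, cu_kE, cu_kE] at h
    exact h
  · intro σ ε p q a b
    simp only [kE_act]
    exact sy_gE _ _ _ _ _ _ _ _ _
  · intro n hn hNn
    have hpe := pe_gen hn
    have hNk : (N : ℝ) ≤ ‖kE n‖ := by
      rw [← norm_kE] at hNn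
      exact le_of_sq_le_sq hNn (norm_nonneg _)
    refine ⟨fun i => po (kE n) i, ?_, ?_, ?_⟩
    · have h1 := H706N.JHV2.hv2_norm_sq (po (kE n))
      rw [po_norm hpe] at h1
      rw [Fin.sum_univ_three]
      linarith
    · rw [Fin.sum_univ_three]
      exact k_po (kE n)
    · intro l m hl hm hlm
      have h := sy_val (δ / 256) hpe hNk hl hm hlm
      simp only [← kE_smul] at h
      exact h

end H706T
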