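import Pool.Agent.Helper706_TE.Defs2

set_option autoImplicit false
open Set Filter Topology MeasureTheory
open scoped ComplexConjugate ContDiff

namespace H706T.JXA

theorem ffx_a1 (a b d : ℝ) : ((a : ℂ) * ((b : ℂ) + (d : ℂ) * Complex.I)).im = a * d := by simp

theorem ffx_a2 (a b d : ℝ) : ((a : ℂ) * ((b : ℂ) + (d : ℂ) * Complex.I)).re = a * b := by simp

theorem ffx_a3 (a b d : ℝ) : (1 - (a : ℂ) * ((b : ℂ) + (d : ℂ) * Complex.I)).re = 1 - a * b := by
  simp

theorem ffx_a4 (a b d : ℝ) : (1 - (a : ℂ) * ((b : ℂ) + (d : ℂ) * Complex.I)).im = -(a * d) := by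
  simp

/-- the profile as an imaginary part -/
theorem ffx_im (s φ : ℝ) : ff s φ = ((Real.cos s : ℂ) * Complex.exp (Complex.I * (φ : ℂ)) /
    (1 - (Real.sin s : ℂ) * Complex.exp (Complex.I * (φ : ℂ)))).im := by
  have hz : Complex.exp (Complex.I * (φ : ℂ)) = (Real.cos φ : ℂ) + (Real.sin φ : ℂ) * Complex.I := by
    rw [mul_comm, Complex.exp_mul_I, Complex.ofReal_cos, Complex.ofReal_sin]
  rw [hz, Complex.div_im]
  have h1 : ((Real.cos s : ℂ) * ((Real.cos φ : ℂ) + (Real.sin φ : ℂ) * Complex.I)).im =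
      Real.cos s * Real.sin φ := ffx_a1 _ _ _
  have h2 : ((Real.cos s : ℂ) * ((Real.cos φ : ℂ) + (Real.sin φ : ℂ) * Complex.I)).re =
      Real.cos s * Real.cos φ := ffx_a2 _ _ _
  have h3 : (1 - (Real.sin s : ℂ) * ((Real.cos φ : ℂ) + (Real.sin φ : ℂ) * Complex.I)).re =
      1 - Real.sin s * Real.cos φ := ffx_a3 _ _ _
  have h4 : (1 - (Real.sin s : ℂ) * ((Real.cos φ : ℂ) + (Real.sin φ : ℂ) * Complex.I)).im =
      - (Real.sin s * Real.sin φ) := ffx_a4 _ _ _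
  have h5 : Complex.normSq (1 - (Real.sin s : ℂ) * ((Real.cos φ : ℂ) + (Real.sin φ : ℂ) * Complex.I)) =
      1 - 2 * Real.sin s * Real.cos φ + Real.sin s ^ 2 := by
    rw [Complex.normSq_apply, h3, h4]
    have := Real.sin_sq_add_cos_sq φ
    linear_combination (Real.sin s ^ 2) * this
  rw [h1, h2, h3, h4, h5, ff, ← sub_div]
  congr 1
  have := Real.sin_sq_add_cos_sq φ
  ring

theorem ffx_cos {s : ℝ} (hs : |s| < Real.pi / 2) : 0 < Real.cos s := by
  rw [abs_lt] at hs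
  exact Real.cos_pos_of_mem_Ioo ⟨by linarith, hs.2⟩

theorem ffx_sin {s : ℝ} (hs : |s| < Real.pi / 2) : |Real.sin s| < 1 := by
  have h1 := ffx_cos hs
  have h2 := Real.sin_sq_add_cos_sq s
  rw [abs_lt]
  constructor <;> nlinarith [sq_pos_of_pos h1]

theorem ffx_ne {s : ℝ} (hs : |s| < Real.pi / 2) (φ : ℝ) :
    (1 - (Real.sin s : ℂ) * Complex.exp (Complex.I * (φ : ℂ))) ≠ 0 := by
  intro h
  have h1 : (Real.sin s : ℂ) * Complex.exp (Complex.I * (φ : ℂ)) = 1 := (sub_eq_zero.1 h).symm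
  have h2 : ‖(Real.sin s : ℂ) * Complex.exp (Complex.I * (φ : ℂ))‖ = 1 := by rw [h1]; simp
  rw [norm_mul, mul_comm Complex.I, Complex.norm_exp_ofReal_mul_I, mul_one, Complex.norm_real,
    Real.norm_eq_abs] at h2
  exact absurd h2 (ne_of_lt (ffx_sin hs))

/-- TARGET -/
theorem ff_den {s : ℝ} (hs : |s| < Real.pi / 2) (φ : ℝ) :
    0 < 1 - 2 * Real.sin s * Real.cos φ + Real.sin s ^ 2 := by
  have h1 := ffx_sin hs
  have h2 := Real.cos_le_one φ
  have h3 := Real.neg_one_le_cos φ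
  rw [abs_lt] at h1
  rcases le_total 0 (Real.sin s) with h | h
  · nlinarith [mul_nonneg h (sub_nonneg.2 h2), mul_pos (sub_pos.2 h1.2) (sub_pos.2 h1.2)]
  · have h4 : 0 < 1 + Real.sin s := by linarith
    nlinarith [mul_nonneg (neg_nonneg.2 h) (by linarith : (0:ℝ) ≤ 1 + Real.cos φ), mul_pos h4 h4]

theorem ffx_le_sq {a b : ℝ} (h : a ^ 2 ≤ b ^ 2) (hb : 0 ≤ b) : a ≤ b := by
  by_contra hcon
  push Not at hcon
  nlinarith

/-- TARGET -/
theorem ff_bound {s : ℝ} (hs : |s| < Real.pi / 2) (φ : ℝ) : |ff s φ| ≤ 1 / Real.cos s := by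
  have hd := ff_den hs φ
  have hc := ffx_cos hs
  have h2 := Real.sin_sq_add_cos_sq s
  have h3 := Real.sin_sq_add_cos_sq φ
  rw [ff, abs_div, abs_of_pos hd, abs_mul, abs_of_pos hc, div_le_div_iff₀ hd hc]
  have hA : |Real.sin φ| ^ 2 = Real.sin φ ^ 2 := sq_abs _
  have key : 2 * Real.sin s * Real.cos φ + (1 - Real.sin s ^ 2) * |Real.sin φ| ≤
      1 + Real.sin s ^ 2 := by
    apply ffx_le_sq _ (by positivity)
    nlinarith [sq_nonneg ((1 - Real.sin s ^ 2) * Real.cos φ - 2 * Real.sin s * |Real.sin φ|)]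
  have : Real.cos s * |Real.sin φ| * Real.cos s = (1 - Real.sin s ^ 2) * |Real.sin φ| := by
    have : Real.cos s * Real.cos s = 1 - Real.sin s ^ 2 := by linarith [sq (Real.cos s)]
    rw [← this]; ring
  rw [this]
  linarith

/-- TARGET -/
theorem ff_max {s : ℝ} (hs : |s| < Real.pi / 2) : ∃ φ, ff s φ = 1 / Real.cos s := by
  have hc := ffx_cos hs
  have hr := ffx_sin hs
  rw [abs_lt] at hr
  have h2 := Real.sin_sq_add_cos_sq s
  set r := Real.sin s with hrdef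
  have hq : 0 < 1 + r ^ 2 := by positivity
  have hr2 : 0 < 1 - r ^ 2 := by nlinarith
  refine ⟨Real.arccos (2 * r / (1 + r ^ 2)), ?_⟩
  have e1 : Real.cos (Real.arccos (2 * r / (1 + r ^ 2))) = 2 * r / (1 + r ^ 2) := by
    apply Real.cos_arccos
    · rw [le_div_iff₀ hq]; nlinarith [sq_nonneg (1 + r)]
    · rw [div_le_one hq]; nlinarith [sq_nonneg (1 - r)]
  have e2 : Real.sin (Real.arccos (2 * r / (1 + r ^ 2))) = (1 - r ^ 2) / (1 + r ^ 2) := by
    rw [Real.sin_arccos]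
    have : 1 - (2 * r / (1 + r ^ 2)) ^ 2 = ((1 - r ^ 2) / (1 + r ^ 2)) ^ 2 := by
      field_simp
      ring
    rw [this, Real.sqrt_sq (by positivity)]
  rw [ff, e1, e2, ← hrdef]
  have e3 : 1 - 2 * r * (2 * r / (1 + r ^ 2)) + r ^ 2 = (1 - r ^ 2) ^ 2 / (1 + r ^ 2) := by
    field_simp
    ring
  rw [e3]
  have e4 : 1 - r ^ 2 = Real.cos s ^ 2 := by linarith
  rw [e4]
  field_simp

theorem ffx_congr {f g : ℕ → ℝ} {a : ℝ} (h : HasSum f a) (hfg : ∀ m, g m = f m) :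
    HasSum g a := by
  rw [funext hfg]
  exact h

theorem ffx_reim (a : ℝ) (z : ℂ) : ((a : ℂ) * z).im = a * z.im := by
  simp

/-- TARGET -/
theorem ff_series {s : ℝ} (hs : |s| < Real.pi / 2) (φ : ℝ) :
    HasSum (fun m : ℕ => Real.cos s * Real.sin s ^ m * Real.sin ((m + 1) * φ)) (ff s φ) := by
  have hr := ffx_sin hs
  set w : ℂ := (Real.sin s : ℂ) * Complex.exp (Complex.I * (φ : ℂ)) with hw
  have hn : ‖w‖ < 1 := by
    rw [hw, norm_mul, mul_comm Complex.I, Complex.norm_exp_ofReal_mul_I, mul_one, Complex.norm_real,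
      Real.norm_eq_abs]
    exact hr
  have h1 := (hasSum_geometric_of_norm_lt_one hn).mul_left
    ((Real.cos s : ℂ) * Complex.exp (Complex.I * (φ : ℂ)))
  have h2 := Complex.imCLM.hasSum h1
  rw [ffx_im, div_eq_mul_inv]
  refine ffx_congr h2 ?_
  intro m
  show _ = ((Real.cos s : ℂ) * Complex.exp (Complex.I * (φ : ℂ)) * w ^ m).im
  rw [hw, mul_pow, ← Complex.exp_nat_mul]
  have e : (Real.cos s : ℂ) * Complex.exp (Complex.I * (φ : ℂ)) *
      ((Real.sin s : ℂ) ^ m * Complex.exp ((m : ℂ) * (Complex.I * (φ : ℂ)))) =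
      ((Real.cos s * Real.sin s ^ m : ℝ) : ℂ) * Complex.exp ((((m : ℝ) + 1) * φ : ℝ) * Complex.I) := by
    have : Complex.exp ((((m : ℝ) + 1) * φ : ℝ) * Complex.I) =
        Complex.exp (Complex.I * (φ : ℂ)) * Complex.exp ((m : ℂ) * (Complex.I * (φ : ℂ))) := by
      rw [← Complex.exp_add]
      congr 1
      push_cast
      ring
    rw [this]
    push_cast
    ring
  rw [e, ffx_reim, Complex.exp_ofReal_mul_I_im]

/-- TARGET -/
theorem ff_deriv {s : ℝ} (hs : |s| < Real.pi / 2) (φ : ℝ) :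
    HasDerivAt (fun s => ff s φ)
      (((Real.cos s : ℂ) ^ 2 * Complex.exp (Complex.I * (φ : ℂ)) ^ 2
            / (1 - (Real.sin s : ℂ) * Complex.exp (Complex.I * (φ : ℂ))) ^ 2
          - (Real.sin s : ℂ) * Complex.exp (Complex.I * (φ : ℂ))
            / (1 - (Real.sin s : ℂ) * Complex.exp (Complex.I * (φ : ℂ)))).im) s := by
  have hne := ffx_ne hs φ
  have hfun : (fun s => ff s φ) = fun s : ℝ => ((Real.cos s : ℂ) * Complex.exp (Complex.I * (φ : ℂ)) /
    (1 - (Real.sin s : ℂ) * Complex.exp (Complex.I * (φ : ℂ)))).im := by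
    funext s
    exact ffx_im s φ
  rw [hfun]
  have hcs : HasDerivAt (fun s : ℝ => (Real.cos s : ℂ)) ((-Real.sin s : ℝ) : ℂ) s :=
    (Real.hasDerivAt_cos s).ofReal_comp
  have hsn : HasDerivAt (fun s : ℝ => (Real.sin s : ℂ)) ((Real.cos s : ℝ) : ℂ) s :=
    (Real.hasDerivAt_sin s).ofReal_comp
  have hnum := hcs.mul_const (Complex.exp (Complex.I * (φ : ℂ)))
  have hden := (hsn.mul_const (Complex.exp (Complex.I * (φ : ℂ)))).const_sub 1
  have hdiv := hnum.div hden hne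
  have him := (Complex.imCLM.hasFDerivAt (x := (Real.cos s : ℂ) *
    Complex.exp (Complex.I * (φ : ℂ)) /
    (1 - (Real.sin s : ℂ) * Complex.exp (Complex.I * (φ : ℂ))))).comp_hasDerivAt s hdiv
  refine HasDerivAt.congr_deriv him ?_
  show Complex.im _ = Complex.im _
  congr 1
  push_cast
  field_simp
  ring

/-- TARGET -/
theorem ff_smooth : ContDiffOn ℝ ∞ (fun z : ℝ × ℝ => ff z.1 z.2) ({s | |s| < Real.pi / 2} ×ˢ univ) := by
  apply ContDiffOn.div
  · apply ContDiff.contDiffOn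
    fun_prop
  · apply ContDiff.contDiffOn
    fun_prop
  · rintro ⟨s, φ⟩ ⟨hs, _⟩
    exact (ff_den hs φ).ne'

/-- TARGET -/
theorem ff_periodic (s φ : ℝ) (m : ℤ) : ff s (φ + m * (2 * Real.pi)) = ff s φ := by
  rw [ff, ff, Real.sin_add_int_mul_two_pi, Real.cos_add_int_mul_two_pi]

end H706T.JXA

namespace H706T

alias ff_den := JXA.ff_den
alias ff_bound := JXA.ff_bound
alias ff_max := JXA.ff_max
alias ff_series := JXA.ff_series
alias ff_deriv := JXA.ff_deriv
alias ff_smooth := JXA.ff_smooth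
alias ff_periodic := JXA.ff_periodic

end H706T
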