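import Pool.Agent.Helper706_TE.Defs2

set_option autoImplicit false
open Set Filter Topology MeasureTheory
open scoped ComplexConjugate ContDiff

namespace H706T.JXB

/-- the geometric term -/
noncomputable def gt (r : ℝ) (Z : ℂ) (j : ℕ) : ℂ := (r : ℂ) ^ j * Z ^ (j + 1)

theorem aux_geom {r : ℝ} (hr0 : 0 ≤ r) (hr : r < 1) {Z : ℂ} (hZ : ‖Z‖ = 1) :
    ‖(r : ℂ) * Z‖ < 1 := by
  rw [norm_mul, hZ, mul_one, Complex.norm_real, Real.norm_eq_abs, abs_of_nonneg hr0]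
  exact hr

theorem aux_g1 {r : ℝ} (hr0 : 0 ≤ r) (hr : r < 1) {Z : ℂ} (hZ : ‖Z‖ = 1) :
    HasSum (gt r Z) (Z * (1 - r * Z)⁻¹) := by
  have h1 : HasSum (fun n : ℕ => Z * ((r : ℂ) * Z) ^ n) (Z * (1 - r * Z)⁻¹) :=
    (hasSum_geometric_of_norm_lt_one (aux_geom hr0 hr hZ)).mul_left Z
  have e : gt r Z = fun j : ℕ => Z * ((r : ℂ) * Z) ^ j := by
    funext j; unfold gt; rw [mul_pow, pow_succ]; ring
  rw [e]; exact h1

theorem aux_n1 {r : ℝ} (hr0 : 0 ≤ r) (hr : r < 1) {Z : ℂ} (hZ : ‖Z‖ = 1) :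
    Summable (fun j : ℕ => ‖gt r Z j‖) := by
  have := summable_geometric_of_lt_one hr0 hr
  refine this.congr fun j => ?_
  unfold gt
  rw [norm_mul, norm_pow, norm_pow, hZ, one_pow, mul_one, Complex.norm_real, Real.norm_eq_abs,
    abs_of_nonneg hr0]

theorem aux_congr {ι : Type} {f g : ι → ℂ} {s : ℂ} (h : ∀ i, f i = g i) (hs : HasSum g s) :
    HasSum f s := by
  have : f = g := funext h
  rw [this]; exact hs

theorem aux_add {ι : Type} {f g : ι → ℂ} {s t : ℂ} (h1 : HasSum f s) (h2 : HasSum g t) :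
    HasSum (fun p => f p + g p) (s + t) := h1.add h2

theorem aux_neg {ι : Type} {f : ι → ℂ} {s : ℂ} (h1 : HasSum f s) :
    HasSum (fun p => -f p) (-s) := h1.neg

theorem aux_sub {ι : Type} {f g : ι → ℂ} {s t : ℂ} (h1 : HasSum f s) (h2 : HasSum g t) :
    HasSum (fun p => f p - g p) (s - t) := h1.sub h2

theorem aux_mul {ι : Type} (c : ℂ) {f : ι → ℂ} {s : ℂ} (h1 : HasSum f s) :
    HasSum (fun p => c * f p) (c * s) := h1.mul_left c

theorem aux_equiv {ι : Type} (e : ι ≃ ι) {f : ι → ℂ} {s : ℂ} (h1 : HasSum f s) :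
    HasSum (fun p => f (e p)) s := e.hasSum_iff.2 h1

theorem aux_a {f g : ℕ → ℂ} {s t : ℂ} (h1 : HasSum f s) (h2 : HasSum g t)
    (n1 : Summable fun i => ‖f i‖) (n2 : Summable fun i => ‖g i‖) :
    HasSum (fun p : ℕ × ℕ => f p.1 * g p.2) (s * t) := by
  exact h1.mul h2 (summable_mul_of_summable_norm n1 n2)

theorem aux_sum1 {r : ℝ} (hr0 : 0 ≤ r) (hr : r < 1) {Z : ℂ} (hZ : ‖Z‖ = 1) :
    HasSum (fun p : ℕ × ℕ => 2 * (gt r Z p.1 * gt r Z p.2))
      (2 * ((Z * (1 - r * Z)⁻¹) * (Z * (1 - r * Z)⁻¹))) := by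
  have h1 := aux_g1 hr0 hr hZ
  have h2 := aux_n1 hr0 hr hZ
  exact aux_mul 2 (aux_a h1 h1 h2 h2)

theorem aux_r2 {r : ℝ} (hr0 : 0 ≤ r) (hr : r < 1) : ‖(r : ℂ) ^ 2‖ < 1 := by
  rw [norm_pow, Complex.norm_real, Real.norm_eq_abs, abs_of_nonneg hr0]
  nlinarith

theorem aux_sn {w : ℂ} (hw : ‖w‖ < 1) : Summable (fun j : ℕ => ‖w ^ j‖) := by
  simp_rw [norm_pow w]
  exact summable_geometric_of_lt_one (norm_nonneg _) hw

theorem aux_sn2 {r : ℝ} (hr0 : 0 ≤ r) (hr : r < 1) {Z : ℂ} (hZ : ‖Z‖ = 1) :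
    Summable (fun j : ℕ => ‖(r : ℂ) * gt r Z j‖) := by
  simp_rw [norm_mul (r : ℂ)]
  exact (aux_n1 hr0 hr hZ).mul_left _

theorem aux_gen {w u : ℂ} {f : ℕ → ℂ} (hw : ‖w‖ < 1) (hf : HasSum f u) (n2 : Summable fun j => ‖f j‖) :
    HasSum (fun p : ℕ × ℕ => -((w ^ p.1) * (f p.2))) (-((1 - w)⁻¹ * u)) :=
  aux_neg (aux_a (hasSum_geometric_of_norm_lt_one hw) hf (aux_sn hw) n2)

theorem aux_sum3 {r : ℝ} (hr0 : 0 ≤ r) (hr : r < 1) {Z : ℂ} (hZ : ‖Z‖ = 1) :
    HasSum (fun p : ℕ × ℕ => -((((r : ℂ) ^ 2) ^ p.1) * (r * gt r Z p.2)))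
      (-((1 - (r : ℂ) ^ 2)⁻¹ * (r * (Z * (1 - r * Z)⁻¹)))) := by
  have h1 := aux_mul (r : ℂ) (aux_g1 hr0 hr hZ)
  have h2 := aux_gen (aux_r2 hr0 hr) h1 (aux_sn2 hr0 hr hZ)
  exact h2

/-- extension by zero along an injective map -/
theorem aux_ext {g : ℕ × ℕ → ℤ × ℤ} (hg : Function.Injective g) {f : ℤ × ℤ → ℂ} {s : ℂ}
    (h : HasSum (fun p => f (g p)) s) (h0 : ∀ z, z ∉ Set.range g → f z = 0) : HasSum f s :=
  (hg.hasSum_iff h0).1 h

/-- the three parts with positive sum -/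
noncomputable def g1 (r : ℝ) (Z : ℂ) (p : ℤ × ℤ) : ℂ :=
  if 0 < p.1 ∧ 0 < p.2 then
    2 * (((r : ℂ) ^ (p.1.natAbs - 1)) * ((r : ℂ) ^ (p.2.natAbs - 1)) * Z ^ (p.1 + p.2)) else 0

noncomputable def g3 (r : ℝ) (Z : ℂ) (p : ℤ × ℤ) : ℂ :=
  if 0 < p.1 ∧ p.2 < 0 ∧ 0 < p.1 + p.2 then
    -(((r : ℂ) ^ (p.1.natAbs - 1)) * ((r : ℂ) ^ (p.2.natAbs - 1)) * Z ^ (p.1 + p.2)) else 0

noncomputable def hh (r : ℝ) (Z : ℂ) : ℂ :=
  2 * ((Z * (1 - r * Z)⁻¹) * (Z * (1 - r * Z)⁻¹)) - 2 * ((1 - (r : ℂ) ^ 2)⁻¹ * (r * (Z * (1 - r * Z)⁻¹)))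

theorem hs_g1 {r : ℝ} (hr0 : 0 ≤ r) (hr : r < 1) {Z : ℂ} (hZ : ‖Z‖ = 1) :
    HasSum (g1 r Z) (2 * ((Z * (1 - r * Z)⁻¹) * (Z * (1 - r * Z)⁻¹))) := by
  refine aux_ext (g := fun p => ((p.1 : ℤ) + 1, (p.2 : ℤ) + 1)) ?_ ?_ ?_
  · rintro ⟨a, b⟩ ⟨c, d⟩ h
    simp only [Prod.mk.injEq, add_left_inj, Nat.cast_inj] at h
    exact Prod.ext h.1 h.2
  · refine aux_congr (fun p => ?_) (aux_sum1 hr0 hr hZ)
    have h1 : (0 : ℤ) < (p.1 : ℤ) + 1 := by positivity
    have h2 : (0 : ℤ) < (p.2 : ℤ) + 1 := by positivity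
    have h3 : ((p.1 : ℤ) + 1).natAbs - 1 = p.1 := by omega
    have h4 : ((p.2 : ℤ) + 1).natAbs - 1 = p.2 := by omega
    have h5 : ((p.1 : ℤ) + 1 + ((p.2 : ℤ) + 1)) = ((p.1 + 1 + (p.2 + 1) : ℕ) : ℤ) := by
      push_cast; ring
    unfold g1 gt
    simp only [h1, h2, and_self, if_true, h3, h4]
    rw [h5, zpow_natCast, pow_add]
    ring
  · rintro ⟨l, m⟩ hz
    unfold g1
    rw [if_neg]
    rintro ⟨h1, h2⟩
    simp only at h1 h2
    apply hz
    refine ⟨(l.toNat - 1, m.toNat - 1), ?_⟩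
    simp only [Prod.mk.injEq]
    omega

theorem hs_g3 {r : ℝ} (hr0 : 0 ≤ r) (hr : r < 1) {Z : ℂ} (hZ : ‖Z‖ = 1) :
    HasSum (g3 r Z) (-((1 - (r : ℂ) ^ 2)⁻¹ * (r * (Z * (1 - r * Z)⁻¹)))) := by
  refine aux_ext (g := fun p => ((p.1 : ℤ) + 1 + (p.2 + 1), -((p.1 : ℤ) + 1))) ?_ ?_ ?_
  · rintro ⟨a, b⟩ ⟨c, d⟩ h
    simp only [Prod.mk.injEq] at h
    refine Prod.ext ?_ ?_ <;> simp only <;> omega
  · refine aux_congr (fun p => ?_) (aux_sum3 hr0 hr hZ)
    have h1 : (0 : ℤ) < (p.1 : ℤ) + 1 + (p.2 + 1) := by positivity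
    have h2 : -((p.1 : ℤ) + 1) < 0 := by omega
    have h2' : (0 : ℤ) < (p.1 : ℤ) + 1 + (p.2 + 1) + -((p.1 : ℤ) + 1) := by omega
    have h3 : ((p.1 : ℤ) + 1 + (p.2 + 1)).natAbs - 1 = p.1 + (p.2 + 1) := by omega
    have h4 : (-((p.1 : ℤ) + 1)).natAbs - 1 = p.1 := by omega
    have h5 : ((p.1 : ℤ) + 1 + (p.2 + 1) + -((p.1 : ℤ) + 1)) = ((p.2 + 1 : ℕ) : ℤ) := by
      push_cast; ring
    unfold g3 gt
    simp only [h1, h2, h2', and_self, if_true, h3, h4]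
    rw [h5, zpow_natCast, pow_add, ← pow_mul, two_mul, pow_add]
    ring
  · rintro ⟨l, m⟩ hz
    unfold g3
    rw [if_neg]
    rintro ⟨h1, h2, h3⟩
    simp only at h1 h2 h3
    apply hz
    refine ⟨((-m).toNat - 1, (l + m).toNat - 1), ?_⟩
    simp only [Prod.mk.injEq]
    omega

theorem hs_h {r : ℝ} (hr0 : 0 ≤ r) (hr : r < 1) {Z : ℂ} (hZ : ‖Z‖ = 1) :
    HasSum (fun p : ℤ × ℤ => g1 r Z p + (g3 r Z p + g3 r Z (p.2, p.1))) (hh r Z) := by
  have h1 := hs_g1 hr0 hr hZ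
  have h3 := hs_g3 hr0 hr hZ
  have h5 : HasSum (fun p : ℤ × ℤ => g3 r Z (p.2, p.1)) (-((1 - (r : ℂ) ^ 2)⁻¹ * (r * (Z * (1 - r * Z)⁻¹)))) :=
    aux_equiv (Equiv.prodComm ℤ ℤ) h3
  have h7 := aux_add h1 (aux_add h3 h5)
  have e : hh r Z = (2 * ((Z * (1 - r * Z)⁻¹) * (Z * (1 - r * Z)⁻¹)))
      + (-((1 - (r : ℂ) ^ 2)⁻¹ * (r * (Z * (1 - r * Z)⁻¹))) + -((1 - (r : ℂ) ^ 2)⁻¹ * (r * (Z * (1 - r * Z)⁻¹)))) := by
    unfold hh; ring
  rw [e]; exact h7

theorem hs_tot {r : ℝ} (hr0 : 0 ≤ r) (hr : r < 1) {Z : ℂ} (hZ : ‖Z‖ = 1) :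
    HasSum (fun p : ℤ × ℤ => (g1 r Z p + (g3 r Z p + g3 r Z (p.2, p.1)))
      - (g1 r Z⁻¹ (-p) + (g3 r Z⁻¹ (-p) + g3 r Z⁻¹ ((-p).2, (-p).1)))) (hh r Z - hh r Z⁻¹) := by
  have hZ' : ‖Z⁻¹‖ = 1 := by rw [norm_inv, hZ, inv_one]
  exact aux_sub (hs_h hr0 hr hZ) (aux_equiv (Equiv.neg (ℤ × ℤ)) (hs_h hr0 hr hZ'))

/-- the weight -/
noncomputable def tau (l m : ℤ) : ℝ := if 0 < l * m then 2 * sgr l else sgr (l + m)

theorem pt (α c r : ℝ) {Z : ℂ} (hZ0 : Z ≠ 0) (l m : ℤ) :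
    ((bb α c r l * bb α c r m * tau l m : ℝ) : ℂ) * Z ^ (l + m)
     = (α : ℂ) ^ 2 * (c : ℂ) ^ 2 * ((g1 r Z (l, m) + (g3 r Z (l, m) + g3 r Z (m, l)))
      - (g1 r Z⁻¹ (-(l, m)) + (g3 r Z⁻¹ (-(l, m)) + g3 r Z⁻¹ ((-(l, m)).2, (-(l, m)).1)))) := by
  simp only [Prod.neg_mk, g1, g3, bb, tau, sgr, Int.natAbs_neg]
  rcases lt_trichotomy l 0 with hl | hl | hl
  · rcases lt_trichotomy m 0 with hm | hm | hm
    · have h0 : 0 < l * m := mul_pos_of_neg_of_neg hl hm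
      have e1 : ¬ (0 < l) := by omega
      have e2 : ¬ (0 < m) := by omega
      have e3 : 0 < -l := by omega
      have e4 : 0 < -m := by omega
      have e5 : ¬ (-l < 0) := by omega
      have e6 : ¬ (-m < 0) := by omega
      have e7 : -l + -m = -(l + m) := by ring
      simp only [h0, e1, e2, e3, e4, e5, e6, if_true, and_self, and_false, false_and, if_false,
        Int.sign_eq_neg_one_of_neg hl, Int.sign_eq_neg_one_of_neg hm]
      rw [e7, inv_zpow, zpow_neg, inv_inv]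
      push_cast; ring
    · subst hm
      simp [hl.le]
    · have h0 : ¬ (0 < l * m) := by nlinarith
      have e1 : ¬ (0 < l) := by omega
      have e2 : ¬ (m < 0) := by omega
      have e3 : 0 < -l := by omega
      have e4 : ¬ (0 < -m) := by omega
      have e5 : ¬ (-l < 0) := by omega
      have e6 : (-m < 0) := by omega
      have e7 : -l + -m = -(l + m) := by ring
      have e8 : m + l = l + m := by ring
      have e9 : -m + -l = -(l + m) := by ring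
      rcases lt_trichotomy (l + m) 0 with hs | hs | hs
      · have f1 : ¬ (0 < l + m) := by omega
        have f2 : 0 < -(l + m) := by omega
        simp only [h0, e1, e2, e3, e4, e5, e6, e7, e8, e9, hl, hm, f1, f2, if_true, and_self, and_false, false_and, if_false,
          Int.sign_eq_neg_one_of_neg hl, Int.sign_eq_one_of_pos hm, Int.sign_eq_neg_one_of_neg hs]
        rw [inv_zpow, zpow_neg, inv_inv]
        push_cast; ring
      · have f1 : ¬ (0 < l + m) := by omega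
        have f2 : ¬ 0 < -(l + m) := by omega
        simp [h0, e1, e2, e3, e4, e5, e6, e7, e8, e9, hl, hm, f1, f2, hs]
      · have f1 : ¬ (l + m < 0) := by omega
        have f2 : ¬ 0 < -(l + m) := by omega
        simp only [h0, e1, e2, e3, e4, e5, e6, e7, e8, e9, hl, hm, hs, f1, f2, if_true, and_self, and_false, false_and, if_false,
          Int.sign_eq_neg_one_of_neg hl, Int.sign_eq_one_of_pos hm, Int.sign_eq_one_of_pos hs]
        push_cast; ring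
  · subst hl
    simp
  · rcases lt_trichotomy m 0 with hm | hm | hm
    · have h0 : ¬ (0 < l * m) := by nlinarith
      have e1 : ¬ (l < 0) := by omega
      have e2 : ¬ (0 < m) := by omega
      have e3 : ¬ 0 < -l := by omega
      have e4 : (0 < -m) := by omega
      have e5 : (-l < 0) := by omega
      have e6 : ¬ (-m < 0) := by omega
      have e7 : -l + -m = -(l + m) := by ring
      have e8 : m + l = l + m := by ring
      have e9 : -m + -l = -(l + m) := by ring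
      rcases lt_trichotomy (l + m) 0 with hs | hs | hs
      · have f1 : ¬ (0 < l + m) := by omega
        have f2 : 0 < -(l + m) := by omega
        simp only [h0, e1, e2, e3, e4, e5, e6, e7, e8, e9, hl, hm, f1, f2, if_true, and_self, and_false, false_and, if_false,
          Int.sign_eq_neg_one_of_neg hm, Int.sign_eq_one_of_pos hl, Int.sign_eq_neg_one_of_neg hs]
        rw [inv_zpow, zpow_neg, inv_inv]
        push_cast; ring
      · have f1 : ¬ (0 < l + m) := by omega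
        have f2 : ¬ 0 < -(l + m) := by omega
        simp [h0, e1, e2, e3, e4, e5, e6, e7, e8, e9, hl, hm, f1, f2, hs]
      · have f1 : ¬ (l + m < 0) := by omega
        have f2 : ¬ 0 < -(l + m) := by omega
        simp only [h0, e1, e2, e3, e4, e5, e6, e7, e8, e9, hl, hm, hs, f1, f2, if_true, and_self, and_false, false_and, if_false,
          Int.sign_eq_neg_one_of_neg hm, Int.sign_eq_one_of_pos hl, Int.sign_eq_one_of_pos hs]
        push_cast; ring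
    · subst hm
      simp [hl.le]
    · have h0 : 0 < l * m := mul_pos hl hm
      have e1 : ¬ (l < 0) := by omega
      have e2 : ¬ (m < 0) := by omega
      have e3 : ¬ 0 < -l := by omega
      have e4 : ¬ 0 < -m := by omega
      simp only [h0, e1, e2, e3, e4, hl, hm, if_true, and_self, and_false, false_and, if_false,
        Int.sign_eq_one_of_pos hl, Int.sign_eq_one_of_pos hm]
      push_cast; ring

theorem hs_main {α c r : ℝ} (hr0 : 0 ≤ r) (hr : r < 1) {Z : ℂ} (hZ : ‖Z‖ = 1) :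
    HasSum (fun p : ℤ × ℤ => ((bb α c r p.1 * bb α c r p.2 * tau p.1 p.2 : ℝ) : ℂ) * Z ^ (p.1 + p.2))
      ((α : ℂ) ^ 2 * (c : ℂ) ^ 2 * (hh r Z - hh r Z⁻¹)) := by
  have hZ0 : Z ≠ 0 := by
    intro h; rw [h, norm_zero] at hZ; exact zero_ne_one hZ
  refine aux_congr (fun p => ?_) (aux_mul ((α : ℂ) ^ 2 * (c : ℂ) ^ 2) (hs_tot hr0 hr hZ))
  obtain ⟨l, m⟩ := p
  exact pt α c r hZ0 l m

theorem hh_conj (r : ℝ) {Z : ℂ} (hZ : ‖Z‖ = 1) : hh r Z⁻¹ = conj (hh r Z) := by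
  have : Z⁻¹ = conj Z := Complex.inv_eq_conj hZ
  rw [this]
  have h2 : (starRingEnd ℂ) 2 = 2 := Complex.conj_ofNat 2
  unfold hh
  simp [map_div₀, h2]

theorem M_left {δ : ℝ} {M : K → K → W → W → W} (h : IsSymbol δ M) (p q : K) (b : W) :
    M p q 0 b = 0 := by
  have := h.bdd p q 0 b
  rw [norm_zero, zero_mul, mul_zero] at this
  exact norm_le_zero_iff.1 this

theorem M_right {δ : ℝ} {M : K → K → W → W → W} (h : IsSymbol δ M) (p q : K) (a : W) :
    M p q a 0 = 0 := by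
  have := h.bdd p q a 0
  rw [norm_zero, mul_zero, mul_zero] at this
  exact norm_le_zero_iff.1 this

theorem M_smul {δ : ℝ} {M : K → K → W → W → W} (h : IsSymbol δ M) (p q : K) (c d : ℂ) (a b : W) :
    M p q (c • a) (d • b) = (c * d) • M p q a b := by
  have h1 := h.lin₁ p q c 0 a (d • b)
  rw [zero_add, M_left h, zero_add] at h1
  have h2 := h.lin₂ p q d a 0 b
  rw [zero_add, M_right h, zero_add] at h2
  rw [h1, h2, smul_smul]

theorem summable_bb (α c : ℝ) {r : ℝ} (hr0 : 0 ≤ r) (hr : r < 1) :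
    Summable (fun l : ℤ => ‖bb α c r l‖) := by
  have hb : ∀ l : ℤ, ‖bb α c r l‖ ≤ |α * c| * r ^ (l.natAbs - 1) := by
    intro l
    unfold bb sgr
    rw [Real.norm_eq_abs, abs_mul, abs_mul, abs_of_nonneg (pow_nonneg hr0 _)]
    have : |((l.sign : ℤ) : ℝ)| ≤ 1 := by
      rcases lt_trichotomy l 0 with hl | hl | hl
      · rw [Int.sign_eq_neg_one_of_neg hl]; norm_num
      · rw [hl]; simp
      · rw [Int.sign_eq_one_of_pos hl]; norm_num
    have h2 : 0 ≤ |α * c| * r ^ (l.natAbs - 1) := mul_nonneg (abs_nonneg _) (pow_nonneg hr0 _)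
    nlinarith
  have hs : Summable (fun j : ℕ => r ^ (j - 1)) := by
    rw [← summable_nat_add_iff 1]
    simpa using summable_geometric_of_lt_one hr0 hr
  have h1 : Summable (fun l : ℤ => |α * c| * r ^ (l.natAbs - 1)) := by
    refine Summable.mul_left _ ?_
    rw [summable_int_iff_summable_nat_and_neg]
    refine ⟨?_, ?_⟩
    · simpa using hs
    · simpa using hs
  exact Summable.of_nonneg_of_le (fun l => norm_nonneg _) hb h1

theorem vW_apply (e : V) (i : Fin 3) : vW e i = (e i : ℂ) := rfl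

theorem norm_coord (w : W) (i : Fin 3) : ‖w i‖ ≤ ‖w‖ := PiLp.norm_apply_le w i

/-- TARGET -/
theorem op_line {κ δ : ℝ} {N : ℕ} {M : K → K → W → W → W} (h : IsSymbol δ M) (h2 : Sy2 N M)
    {n : K} {e : V} (hn : n ≠ 0) (hv : Val κ M n e) {α c r : ℝ} (hr0 : 0 ≤ r) (hr : r < 1)
    (hc : c ^ 2 = 1 - r ^ 2) {a : K → W}
    (ha : ∀ l : ℤ, a (l • n) = (-Complex.I * (bb α c r l : ℂ)) • vW e)
    (ha0 : ∀ k : K, (∀ l : ℤ, k ≠ l • n) → a k = 0) (x : V) (i : Fin 3) :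
    (∑' z : K × K, M z.1 z.2 (a z.1) (a z.2) i
        * Complex.exp (Complex.I * (dot (z.1 + z.2) x : ℂ))).re
      = 2 * κ * α ^ 2 * ((c : ℂ) ^ 2 * Complex.exp (Complex.I * (dot n x : ℂ)) ^ 2
            / (1 - (r : ℂ) * Complex.exp (Complex.I * (dot n x : ℂ))) ^ 2
          - (r : ℂ) * Complex.exp (Complex.I * (dot n x : ℂ))
            / (1 - (r : ℂ) * Complex.exp (Complex.I * (dot n x : ℂ)))).im * e i := by
  set Z : ℂ := Complex.exp (Complex.I * (dot n x : ℂ)) with hZdef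
  have hZ : ‖Z‖ = 1 := by
    rw [hZdef, mul_comm]; exact Complex.norm_exp_ofReal_mul_I _
  have hZ0 : Z ≠ 0 := by
    intro h; rw [h, norm_zero] at hZ; exact zero_ne_one hZ
  -- reduction to multiples of `n`
  set F : K × K → ℂ := fun z => M z.1 z.2 (a z.1) (a z.2) i
        * Complex.exp (Complex.I * (dot (z.1 + z.2) x : ℂ)) with hF
  have hinj : Function.Injective (fun p : ℤ × ℤ => ((p.1 • n, p.2 • n) : K × K)) := by
    rintro ⟨a1, b1⟩ ⟨a2, b2⟩ h
    simp only [Prod.mk.injEq] at h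
    exact Prod.ext (smul_left_injective ℤ hn h.1) (smul_left_injective ℤ hn h.2)
  have hsupp : Function.support F ⊆ Set.range (fun p : ℤ × ℤ => ((p.1 • n, p.2 • n) : K × K)) := by
    rintro ⟨p, q⟩ hz
    by_contra hcon
    apply hz
    have h1 : (∀ l : ℤ, p ≠ l • n) ∨ (∀ l : ℤ, q ≠ l • n) := by
      by_contra h
      push Not at h
      obtain ⟨⟨l, hl⟩, ⟨m, hm⟩⟩ := h
      exact hcon ⟨(l, m), by rw [hl, hm]⟩
    rw [hF]
    rcases h1 with h1 | h1
    · simp only [ha0 p h1, M_left h]; simp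
    · simp only [ha0 q h1, M_right h]; simp
  rw [← hinj.tsum_eq hsupp]
  set T : ℤ → ℤ → ℂ := fun l m => M (l • n) (m • n) (vW e) (vW e) i with hT
  have hFT : ∀ l m : ℤ, F (l • n, m • n) = -(((bb α c r l * bb α c r m : ℝ) : ℂ)) * T l m * Z ^ (l + m) := by
    intro l m
    have hd : (dot (l • n + m • n) x : ℂ) = ((l + m : ℤ) : ℂ) * (dot n x : ℂ) := by
      have : dot (l • n + m • n) x = ((l + m : ℤ) : ℝ) * dot n x := by
        unfold dot
        rw [Finset.mul_sum]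
        refine Finset.sum_congr rfl fun j _ => ?_
        simp only [Pi.add_apply, Pi.smul_apply, smul_eq_mul]
        push_cast; ring
      rw [this]; push_cast; ring
    rw [hF]
    simp only [ha l, ha m, M_smul h]
    rw [hd, hT, hZdef, ← Complex.exp_int_mul]
    have hI : -Complex.I * (bb α c r l : ℂ) * (-Complex.I * (bb α c r m : ℂ))
      = -(((bb α c r l * bb α c r m : ℝ) : ℂ)) := by
      push_cast
      linear_combination ((bb α c r l : ℂ)) * (bb α c r m : ℂ) * Complex.I_mul_I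
    rw [PiLp.smul_apply, smul_eq_mul, hI]
    congr 2
    ring
  have hTn : ∀ l m, ‖T l m‖ ≤ δ * (‖vW e‖ * ‖vW e‖) := fun l m =>
    (norm_coord _ i).trans (h.bdd _ _ _ _)
  have hsum : Summable (fun p : ℤ × ℤ => F (p.1 • n, p.2 • n)) := by
    have h1 := summable_bb α c hr0 hr
    have h2 : Summable (fun p : ℤ × ℤ => ‖bb α c r p.1‖ * ‖bb α c r p.2‖ * (δ * (‖vW e‖ * ‖vW e‖))) :=
      (h1.mul_of_nonneg h1 (fun _ => norm_nonneg _) (fun _ => norm_nonneg _)).mul_right _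
    refine Summable.of_norm_bounded h2 ?_
    rintro ⟨l, m⟩
    rw [hFT]
    rw [norm_mul, norm_mul, norm_neg, Complex.norm_real, norm_mul, norm_zpow, hZ, one_zpow, mul_one]
    exact mul_le_mul_of_nonneg_left (hTn l m) (mul_nonneg (norm_nonneg _) (norm_nonneg _))
  -- symmetrization
  have hsym : ∀ l m : ℤ, F (l • n, m • n) + F (m • n, l • n)
      = (-(κ : ℂ) * Complex.I * (e i : ℂ)) * ((((bb α c r l * bb α c r m * tau l m : ℝ) : ℂ)) * Z ^ (l + m)) := by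
    intro l m
    rw [hFT, hFT, add_comm m l]
    by_cases hl : l = 0
    · subst hl; simp [bb, sgr]
    by_cases hm : m = 0
    · subst hm; simp [bb, sgr]
    by_cases hs : l + m = 0
    · have hz1 : T l m = 0 := by
        rw [hT]
        by_contra hne
        have : M (l • n) (m • n) (vW e) (vW e) ≠ 0 := by
          intro h0; apply hne; simp only [h0]; simp
        have := (h2.supp _ _ _ _ this).2.1
        apply this
        rw [← add_smul, hs, zero_smul]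
      have hz2 : T m l = 0 := by
        rw [hT]
        by_contra hne
        have : M (m • n) (l • n) (vW e) (vW e) ≠ 0 := by
          intro h0; apply hne; simp only [h0]; simp
        have := (h2.supp _ _ _ _ this).2.1
        apply this
        rw [← add_smul, add_comm, hs, zero_smul]
      have ht : tau l m = 0 := by
        unfold tau
        have hlm : ¬ 0 < l * m := by
          have : m = -l := by omega
          rw [this]
          nlinarith [mul_self_nonneg l]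
        rw [if_neg hlm, hs]; simp [sgr]
      rw [hz1, hz2, ht]; simp
    · have h3 := congrArg (fun w : W => w i) (hv l m hl hm hs)
      have h4 : T l m + T m l = (κ * tau l m : ℝ) * Complex.I * (e i : ℂ) := by
        rw [hT]
        simp only [PiLp.add_apply, PiLp.smul_apply, smul_eq_mul, vW_apply] at h3
        exact h3
      push_cast at h4 ⊢
      linear_combination (-((bb α c r l : ℂ)) * (bb α c r m : ℂ) * Z ^ (l + m)) * h4
  have hS1 : HasSum (fun p : ℤ × ℤ => F (p.1 • n, p.2 • n)) (∑' p : ℤ × ℤ, F (p.1 • n, p.2 • n)) :=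
    hsum.hasSum
  have hS2 : HasSum (fun p : ℤ × ℤ => F (p.2 • n, p.1 • n)) (∑' p : ℤ × ℤ, F (p.1 • n, p.2 • n)) :=
    aux_equiv (Equiv.prodComm ℤ ℤ) hS1
  have hS3 := aux_add hS1 hS2
  have hS4 := aux_mul (-(κ : ℂ) * Complex.I * (e i : ℂ)) (hs_main (α := α) (c := c) hr0 hr hZ)
  have hS5 := hS3.unique (aux_congr (fun p => hsym p.1 p.2) hS4)
  have hS6 : (∑' p : ℤ × ℤ, F (p.1 • n, p.2 • n)) = (-(κ : ℂ) * Complex.I * (e i : ℂ))
      * ((α : ℂ) ^ 2 * (c : ℂ) ^ 2 * (hh r Z - hh r Z⁻¹)) / 2 := by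
    rw [← hS5]; ring
  rw [hS6, hh_conj r hZ, Complex.sub_conj]
  have hfin : (-(κ : ℂ) * Complex.I * (e i : ℂ))
      * ((α : ℂ) ^ 2 * (c : ℂ) ^ 2 * (((2 * (hh r Z).im : ℝ) : ℂ) * Complex.I)) / 2
      = ((κ * e i * α ^ 2 * (c ^ 2 * (hh r Z).im) : ℝ) : ℂ) := by
    push_cast
    linear_combination (-(κ : ℂ) * (e i : ℂ) * (α : ℂ) ^ 2 * (c : ℂ) ^ 2 * ((hh r Z).im : ℂ)) * Complex.I_mul_I
  rw [hfin, Complex.ofReal_re]
  have hr2 : (1 : ℝ) - r ^ 2 ≠ 0 := by nlinarith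
  have hden : (1 - (r : ℂ) * Z) ≠ 0 := by
    intro h0
    have := aux_geom hr0 hr hZ
    have h1 : (r : ℂ) * Z = 1 := by linear_combination -h0
    rw [h1, norm_one] at this
    exact lt_irrefl _ this
  have hcc : (c : ℂ) ^ 2 = 1 - (r : ℂ) ^ 2 := by
    rw [← Complex.ofReal_pow, hc]; push_cast; ring
  have hr2' : (1 : ℂ) - (r : ℂ) ^ 2 ≠ 0 := by
    rw [← hcc, ← Complex.ofReal_pow, hc]
    exact_mod_cast hr2
  have hh1 : c ^ 2 * (hh r Z).im = (((c ^ 2 : ℝ) : ℂ) * hh r Z).im := by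
    rw [Complex.im_ofReal_mul]
  have hh2 : ((c ^ 2 : ℝ) : ℂ) * hh r Z = (2 : ℝ) * ((c : ℂ) ^ 2 * Z ^ 2 / (1 - (r : ℂ) * Z) ^ 2 - (r : ℂ) * Z / (1 - (r : ℂ) * Z)) := by
    unfold hh
    rw [Complex.ofReal_pow, hcc]
    field_simp
    push_cast
    ring
  rw [hh1, hh2, Complex.im_ofReal_mul]
  ring

end H706T.JXB

namespace H706T

alias op_line := JXB.op_line

end H706T
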