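import Pool.Agent.Helper706_TE.Defs2
import Pool.Agent.Helper706_TE.XA
import Pool.Agent.Helper706_TE.SC

set_option autoImplicit false
open Set Filter Topology MeasureTheory
open scoped ComplexConjugate ContDiff

namespace H706T.JXD

/-- the Fourier coefficients along the line -/
noncomputable def XDg (A c r : ℝ) (e : V) (l : ℤ) : W := (-Complex.I * (bb (A / 2) c r l : ℂ)) • vW e

theorem XD_inj {n : K} (hn : n ≠ 0) : Function.Injective (fun l : ℤ => l • n) := by
  intro a b h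
  obtain ⟨i, hi⟩ := Function.ne_iff.1 hn
  have h1 := congrFun h i
  simp only [Pi.smul_apply, smul_eq_mul] at h1
  exact mul_right_cancel₀ hi h1

theorem XD_bb (A c r : ℝ) (m : ℕ) : bb A c r ((m : ℤ) + 1) = A * c * r ^ m := by
  have h1 : ((m : ℤ) + 1).sign = 1 := Int.sign_eq_one_of_pos (by omega)
  have h2 : ((m : ℤ) + 1).natAbs - 1 = m := by omega
  unfold bb sgr
  rw [h1, h2]
  simp

theorem XD_bb' (A c r : ℝ) (l : ℤ) : bb A c r (-l) = -bb A c r l := by
  unfold bb sgr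
  rw [Int.sign_neg, Int.natAbs_neg]
  push_cast
  ring

theorem XD_bb0 (A c r : ℝ) : bb A c r 0 = 0 := by
  unfold bb sgr
  simp

theorem XD_sum {A c r : ℝ} (hr : |r| < 1) : Summable fun l : ℤ => |bb A c r l| := by
  have h : Summable fun m : ℕ => |A * c| * |r| ^ m :=
    (summable_geometric_of_lt_one (abs_nonneg r) hr).mul_left _
  have h1 : Summable fun m : ℕ => |bb A c r ((m : ℤ) + 1)| := by
    refine h.congr fun m => ?_
    rw [XD_bb, abs_mul (A * c), abs_pow]
  have h2 : Summable fun m : ℕ => |bb A c r (-((m : ℤ) + 1))| := by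
    refine h1.congr fun m => ?_
    rw [XD_bb', abs_neg]
  have h3 := HasSum.of_add_one_of_neg_add_one (f := fun l : ℤ => |bb A c r l|) h1.hasSum h2.hasSum
  exact h3.summable

theorem XD_gsum {A c r : ℝ} (hr : |r| < 1) (e : V) : Summable fun l : ℤ => ‖XDg A c r e l‖ := by
  refine ((XD_sum (A := A / 2) (c := c) hr).mul_right ‖vW e‖).congr fun l => ?_
  unfold XDg
  rw [norm_smul, norm_mul, norm_neg, Complex.norm_I, one_mul, Complex.norm_real, Real.norm_eq_abs]

theorem XD_gneg (A c r : ℝ) (e : V) (l : ℤ) : XDg A c r e (-l) = cj (XDg A c r e l) := by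
  ext j
  show (-Complex.I * (bb (A / 2) c r (-l) : ℂ)) * (e j : ℂ) =
    conj ((-Complex.I * (bb (A / 2) c r l : ℂ)) * (e j : ℂ))
  rw [XD_bb']
  simp

theorem XD_dot (n : K) (l : ℤ) (x : V) : dot (l • n) x = l * dot n x := by
  unfold dot
  rw [Finset.mul_sum]
  refine Finset.sum_congr rfl fun i _ => ?_
  simp only [Pi.smul_apply, smul_eq_mul, Int.cast_mul]
  ring

theorem XD_tsum {s : ℝ} (hs : |s| < Real.pi / 2) (hr : |Real.sin s| < 1) (A : ℝ) (e : V) (j : Fin 3)
    (φ : ℝ) : ∑' l : ℤ, XDg A (Real.cos s) (Real.sin s) e l j *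
      Complex.exp (Complex.I * (((l : ℝ) * φ : ℝ) : ℂ)) = ((A * ff s φ * e j : ℝ) : ℂ) := by
  have hsum : Summable fun l : ℤ => XDg A (Real.cos s) (Real.sin s) e l j *
      Complex.exp (Complex.I * (((l : ℝ) * φ : ℝ) : ℂ)) := by
    refine Summable.of_norm_bounded (XD_gsum (A := A) (c := Real.cos s) hr e) fun l => ?_
    rw [norm_mul, mul_comm Complex.I, Complex.norm_exp_ofReal_mul_I, mul_one]
    exact PiLp.norm_apply_le (XDg A (Real.cos s) (Real.sin s) e l) j
  have h1 : Summable fun m : ℕ => XDg A (Real.cos s) (Real.sin s) e ((m : ℤ) + 1) j *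
      Complex.exp (Complex.I * (((((m : ℤ) + 1 : ℤ) : ℝ) * φ : ℝ) : ℂ)) :=
    hsum.comp_injective (i := fun m : ℕ => (m : ℤ) + 1) (fun a b h => by simpa using h)
  have h2 : Summable fun m : ℕ => XDg A (Real.cos s) (Real.sin s) e (-((m : ℤ) + 1)) j *
      Complex.exp (Complex.I * ((((-((m : ℤ) + 1) : ℤ) : ℝ) * φ : ℝ) : ℂ)) :=
    hsum.comp_injective (i := fun m : ℕ => -((m : ℤ) + 1)) (fun a b h => by simpa using h)
  have h3 := HasSum.of_add_one_of_neg_add_one (f := fun l : ℤ =>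
    XDg A (Real.cos s) (Real.sin s) e l j *
      Complex.exp (Complex.I * (((l : ℝ) * φ : ℝ) : ℂ))) h1.hasSum h2.hasSum
  rw [h3.tsum_eq]
  have h4 : XDg A (Real.cos s) (Real.sin s) e 0 j = 0 := by
    show (-Complex.I * (bb (A / 2) (Real.cos s) (Real.sin s) 0 : ℂ)) * (e j : ℂ) = 0
    rw [XD_bb0]
    simp
  rw [h4, zero_mul, add_zero, ← h1.tsum_add h2]
  have h5 : HasSum (fun m : ℕ => ((A * (Real.cos s * Real.sin s ^ m * Real.sin ((m + 1) * φ)) * e j :
      ℝ) : ℂ)) ((A * ff s φ * e j : ℝ) : ℂ) :=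
    Complex.hasSum_ofReal.2 (((ff_series hs φ).mul_left A).mul_right (e j))
  rw [← h5.tsum_eq]
  refine tsum_congr fun m => ?_
  show (-Complex.I * (bb (A / 2) (Real.cos s) (Real.sin s) ((m : ℤ) + 1) : ℂ)) * (e j : ℂ) *
      Complex.exp (Complex.I * (((((m : ℤ) + 1 : ℤ) : ℝ) * φ : ℝ) : ℂ)) +
    (-Complex.I * (bb (A / 2) (Real.cos s) (Real.sin s) (-((m : ℤ) + 1)) : ℂ)) * (e j : ℂ) *
      Complex.exp (Complex.I * ((((-((m : ℤ) + 1) : ℤ) : ℝ) * φ : ℝ) : ℂ)) = _
  rw [XD_bb', XD_bb]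
  have h6 : Complex.exp (Complex.I * (((((m : ℤ) + 1 : ℤ) : ℝ) * φ : ℝ) : ℂ)) =
      Complex.cos (((m + 1) * φ : ℝ) : ℂ) + Complex.sin (((m + 1) * φ : ℝ) : ℂ) * Complex.I := by
    rw [← Complex.exp_mul_I]
    congr 1
    push_cast
    ring
  have h7 : Complex.exp (Complex.I * ((((-((m : ℤ) + 1) : ℤ) : ℝ) * φ : ℝ) : ℂ)) =
      Complex.cos (((m + 1) * φ : ℝ) : ℂ) - Complex.sin (((m + 1) * φ : ℝ) : ℂ) * Complex.I := by
    have h8 : Complex.I * ((((-((m : ℤ) + 1) : ℤ) : ℝ) * φ : ℝ) : ℂ) =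
        ((-((m + 1) * φ : ℝ) : ℝ) : ℂ) * Complex.I := by
      push_cast
      ring
    rw [h8, Complex.exp_mul_I, Complex.ofReal_neg, Complex.cos_neg, Complex.sin_neg]
    ring
  rw [h6, h7]
  push_cast
  linear_combination (-(A : ℂ) * Complex.cos s * Complex.sin s ^ m * e j *
    Complex.sin (((m : ℂ) + 1) * φ)) * Complex.I_sq

/-- TARGET -/
theorem expl_coeff {n : K} (hn : n ≠ 0) {s : ℝ} (hs : |s| < Real.pi / 2) (A : ℝ) (e : V) :
    (∀ l : ℤ, coeff (fun x => (A * ff s (dot n x)) • e) (l • n)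
      = (-Complex.I * (bb (A / 2) (Real.cos s) (Real.sin s) l : ℂ)) • vW e) ∧
    ∀ k : K, (∀ l : ℤ, k ≠ l • n) → coeff (fun x => (A * ff s (dot n x)) • e) k = 0 := by
  have hr : |Real.sin s| < 1 := by
    have h1 : 0 < Real.cos s := Real.cos_pos_of_mem_Ioo ⟨by linarith [neg_abs_le s], by
      linarith [le_abs_self s]⟩
    have h2 := Real.sin_sq_add_cos_sq s
    rw [← sq_lt_one_iff_abs_lt_one]
    nlinarith
  have hinj := XD_inj hn
  obtain ⟨c, hc⟩ : ∃ c : K → W, c = Function.extend (fun l : ℤ => l • n)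
    (XDg A (Real.cos s) (Real.sin s) e) 0 := ⟨_, rfl⟩
  have hc1 : ∀ l : ℤ, c (l • n) = XDg A (Real.cos s) (Real.sin s) e l := fun l => by
    rw [hc]
    exact hinj.extend_apply _ _ l
  have hc2 : ∀ k : K, (∀ l : ℤ, k ≠ l • n) → c k = 0 := fun k hk => by
    rw [hc, Function.extend_apply' _ _ _ (fun ⟨l, hl⟩ => hk l hl.symm)]
    rfl
  have hs1 : Summable fun k => ‖c k‖ := by
    refine (hinj.summable_iff (f := fun k => ‖c k‖) fun k hk => ?_).1 ?_
    · have h0 := hc2 k fun l hl => hk ⟨l, hl.symm⟩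
      show ‖c k‖ = 0
      rw [h0, norm_zero]
    · refine (XD_gsum (A := A) (c := Real.cos s) hr e).congr fun l => ?_
      show _ = ‖c (l • n)‖
      rw [hc1]
  have hcj : ∀ k, c (-k) = cj (c k) := by
    intro k
    by_cases hk : ∃ l : ℤ, k = l • n
    · obtain ⟨l, rfl⟩ := hk
      rw [← neg_smul, hc1, hc1, XD_gneg]
    · push Not at hk
      rw [hc2 k hk, hc2 (-k) fun l hl => hk (-l) (by rw [neg_smul, ← hl, neg_neg])]
      ext j
      show (0 : ℂ) = conj (0 : ℂ)
      simp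
  have hfun : (fun (x : V) (j : Fin 3) =>
      (∑' k : K, c k j * Complex.exp (Complex.I * (dot k x : ℂ))).re) =
      fun x => (A * ff s (dot n x)) • e := by
    funext x j
    have h1 : ∑' k : K, c k j * Complex.exp (Complex.I * (dot k x : ℂ)) =
        ∑' l : ℤ, c (l • n) j * Complex.exp (Complex.I * (dot (l • n) x : ℂ)) := by
      refine (hinj.tsum_eq (f := fun k : K => c k j * Complex.exp (Complex.I * (dot k x : ℂ)))
        fun k hk => ?_).symm
      by_contra hcon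
      refine hk ?_
      have h0 := hc2 k fun l hl => hcon ⟨l, hl.symm⟩
      show c k j * _ = 0
      rw [h0]
      simp
    rw [h1]
    simp only [hc1, XD_dot]
    rw [XD_tsum hs hr, Complex.ofReal_re]
    rfl
  have key := series_coeff hs1 hcj
  rw [hfun] at key
  exact ⟨fun l => by rw [key, hc1]; rfl, fun k hk => by rw [key, hc2 k hk]⟩

end H706T.JXD

namespace H706T

alias expl_coeff := JXD.expl_coeff

end H706T
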