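import Pool.Agent.Helper706_TE.Defs2
import Pool.Agent.Helper706_TE.XA
import Pool.Agent.Helper706_TE.XD
import Pool.Agent.Helper706_TE.XB

set_option autoImplicit false
open Set Filter Topology MeasureTheory
open scoped ComplexConjugate ContDiff

namespace H706T.JXC

/-- The linear form `x ↦ n · x`. -/
noncomputable def dotL (n : K) : V →L[ℝ] ℝ :=
  ∑ i, (n i : ℝ) • (ContinuousLinearMap.proj i : V →L[ℝ] ℝ)

theorem dotL_apply (n : K) (x : V) : dotL n x = dot n x := by
  simp [dotL, dot]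

theorem dotL_single (n : K) (j : Fin 3) : dotL n (Pi.single j 1) = (n j : ℝ) := by
  rw [dotL_apply, dot]
  simp [Pi.single_apply]

theorem dot_add_single (n : K) (x : V) (i : Fin 3) (c : ℝ) :
    dot n (x + Pi.single i c) = dot n x + (n i : ℝ) * c := by
  simp [dot, Pi.single_apply, mul_add, Finset.sum_add_distrib]

theorem sval {κ A t : ℝ} (hκ : 0 < κ) (hA : 0 < A) (ht : t ∈ Ico 0 (Real.pi / (κ * A))) :
    0 ≤ κ * A * t / 2 ∧ κ * A * t / 2 < Real.pi / 2 := by
  have hκA : 0 < κ * A := by positivity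
  have h1 := ht.2
  have h0 := ht.1
  rw [lt_div_iff₀ hκA] at h1
  constructor
  · positivity
  · nlinarith

theorem sval' {κ A t : ℝ} (hκ : 0 < κ) (hA : 0 < A) (ht : t ∈ Ico 0 (Real.pi / (κ * A))) :
    |κ * A * t / 2| < Real.pi / 2 := by
  obtain ⟨h0, h1⟩ := sval hκ hA ht
  rw [abs_of_nonneg h0]
  exact h1

theorem isOpen_dom : IsOpen (({s | |s| < Real.pi / 2} : Set ℝ) ×ˢ (univ : Set ℝ)) := by
  refine IsOpen.prod ?_ isOpen_univ
  exact isOpen_lt continuous_abs continuous_const

theorem ff_diff_phi {s : ℝ} (hs : |s| < Real.pi / 2) (φ : ℝ) :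
    HasDerivAt (fun φ => ff s φ) (deriv (fun φ => ff s φ) φ) φ := by
  have h1 : ContDiffAt ℝ ∞ (fun z : ℝ × ℝ => ff z.1 z.2) (s, φ) :=
    ff_smooth.contDiffAt (isOpen_dom.mem_nhds ⟨hs, mem_univ _⟩)
  have h2 : DifferentiableAt ℝ (fun z : ℝ × ℝ => ff z.1 z.2) (s, φ) :=
    h1.differentiableAt (by simp)
  have h3 : DifferentiableAt ℝ (fun φ : ℝ => (s, φ)) φ := by fun_prop
  have h4 : DifferentiableAt ℝ (fun φ => ff s φ) φ := by
    have := DifferentiableAt.comp φ (g := fun z : ℝ × ℝ => ff z.1 z.2) (f := fun φ : ℝ => (s, φ))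
      h2 h3
    exact this
  exact h4.hasDerivAt

theorem D_formula {s : ℝ} (hs : |s| < Real.pi / 2) (A : ℝ) (n : K) (e : V) (x : V)
    (j i : Fin 3) :
    D (fun x => (A * ff s (dot n x)) • e) x j i
      = A * deriv (fun φ => ff s φ) (dot n x) * (n j : ℝ) * e i := by
  have h1 := ff_diff_phi hs (dot n x)
  have h2 : HasFDerivAt (fun x => dot n x) (dotL n) x := by
    have := (dotL n).hasFDerivAt (x := x)
    have h3 : (fun x => dot n x) = fun x => dotL n x := by
      funext y
      rw [dotL_apply]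
    rw [h3]
    exact this
  have h3 : HasFDerivAt (fun x => ff s (dot n x))
      (deriv (fun φ => ff s φ) (dot n x) • dotL n) x :=
    h1.comp_hasFDerivAt x h2
  have h4 := (h3.const_mul A).smul_const e
  rw [D, h4.fderiv]
  simp only [ContinuousLinearMap.smulRight_apply, ContinuousLinearMap.smul_apply, Pi.smul_apply,
    smul_eq_mul, dotL_single]
  ring

/-- TARGET -/
theorem explicit_sol {κ δ : ℝ} {N : ℕ} {M : K → K → W → W → W} (h : IsSymbol δ M) (h2 : Sy2 N M)
    {n : K} {e : V} (hn : n ≠ 0) (hne : ∑ i, (n i : ℝ) * e i = 0) (hv : Val κ M n e) (hκ : 0 < κ)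
    {A : ℝ} (hA : 0 < A) :
    IsSolution M (Real.pi / (κ * A)) (fun t x => (A * ff (κ * A * t / 2) (dot n x)) • e)
      (fun _ _ => 0) := by
  refine ⟨?_, ?_, ?_, ?_, ?_, ?_⟩
  · -- regularity
    have hg : ContDiff ℝ ∞ (fun z : ℝ × V => ((κ * A * z.1 / 2, dot n z.2) : ℝ × ℝ)) := by
      have h3 : (fun z : ℝ × V => ((κ * A * z.1 / 2, dot n z.2) : ℝ × ℝ))
          = fun z : ℝ × V => ((κ * A * z.1 / 2, dotL n z.2) : ℝ × ℝ) := by
        funext y
        rw [dotL_apply]
      rw [h3]
      refine ContDiff.prodMk ?_ ?_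
      · exact (contDiff_const.mul contDiff_fst).div_const _
      · exact (dotL n).contDiff.comp contDiff_snd
    have hm : MapsTo (fun z : ℝ × V => ((κ * A * z.1 / 2, dot n z.2) : ℝ × ℝ))
        (Ico 0 (Real.pi / (κ * A)) ×ˢ univ) ({s | |s| < Real.pi / 2} ×ˢ univ) := by
      rintro ⟨t, x⟩ ⟨ht, -⟩
      exact ⟨sval' hκ hA ht, mem_univ _⟩
    have h1 : ContDiffOn ℝ ∞ (fun z : ℝ × V => ff (κ * A * z.1 / 2) (dot n z.2))
        (Ico 0 (Real.pi / (κ * A)) ×ˢ univ) := by
      have h0 := ContDiffOn.comp (g := fun z : ℝ × ℝ => ff z.1 z.2)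
        (f := fun z : ℝ × V => ((κ * A * z.1 / 2, dot n z.2) : ℝ × ℝ)) ff_smooth
        (hg.contDiffOn (s := Ico 0 (Real.pi / (κ * A)) ×ˢ univ)) hm
      exact h0
    have h2 : ContDiffOn ℝ 1 (fun z : ℝ × V => ff (κ * A * z.1 / 2) (dot n z.2))
        (Ico 0 (Real.pi / (κ * A)) ×ˢ univ) := h1.of_le (by exact_mod_cast le_top)
    exact (contDiffOn_const.mul h2).smul contDiffOn_const
  · exact contDiffOn_const
  · -- periodicity
    intro t _ i x
    have h1 : ff (κ * A * t / 2) (dot n (x + Pi.single i (2 * Real.pi)))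
        = ff (κ * A * t / 2) (dot n x) := by
      rw [dot_add_single, ff_periodic]
    simp only [h1]
  · intro t _ i x
    rfl
  · intro t ht x
    have hs := sval' hκ hA ht
    have h1 : ∀ i, D (fun x => (A * ff (κ * A * t / 2) (dot n x)) • e) x i i
        = A * deriv (fun φ => ff (κ * A * t / 2) φ) (dot n x) * ((n i : ℝ) * e i) := by
      intro i
      rw [D_formula hs A n e x i i]
      ring
    show ∑ i, D (fun x => (A * ff (κ * A * t / 2) (dot n x)) • e) x i i = 0
    rw [Finset.sum_congr rfl (fun i _ => h1 i), ← Finset.mul_sum, hne, mul_zero]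
  · intro t ht x i
    have hs := sval' hκ hA ht
    obtain ⟨hs0, hs1⟩ := sval hκ hA ht
    -- the transport term
    have h1 : ∑ j, ((A * ff (κ * A * t / 2) (dot n x)) • e) j
        * D (fun x => (A * ff (κ * A * t / 2) (dot n x)) • e) x j i = 0 := by
      have h2 : ∀ j, ((A * ff (κ * A * t / 2) (dot n x)) • e) j
          * D (fun x => (A * ff (κ * A * t / 2) (dot n x)) • e) x j i
          = (A * ff (κ * A * t / 2) (dot n x)) *
            (A * deriv (fun φ => ff (κ * A * t / 2) φ) (dot n x) * e i) * ((n j : ℝ) * e j) := by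
        intro j
        rw [D_formula hs A n e x j i]
        simp only [Pi.smul_apply, smul_eq_mul]
        ring
      rw [Finset.sum_congr rfl (fun j _ => h2 j), ← Finset.mul_sum, hne, mul_zero]
    -- the pressure
    have h3 : fderiv ℝ (fun _ : V => (0 : ℝ)) x (Pi.single i 1) = 0 := by
      simp
    -- the time derivative
    have h4 := ff_deriv hs (dot n x)
    have h5 : HasDerivAt (fun t : ℝ => κ * A * t / 2) (κ * A / 2) t := by
      have := ((hasDerivAt_id t).const_mul (κ * A)).div_const 2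
      simpa using this
    have h6 := HasDerivAt.comp t (h₂ := fun s => ff s (dot n x)) (h := fun t : ℝ => κ * A * t / 2)
      h4 h5
    have h7 := (h6.const_mul A).mul_const (e i)
    have hT : 0 < Real.pi / (κ * A) := by positivity
    have h8 : derivWithin (fun s => ((A * ff (κ * A * s / 2) (dot n x)) • e) i)
        (Ico 0 (Real.pi / (κ * A))) t = _ :=
      h7.hasDerivWithinAt.derivWithin (uniqueDiffOn_Ico _ _ t ht)
    have hr : Real.sin (κ * A * t / 2) < 1 := by
      rw [← Real.sin_pi_div_two]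
      exact Real.sin_lt_sin_of_lt_of_le_pi_div_two (by linarith) le_rfl hs1
    have hr0 : 0 ≤ Real.sin (κ * A * t / 2) :=
      Real.sin_nonneg_of_nonneg_of_le_pi hs0 (by linarith [Real.pi_pos])
    have hc : Real.cos (κ * A * t / 2) ^ 2 = 1 - Real.sin (κ * A * t / 2) ^ 2 := by
      have := Real.sin_sq_add_cos_sq (κ * A * t / 2)
      linarith
    obtain ⟨hc1, hc2⟩ := expl_coeff hn hs A e
    have h9 := op_line h h2 hn hv (α := A / 2) hr0 hr hc
      (a := coeff (fun x => (A * ff (κ * A * t / 2) (dot n x)) • e)) hc1 hc2 x i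
    show derivWithin (fun s => ((A * ff (κ * A * s / 2) (dot n x)) • e) i)
        (Ico 0 (Real.pi / (κ * A))) t
      + ∑ j, ((A * ff (κ * A * t / 2) (dot n x)) • e) j
        * D (fun x => (A * ff (κ * A * t / 2) (dot n x)) • e) x j i
      + fderiv ℝ (fun _ : V => (0 : ℝ)) x (Pi.single i 1)
      = (∑' z : K × K, M z.1 z.2 (coeff (fun x => (A * ff (κ * A * t / 2) (dot n x)) • e) z.1)
          (coeff (fun x => (A * ff (κ * A * t / 2) (dot n x)) • e) z.2) i
        * Complex.exp (Complex.I * (dot (z.1 + z.2) x : ℂ))).re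
    rw [h1, h3, h8, h9]
    ring

end H706T.JXC

namespace H706T

alias explicit_sol := JXC.explicit_sol

end H706T
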