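import Pool.Agent.Helper706_TE.UQ
import Pool.Agent.Helper706_TE.Sy4
import Pool.Agent.Helper706_TE.IV
import Pool.Agent.Helper706_TE.IW
import Pool.Agent.Helper706_TE.XC
import Pool.Agent.Y302.Tri.Hel2

/-!
Assembly.
-/

set_option autoImplicit false

open Set Filter Topology MeasureTheory
open scoped ComplexConjugate ContDiff

namespace H706T

open Pool.Agent.H708R2.EulerSign (Dom sq3 sq3_nonneg sq3_eq_zero sq3_contDiff
  eq_zero_of_integral_eq_zero contDiff_slice dom_bdd dom_exists_unique)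
open Pool.Agent.H708R2.EulerModes (cube ph integral_cube)
open Pool.Agent.Y302.Tri

variable {δ : ℝ} {N : ℕ} {M : K → K → W → W → W} {T : ℝ} {w u : ℝ → V → V} {q p : ℝ → V → ℝ}

/-- The gradient of a classical solution is bounded on compact time intervals. -/
theorem grad_bdd (hu : IsSolution M T u p) {T₁ : ℝ} (hT : T₁ < T) :
    ∃ B : ℝ, ∀ t ∈ Icc 0 T₁, ∀ x i j, |D (u t) x j i| ≤ B := by
  have hK : IsCompact (Icc 0 T₁ ×ˢ closure Dom) := isCompact_Icc.prod dom_bdd.isCompact_closure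
  have hsub : Icc 0 T₁ ×ˢ closure Dom ⊆ Ico 0 T ×ˢ (univ : Set V) :=
    prod_mono (fun s hs => ⟨hs.1, hs.2.trans_lt hT⟩) (subset_univ _)
  choose C hC using fun z : Fin 3 × Fin 3 =>
    hK.exists_bound_of_continuousOn ((grad_continuousOn hu.base z.1 z.2).mono hsub)
  refine ⟨∑ z, |C z|, fun t ht x i j => ?_⟩
  obtain ⟨g, hg, -⟩ := dom_exists_unique x
  have h2 : (g +ᵥ x : V) = x + g := by rw [add_comm]; rfl
  have h3 : x + (g : V) ∈ closure Dom := by
    rw [← h2]; exact subset_closure hg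
  have htI : t ∈ Ico 0 T := ⟨ht.1, ht.2.trans_lt hT⟩
  have h4 := hC (i, j) (t, x + (g : V)) ⟨ht, h3⟩
  have h5 : D (u t) (x + (g : V)) j i = D (u t) x j i :=
    (JCB.D_per (hu.periodic_u t htI) j i).lat g.2 x
  have h6 : |D (u t) (x + (g : V)) j i| ≤ C (i, j) := h4
  rw [h5] at h6
  exact h6.trans ((le_abs_self _).trans
    (Finset.single_le_sum (f := fun z => |C z|) (fun z _ => abs_nonneg _) (Finset.mem_univ (i, j))))

theorem unique' (hδ : 0 ≤ δ) (h : IsSymbol δ M) (h2 : Sy2 N M) (hw : IsSolution M T w q)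
    (hu : IsSolution M T u p) (h0 : w 0 = u 0) : ∀ t ∈ Ico 0 T, w t = u t :=
  unique hδ h h2 hw hu (fun _ hT => grad_bdd hu hT) h0

theorem coeff_zero (k : K) : coeff (fun _ => (0 : V)) k = 0 := by
  ext i
  rw [JCB.coeff_apply]
  simp

theorem op_zero (h : IsSymbol δ M) (x : V) : op M (fun _ => (0 : V)) (fun _ => 0) x = 0 := by
  have h1 : ∀ p q : K, M p q 0 0 = 0 := by
    intro p q
    have := h.lin₁ p q 1 0 0 0
    rw [one_smul, one_smul, add_zero] at this
    have h2 : M p q 0 0 + 0 = M p q 0 0 + M p q 0 0 := by rw [add_zero]; exact this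
    exact (add_left_cancel h2).symm
  funext i
  unfold op
  simp only [coeff_zero, h1]
  simp

theorem zero_sol (h : IsSymbol δ M) : IsSolution M T (fun _ _ => (0 : V)) (fun _ _ => 0) := by
  refine ⟨contDiffOn_const, contDiffOn_const, fun _ _ _ _ => rfl, fun _ _ _ _ => rfl,
    fun t _ x => ?_, fun t _ x i => ?_⟩
  · unfold D
    simp
  · have h1 := congrFun (op_zero h x) i
    rw [h1]
    simp

/-- Conservation of energy. -/
theorem energy_const (hδ : 0 ≤ δ) (h : IsSymbol δ M) (h2 : Sy2 N M) (hw : IsSolution M T w q)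
    {t : ℝ} (ht : t ∈ Ico 0 T) :
    ∫ x in torus, ∑ i, w t x i ^ 2 = ∫ x in torus, ∑ i, w 0 x i ^ 2 := by
  have hz : IsSolution M T (fun _ _ => (0 : V)) (fun _ _ => 0) := zero_sol h
  have hder : ∀ s ∈ Ioo 0 T, ∫ x in Dom, dS w (fun _ _ => 0) s x = 0 := by
    intro s hs
    have h3 := deriv_le hδ h h2 hw hz hs (B := 0) (fun x i j => by unfold D; simp)
    rw [mul_zero, zero_mul] at h3
    exact abs_eq_zero.1 (le_antisymm h3 (abs_nonneg _))
  have hcont := en_continuousOn hw.base hz.base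
  have hd : ∀ s ∈ interior (Ico 0 T), HasDerivAt (en w fun _ _ => 0) 0 s := by
    intro s hs
    rw [interior_Ico] at hs
    have := en_hasDerivAt hw.base hz.base hs
    rwa [hder s hs] at this
  have hTpos : 0 < T := ht.1.trans_lt ht.2
  have h5 : AntitoneOn (en w fun _ _ => 0) (Ico 0 T) :=
    antitoneOn_of_deriv_nonpos (convex_Ico _ _) hcont
      (fun s hs => (hd s hs).differentiableAt.differentiableWithinAt)
      (fun s hs => by rw [(hd s hs).deriv])
  have h6 : MonotoneOn (en w fun _ _ => 0) (Ico 0 T) :=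
    monotoneOn_of_deriv_nonneg (convex_Ico _ _) hcont
      (fun s hs => (hd s hs).differentiableAt.differentiableWithinAt)
      (fun s hs => by rw [(hd s hs).deriv])
  have h7 : en w (fun _ _ => 0) t = en w (fun _ _ => 0) 0 :=
    le_antisymm (h5 ⟨le_rfl, hTpos⟩ ht ht.1) (h6 ⟨le_rfl, hTpos⟩ ht ht.1)
  have h8 : ∀ s ∈ Ico 0 T, en w (fun _ _ => 0) s = ∫ x in torus, ∑ i, w s x i ^ 2 := by
    intro s hs
    have h9 : Pool.Agent.H708R2.EulerSign.Periodic3 fun x => ∑ i, w s x i ^ 2 := by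
      intro j x
      simp only
      rw [hw.periodic_u s hs j x]
    rw [JCB.torus_eq, integral_cube h9]
    unfold en sq3
    simp
  rw [← h8 t ht, ← h8 0 ⟨le_rfl, hTpos⟩]
  exact h7

/-- The norm of the explicit solution. -/
theorem expl_norm {n : K} (hn : n ≠ 0) {e : V} (he : ∑ i, e i ^ 2 = 1) {A : ℝ} (hA : 0 < A) {s : ℝ}
    (hs : |s| < Real.pi / 2) :
    IsGreatest (range fun x : V => Real.sqrt (∑ i, ((A * ff s (dot n x)) • e) i ^ 2))
      (A / Real.cos s) := by
  have key : ∀ y : ℝ, Real.sqrt (∑ i, ((A * y) • e) i ^ 2) = A * |y| := by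
    intro y
    have h1 : ∑ i, ((A * y) • e) i ^ 2 = (A * y) ^ 2 := by
      simp only [Pi.smul_apply, smul_eq_mul, mul_pow]
      rw [← Finset.mul_sum, he, mul_one]
    rw [h1, Real.sqrt_sq_eq_abs, abs_mul, abs_of_pos hA]
  have hc : 0 < Real.cos s := Real.cos_pos_of_mem_Ioo ⟨by linarith [(abs_lt.1 hs).1],
    (abs_lt.1 hs).2⟩
  constructor
  · obtain ⟨φ, hφ⟩ := ff_max hs
    obtain ⟨i, hi⟩ : ∃ i, n i ≠ 0 := by
      by_contra h
      push_neg at h
      exact hn (funext h)
    have hi' : (n i : ℝ) ≠ 0 := by exact_mod_cast hi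
    refine ⟨Pi.single i (φ / n i), ?_⟩
    have h1 : dot n (Pi.single i (φ / n i)) = φ := by
      unfold dot
      rw [Finset.sum_eq_single i]
      · rw [Pi.single_eq_same]
        field_simp
      · intro j _ hj
        rw [Pi.single_eq_of_ne hj, mul_zero]
      · intro h
        exact absurd (Finset.mem_univ i) h
    simp only
    rw [key, h1, hφ, abs_of_pos (by positivity)]
    ring
  · rintro _ ⟨x, rfl⟩
    simp only
    rw [key]
    have := ff_bound hs (dot n x)
    calc A * |ff s (dot n x)| ≤ A * (1 / Real.cos s) := mul_le_mul_of_nonneg_left this hA.le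
      _ = A / Real.cos s := by ring

/-- Maximality of the explicit solution. -/
theorem expl_max {κ : ℝ} (hκ : 0 < κ) {n : K} (hn : n ≠ 0) {e : V} (he : ∑ i, e i ^ 2 = 1) {A : ℝ}
    (hA : 0 < A) {T' : ℝ} (hw : IsSolution M T' w q)
    (h : ∀ t ∈ Ico 0 (min T' (Real.pi / (κ * A))),
      w t = fun x => (A * ff (κ * A * t / 2) (dot n x)) • e) : T' ≤ Real.pi / (κ * A) := by
  by_contra hlt
  push_neg at hlt
  set T := Real.pi / (κ * A) with hT
  have hTpos : 0 < T := by positivity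
  rw [min_eq_right hlt.le] at h
  have hK : IsCompact (Icc 0 T ×ˢ closure Dom) := isCompact_Icc.prod dom_bdd.isCompact_closure
  have hsub : Icc 0 T ×ˢ closure Dom ⊆ Ico 0 T' ×ˢ (univ : Set V) :=
    prod_mono (fun s hs => ⟨hs.1, hs.2.trans_lt hlt⟩) (subset_univ _)
  obtain ⟨C, hC⟩ := hK.exists_bound_of_continuousOn (hw.contDiffOn_u.continuousOn.mono hsub)
  have hb : ∀ t ∈ Ico 0 T, ∀ x, ‖w t x‖ ≤ C := by
    intro t ht x
    obtain ⟨g, hg, -⟩ := dom_exists_unique x
    have h2 : (g +ᵥ x : V) = x + g := by rw [add_comm]; rfl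
    have h3 : x + (g : V) ∈ closure Dom := by
      rw [← h2]; exact subset_closure hg
    have h4 := hC (t, x + (g : V)) ⟨⟨ht.1, ht.2.le⟩, h3⟩
    have h5 : w t (x + (g : V)) = w t x :=
      Pool.Agent.H708R2.EulerSign.Periodic3.lat (hw.periodic_u t ⟨ht.1, ht.2.trans hlt⟩) g.2 x
    simp only at h4
    rwa [h5] at h4
  have hCb : ∀ t ∈ Ico 0 T, A / Real.cos (κ * A * t / 2) ≤ 2 * C := by
    intro t ht
    have hs : |κ * A * t / 2| < Real.pi / 2 := by
      have h1 : κ * A * t < Real.pi := by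
        have := (lt_div_iff₀ (mul_pos hκ hA)).1 ht.2
        linarith
      have h2 : 0 ≤ κ * A * t := mul_nonneg (mul_pos hκ hA).le ht.1
      rw [abs_of_nonneg (by linarith)]
      linarith
    obtain ⟨⟨x, hx⟩, -⟩ := expl_norm hn he hA hs
    have h1 := hb t ht x
    rw [← hx]
    simp only
    rw [h t ht] at h1
    have hC0 : 0 ≤ C := (norm_nonneg _).trans h1
    refine Real.sqrt_le_iff.2 ⟨by linarith, ?_⟩
    have h2 : ∀ i, ((A * ff (κ * A * t / 2) (dot n x)) • e) i ^ 2 ≤ C ^ 2 := by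
      intro i
      have h3 := (norm_le_pi_norm ((A * ff (κ * A * t / 2) (dot n x)) • e) i).trans h1
      rw [Real.norm_eq_abs] at h3
      rw [← sq_abs]
      exact pow_le_pow_left₀ (abs_nonneg _) h3 2
    calc ∑ i, ((A * ff (κ * A * t / 2) (dot n x)) • e) i ^ 2 ≤ ∑ _i : Fin 3, C ^ 2 :=
          Finset.sum_le_sum fun i _ => h2 i
      _ = 3 * C ^ 2 := by simp
      _ ≤ (2 * C) ^ 2 := by nlinarith
  have hlim : Tendsto (fun t => Real.cos (κ * A * t / 2)) (𝓝[<] T) (𝓝[>] 0) := by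
    have hcos : Tendsto (fun t => Real.cos (κ * A * t / 2)) (𝓝 T) (𝓝 0) := by
      have h1 : Continuous fun t => Real.cos (κ * A * t / 2) := by fun_prop
      have h2 := h1.tendsto T
      have h3 : Real.cos (κ * A * T / 2) = 0 := by
        have : κ * A * T / 2 = Real.pi / 2 := by
          rw [hT]
          field_simp
        rw [this, Real.cos_pi_div_two]
      rwa [h3] at h2
    refine tendsto_nhdsWithin_iff.2 ⟨hcos.mono_left nhdsWithin_le_nhds, ?_⟩
    filter_upwards [Ioo_mem_nhdsLT hTpos] with t ht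
    have h1 : κ * A * t < Real.pi := by
      have := (lt_div_iff₀ (mul_pos hκ hA)).1 ht.2
      linarith
    have h2 : 0 < κ * A * t := mul_pos (mul_pos hκ hA) ht.1
    exact Real.cos_pos_of_mem_Ioo ⟨by linarith [Real.pi_pos], by linarith⟩
  have hinf : Tendsto (fun t => A / Real.cos (κ * A * t / 2)) (𝓝[<] T) atTop := by
    have h1 := (tendsto_inv_nhdsGT_zero.comp hlim).const_mul_atTop hA
    exact h1
  have hev := (hinf.eventually_gt_atTop (2 * C)).and (Ioo_mem_nhdsLT hTpos)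
  obtain ⟨t, ht1, ht2⟩ := hev.exists
  exact absurd (hCb t ⟨ht2.1.le, ht2.2⟩) (not_le.2 ht1)

theorem mainT (δ : ℝ) (hδ : 0 < δ) (N : ℕ) :
    ∃ M : K → K → W → W → W, IsSymbol δ M ∧
      (∀ p q a b, M p q a b ≠ 0 → (∀ i j, p i * q j = p j * q i) ∧
        (N : ℤ) ^ 2 ≤ ∑ i, p i ^ 2 ∧ (N : ℤ) ^ 2 ≤ ∑ i, q i ^ 2 ∧
        (N : ℤ) ^ 2 ≤ ∑ i, (p + q) i ^ 2) ∧
      (∀ v w : V → V, ContDiff ℝ 1 v → ContDiff ℝ 1 w → Periodic3 v → Periodic3 w →
        (Summable fun z : K × K => ‖M z.1 z.2 (coeff v z.1) (coeff w z.2)‖) ∧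
        (∫ x in torus, ∑ i, op M v w x i * w x i = 0) ∧
        (∫ x in torus, ∑ i, op M v v x i * curl v x i = 0) ∧
        (∀ i, ∫ x in torus, op M v w x i = 0) ∧
        (∀ a x, op M (fun y => v (y + a)) (fun y => w (y + a)) x = op M v w (x + a)) ∧
        (∀ σ ε v' w', (∀ x, v' (actV σ ε x) = actV σ ε (v x)) →
          (∀ x, w' (actV σ ε x) = actV σ ε (w x)) →
          ∀ x, op M v' w' (actV σ ε x) = actV σ ε (op M v w x)) ∧
        ∀ c c' x, op M (fun y => v y + c) (fun y => w y + c') x = op M v w x) ∧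
      (∀ (T : ℝ) (u w : ℝ → V → V) (p q : ℝ → V → ℝ), IsSolution M T u p → IsSolution M T w q →
        w 0 = u 0 → ∀ t ∈ Ico 0 T, w t = u t) ∧
      (∀ (T : ℝ) (u : ℝ → V → V) (p : ℝ → V → ℝ), IsSolution M T u p → ∀ t ∈ Ico 0 T,
        ∫ x in torus, ∑ i, u t x i ^ 2 = ∫ x in torus, ∑ i, u 0 x i ^ 2) ∧
      ∀ n : K, (∃ i j, n i ≠ 0 ∧ n j ≠ 0 ∧ |n i| ≠ |n j|) → (N : ℤ) ^ 2 ≤ ∑ i, n i ^ 2 →
        ∃ e : V, ∑ i, e i ^ 2 = 1 ∧ ∑ i, (n i : ℝ) * e i = 0 ∧ ∀ A : ℝ, 0 < A →
          ∃ u : ℝ → V → V,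
            (∀ t x, u t x = (A * (Real.cos (δ * A * t / 512) * Real.sin (dot n x)
              / (1 - 2 * Real.sin (δ * A * t / 512) * Real.cos (dot n x)
                + Real.sin (δ * A * t / 512) ^ 2))) • e) ∧
            (∀ x, u 0 x = (A * Real.sin (dot n x)) • e) ∧
            IsSolution M (256 * Real.pi / (δ * A)) u (fun _ _ => 0) ∧
            (∀ t ∈ Ico 0 (256 * Real.pi / (δ * A)),
              IsGreatest (range fun x => Real.sqrt (∑ i, u t x i ^ 2))
                (A / Real.cos (δ * A * t / 512))) ∧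
            ∀ (T' : ℝ) (w : ℝ → V → V) (q : ℝ → V → ℝ), IsSolution M T' w q → w 0 = u 0 →
              T' ≤ 256 * Real.pi / (δ * A) ∧ ∀ t ∈ Ico 0 T', w t = u t := by
  obtain ⟨M, h, h2, hM⟩ := exists_symbol hδ N
  refine ⟨M, h, ?_, ?_, ?_, ?_, ?_⟩
  · intro p q a b hne
    obtain ⟨h3, h4, h5, h6, h7⟩ := h2.supp p q a b hne
    have key : ∀ k : K, (N : ℝ) ^ 2 ≤ nq k → (N : ℤ) ^ 2 ≤ ∑ i, k i ^ 2 := by
      intro k hk
      unfold nq at hk
      exact_mod_cast hk
    exact ⟨h3.1, key p h5, key q h6, key (p + q) h7⟩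
  · intro v w hv hw pv pw
    exact ⟨sym_summable h h2 hv pv hw pw, op_energy h h2 hv pv hw pw, op_helicity h h2 hv pv,
      op_mean h h2 hv pv hw pw, op_translate h hv.continuous pv hw.continuous pw,
      fun σ ε v' w' hv' hw' x => op_act h2 hv.continuous hw.continuous σ ε hv' hw' x,
      op_galilei h2 hv.continuous hw.continuous⟩
  · intro T u w p q hu hw h0
    exact unique' hδ.le h h2 hw hu h0
  · intro T u p hu t ht
    exact energy_const hδ.le h h2 hu ht
  · intro n hn hNn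
    have hNn' : (N : ℝ) ^ 2 ≤ nq n := by
      unfold nq
      exact_mod_cast hNn
    obtain ⟨e, he1, he2, hval⟩ := hM n hn hNn'
    refine ⟨e, he1, he2, fun A hA => ?_⟩
    have hn0 : n ≠ 0 := by
      obtain ⟨i, j, hi, -, -⟩ := hn
      rintro rfl
      exact hi rfl
    have hκ : 0 < δ / 256 := by positivity
    have hsol := explicit_sol h h2 hn0 he2 hval hκ hA
    have eT : Real.pi / (δ / 256 * A) = 256 * Real.pi / (δ * A) := by
      field_simp
    have es : ∀ t : ℝ, δ / 256 * A * t / 2 = δ * A * t / 512 := by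
      intro t
      ring
    rw [eT] at hsol
    have hu0 : ∀ x : V, (A * ff (δ / 256 * A * 0 / 2) (dot n x)) • e
        = (A * Real.sin (dot n x)) • e := by
      intro x
      unfold ff
      simp
    refine ⟨fun t x => (A * ff (δ / 256 * A * t / 2) (dot n x)) • e, fun t x => ?_, hu0, hsol,
      fun t ht => ?_, fun T' w q hw hw0 => ?_⟩
    · simp only [es]
      rfl
    · have hs : |δ * A * t / 512| < Real.pi / 2 := by
        have h1 : δ * A * t < 256 * Real.pi := by
          have := (lt_div_iff₀ (mul_pos hδ hA)).1 ht.2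
          linarith
        have h3 : 0 ≤ δ * A * t := mul_nonneg (mul_pos hδ hA).le ht.1
        rw [abs_of_nonneg (by linarith)]
        linarith
      have h3 := expl_norm hn0 he1 hA hs
      simp only [es]
      exact h3
    · have heq : ∀ t ∈ Ico 0 (min T' (256 * Real.pi / (δ * A))),
          w t = fun x => (A * ff (δ / 256 * A * t / 2) (dot n x)) • e := by
        intro t ht
        exact unique' hδ.le h h2 (hw.mono (min_le_left _ _)) (hsol.mono (min_le_right _ _)) hw0 t ht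
      have hle : T' ≤ 256 * Real.pi / (δ * A) := by
        rw [← eT] at heq ⊢
        exact expl_max hκ hn0 he1 hA hw heq
      refine ⟨hle, fun t ht => ?_⟩
      rw [min_eq_left hle] at heq
      exact heq t ht

end H706T
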