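import Pool.Agent.Helper706_TE.RE

/-!
Assembly: all odd shear data.
-/

set_option autoImplicit false

open Set Filter Topology MeasureTheory
open scoped ComplexConjugate ContDiff

namespace H706T

variable {δ κ : ℝ} {N : ℕ} {M : K → K → W → W → W} {T : ℝ} {w u : ℝ → V → V} {q p : ℝ → V → ℝ}
  {n : K} {e f : V} {g : ℝ → ℝ}

/-- Blow-up for all odd shear data. -/
theorem odd_blowup (hδ : 0 < δ) (h : IsSymbol δ M) (h2 : Sy2 N M) (hn : n ≠ 0)
    (he : ∑ i, e i ^ 2 = 1) (hne : ∑ i, (n i : ℝ) * e i = 0) (hf : ∑ i, f i ^ 2 = 1)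
    (hnf : ∑ i, (n i : ℝ) * f i = 0) (hef : ∑ i, e i * f i = 0)
    (hr : ∀ (l m : ℤ) (a b : W), M (l • n) (m • n) (reflW f a) (reflW f b)
            = reflW f (M (l • n) (m • n) a b))
    (hv : Val (δ / 256) M n e) (hg : ∀ φ, g (φ + 2 * Real.pi) = g φ) {c : ℝ}
    (hodd : ∀ φ, g (c - φ) = -g (c + φ)) (hu : IsSolution M T u p)
    (hini : ∀ x, u 0 x = g (dot n x) • e) :
    δ * T * Real.sqrt ((∫ x in torus, ∑ i, u 0 x i ^ 2) / (2 * Real.pi) ^ 3)
      ≤ 512 * Real.sqrt 2 * Real.pi := by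
  have hpi := Real.pi_pos
  rcases le_or_gt T 0 with hT | hT
  · have h1 : δ * T * Real.sqrt ((∫ x in torus, ∑ i, u 0 x i ^ 2) / (2 * Real.pi) ^ 3) ≤ 0 :=
      mul_nonpos_of_nonpos_of_nonneg (mul_nonpos_of_nonneg_of_nonpos hδ.le hT)
        (Real.sqrt_nonneg _)
    exact h1.trans (by positivity)
  set I : ℝ := ∫ x in torus, ∑ i, u 0 x i ^ 2 with hI
  have hI0 : 0 ≤ I := integral_nonneg fun x => Finset.sum_nonneg fun i _ => sq_nonneg _
  rcases hI0.eq_or_lt with hIz | hIpos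
  · rw [← hIz, zero_div, Real.sqrt_zero, mul_zero]
    positivity
  have h0 : (0 : ℝ) ∈ Ico 0 T := ⟨le_rfl, hT⟩
  have hN := JPZ.nq_pos hn
  set a : V := fun i => c / nq n * n i with ha
  have hda : dot n a = c := by
    unfold dot
    have : ∀ i, (n i : ℝ) * a i = c / nq n * (n i : ℝ) ^ 2 := by
      intro i
      rw [ha]
      ring
    rw [Finset.sum_congr rfl fun i _ => this i, ← Finset.mul_sum]
    change c / nq n * nq n = c
    field_simp
  have S : Shear δ N M T (fun t x => u t (x + a)) (fun t x => p t (x + a)) n e f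
      (fun φ => g (φ + c)) := by
    refine ⟨hδ.le, h, h2, sol_translate h hu a, hn, he, hne, hf, hnf, hef, hr, fun φ => ?_,
      fun φ => ?_, fun x => ?_⟩
    · have h1 : φ + 2 * Real.pi + c = (φ + c) + 2 * Real.pi := by ring
      rw [h1, hg]
    · have h1 : -φ + c = c - φ := by ring
      have h3 : φ + c = c + φ := by ring
      rw [h1, h3, hodd]
    · rw [hini, dot_add_r, hda]
  have hIt : ∫ x in torus, ∑ i, u 0 (x + a) i ^ 2 = I := by
    set G : V → ℂ := fun x => ((∑ i, u 0 x i ^ 2 : ℝ) : ℂ) with hG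
    have hp : ∀ (i : Fin 3) (x : V), G (x + Pi.single i (2 * Real.pi)) = G x := by
      intro i x
      have := hu.periodic_u 0 h0 i x
      rw [hG]
      simp only
      rw [this]
    have h1 := JIV.iv_box hp a
    rw [hG] at h1
    simp only at h1
    rw [integral_complex_ofReal, integral_complex_ofReal] at h1
    exact_mod_cast h1
  have hB := S.blowup (by positivity) hv (by rw [hIt]; exact hIpos)
  rw [hIt] at hB
  have e1 : ((2 * Real.pi) ^ 3)⁻¹ * I / 2 = (I / (2 * Real.pi) ^ 3) / 2 := by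
    rw [inv_mul_eq_div]
  rw [e1, Real.sqrt_div (by positivity)] at hB
  set X : ℝ := Real.sqrt (I / (2 * Real.pi) ^ 3) with hX
  have hXpos : 0 < X := Real.sqrt_pos.2 (by positivity)
  have h2pos : 0 < Real.sqrt 2 := Real.sqrt_pos.2 (by norm_num)
  rw [le_div_iff₀ (by positivity)] at hB
  have e2 : T * (δ / 256 * (X / Real.sqrt 2)) = (δ * T * X) / (256 * Real.sqrt 2) := by
    field_simp
  rw [e2, div_le_iff₀ (by positivity)] at hB
  calc δ * T * X ≤ 2 * Real.pi * (256 * Real.sqrt 2) := hB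
    _ = 512 * Real.sqrt 2 * Real.pi := by ring

theorem mainT2 (δ : ℝ) (hδ : 0 < δ) (N : ℕ) :
    ∃ M : K → K → W → W → W, IsSymbol δ M ∧
      (∀ p q a b, M p q a b ≠ 0 → (∀ i j, p i * q j = p j * q i) ∧
        (N : ℤ) ^ 2 ≤ ∑ i, p i ^ 2 ∧ (N : ℤ) ^ 2 ≤ ∑ i, q i ^ 2 ∧
        (N : ℤ) ^ 2 ≤ ∑ i, (p + q) i ^ 2) ∧
      (∀ v w : V → V, ContDiff ℝ 1 v → ContDiff ℝ 1 w → Periodic3 v → Periodic3 w →
        (Summable fun z : K × K => ‖M z.1 z.2 (coeff v z.1) (coeff w z.2)‖) ∧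
        (∫ x in torus, ∑ i, op M v w x i * w x i = 0) ∧
        (∫ x in torus, ∑ i, op M v v x i * curl v x i = 0) ∧
        (∀ i, ∫ x in torus, op M v w x i = 0) ∧
        (∀ a x, op M (fun y => v (y + a)) (fun y => w (y + a)) x = op M v w (x + a)) ∧
        (∀ σ ε v' w', (∀ x, v' (actV σ ε x) = actV σ ε (v x)) →
          (∀ x, w' (actV σ ε x) = actV σ ε (w x)) →
          ∀ x, op M v' w' (actV σ ε x) = actV σ ε (op M v w x)) ∧
        ∀ c c' x, op M (fun y => v y + c) (fun y => w y + c') x = op M v w x) ∧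
      (∀ (T : ℝ) (u w : ℝ → V → V) (p q : ℝ → V → ℝ), IsSolution M T u p → IsSolution M T w q →
        w 0 = u 0 → ∀ t ∈ Ico 0 T, w t = u t) ∧
      (∀ (T : ℝ) (u : ℝ → V → V) (p : ℝ → V → ℝ), IsSolution M T u p → ∀ t ∈ Ico 0 T,
        ∫ x in torus, ∑ i, u t x i ^ 2 = ∫ x in torus, ∑ i, u 0 x i ^ 2) ∧
      ∀ n : K, (∃ i j, n i ≠ 0 ∧ n j ≠ 0 ∧ |n i| ≠ |n j|) → (N : ℤ) ^ 2 ≤ ∑ i, n i ^ 2 →
        ∃ e : V, ∑ i, e i ^ 2 = 1 ∧ ∑ i, (n i : ℝ) * e i = 0 ∧
          (∀ (g : ℝ → ℝ) (c T : ℝ) (u : ℝ → V → V) (p : ℝ → V → ℝ),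
            (∀ φ, g (φ + 2 * Real.pi) = g φ) → (∀ φ, g (c - φ) = -g (c + φ)) →
            IsSolution M T u p → (∀ x, u 0 x = g (dot n x) • e) →
            δ * T * Real.sqrt ((∫ x in torus, ∑ i, u 0 x i ^ 2) / (2 * Real.pi) ^ 3)
              ≤ 512 * Real.sqrt 2 * Real.pi) ∧
          ∀ A : ℝ, 0 < A →
          ∃ u : ℝ → V → V,
            (∀ t x, u t x = (A * (Real.cos (δ * A * t / 512) * Real.sin (dot n x)
              / (1 - 2 * Real.sin (δ * A * t / 512) * Real.cos (dot n x)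
                + Real.sin (δ * A * t / 512) ^ 2))) • e) ∧
            (∀ x, u 0 x = (A * Real.sin (dot n x)) • e) ∧
            IsSolution M (256 * Real.pi / (δ * A)) u (fun _ _ => 0) ∧
            (∀ t ∈ Ico 0 (256 * Real.pi / (δ * A)),
              IsGreatest (range fun x => Real.sqrt (∑ i, u t x i ^ 2))
                (A / Real.cos (δ * A * t / 512))) ∧
            ∀ (T' : ℝ) (w : ℝ → V → V) (q : ℝ → V → ℝ), IsSolution M T' w q → w 0 = u 0 →
              T' ≤ 256 * Real.pi / (δ * A) ∧ ∀ t ∈ Ico 0 T', w t = u t := by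
  obtain ⟨M, h, h2, hM⟩ := exists_symbol' hδ N
  refine ⟨M, h, ?_, ?_, ?_, ?_, ?_⟩
  · intro p q a b hne
    obtain ⟨h3, h4, h5, h6, h7⟩ := h2.supp p q a b hne
    have key : ∀ k : K, (N : ℝ) ^ 2 ≤ nq k → (N : ℤ) ^ 2 ≤ ∑ i, k i ^ 2 := by
      intro k hk
      unfold nq at hk
      exact_mod_cast hk
    exact ⟨h3.1, key p h5, key q h6, key (p + q) h7⟩
  · intro v w hv hw pv pw
    exact ⟨sym_summable h h2 hv pv hw pw, op_energy h h2 hv pv hw pw, op_helicity h h2 hv pv,
      op_mean h h2 hv pv hw pw, op_translate h hv.continuous pv hw.continuous pw,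
      fun σ ε v' w' hv' hw' x => op_act h2 hv.continuous hw.continuous σ ε hv' hw' x,
      op_galilei h2 hv.continuous hw.continuous⟩
  · intro T u w p q hu hw h0
    exact unique' hδ.le h h2 hw hu h0
  · intro T u p hu t ht
    exact energy_const hδ.le h h2 hu ht
  · intro n hn hNn
    have hNn' : (N : ℝ) ^ 2 ≤ nq n := by
      unfold nq
      exact_mod_cast hNn
    obtain ⟨e, f, he1, he2, hval, hf1, hf2, hef, hrf⟩ := hM n hn hNn'
    have hn0 : n ≠ 0 := by
      obtain ⟨i, j, hi, -, -⟩ := hn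
      rintro rfl
      exact hi rfl
    refine ⟨e, he1, he2, fun g c T u p hg hodd hu hini => ?_, fun A hA => ?_⟩
    · exact odd_blowup hδ h h2 hn0 he1 he2 hf1 hf2 hef hrf hval hg hodd hu hini
    have hκ : 0 < δ / 256 := by positivity
    have hsol := explicit_sol h h2 hn0 he2 hval hκ hA
    have eT : Real.pi / (δ / 256 * A) = 256 * Real.pi / (δ * A) := by
      field_simp
    have es : ∀ t : ℝ, δ / 256 * A * t / 2 = δ * A * t / 512 := by
      intro t
      ring
    rw [eT] at hsol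
    have hu0 : ∀ x : V, (A * ff (δ / 256 * A * 0 / 2) (dot n x)) • e
        = (A * Real.sin (dot n x)) • e := by
      intro x
      unfold ff
      simp
    refine ⟨fun t x => (A * ff (δ / 256 * A * t / 2) (dot n x)) • e, fun t x => ?_, hu0, hsol,
      fun t ht => ?_, fun T' w q hw hw0 => ?_⟩
    · simp only [es]
      rfl
    · have hs : |δ * A * t / 512| < Real.pi / 2 := by
        have h1 : δ * A * t < 256 * Real.pi := by
          have := (lt_div_iff₀ (mul_pos hδ hA)).1 ht.2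
          linarith
        have h3 : 0 ≤ δ * A * t := mul_nonneg (mul_pos hδ hA).le ht.1
        rw [abs_of_nonneg (by linarith)]
        linarith
      have h3 := expl_norm hn0 he1 hA hs
      simp only [es]
      exact h3
    · have heq : ∀ t ∈ Ico 0 (min T' (256 * Real.pi / (δ * A))),
          w t = fun x => (A * ff (δ / 256 * A * t / 2) (dot n x)) • e := by
        intro t ht
        exact unique' hδ.le h h2 (hw.mono (min_le_left _ _)) (hsol.mono (min_le_right _ _)) hw0 t ht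
      have hle : T' ≤ 256 * Real.pi / (δ * A) := by
        rw [← eT] at heq ⊢
        exact expl_max hκ hn0 he1 hA hw heq
      refine ⟨hle, fun t ht => ?_⟩
      rw [min_eq_left hle] at heq
      exact heq t ht

end H706T
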