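import Pool.Agent.Helper706_TE.RN
import Pool.Agent.Helper706_TE.C1
import Pool.Agent.Helper706_TE.C2

/-!
Assembly: perturbations of negative order.
-/

set_option autoImplicit false

open Set Filter Topology MeasureTheory
open scoped ComplexConjugate ContDiff

namespace H706T

variable {s δ κ : ℝ} {N : ℕ} {M : K → K → W → W → W} {T : ℝ} {w u : ℝ → V → V} {q p : ℝ → V → ℝ}
  {n : K} {e f : V} {g : ℝ → ℝ} {lam : ℕ → ℕ → ℝ} {L : ℤ → ℤ → ℝ}

/-- The profile of a continuously differentiable shear field is continuously differentiable. -/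
theorem profile_contDiff (hn : n ≠ 0) (he : ∑ i, e i ^ 2 = 1)
    (h : ContDiff ℝ 1 fun x : V => g (dot n x) • e) : ContDiff ℝ 1 g := by
  have hN := JPZ.nq_pos hn
  have h1 : ContDiff ℝ 1 fun φ : ℝ => (fun i => φ / nq n * (n i : ℝ) : V) := by
    refine contDiff_pi.2 fun i => ?_
    fun_prop
  have h2 := h.comp h1
  have h3 : ContDiff ℝ 1 fun φ : ℝ => ∑ i, e i * ((g (dot n (fun i => φ / nq n * (n i : ℝ))) • e : V) i) := by
    refine ContDiff.sum fun i _ => ?_
    exact contDiff_const.mul (contDiff_pi.1 h2 i)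
  have h4 : g = fun φ : ℝ => ∑ i, e i * ((g (dot n (fun i => φ / nq n * (n i : ℝ))) • e : V) i) := by
    funext φ
    have h5 : dot n (fun i => φ / nq n * (n i : ℝ)) = φ := by
      unfold dot
      have : ∀ i, (n i : ℝ) * (φ / nq n * (n i : ℝ)) = φ / nq n * (n i : ℝ) ^ 2 := fun i => by ring
      rw [Finset.sum_congr rfl fun i _ => this i, ← Finset.mul_sum]
      change φ / nq n * nq n = φ
      field_simp
    rw [h5]
    have h6 : ∀ i, e i * ((g φ • e : V) i) = g φ * e i ^ 2 := by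
      intro i
      rw [Pi.smul_apply, smul_eq_mul]
      ring
    rw [Finset.sum_congr rfl fun i _ => h6 i, ← Finset.mul_sum, he, mul_one]
  rw [h4]
  exact h3

/-- Blow-up for odd data with one sign. -/
theorem sign_blowup (hs : 0 ≤ s) (hs' : s < 1 / 4) (hw : Wt s lam) (hδ : 0 ≤ δ) (h : IsSymbol δ M)
    (h2 : Sy2 N M) (hn : n ≠ 0)
    (he : ∑ i, e i ^ 2 = 1) (hne : ∑ i, (n i : ℝ) * e i = 0) (hf : ∑ i, f i ^ 2 = 1)
    (hnf : ∑ i, (n i : ℝ) * f i = 0) (hef : ∑ i, e i * f i = 0)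
    (hr : ∀ (l m : ℤ) (a b : W), M (l • n) (m • n) (reflW f a) (reflW f b)
            = reflW f (M (l • n) (m • n) a b))
    (hκ : 0 < κ) (hv : ValL κ (LL lam) M n e) (hg : ∀ φ, g (φ + 2 * Real.pi) = g φ) {c : ℝ}
    (hodd : ∀ φ, g (c - φ) = -g (c + φ)) (hpos : ∀ φ ∈ Icc 0 Real.pi, 0 ≤ g (c + φ))
    (hu : IsSolution M T u p) (hini : ∀ x, u 0 x = g (dot n x) • e) :
    (1 - 4 * s) * κ * T * ∫ φ in c..(c + Real.pi), g φ * Real.sin (φ - c) ≤ 384 * Real.pi := by
  have hpi := Real.pi_pos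
  have h4s : 0 < 1 - 4 * s := by linarith
  have hI : ∫ φ in c..(c + Real.pi), g φ * Real.sin (φ - c)
      = ∫ φ in (0 : ℝ)..Real.pi, g (φ + c) * Real.sin φ := by
    have h1 := intervalIntegral.integral_comp_add_right
      (a := 0) (b := Real.pi) (fun φ => g φ * Real.sin (φ - c)) c
    simp only [add_sub_cancel_right, zero_add] at h1
    rw [h1, add_comm c]
  rw [hI]
  set I : ℝ := ∫ φ in (0 : ℝ)..Real.pi, g (φ + c) * Real.sin φ with hIdef
  have hI0 : 0 ≤ I := by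
    refine intervalIntegral.integral_nonneg hpi.le fun φ hφ => ?_
    have h1 := hpos φ hφ
    rw [add_comm] at h1
    exact mul_nonneg h1 (Real.sin_nonneg_of_nonneg_of_le_pi hφ.1 hφ.2)
  rcases le_or_gt T 0 with hT | hT
  · have h1 : (1 - 4 * s) * κ * T * I ≤ 0 :=
      mul_nonpos_of_nonpos_of_nonneg (mul_nonpos_of_nonneg_of_nonpos (by positivity) hT) hI0
    exact h1.trans (by positivity)
  rcases hI0.eq_or_lt with hIz | hIpos
  · rw [← hIz, mul_zero]
    positivity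
  have h0 : (0 : ℝ) ∈ Ico 0 T := ⟨le_rfl, hT⟩
  have hN := JPZ.nq_pos hn
  set a : V := fun i => c / nq n * n i with ha
  have hda : dot n a = c := by
    unfold dot
    have : ∀ i, (n i : ℝ) * a i = c / nq n * (n i : ℝ) ^ 2 := by
      intro i
      rw [ha]
      ring
    rw [Finset.sum_congr rfl fun i _ => this i, ← Finset.mul_sum]
    change c / nq n * nq n = c
    field_simp
  set gt : ℝ → ℝ := fun φ => g (φ + c) with hgt
  have hgper : ∀ φ, gt (φ + 2 * Real.pi) = gt φ := by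
    intro φ
    have h1 : φ + 2 * Real.pi + c = (φ + c) + 2 * Real.pi := by ring
    simp only [hgt]
    rw [h1, hg]
  have hgodd : ∀ φ, gt (-φ) = -gt φ := by
    intro φ
    have h1 : -φ + c = c - φ := by ring
    have h3 : φ + c = c + φ := by ring
    simp only [hgt]
    rw [h1, h3, hodd]
  have hini' : ∀ x, u 0 (x + a) = gt (dot n x) • e := by
    intro x
    rw [hini, dot_add_r, hda]
  have S : Shear δ N M T (fun t x => u t (x + a)) (fun t x => p t (x + a)) n e f gt :=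
    ⟨hδ, h, h2, sol_translate h hu a, hn, he, hne, hf, hnf, hef, hr, hgper, hgodd, hini'⟩
  have hgC : ContDiff ℝ 1 gt := by
    refine profile_contDiff hn he ?_
    have h1 := S.slice h0
    have h3 : (fun x => u 0 (x + a)) = fun x => gt (dot n x) • e := funext hini'
    rw [← h3]
    exact h1
  have hbc : ∀ l : ℤ, bc (fun t x => u t (x + a)) n e 0 l
      = (1 / Real.pi) * ∫ φ in (0 : ℝ)..Real.pi, gt φ * Real.sin (l * φ) := by
    intro l
    unfold bc
    have h3 : (fun x => u 0 (x + a)) = fun x => gt (dot n x) • e := funext hini'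
    simp only
    rw [h3, coeff_shear hn e hgC hgper hgodd l, bL_smul he]
    simp
  have hsum : Summable fun l : ℕ =>
      |(1 / Real.pi) * ∫ φ in (0 : ℝ)..Real.pi, gt φ * Real.sin (l * φ)| := by
    have h1 := (S.bc_summable h0).abs.comp_injective (Nat.cast_injective (R := ℤ))
    refine h1.congr fun l => ?_
    simp only [Function.comp]
    rw [hbc]
    push_cast
    rfl
  have hsp := sine_pos hgC.continuous (fun φ hφ => by
    have := hpos φ hφ
    rw [add_comm] at this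
    exact this) hsum
  have hS1 : ∑' l : ℕ, (l : ℝ) ^ (-(1 / 4) : ℝ) * bc (fun t x => u t (x + a)) n e 0 l
      = ∑' l : ℕ, (l : ℝ) ^ (-(1 / 4) : ℝ)
        * ((1 / Real.pi) * ∫ φ in (0 : ℝ)..Real.pi, gt φ * Real.sin (l * φ)) := by
    refine tsum_congr fun l => ?_
    rw [hbc]
    push_cast
    rfl
  set X : ℝ := ∑' l : ℕ, (l : ℝ) ^ (-(1 / 4) : ℝ) * bc (fun t x => u t (x + a)) n e 0 l with hX
  rw [← hS1] at hsp
  have hIX : 1 / 4 * ((1 / Real.pi) * I) ≤ X := hsp
  have hXpos : 0 < X := lt_of_lt_of_le (by positivity) hIX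
  have hB := S.blowupN hs hs' hw hκ hv hXpos
  rw [← hX, le_div_iff₀ (by positivity)] at hB
  have h5 : (1 - 4 * s) * κ * T * I
      = 48 * Real.pi * (T * ((1 - 4 * s) * (κ / 12) * (1 / 4 * ((1 / Real.pi) * I)))) := by
    field_simp
    ring
  rw [h5]
  have h6 : T * ((1 - 4 * s) * (κ / 12) * (1 / 4 * ((1 / Real.pi) * I)))
      ≤ T * ((1 - 4 * s) * (κ / 12) * X) := by
    refine mul_le_mul_of_nonneg_left (mul_le_mul_of_nonneg_left hIX (by positivity)) hT.le
  nlinarith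

/-- The solutions keep a vanishing pressure. -/
theorem zero_pressure (hδ : 0 ≤ δ) (h : IsSymbol δ M)
    (h2 : Sy2 N M) (hn : n ≠ 0)
    (he : ∑ i, e i ^ 2 = 1) (hne : ∑ i, (n i : ℝ) * e i = 0) (hf : ∑ i, f i ^ 2 = 1)
    (hnf : ∑ i, (n i : ℝ) * f i = 0) (hef : ∑ i, e i * f i = 0)
    (hr : ∀ (l m : ℤ) (a b : W), M (l • n) (m • n) (reflW f a) (reflW f b)
            = reflW f (M (l • n) (m • n) a b))
    (hg : ∀ φ, g (φ + 2 * Real.pi) = g φ) (hodd : ∀ φ, g (-φ) = -g φ)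
    (hu : IsSolution M T u p) (hini : ∀ x, u 0 x = g (dot n x) • e) :
    IsSolution M T u (fun _ _ => 0) := by
  have S : Shear δ N M T u p n e f g :=
    ⟨hδ, h, h2, hu, hn, he, hne, hf, hnf, hef, hr, hg, hodd, hini⟩
  refine ⟨hu.contDiffOn_u, contDiffOn_const, hu.periodic_u, fun _ _ _ _ => rfl, hu.div_free,
    fun t ht x i => ?_⟩
  rw [S.eqn ht x i, S.transp ht x i]
  simp

theorem mainN {s : ℝ} (hs : 0 ≤ s) (hs' : s < 1 / 4) {δ : ℝ} (hδ : 0 < δ) (N : ℕ) :
    ∃ M : K → K → W → W → W, IsSymbol δ M ∧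
      (∀ p q k a b, (k = p ∨ k = q ∨ k = p + q) →
        Real.sqrt (∑ i, (k i : ℝ) ^ 2) ^ s * ‖M p q a b‖ ≤ δ * (‖a‖ * ‖b‖)) ∧
      (∀ p q a b, M p q a b ≠ 0 → (∀ i j, p i * q j = p j * q i) ∧
        (N : ℤ) ^ 2 ≤ ∑ i, p i ^ 2 ∧ (N : ℤ) ^ 2 ≤ ∑ i, q i ^ 2 ∧
        (N : ℤ) ^ 2 ≤ ∑ i, (p + q) i ^ 2) ∧
      (∀ v w : V → V, ContDiff ℝ 1 v → ContDiff ℝ 1 w → Periodic3 v → Periodic3 w →
        (Summable fun z : K × K => ‖M z.1 z.2 (coeff v z.1) (coeff w z.2)‖) ∧
        (∫ x in torus, ∑ i, op M v w x i * w x i = 0) ∧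
        (∫ x in torus, ∑ i, op M v v x i * curl v x i = 0) ∧
        (∀ i, ∫ x in torus, op M v w x i = 0) ∧
        (∀ a x, op M (fun y => v (y + a)) (fun y => w (y + a)) x = op M v w (x + a)) ∧
        (∀ σ ε v' w', (∀ x, v' (actV σ ε x) = actV σ ε (v x)) →
          (∀ x, w' (actV σ ε x) = actV σ ε (w x)) →
          ∀ x, op M v' w' (actV σ ε x) = actV σ ε (op M v w x)) ∧
        ∀ c c' x, op M (fun y => v y + c) (fun y => w y + c') x = op M v w x) ∧
      (∀ (T : ℝ) (u w : ℝ → V → V) (p q : ℝ → V → ℝ), IsSolution M T u p → IsSolution M T w q →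
        w 0 = u 0 → ∀ t ∈ Ico 0 T, w t = u t) ∧
      (∀ (T : ℝ) (u : ℝ → V → V) (p : ℝ → V → ℝ), IsSolution M T u p → ∀ t ∈ Ico 0 T,
        ∫ x in torus, ∑ i, u t x i ^ 2 = ∫ x in torus, ∑ i, u 0 x i ^ 2) ∧
      ∀ n : K, (∃ i j, n i ≠ 0 ∧ n j ≠ 0 ∧ |n i| ≠ |n j|) → (N : ℤ) ^ 2 ≤ ∑ i, n i ^ 2 →
        ∃ e : V, ∑ i, e i ^ 2 = 1 ∧ ∑ i, (n i : ℝ) * e i = 0 ∧
          (∀ (g : ℝ → ℝ) (c T : ℝ) (u : ℝ → V → V) (p : ℝ → V → ℝ),
            (∀ φ, g (φ + 2 * Real.pi) = g φ) → (∀ φ, g (c - φ) = -g (c + φ)) →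
            (∀ φ ∈ Icc 0 Real.pi, 0 ≤ g (c + φ)) →
            IsSolution M T u p → (∀ x, u 0 x = g (dot n x) • e) →
            (1 - 4 * s) * δ * T * ∫ φ in c..(c + Real.pi), g φ * Real.sin (φ - c)
              ≤ 98304 * Real.pi * Real.sqrt (∑ i, (n i : ℝ) ^ 2) ^ s) ∧
          ∀ A : ℝ, 0 < A → ∃ T : ℝ, 0 < T ∧
            (1 - 4 * s) * δ * A * T ≤ 196608 * Real.sqrt (∑ i, (n i : ℝ) ^ 2) ^ s ∧
            ∃ u : ℝ → V → V, IsSolution M T u (fun _ _ => 0) ∧
              (u 0 = fun x => (A * Real.sin (dot n x)) • e) ∧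
              ∀ (T' : ℝ) (w : ℝ → V → V) (q : ℝ → V → ℝ), IsSolution M T' w q → w 0 = u 0 →
                T' ≤ T ∧ ∀ t ∈ Ico 0 T', w t = u t := by
  have hpi := Real.pi_pos
  have h4s : 0 < 1 - 4 * s := by linarith
  obtain ⟨lam, hw⟩ := exists_lam hs hs'
  obtain ⟨M, h, h2, hord, hM⟩ := exists_symbolN hs hw hδ N
  refine ⟨M, h, hord, ?_, ?_, ?_, ?_, ?_⟩
  · intro p q a b hne
    obtain ⟨h3, h4, h5, h6, h7⟩ := h2.supp p q a b hne
    have key : ∀ k : K, (N : ℝ) ^ 2 ≤ nq k → (N : ℤ) ^ 2 ≤ ∑ i, k i ^ 2 := by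
      intro k hk
      unfold nq at hk
      exact_mod_cast hk
    exact ⟨h3.1, key p h5, key q h6, key (p + q) h7⟩
  · intro v w hv hw pv pw
    exact ⟨sym_summable h h2 hv pv hw pw, op_energy h h2 hv pv hw pw, op_helicity h h2 hv pv,
      op_mean h h2 hv pv hw pw, op_translate h hv.continuous pv hw.continuous pw,
      fun σ ε v' w' hv' hw' x => op_act h2 hv.continuous hw.continuous σ ε hv' hw' x,
      op_galilei h2 hv.continuous hw.continuous⟩
  · intro T u w p q hu hw h0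
    exact unique' hδ.le h h2 hw hu h0
  · intro T u p hu t ht
    exact energy_const hδ.le h h2 hu ht
  · intro n hn hNn
    have hNn' : (N : ℝ) ^ 2 ≤ nq n := by
      unfold nq
      exact_mod_cast hNn
    obtain ⟨e, f, he1, he2, hval, hf1, hf2, hef, hrf⟩ := hM n hn hNn'
    have hn0 : n ≠ 0 := by
      obtain ⟨i, j, hi, -, -⟩ := hn
      rintro rfl
      exact hi rfl
    have hnn : 0 < Real.sqrt (nq n) :=
      Real.sqrt_pos.2 (lt_of_lt_of_le one_pos (JLS.one_le_nq hn0))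
    set R : ℝ := Real.sqrt (nq n) ^ s with hR
    have hRpos : 0 < R := Real.rpow_pos_of_pos hnn _
    have hRinv : Real.sqrt (nq n) ^ (-s) = R⁻¹ := Real.rpow_neg hnn.le _
    have hκ : 0 < δ / 256 * Real.sqrt (nq n) ^ (-s) := by rw [hRinv]; positivity
    have hRR : Real.sqrt (∑ i, (n i : ℝ) ^ 2) ^ s = R := rfl
    have part1 : ∀ (g : ℝ → ℝ) (c T : ℝ) (u : ℝ → V → V) (p : ℝ → V → ℝ),
            (∀ φ, g (φ + 2 * Real.pi) = g φ) → (∀ φ, g (c - φ) = -g (c + φ)) →
            (∀ φ ∈ Icc 0 Real.pi, 0 ≤ g (c + φ)) →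
            IsSolution M T u p → (∀ x, u 0 x = g (dot n x) • e) →
            (1 - 4 * s) * δ * T * ∫ φ in c..(c + Real.pi), g φ * Real.sin (φ - c)
              ≤ 98304 * Real.pi * R := by
      intro g c T u p hg hodd hpos hu hini
      have h3 := sign_blowup hs hs' hw hδ.le h h2 hn0 he1 he2 hf1 hf2 hef hrf hκ hval hg hodd hpos
        hu hini
      rw [hRinv] at h3
      have h4 : (1 - 4 * s) * δ * T * ∫ φ in c..(c + Real.pi), g φ * Real.sin (φ - c)
          = 256 * R * ((1 - 4 * s) * (δ / 256 * R⁻¹) * T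
            * ∫ φ in c..(c + Real.pi), g φ * Real.sin (φ - c)) := by
        field_simp
      rw [h4]
      calc 256 * R * ((1 - 4 * s) * (δ / 256 * R⁻¹) * T
            * ∫ φ in c..(c + Real.pi), g φ * Real.sin (φ - c))
          ≤ 256 * R * (384 * Real.pi) := mul_le_mul_of_nonneg_left h3 (by positivity)
        _ = 98304 * Real.pi * R := by ring
    rw [hRR]
    refine ⟨e, he1, he2, part1, fun A hA => ?_⟩
    have hgper : ∀ φ, A * Real.sin (φ + 2 * Real.pi) = A * Real.sin φ := fun φ => by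
      rw [Real.sin_add_two_pi]
    have hgodd : ∀ φ, A * Real.sin (-φ) = -(A * Real.sin φ) := fun φ => by
      rw [Real.sin_neg]; ring
    obtain ⟨T₀, hT₀, u₀, hu₀, hu₀0⟩ := local_sol h h2 hn0 he2 (LL_LW hs hw) hval A
    have hbound : ∀ (T : ℝ) (w : ℝ → V → V) (q : ℝ → V → ℝ), IsSolution M T w q →
        (w 0 = fun x => (A * Real.sin (dot n x)) • e) →
        (1 - 4 * s) * δ * A * T ≤ 196608 * R := by
      intro T w q hwq hw0
      have h3 := part1 (fun φ => A * Real.sin φ) 0 T w q hgper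
        (fun φ => by rw [zero_sub, zero_add]; exact hgodd φ)
        (fun φ hφ => by
          rw [zero_add]
          exact mul_nonneg hA.le (Real.sin_nonneg_of_nonneg_of_le_pi hφ.1 hφ.2)) hwq
        (fun x => congrFun hw0 x)
      have h4 : ∫ φ in (0 : ℝ)..(0 + Real.pi), A * Real.sin φ * Real.sin (φ - 0)
          = A * (Real.pi / 2) := by
        simp only [sub_zero, zero_add, mul_assoc]
        rw [intervalIntegral.integral_const_mul]
        congr 1
        have h5 : ∀ φ : ℝ, Real.sin φ * Real.sin φ = Real.sin φ ^ 2 := fun φ => by ring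
        simp only [h5]
        rw [integral_sin_sq]
        simp
      rw [h4] at h3
      have h5 : (1 - 4 * s) * δ * T * (A * (Real.pi / 2))
          = Real.pi / 2 * ((1 - 4 * s) * δ * A * T) := by ring
      rw [h5] at h3
      have h6 : Real.pi / 2 * ((1 - 4 * s) * δ * A * T) ≤ Real.pi / 2 * (196608 * R) := by
        refine h3.trans (le_of_eq ?_)
        ring
      exact le_of_mul_le_mul_left h6 (by positivity)
    obtain ⟨Tm, hTm, hTmB, u, hu, hu0, hmax⟩ := exists_max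
      (M := M) (u₀ := fun x => (A * Real.sin (dot n x)) • e)
      (B := 196608 * R / ((1 - 4 * s) * δ * A))
      (fun T w u q p hw hu h0 => unique' hδ.le h h2 hw hu h0)
      (fun T T' u p hu hT => hu.mono hT)
      ⟨T₀, hT₀, u₀, _, hu₀, hu₀0⟩
      (fun T w q hwq hw0 => by
        rw [le_div_iff₀ (by positivity)]
        have := hbound T w q hwq hw0
        linarith)
      (fun T w q hwq hw0 => zero_pressure (g := fun φ => A * Real.sin φ) hδ.le h h2 hn0 he1 he2 hf1 hf2 hef hrf hgper hgodd hwq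
        (fun x => congrFun hw0 x))
    refine ⟨Tm, hTm, hbound Tm u _ hu hu0, u, hu, hu0, fun T' w q hwq hw0 => ?_⟩
    exact hmax T' w q hwq (hw0.trans hu0)

end H706T
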