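import Pool.Agent.Helper706_TE.Defs2
import Pool.Agent.Helper706_TE.CB

set_option autoImplicit false
open Set Filter Topology MeasureTheory
open scoped ComplexConjugate ContDiff

namespace H706T.JTE

theorem te_cont_D {v : V → V} (hv : ContDiff ℝ 1 v) (j i : Fin 3) :
    Continuous fun x => D v x j i := by
  unfold D
  have h1 : Continuous (fun x => fderiv ℝ v x) := hv.continuous_fderiv (by norm_num)
  have h2 : Continuous (fun x => fderiv ℝ v x (Pi.single j 1)) := h1.clm_apply continuous_const
  exact (continuous_apply i).comp h2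

theorem te_key {w d : V → V} (hw : ContDiff ℝ 1 w) (hd : ContDiff ℝ 1 d)
    (dw : ∀ x, ∑ i, D w x i i = 0) (x : V) :
    ∑ j, D (fun x => (∑ i, (d x i) ^ 2 / 2) • w x) x j j
      = ∑ i, d x i * ∑ j, w x j * D d x j i := by
  have hd' : HasFDerivAt d (fderiv ℝ d x) x := (hd.differentiable (by norm_num) x).hasFDerivAt
  have hw' : HasFDerivAt w (fderiv ℝ w x) x := (hw.differentiable (by norm_num) x).hasFDerivAt
  have hdi : ∀ i, HasFDerivAt (fun x => d x i)
      ((ContinuousLinearMap.proj (R := ℝ) (φ := fun _ : Fin 3 => ℝ) i).comp (fderiv ℝ d x)) x := by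
    intro i
    exact (ContinuousLinearMap.proj (R := ℝ) (φ := fun _ : Fin 3 => ℝ) i).hasFDerivAt.comp x hd'
  have hφi : ∀ i, HasFDerivAt (fun x => (d x i) ^ 2 / 2)
      ((d x i) • ((ContinuousLinearMap.proj (R := ℝ) (φ := fun _ : Fin 3 => ℝ) i).comp
        (fderiv ℝ d x))) x := by
    intro i
    have h := ((hdi i).mul (hdi i)).mul_const (1 / 2 : ℝ)
    have ef : (fun x => (d x i) ^ 2 / 2)
        = fun y => ((fun x => d x i) * fun x => d x i) y * (1 / 2) := by
      ext y
      simp only [Pi.mul_apply]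
      ring
    have el : (d x i) • ((ContinuousLinearMap.proj (R := ℝ) (φ := fun _ : Fin 3 => ℝ) i).comp
        (fderiv ℝ d x)) = (1 / 2 : ℝ) • (d x i •
          (ContinuousLinearMap.proj (R := ℝ) (φ := fun _ : Fin 3 => ℝ) i).comp (fderiv ℝ d x)
          + d x i • (ContinuousLinearMap.proj (R := ℝ) (φ := fun _ : Fin 3 => ℝ) i).comp
            (fderiv ℝ d x)) := by
      ext v
      simp
      ring
    rw [ef, el]
    exact h
  have hφ : HasFDerivAt (fun x => ∑ i, (d x i) ^ 2 / 2)
      (∑ i, (d x i) • ((ContinuousLinearMap.proj (R := ℝ) (φ := fun _ : Fin 3 => ℝ) i).comp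
        (fderiv ℝ d x))) x := by
    have := HasFDerivAt.fun_sum (u := Finset.univ) (fun i _ => hφi i)
    simpa using this
  have hg := hφ.fun_smul hw'
  have hD : ∀ j, D (fun x => (∑ i, (d x i) ^ 2 / 2) • w x) x j j
      = (∑ i, (d x i) ^ 2 / 2) * D w x j j + (∑ i, d x i * D d x j i) * w x j := by
    intro j
    unfold D
    rw [hg.fderiv]
    simp [ContinuousLinearMap.smulRight_apply]
  simp_rw [hD]
  rw [Finset.sum_add_distrib, ← Finset.mul_sum, dw x, mul_zero, zero_add]
  simp only [Fin.sum_univ_three]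
  ring

/-- TARGET -/
theorem transport {w u : V → V} (hw : ContDiff ℝ 1 w) (hu : ContDiff ℝ 1 u) (pw : Periodic3 w)
    (pu : Periodic3 u) (dw : ∀ x, ∑ i, D w x i i = 0) {B : ℝ} (hB : ∀ x i j, |D u x j i| ≤ B) :
    |∫ x in torus, ∑ i, (w x i - u x i)
        * (∑ j, w x j * D w x j i - ∑ j, u x j * D u x j i)|
      ≤ 3 * B * ∫ x in torus, ∑ i, (w x i - u x i) ^ 2 := by
  have hB0 : 0 ≤ B := (abs_nonneg _).trans (hB 0 0 0)
  let d : V → V := fun x => w x - u x
  have hdc : ContDiff ℝ 1 d := hw.sub hu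
  have hDd : ∀ x j i, D d x j i = D w x j i - D u x j i := by
    intro x j i
    unfold D
    have h : fderiv ℝ d x = fderiv ℝ w x - fderiv ℝ u x := by
      apply fderiv_fun_sub
      · exact hw.differentiable (by norm_num) x
      · exact hu.differentiable (by norm_num) x
    rw [h]
    simp
  let g : V → V := fun x => (∑ i, (d x i) ^ 2 / 2) • w x
  have hdi : ∀ i, ContDiff ℝ 1 (fun x => d x i) := fun i => (contDiff_pi.1 hdc) i
  have hg : ContDiff ℝ 1 g := by
    have h1 : ContDiff ℝ 1 (fun x => ∑ i, (d x i) ^ 2 / 2) := by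
      apply ContDiff.sum
      intro i _
      exact ((hdi i).pow 2).div_const 2
    exact h1.smul hw
  have pg : Periodic3 g := by
    intro i x
    simp only [g, d, pw i x, pu i x]
  have hint := int_D hg pg
  have e1 : ∀ x, ∑ i, (w x i - u x i) * (∑ j, w x j * D w x j i - ∑ j, u x j * D u x j i)
      = ∑ i, D g x i i + ∑ i, ∑ j, d x i * d x j * D u x j i := by
    intro x
    rw [te_key hw hdc dw x]
    simp only [hDd, d, Pi.sub_apply, Fin.sum_univ_three]
    ring
  have cg : Continuous fun x => ∑ i, D g x i i :=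
    continuous_finsetSum _ fun i _ => te_cont_D hg i i
  have cdi : ∀ i, Continuous fun x => d x i := fun i => (hdi i).continuous
  have c2 : Continuous fun x => ∑ i, ∑ j, d x i * d x j * D u x j i :=
    continuous_finsetSum _ fun i _ => continuous_finsetSum _ fun j _ =>
      ((cdi i).mul (cdi j)).mul (te_cont_D hu j i)
  have c3 : Continuous fun x => ∑ i, (w x i - u x i) ^ 2 :=
    continuous_finsetSum _ fun i _ => (cdi i).pow 2
  have i1 : IntegrableOn (fun x => ∑ i, D g x i i) torus := by
    unfold torus; exact cg.integrableOn_Icc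
  have i2 : IntegrableOn (fun x => ∑ i, ∑ j, d x i * d x j * D u x j i) torus := by
    unfold torus; exact c2.integrableOn_Icc
  have i3 : IntegrableOn (fun x => ∑ i, (w x i - u x i) ^ 2) torus := by
    unfold torus; exact c3.integrableOn_Icc
  simp_rw [e1]
  rw [integral_add i1 i2, hint, zero_add, ← integral_const_mul]
  rw [← Real.norm_eq_abs]
  refine (norm_integral_le_integral_norm _).trans ?_
  refine integral_mono i2.norm (i3.const_mul _) ?_
  intro x
  simp only [Real.norm_eq_abs]
  have hb : ∀ i j, |d x i * d x j * D u x j i| ≤ B * (|d x i| * |d x j|) := by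
    intro i j
    rw [abs_mul, abs_mul, mul_comm B]
    exact mul_le_mul_of_nonneg_left (hB x i j) (by positivity)
  calc |∑ i, ∑ j, d x i * d x j * D u x j i|
      ≤ ∑ i, |∑ j, d x i * d x j * D u x j i| := Finset.abs_sum_le_sum_abs _ _
    _ ≤ ∑ i, ∑ j, |d x i * d x j * D u x j i| :=
        Finset.sum_le_sum fun i _ => Finset.abs_sum_le_sum_abs _ _
    _ ≤ ∑ i, ∑ j, B * (|d x i| * |d x j|) :=
        Finset.sum_le_sum fun i _ => Finset.sum_le_sum fun j _ => hb i j
    _ ≤ 3 * B * ∑ i, (w x i - u x i) ^ 2 := by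
        have hs : ∀ i, (w x i - u x i) ^ 2 = |d x i| ^ 2 := by
          intro i
          rw [sq_abs]
          rfl
        simp only [hs, Fin.sum_univ_three]
        nlinarith [mul_nonneg hB0 (sq_nonneg (|d x 0| - |d x 1|)),
          mul_nonneg hB0 (sq_nonneg (|d x 0| - |d x 2|)),
          mul_nonneg hB0 (sq_nonneg (|d x 1| - |d x 2|))]

end H706T.JTE

namespace H706T

alias transport := JTE.transport

end H706T
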