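import Pool.Agent.Helper706_TE.CB
import Pool.Agent.Helper706_TE.TE
import Pool.Agent.Helper706_TE.ES

/-!
Uniqueness of classical solutions.
-/

set_option autoImplicit false

open Set Filter Topology MeasureTheory
open scoped ComplexConjugate ContDiff

namespace H706T

open Pool.Agent.H708R2.EulerSign (Dom sq3 sq3_nonneg sq3_eq_zero sq3_contDiff
  eq_zero_of_integral_eq_zero contDiff_slice dom_bdd)
open Pool.Agent.H708R2.EulerModes (cube ph integral_cube)
open Pool.Agent.Y302.Tri

variable {δ : ℝ} {N : ℕ} {M : K → K → W → W → W} {T : ℝ} {w u : ℝ → V → V} {q p : ℝ → V → ℝ}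

theorem IsSolution.base (h : IsSolution M T u p) : Base (Ico 0 T) u p :=
  ⟨h.contDiffOn_u, h.contDiffOn_p, h.periodic_u, h.periodic_p, h.div_free⟩

theorem IsSolution.lin_eq (h : IsSolution M T u p) {t : ℝ} (ht : t ∈ Ico 0 T) (i : Fin 3) (x : V) :
    lin (Ico 0 T) u p t i x = op M (u t) (u t) x i - ∑ j, u t x j * D (u t) x j i := by
  have h1 := h.momentum t ht x i
  unfold lin
  linarith

theorem op_cont (h : IsSymbol δ M) (h2 : Sy2 N M) {v w : V → V} (hv : ContDiff ℝ 1 v)
    (pv : Periodic3 v) (hw : ContDiff ℝ 1 w) (pw : Periodic3 w) : Continuous (op M v w) :=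
  (series_cont (sym_summable h h2 hv pv hw pw)).1

theorem op_per (h : IsSymbol δ M) (h2 : Sy2 N M) {v w : V → V} (hv : ContDiff ℝ 1 v)
    (pv : Periodic3 v) (hw : ContDiff ℝ 1 w) (pw : Periodic3 w) : Periodic3 (op M v w) :=
  (series_cont (sym_summable h h2 hv pv hw pw)).2

theorem deriv_le (hδ : 0 ≤ δ) (h : IsSymbol δ M) (h2 : Sy2 N M) (hw : IsSolution M T w q)
    (hu : IsSolution M T u p) {t : ℝ} (ht : t ∈ Ioo 0 T) {B : ℝ}
    (hB : ∀ x i j, |D (u t) x j i| ≤ B) :
    |∫ x in Dom, dS w u t x| ≤ (12 * δ + 6) * B * en w u t := by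
  have htI : t ∈ Ico 0 T := ⟨ht.1.le, ht.2⟩
  have hwt : ContDiff ℝ 1 (w t) := contDiff_slice hw.contDiffOn_u htI
  have hut : ContDiff ℝ 1 (u t) := contDiff_slice hu.contDiffOn_u htI
  have pw := hw.periodic_u t htI
  have pu := hu.periodic_u t htI
  have cd : ∀ i, Continuous fun x => w t x i - u t x i := fun i =>
    (JCB.comp_cont hwt.continuous i).sub (JCB.comp_cont hut.continuous i)
  have ca : ∀ i, Continuous fun x => op M (w t) (w t) x i - op M (u t) (u t) x i := fun i =>
    (JCB.comp_cont (op_cont h h2 hwt pw hwt pw) i).sub (JCB.comp_cont (op_cont h h2 hut pu hut pu) i)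
  have cb : ∀ i, Continuous fun x => ∑ j, w t x j * D (w t) x j i - ∑ j, u t x j * D (u t) x j i :=
    fun i => (continuous_finsetSum _ fun j _ =>
      (JCB.comp_cont hwt.continuous j).mul (JCB.D_cont hwt j i)).sub
      (continuous_finsetSum _ fun j _ =>
      (JCB.comp_cont hut.continuous j).mul (JCB.D_cont hut j i))
  have per : ∀ i, Pool.Agent.H708R2.EulerSign.Periodic3 fun x => (w t x i - u t x i)
      * (lin (Ico 0 T) w q t i x - lin (Ico 0 T) u p t i x) := by
    intro i j x
    simp only
    rw [lin_periodic hw.base htI i j x, lin_periodic hu.base htI i j x]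
    have h3 := pw j x
    have h4 := pu j x
    rw [h3, h4]
  have e1 : ∫ x in Dom, dS w u t x
      = 2 * ((∫ x in torus, ∑ i, (w t x i - u t x i)
          * (op M (w t) (w t) x i - op M (u t) (u t) x i))
        - ∫ x in torus, ∑ i, (w t x i - u t x i)
          * (∑ j, w t x j * D (w t) x j i - ∑ j, u t x j * D (u t) x j i)) := by
    rw [int_dS hw.base hu.base ht, ← integral_sub, ← Finset.mul_sum]
    · congr 1
      have h3 : ∀ i : Fin 3, ∫ x in Dom, (w t x i - u t x i)
          * (lin (Ico 0 T) w q t i x - lin (Ico 0 T) u p t i x)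
          = ∫ x in torus, (w t x i - u t x i)
          * (lin (Ico 0 T) w q t i x - lin (Ico 0 T) u p t i x) :=
        fun i => (integral_cube (per i)).symm
      rw [Finset.sum_congr rfl fun i _ => h3 i]
      simp only [hw.lin_eq htI, hu.lin_eq htI]
      rw [← integral_finsetSum]
      · congr 1
        funext x
        rw [← Finset.sum_sub_distrib]
        refine Finset.sum_congr rfl fun i _ => ?_
        ring
      · intro i _
        have h5 : Continuous fun x => (w t x i - u t x i)
            * (op M (w t) (w t) x i - ∑ j, w t x j * D (w t) x j i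
              - (op M (u t) (u t) x i - ∑ j, u t x j * D (u t) x j i)) := by
          have h6 := (cd i).mul ((ca i).sub (cb i))
          refine h6.congr fun x => ?_
          simp only [Pi.mul_apply, Pi.sub_apply]
          ring
        exact h5.continuousOn.integrableOn_compact JCB.torus_compact
    · exact (continuous_finsetSum _ fun i _ => (cd i).mul (ca i)).continuousOn.integrableOn_compact
        JCB.torus_compact
    · exact (continuous_finsetSum _ fun i _ => (cd i).mul (cb i)).continuousOn.integrableOn_compact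
        JCB.torus_compact
  have e2 : ∫ x in torus, ∑ i, (w t x i - u t x i) ^ 2 = en w u t := by
    unfold en sq3
    have h3 : Pool.Agent.H708R2.EulerSign.Periodic3 fun x => ∑ i, (w t x - u t x) i ^ 2 := by
      intro j x
      simp only
      rw [pw j x, pu j x]
    rw [← integral_cube h3]
    rfl
  have e3 := op_est hδ h h2 hwt pw hut pu hB
  have e4 := transport hwt hut pw pu (hw.div_free t htI) hB
  rw [e2] at e3 e4
  rw [e1, abs_mul, abs_two]
  have e5 := abs_sub (∫ x in torus, ∑ i, (w t x i - u t x i)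
          * (op M (w t) (w t) x i - op M (u t) (u t) x i))
        (∫ x in torus, ∑ i, (w t x i - u t x i)
          * (∑ j, w t x j * D (w t) x j i - ∑ j, u t x j * D (u t) x j i))
  linarith

/-- Uniqueness. -/
theorem unique (hδ : 0 ≤ δ) (h : IsSymbol δ M) (h2 : Sy2 N M) (hw : IsSolution M T w q)
    (hu : IsSolution M T u p)
    (hB : ∀ T₁ < T, ∃ B : ℝ, ∀ t ∈ Icc 0 T₁, ∀ x i j, |D (u t) x j i| ≤ B)
    (h0 : w 0 = u 0) : ∀ t ∈ Ico 0 T, w t = u t := by
  intro t ht
  have hcont := en_continuousOn hw.base hu.base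
  obtain ⟨T₁, hT1, hT2⟩ := exists_between ht.2
  obtain ⟨B, hB⟩ := hB T₁ hT2
  set C : ℝ := (12 * δ + 6) * B with hC
  have hE0 : en w u 0 = 0 := by
    unfold en
    rw [h0]
    simp [sq3]
  have hEz : en w u t = 0 := by
    refine le_antisymm ?_ (en_nonneg t)
    have hanti : AntitoneOn (fun s => en w u s * Real.exp (-C * s)) (Ico 0 T₁) := by
      have hder : ∀ s ∈ interior (Ico 0 T₁), HasDerivAt
          (fun s => en w u s * Real.exp (-C * s))
          ((∫ x in Dom, dS w u s x) * Real.exp (-C * s)
            + en w u s * (Real.exp (-C * s) * (-C * 1))) s := by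
        intro s hs
        rw [interior_Ico] at hs
        exact (en_hasDerivAt hw.base hu.base ⟨hs.1, hs.2.trans hT2⟩).mul
          (((hasDerivAt_id s).const_mul (-C)).exp)
      refine antitoneOn_of_deriv_nonpos (convex_Ico _ _) ?_ ?_ ?_
      · exact (hcont.mono (Ico_subset_Ico_right hT2.le)).mul (by fun_prop)
      · intro s hs
        exact (hder s hs).differentiableAt.differentiableWithinAt
      · intro s hs
        rw [(hder s hs).deriv]
        rw [interior_Ico] at hs
        have h1 := (abs_le.1 (deriv_le hδ h h2 hw hu ⟨hs.1, hs.2.trans hT2⟩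
          (hB s ⟨hs.1.le, hs.2.le⟩))).2
        have h3 : 0 < Real.exp (-C * s) := Real.exp_pos _
        nlinarith
    have h1 := hanti ⟨le_rfl, ht.1.trans_lt hT1⟩ ⟨ht.1, hT1⟩ ht.1
    simp only [hE0, zero_mul] at h1
    exact nonpos_of_mul_nonpos_left h1 (Real.exp_pos _)
  have hwt : ContDiff ℝ 1 (w t) := contDiff_slice hw.base.contDiffOn_u ht
  have hut : ContDiff ℝ 1 (u t) := contDiff_slice hu.base.contDiffOn_u ht
  have hW : ContDiff ℝ 1 (fun y => w t y - u t y) := hwt.sub hut
  have hper : Pool.Agent.H708R2.EulerSign.Periodic3 (fun x => sq3 (w t x - u t x)) := by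
    intro i x
    simp only
    rw [hw.base.periodic_u t ht i x, hu.base.periodic_u t ht i x]
  have hz := eq_zero_of_integral_eq_zero hper ((sq3_contDiff (n := 1)).comp hW).continuous
    (fun x => sq3_nonneg _) hEz
  ext1 x
  exact sub_eq_zero.1 (sq3_eq_zero (hz x))

/-- Restriction to a shorter time interval. -/
theorem IsSolution.mono (h : IsSolution M T u p) {T' : ℝ} (hT : T' ≤ T) : IsSolution M T' u p := by
  have hsub : Ico (0 : ℝ) T' ⊆ Ico 0 T := Ico_subset_Ico_right hT
  refine ⟨h.contDiffOn_u.mono (prod_mono hsub subset_rfl),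
    h.contDiffOn_p.mono (prod_mono hsub subset_rfl), fun t ht => h.periodic_u t (hsub ht),
    fun t ht => h.periodic_p t (hsub ht), fun t ht => h.div_free t (hsub ht), fun t ht x i => ?_⟩
  have h1 := h.momentum t (hsub ht) x i
  have h2 : derivWithin (fun s => u s x i) (Ico 0 T') t
      = derivWithin (fun s => u s x i) (Ico 0 T) t := by
    refine derivWithin_congr_set ?_
    filter_upwards [Iio_mem_nhds ht.2] with s hs
    apply propext
    constructor
    · intro h; exact ⟨h.1, h.2.trans_le hT⟩
    · intro h; exact ⟨h.1, hs⟩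
  rw [h2]
  exact h1

end H706T
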