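import Pool.Agent.Helper706_TE.Defs4

set_option autoImplicit false
open Set Filter Topology MeasureTheory
open scoped ComplexConjugate ContDiff

namespace H706T.JWF

theorem qt_aux1 {L : ℕ → ℕ → ℝ} (hL : ∀ l m, |L l m| ≤ 1) {C : ℝ} (hC : 0 ≤ C) {b : ℕ → ℝ}
    (hb : ∀ l, |b l| ≤ C * (1 / 2) ^ l) (i j p q : ℕ) :
    |L i j * (b p * b q)| ≤ C ^ 2 * (1 / 2) ^ (p + q) := by
  rw [abs_mul, abs_mul]
  have h1 : |b p| * |b q| ≤ (C * (1 / 2) ^ p) * (C * (1 / 2) ^ q) :=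
    mul_le_mul (hb p) (hb q) (abs_nonneg _) (by positivity)
  have h2 : |L i j| * (|b p| * |b q|) ≤ 1 * (|b p| * |b q|) :=
    mul_le_mul_of_nonneg_right (hL i j) (by positivity)
  calc |L i j| * (|b p| * |b q|) ≤ 1 * (|b p| * |b q|) := h2
    _ ≤ (C * (1 / 2) ^ p) * (C * (1 / 2) ^ q) := by rw [one_mul]; exact h1
    _ = C ^ 2 * (1 / 2) ^ (p + q) := by rw [pow_add]; ring

theorem qt_aux2 (C : ℝ) (l : ℕ) :
    HasSum (fun m : ℕ => C ^ 2 * (1 / 2 : ℝ) ^ ((m + 1) + (l + m + 1)))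
      (C ^ 2 * (1 / 2) ^ l * (1 / 3)) := by
  have h := (hasSum_geometric_of_lt_one (r := (1 / 4 : ℝ)) (by norm_num) (by norm_num)).mul_left
    (C ^ 2 * (1 / 2 : ℝ) ^ l * (1 / 4))
  have e : C ^ 2 * (1 / 2 : ℝ) ^ l * (1 / 4) * (1 - 1 / 4)⁻¹ = C ^ 2 * (1 / 2) ^ l * (1 / 3) := by
    norm_num
    ring
  rw [e] at h
  have e3 : (fun m : ℕ => C ^ 2 * (1 / 2 : ℝ) ^ ((m + 1) + (l + m + 1)))
      = fun m : ℕ => C ^ 2 * (1 / 2 : ℝ) ^ l * (1 / 4) * (1 / 4) ^ m := by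
    funext m
    have e2 : (1 / 4 : ℝ) = (1 / 2) ^ 2 := by norm_num
    rw [show (m + 1) + (l + m + 1) = l + 2 + 2 * m by ring, pow_add, pow_add, pow_mul, ← e2]
    ring
  rw [e3]
  exact h

/-- TARGET -/
theorem qt_props {L : ℕ → ℕ → ℝ} (hL : ∀ l m, |L l m| ≤ 1) {T C : ℝ} {b : ℝ → ℕ → ℝ}
    (hb : ∀ t ∈ Ioo (-T) T, ∀ l, |b t l| ≤ C * (1 / 2) ^ l)
    (hcont : ∀ l, ContinuousOn (fun t => b t l) (Ioo (-T) T)) :
    (∀ t ∈ Ioo (-T) T, ∀ l, |qt L (b t) l| ≤ C ^ 2 * ((l + 1) * (1 / 2) ^ l)) ∧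
      ∀ l, ContinuousOn (fun t => qt L (b t) l) (Ioo (-T) T) := by
  have key1 : ∀ t ∈ Ioo (-T) T, 0 ≤ C := fun t ht => by
    have := (abs_nonneg _).trans (hb t ht 0)
    simpa using this
  refine ⟨fun t ht l => ?_, fun l => ?_⟩
  · have hC := key1 t ht
    have hb' := hb t ht
    unfold qt
    have h1 : |∑ m ∈ Finset.Ico 1 l, L (l - m) m * (b t (l - m) * b t m)|
        ≤ l * (C ^ 2 * (1 / 2) ^ l) := by
      refine (Finset.abs_sum_le_sum_abs _ _).trans ?_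
      have h : ∑ m ∈ Finset.Ico 1 l, |L (l - m) m * (b t (l - m) * b t m)|
          ≤ ∑ m ∈ Finset.Ico 1 l, C ^ 2 * (1 / 2) ^ l := by
        refine Finset.sum_le_sum fun m hm => ?_
        rw [Finset.mem_Ico] at hm
        have := qt_aux1 hL hC hb' (l - m) m (l - m) m
        rwa [Nat.sub_add_cancel hm.2.le] at this
      refine h.trans ?_
      rw [Finset.sum_const, Nat.card_Ico, nsmul_eq_mul]
      have hle : ((l - 1 : ℕ) : ℝ) ≤ l := by exact_mod_cast Nat.sub_le l 1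
      exact mul_le_mul_of_nonneg_right hle (by positivity)
    have h2 : |∑' m : ℕ, L l (m + 1) * (b t (m + 1) * b t (l + m + 1))|
        ≤ C ^ 2 * (1 / 2) ^ l * (1 / 3) := by
      have := tsum_of_norm_bounded (f := fun m : ℕ => L l (m + 1) * (b t (m + 1) * b t (l + m + 1)))
        (qt_aux2 C l) (fun m => by
          rw [Real.norm_eq_abs]
          exact qt_aux1 hL hC hb' l (m + 1) (m + 1) (l + m + 1))
      rwa [Real.norm_eq_abs] at this
    have h3 : 0 ≤ C ^ 2 * (1 / 2 : ℝ) ^ l := by positivity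
    calc |∑ m ∈ Finset.Ico 1 l, L (l - m) m * (b t (l - m) * b t m)
          - ∑' m : ℕ, L l (m + 1) * (b t (m + 1) * b t (l + m + 1))|
        ≤ |∑ m ∈ Finset.Ico 1 l, L (l - m) m * (b t (l - m) * b t m)|
          + |∑' m : ℕ, L l (m + 1) * (b t (m + 1) * b t (l + m + 1))| := abs_sub _ _
      _ ≤ l * (C ^ 2 * (1 / 2) ^ l) + C ^ 2 * (1 / 2) ^ l * (1 / 3) := add_le_add h1 h2
      _ ≤ C ^ 2 * ((l + 1) * (1 / 2) ^ l) := by nlinarith
  · unfold qt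
    refine ContinuousOn.sub ?_ ?_
    · exact continuousOn_finsetSum _ fun m _ =>
        continuousOn_const.mul ((hcont (l - m)).mul (hcont m))
    · refine continuousOn_tsum (u := fun m : ℕ => C ^ 2 * (1 / 2 : ℝ) ^ ((m + 1) + (l + m + 1)))
        (fun m => continuousOn_const.mul ((hcont (m + 1)).mul (hcont (l + m + 1))))
        (qt_aux2 C l).summable fun m t ht => ?_
      rw [Real.norm_eq_abs]
      exact qt_aux1 hL (key1 t ht) (hb t ht) l (m + 1) (m + 1) (l + m + 1)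

/-- The Fréchet derivative of a term of the series. -/
noncomputable def pfd (b d : ℝ → ℕ → ℝ) (l : ℕ) (z : ℝ × ℝ) : ℝ × ℝ →L[ℝ] ℝ :=
  (2 * d z.1 l * Real.sin (l * z.2)) • ContinuousLinearMap.fst ℝ ℝ ℝ
    + (2 * b z.1 l * (l * Real.cos (l * z.2))) • ContinuousLinearMap.snd ℝ ℝ ℝ

theorem pfd_has {b d : ℝ → ℕ → ℝ} {l : ℕ} {z : ℝ × ℝ}
    (hder : HasDerivAt (fun s => b s l) (d z.1 l) z.1) :
    HasFDerivAt (fun z : ℝ × ℝ => 2 * b z.1 l * Real.sin (l * z.2)) (pfd b d l z) z := by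
  have h1 : HasFDerivAt (fun z : ℝ × ℝ => b z.1 l) ((d z.1 l) • ContinuousLinearMap.fst ℝ ℝ ℝ) z :=
    hder.comp_hasFDerivAt z hasFDerivAt_fst
  have h2 : HasFDerivAt (fun z : ℝ × ℝ => (l : ℝ) * z.2)
      ((l : ℝ) • ContinuousLinearMap.snd ℝ ℝ ℝ) z := hasFDerivAt_snd.const_mul (l : ℝ)
  have h3 := h2.sin
  have h4 := (h1.const_mul 2).mul h3
  refine h4.congr_fderiv ?_
  refine ContinuousLinearMap.ext fun w => ?_
  simp only [pfd, add_apply, smul_apply, ContinuousLinearMap.coe_fst', ContinuousLinearMap.coe_snd',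
    smul_eq_mul]
  ring

theorem pfd_bound {C : ℝ} (hC : 0 ≤ C) {b d : ℝ → ℕ → ℝ} {l : ℕ} {z : ℝ × ℝ}
    (hb : |b z.1 l| ≤ C * (1 / 2) ^ l) (hd : |d z.1 l| ≤ C * ((l + 1) * (1 / 2) ^ l)) :
    ‖pfd b d l z‖ ≤ 4 * C * ((l + 1) * (1 / 2) ^ l) := by
  unfold pfd
  refine (norm_add_le _ _).trans ?_
  rw [norm_smul, norm_smul]
  have n1 : ‖ContinuousLinearMap.fst ℝ ℝ ℝ‖ ≤ 1 := ContinuousLinearMap.norm_fst_le ..
  have n2 : ‖ContinuousLinearMap.snd ℝ ℝ ℝ‖ ≤ 1 := ContinuousLinearMap.norm_snd_le ..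
  have a1 : ‖2 * d z.1 l * Real.sin (l * z.2)‖ ≤ 2 * (C * ((l + 1) * (1 / 2) ^ l)) := by
    rw [Real.norm_eq_abs, abs_mul, abs_mul, abs_two]
    have := Real.abs_sin_le_one (l * z.2)
    have h0 := abs_nonneg (d z.1 l)
    calc 2 * |d z.1 l| * |Real.sin (l * z.2)| ≤ 2 * |d z.1 l| * 1 :=
          mul_le_mul_of_nonneg_left this (by positivity)
      _ ≤ 2 * (C * ((l + 1) * (1 / 2) ^ l)) := by linarith
  have a2 : ‖2 * b z.1 l * (l * Real.cos (l * z.2))‖ ≤ 2 * (C * ((l + 1) * (1 / 2) ^ l)) := by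
    rw [Real.norm_eq_abs, abs_mul, abs_mul, abs_mul, abs_two, Nat.abs_cast]
    have := Real.abs_cos_le_one (l * z.2)
    have h0 := abs_nonneg (b z.1 l)
    calc 2 * |b z.1 l| * (l * |Real.cos (l * z.2)|) ≤ 2 * |b z.1 l| * (l * 1) := by gcongr
      _ ≤ 2 * (C * (1 / 2) ^ l) * (l * 1) := by gcongr
      _ ≤ 2 * (C * (1 / 2) ^ l) * (l + 1) := by
          refine mul_le_mul_of_nonneg_left (by linarith) (by positivity)
      _ = 2 * (C * ((l + 1) * (1 / 2) ^ l)) := by ring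
  have hp : (0:ℝ) ≤ 2 * (C * ((l + 1) * (1 / 2) ^ l)) := by positivity
  calc ‖2 * d z.1 l * Real.sin (l * z.2)‖ * ‖ContinuousLinearMap.fst ℝ ℝ ℝ‖
        + ‖2 * b z.1 l * (l * Real.cos (l * z.2))‖ * ‖ContinuousLinearMap.snd ℝ ℝ ℝ‖
      ≤ (2 * (C * ((l + 1) * (1 / 2) ^ l))) * 1 + (2 * (C * ((l + 1) * (1 / 2) ^ l))) * 1 :=
        add_le_add (mul_le_mul a1 n1 (norm_nonneg _) hp) (mul_le_mul a2 n2 (norm_nonneg _) hp)
    _ = 4 * C * ((l + 1) * (1 / 2) ^ l) := by ring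

theorem summable_pfd (C : ℝ) :
    Summable (fun l : ℕ => 4 * C * (((l : ℝ) + 1) * (1 / 2 : ℝ) ^ l)) := by
  have h1 : Summable (fun l : ℕ => ((l : ℝ) ^ 1 * (1 / 2 : ℝ) ^ l)) :=
    summable_pow_mul_geometric_of_norm_lt_one 1 (by norm_num)
  have h0 : Summable (fun l : ℕ => (1 / 2 : ℝ) ^ l) :=
    summable_geometric_of_lt_one (by norm_num) (by norm_num)
  refine ((h1.add h0).mul_left (4 * C)).congr fun l => ?_
  ring

/-- TARGET -/
theorem profile_C1 {T C : ℝ} {b d : ℝ → ℕ → ℝ} (hb : ∀ t ∈ Ioo (-T) T, ∀ l, |b t l| ≤ C * (1 / 2) ^ l)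
    (hd : ∀ t ∈ Ioo (-T) T, ∀ l, |d t l| ≤ C * ((l + 1) * (1 / 2) ^ l))
    (hcont : ∀ l, ContinuousOn (fun t => d t l) (Ioo (-T) T))
    (hder : ∀ t ∈ Ioo (-T) T, ∀ l, HasDerivAt (fun s => b s l) (d t l) t) :
    ContDiffOn ℝ 1 (fun z : ℝ × ℝ => ∑' l : ℕ, 2 * b z.1 l * Real.sin (l * z.2)) (Ioo (-T) T ×ˢ univ) ∧
      ∀ t ∈ Ioo (-T) T, ∀ φ : ℝ, HasDerivAt (fun s => ∑' l : ℕ, 2 * b s l * Real.sin (l * φ))
        (∑' l : ℕ, 2 * d t l * Real.sin (l * φ)) t := by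
  have key1 : ∀ t ∈ Ioo (-T) T, 0 ≤ C := fun t ht => by
    have := (abs_nonneg _).trans (hb t ht 0)
    simpa using this
  have hopen : IsOpen (Ioo (-T) T ×ˢ (univ : Set ℝ)) := isOpen_Ioo.prod isOpen_univ
  have hconn : IsPreconnected (Ioo (-T) T ×ˢ (univ : Set ℝ)) :=
    isPreconnected_Ioo.prod isPreconnected_univ
  have hfd : ∀ z ∈ Ioo (-T) T ×ˢ (univ : Set ℝ),
      HasFDerivAt (fun z : ℝ × ℝ => ∑' l : ℕ, 2 * b z.1 l * Real.sin (l * z.2))
        (∑' l : ℕ, pfd b d l z) z := by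
    intro z hz
    have hC := key1 z.1 hz.1
    refine hasFDerivAt_tsum_of_isPreconnected (summable_pfd C) hopen hconn
      (f := fun (l : ℕ) (z : ℝ × ℝ) => 2 * b z.1 l * Real.sin (l * z.2))
      (f' := fun (l : ℕ) (z : ℝ × ℝ) => pfd b d l z) (x₀ := (z.1, 0))
      (fun l x hx => pfd_has (hder x.1 hx.1 l))
      (fun l x hx => pfd_bound hC (hb x.1 hx.1 l) (hd x.1 hx.1 l)) ⟨hz.1, mem_univ _⟩ ?_ hz
    simp only [mul_zero, Real.sin_zero]
    exact summable_zero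
  have hcb : ∀ l, ContinuousOn (fun t => b t l) (Ioo (-T) T) := fun l t ht =>
    (hder t ht l).continuousAt.continuousWithinAt
  have hfst : ∀ g : ℝ → ℝ, ContinuousOn g (Ioo (-T) T) →
      ContinuousOn (fun z : ℝ × ℝ => g z.1) (Ioo (-T) T ×ˢ (univ : Set ℝ)) := fun g hg =>
    hg.comp continuous_fst.continuousOn fun z hz => hz.1
  have hcf : ContinuousOn (fun z : ℝ × ℝ => ∑' l : ℕ, pfd b d l z)
      (Ioo (-T) T ×ˢ (univ : Set ℝ)) := by
    refine continuousOn_tsum (u := fun l : ℕ => 4 * C * (((l : ℝ) + 1) * (1 / 2 : ℝ) ^ l))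
      (fun l => ?_) (summable_pfd C)
      fun l z hz => pfd_bound (key1 z.1 hz.1) (hb z.1 hz.1 l) (hd z.1 hz.1 l)
    unfold pfd
    have c1 : ContinuousOn (fun z : ℝ × ℝ => 2 * d z.1 l * Real.sin (l * z.2))
        (Ioo (-T) T ×ˢ (univ : Set ℝ)) :=
      (continuousOn_const.mul (hfst _ (hcont l))).mul
        (Continuous.continuousOn (by fun_prop))
    have c2 : ContinuousOn (fun z : ℝ × ℝ => 2 * b z.1 l * (l * Real.cos (l * z.2)))
        (Ioo (-T) T ×ˢ (univ : Set ℝ)) :=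
      (continuousOn_const.mul (hfst _ (hcb l))).mul
        (Continuous.continuousOn (by fun_prop))
    exact (c1.smul continuousOn_const).add (c2.smul continuousOn_const)
  refine ⟨?_, fun t ht φ => ?_⟩
  · rw [show (1 : WithTop ℕ∞) = 0 + 1 by norm_num, contDiffOn_succ_iff_fderiv_of_isOpen hopen]
    refine ⟨fun z hz => (hfd z hz).differentiableAt.differentiableWithinAt, by simp, ?_⟩
    rw [contDiffOn_zero]
    exact hcf.congr fun z hz => (hfd z hz).fderiv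
  · have hC := key1 t ht
    refine hasDerivAt_tsum_of_isPreconnected (summable_pfd C) isOpen_Ioo isPreconnected_Ioo
      (g := fun (l : ℕ) (s : ℝ) => 2 * b s l * Real.sin (l * φ))
      (g' := fun (l : ℕ) (s : ℝ) => 2 * d s l * Real.sin (l * φ)) (t := Ioo (-T) T) (y₀ := t)
      (fun l s hs => ((hder s hs l).const_mul 2).mul_const _)
      (fun l s hs => ?_) ht ?_ ht
    · rw [Real.norm_eq_abs, abs_mul, abs_mul, abs_two]
      have h1 := Real.abs_sin_le_one (l * φ)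
      have h2 := hd s hs l
      have h3 := abs_nonneg (d s l)
      have h4 : (0:ℝ) ≤ C * ((l + 1) * (1 / 2) ^ l) := by positivity
      calc 2 * |d s l| * |Real.sin (l * φ)| ≤ 2 * |d s l| * 1 :=
            mul_le_mul_of_nonneg_left h1 (by positivity)
        _ ≤ 4 * C * ((l + 1) * (1 / 2) ^ l) := by nlinarith
    · refine Summable.of_norm_bounded (g := fun l : ℕ => 2 * (C * (1 / 2 : ℝ) ^ l))
        (((summable_geometric_of_lt_one (by norm_num) (by norm_num)).mul_left C).mul_left 2)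
        fun l => ?_
      rw [Real.norm_eq_abs, abs_mul, abs_mul, abs_two]
      have h1 := Real.abs_sin_le_one (l * φ)
      have h2 := hb t ht l
      have h3 := abs_nonneg (b t l)
      calc 2 * |b t l| * |Real.sin (l * φ)| ≤ 2 * |b t l| * 1 :=
            mul_le_mul_of_nonneg_left h1 (by positivity)
        _ ≤ 2 * (C * (1 / 2 : ℝ) ^ l) := by linarith

end H706T.JWF

namespace H706T

alias qt_props := JWF.qt_props
alias profile_C1 := JWF.profile_C1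

end H706T
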