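import Pool.Agent.Helper706_TE.Defs4
import Pool.Agent.Helper706_TE.UQ
import Pool.Agent.Helper706_TE.CS
import Pool.Agent.Helper706_TE.CP
import Pool.Agent.Helper706_TE.LC
import Pool.Agent.Helper706_TE.WF
import Pool.Agent.Helper706_TE.WG

set_option autoImplicit false
open Set Filter Topology MeasureTheory
open scoped ComplexConjugate ContDiff

namespace H706T.JOS

theorem OS_periodic {n : K} (e : V) (b : ℕ → ℝ) :
    Periodic3 (fun x => (∑' j : ℕ, 2 * b j * Real.sin (j * dot n x)) • e) := by
  intro i x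
  have h1 : dot n (x + Pi.single i (2 * Real.pi)) = dot n x + (n i : ℝ) * (2 * Real.pi) := by
    unfold dot
    simp only [Pi.add_apply, mul_add, Finset.sum_add_distrib]
    congr 1
    rw [Finset.sum_eq_single i]
    · simp
    · intro j _ hj
      simp [hj]
    · simp
  have h2 : ∀ j : ℕ, Real.sin (j * dot n (x + Pi.single i (2 * Real.pi))) =
      Real.sin (j * dot n x) := by
    intro j
    rw [h1]
    have := Real.sin_add_int_mul_two_pi (j * dot n x) (j * n i)
    rw [← this]
    congr 1
    push_cast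
    ring
  simp only [h2]

theorem OS_dot_contDiff (n : K) : ContDiff ℝ 1 (fun x : V => dot n x) := by
  unfold dot
  fun_prop

/-- TARGET -/
theorem sine_field {n : K} (e : V) {C : ℝ} {b : ℕ → ℝ} (hb : ∀ l, |b l| ≤ C * (1 / 2) ^ l) :
    ContDiff ℝ 1 (fun x => (∑' j : ℕ, 2 * b j * Real.sin (j * dot n x)) • e) ∧
      Periodic3 (fun x => (∑' j : ℕ, 2 * b j * Real.sin (j * dot n x)) • e) := by
  refine ⟨?_, OS_periodic e b⟩
  have hC : 0 ≤ C := by
    have := hb 0
    have h2 := abs_nonneg (b 0)
    simp only [pow_zero, mul_one] at this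
    linarith
  have h1 := (profile_C1 (T := 1) (C := C) (b := fun _ l => b l) (d := fun _ _ => 0)
    (fun t _ l => hb l) (fun t _ l => by simp only [abs_zero]; positivity)
    (fun l => continuousOn_const) (fun t _ l => hasDerivAt_const _ _)).1
  have h2 : ContDiff ℝ 1 (fun x : V => ((0 : ℝ), dot n x)) :=
    contDiff_const.prodMk (OS_dot_contDiff n)
  have h3 : ContDiffOn ℝ 1 ((fun z : ℝ × ℝ => ∑' l : ℕ, 2 * b l * Real.sin (l * z.2)) ∘
      (fun x : V => ((0 : ℝ), dot n x))) univ := by
    refine h1.comp h2.contDiffOn ?_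
    intro x _
    simp
  rw [contDiffOn_univ] at h3
  exact h3.smul contDiff_const

theorem OS_zero_left {δ : ℝ} {M : K → K → W → W → W} (h : IsSymbol δ M) (p q : K) (b : W) :
    M p q 0 b = 0 := by
  have := h.lin₁ p q 1 0 0 b
  simpa using this

theorem OS_zero_right {δ : ℝ} {M : K → K → W → W → W} (h : IsSymbol δ M) (p q : K) (a : W) :
    M p q a 0 = 0 := by
  have := h.lin₂ p q 1 a 0 0
  simpa using this

theorem OS_coeff {δ κ : ℝ} {N : ℕ} {L : ℤ → ℤ → ℝ} {M : K → K → W → W → W} (h : IsSymbol δ M)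
    (h2 : Sy2 N M) {n : K} {e : V} (hn : n ≠ 0) (hL : LW L) (hv : ValL κ L M n e)
    {b c : ℕ → ℝ} (h0 : b 0 = 0) (hb : Summable fun l : ℕ => |b l|)
    (hc0 : c 0 = 0) (hcs : Summable fun l : ℕ => |c l|)
    (hc : ∀ l, 0 < l → c l = κ * qt (fun l m => L l m) b l)
    (F G : V → V)
    (hF : ∀ k, coeff F k = ∑' q : K, M (k - q) q
      (coeff (fun x => (∑' j : ℕ, 2 * b j * Real.sin (j * dot n x)) • e) (k - q))
      (coeff (fun x => (∑' j : ℕ, 2 * b j * Real.sin (j * dot n x)) • e) q))
    (hG : G = fun x => (∑' j : ℕ, 2 * c j * Real.sin (j * dot n x)) • e) (k : K) :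
    coeff F k = coeff G k := by
  obtain ⟨hb1, hb2⟩ := coeff_series hn e h0 hb
  obtain ⟨hc1, hc2⟩ := coeff_series hn e hc0 hcs
  rw [← hG] at hc1 hc2
  set a : K → W := coeff (fun x => (∑' j : ℕ, 2 * b j * Real.sin (j * dot n x)) • e) with ha
  set B : ℤ → ℝ := fun l => sgr l * b l.natAbs with hB
  have hBs : Summable B := by
    have hnat : ∀ m : ℕ, B (m : ℤ) = b m := by
      intro m
      rcases Nat.eq_zero_or_pos m with rfl | hm
      · simp [hB, sgr, h0]
      · simp [hB, sgr, Int.sign_eq_one_of_pos (by exact_mod_cast hm : (0 : ℤ) < m)]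
    have hneg : ∀ m : ℕ, B (-(m : ℤ)) = - b m := by
      intro m
      rcases Nat.eq_zero_or_pos m with rfl | hm
      · simp [hB, sgr, h0]
      · simp [hB, sgr, Int.sign_eq_one_of_pos (by exact_mod_cast hm : (0 : ℤ) < m)]
    have hbs : Summable b := hb.of_abs
    refine Summable.of_nat_of_neg ?_ ?_
    · simpa only [hnat] using hbs
    · simpa only [hneg] using hbs.neg
  have hodd : ∀ l, B (-l) = -B l := by
    intro l
    simp [hB, sgr]
  have hpos : ∀ m : ℕ, 0 < m → B (m : ℤ) = b m := by
    intro m hm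
    simp [hB, sgr, Int.sign_eq_one_of_pos (by exact_mod_cast hm : (0 : ℤ) < m)]
  have hkey : ∀ l : ℕ, 0 < l → coeff F ((l : ℤ) • n) = coeff G ((l : ℤ) • n) := by
    intro l hl
    rw [hF, line_conv h h2 hn hL hv hBs hodd (a := a) hb1 hb2 hl, hc1]
    congr 3
    have hs : sgr (l : ℤ) = 1 := by
      simp [sgr, Int.sign_eq_one_of_pos (by exact_mod_cast hl : (0 : ℤ) < l)]
    rw [hs, Int.natAbs_natCast, hc l hl, one_mul]
    congr 1
    unfold qt
    congr 1
    · apply Finset.sum_congr rfl
      intro m hm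
      obtain ⟨hm1, hm2⟩ := Finset.mem_Ico.1 hm
      have hcast : ((l : ℤ) - m) = ((l - m : ℕ) : ℤ) := by omega
      rw [hcast, hpos _ (by omega), hpos _ (by omega)]
    · apply tsum_congr
      intro m
      have h1 : ((m : ℤ) + 1) = ((m + 1 : ℕ) : ℤ) := by push_cast; ring
      have h2 : ((l : ℤ) + m + 1) = ((l + m + 1 : ℕ) : ℤ) := by push_cast; ring
      rw [h1, h2, hpos _ (by omega), hpos _ (by omega)]
  by_cases hk : ∃ l : ℤ, k = l • n
  · obtain ⟨l, rfl⟩ := hk
    rcases lt_trichotomy l 0 with hl | rfl | hl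
    · obtain ⟨m, hm⟩ : ∃ m : ℕ, l = -(m : ℤ) := ⟨l.natAbs, by omega⟩
      have hm0 : 0 < m := by omega
      rw [hm, neg_smul, coeff_neg, coeff_neg, hkey m hm0]
    · rw [hF, hc1]
      have : ∀ q : K, M ((0 : ℤ) • n - q) q (a ((0 : ℤ) • n - q)) (a q) = 0 := by
        intro q
        by_contra hne
        have := (h2.supp _ _ _ _ hne).2.1
        simp at this
      simp only [this, tsum_zero]
      simp [sgr]
    · obtain ⟨m, hm⟩ : ∃ m : ℕ, l = (m : ℤ) := ⟨l.natAbs, by omega⟩
      rw [hm]
      exact hkey m (by omega)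
  · push Not at hk
    rw [hc2 k hk, hF]
    have : ∀ q : K, M (k - q) q (a (k - q)) (a q) = 0 := by
      intro q
      by_cases hq : ∃ m : ℤ, q = m • n
      · obtain ⟨m, rfl⟩ := hq
        have : a (k - m • n) = 0 := by
          apply hb2
          intro l hl
          apply hk (l + m)
          rw [add_smul, ← hl]
          abel
        rw [this, OS_zero_left h]
      · push Not at hq
        rw [hb2 q hq, OS_zero_right h]
    simp [this]

/-- TARGET -/
theorem op_series {δ κ : ℝ} {N : ℕ} {L : ℤ → ℤ → ℝ} {M : K → K → W → W → W} (h : IsSymbol δ M)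
    (h2 : Sy2 N M) {n : K} {e : V} (hn : n ≠ 0) (hL : LW L) (hv : ValL κ L M n e) {C : ℝ}
    {b : ℕ → ℝ} (h0 : b 0 = 0) (hb : ∀ l, |b l| ≤ C * (1 / 2) ^ l) (x : V) :
    op M (fun x => (∑' j : ℕ, 2 * b j * Real.sin (j * dot n x)) • e)
        (fun x => (∑' j : ℕ, 2 * b j * Real.sin (j * dot n x)) • e) x
      = (∑' l : ℕ, 2 * (κ * qt (fun l m => L l m) b l) * Real.sin (l * dot n x)) • e := by
  obtain ⟨hv1, hv2⟩ := sine_field (n := n) e hb
  have hC : 0 ≤ C := by
    have := hb 0
    have h2 := abs_nonneg (b 0)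
    simp only [pow_zero, mul_one] at this
    linarith
  have hgeo : Summable fun l : ℕ => ((1 : ℝ) / 2) ^ l := summable_geometric_of_lt_one (by norm_num) (by norm_num)
  have hgeo2 : Summable fun l : ℕ => ((l : ℝ) + 1) * ((1 : ℝ) / 2) ^ l := by
    have h1 : Summable fun l : ℕ => (l : ℝ) * ((1 : ℝ) / 2) ^ l := by
      have := summable_pow_mul_geometric_of_norm_lt_one (R := ℝ) 1 (r := 1 / 2) (by norm_num)
      simpa using this
    simpa [add_mul] using h1.add hgeo
  have hbs : Summable fun l : ℕ => |b l| :=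
    Summable.of_nonneg_of_le (fun _ => abs_nonneg _) hb (hgeo.mul_left C)
  set c : ℕ → ℝ := fun l => if l = 0 then 0 else κ * qt (fun l m => L l m) b l with hcdef
  have hq := (qt_props (L := fun l m : ℕ => L l m) (fun l m => hL.bdd l m) (T := 1) (C := C)
    (b := fun _ => b) (fun t _ l => hb l) (fun l => continuousOn_const)).1 0 (by norm_num)
  have hcb : ∀ l, |c l| ≤ |κ| * (C ^ 2 * ((l + 1) * (1 / 2) ^ l)) := by
    intro l
    by_cases hl : l = 0
    · simp only [hcdef, hl, if_true, abs_zero]; positivity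
    · simp only [hcdef, hl, if_false, abs_mul]
      exact mul_le_mul_of_nonneg_left (hq l) (abs_nonneg _)
  have hcs : Summable fun l : ℕ => |c l| :=
    Summable.of_nonneg_of_le (fun _ => abs_nonneg _) hcb ((hgeo2.mul_left (C ^ 2)).mul_left |κ|)
  set G : V → V := fun x => (∑' j : ℕ, 2 * c j * Real.sin (j * dot n x)) • e with hG
  have hGc : Continuous G := by
    have hdot : Continuous (fun x : V => dot n x) := (OS_dot_contDiff n).continuous
    have : Continuous fun x : V => ∑' j : ℕ, 2 * c j * Real.sin (j * dot n x) := by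
      refine continuous_tsum (u := fun j => 2 * |c j|) ?_ (hcs.mul_left 2) ?_
      · intro j
        fun_prop
      · intro j x
        rw [norm_mul, norm_mul, Real.norm_eq_abs, Real.norm_eq_abs, Real.norm_eq_abs]
        have h1 := Real.abs_sin_le_one (j * dot n x)
        have h2 := abs_nonneg (c j)
        rw [abs_of_pos (by norm_num : (0 : ℝ) < 2)]
        nlinarith
    exact this.smul continuous_const
  have hGp : Periodic3 G := OS_periodic e c
  set v : V → V := (fun x => (∑' j : ℕ, 2 * b j * Real.sin (j * dot n x)) • e) with hvdef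
  have hoc : Continuous (op M v v) := op_cont h h2 hv1 hv2 hv1 hv2
  have hop : Periodic3 (op M v v) := op_per h h2 hv1 hv2 hv1 hv2
  have hF : ∀ k, coeff (op M v v) k = ∑' q : K, M (k - q) q (coeff v (k - q)) (coeff v q) :=
    fun k => coeff_op h (sym_summable h h2 hv1 hv2 hv1 hv2) k
  have hcf : ∀ k, coeff (op M v v) k = coeff G k := by
    intro k
    refine OS_coeff h h2 hn hL hv h0 hbs (c := c) (by simp [hcdef]) hcs ?_ (op M v v) G hF hG k
    intro l hl
    simp only [hcdef]
    rw [if_neg (by omega)]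
  have hz := eq_zero_of_coeff (v := fun x i => op M v v x i - G x i) (by
      apply continuous_pi
      intro i
      exact ((continuous_apply i).comp hoc).sub ((continuous_apply i).comp hGc)) (by
      intro i x
      ext j
      have h1 := congrFun (hop i x) j
      have h2 := congrFun (hGp i x) j
      simp only [h1, h2]) (by
      intro k
      rw [coeff_sub hoc hGc, hcf k, sub_self]) x
  have hfin : op M v v x = G x := by
    ext i
    have := congrFun hz i
    simp only [Pi.zero_apply] at this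
    linarith
  rw [hfin]
  have hts : ∑' j : ℕ, 2 * c j * Real.sin (j * dot n x) =
      ∑' l : ℕ, 2 * (κ * qt (fun l m => L l m) b l) * Real.sin (l * dot n x) := by
    apply tsum_congr
    intro l
    by_cases hl : l = 0
    · simp [hl]
    · simp only [hcdef]
      rw [if_neg hl]
  simp only [hG, hts]

end H706T.JOS

namespace H706T

alias sine_field := JOS.sine_field
alias op_series := JOS.op_series

end H706T
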