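import Pool.Agent.Helper706_TE.Defs3

set_option autoImplicit false
open Set Filter Topology MeasureTheory
open scoped ComplexConjugate ContDiff

namespace H706T.JPZ

/-- the vector `n` as a real vector -/
noncomputable def nr (n : K) : V := fun i => (n i : ℝ)

/-- the linear form `x ↦ n·x` -/
noncomputable def dotL (n : K) : V →L[ℝ] ℝ :=
  ∑ i, (n i : ℝ) • ContinuousLinearMap.proj (R := ℝ) (φ := fun _ : Fin 3 => ℝ) i

theorem dotL_apply (n : K) (x : V) : dotL n x = dot n x := by
  simp [dotL, dot, Fin.sum_univ_three]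

theorem dot_nr (n : K) : dot n (nr n) = nq n := by
  simp only [dot, nr, nq]
  exact Finset.sum_congr rfl fun i _ => by ring

theorem nq_pos {n : K} (hn : n ≠ 0) : 0 < nq n := by
  obtain ⟨i, hi⟩ := Function.ne_iff.1 hn
  unfold nq
  refine Finset.sum_pos' (fun j _ => sq_nonneg _) ⟨i, Finset.mem_univ _, ?_⟩
  have h : (n i : ℝ) ≠ 0 := by exact_mod_cast hi
  positivity

theorem fderiv_of_inv {F : Type} [NormedAddCommGroup F] [NormedSpace ℝ F] {f : V → F} {x a : V}
    (hf : DifferentiableAt ℝ f x) (hinv : ∀ t : ℝ, f (x + t • a) = f x) : fderiv ℝ f x a = 0 := by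
  have h1 : HasLineDerivAt ℝ f (fderiv ℝ f x a) x a := hf.hasFDerivAt.hasLineDerivAt a
  have h2 : HasDerivAt (fun t : ℝ => f (x + t • a)) (fderiv ℝ f x a) 0 := h1
  have h3 : (fun t : ℝ => f (x + t • a)) = fun _ => f x := funext hinv
  rw [h3] at h2
  exact h2.unique (hasDerivAt_const _ _)

theorem fderiv_decomp {F : Type} [NormedAddCommGroup F] [NormedSpace ℝ F] {n : K} (hn : n ≠ 0)
    {f : V → F} {x : V} (h0 : ∀ a : V, dot n a = 0 → fderiv ℝ f x a = 0) (b : V) :
    fderiv ℝ f x b = (dot n b / nq n) • fderiv ℝ f x (nr n) := by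
  have hN := (nq_pos hn).ne'
  have h1 : dot n (b - (dot n b / nq n) • nr n) = 0 := by
    rw [← dotL_apply, map_sub, map_smul, dotL_apply, dotL_apply, dot_nr, smul_eq_mul,
      div_mul_cancel₀ _ hN, sub_self]
  have h2 := h0 _ h1
  rw [map_sub, map_smul, sub_eq_zero] at h2
  exact h2

theorem dot_smul (n : K) (t : ℝ) (a : V) : dot n (t • a) = t * dot n a := by
  rw [← dotL_apply, ← dotL_apply, map_smul, smul_eq_mul]

theorem dot_single (n : K) (i : Fin 3) : dot n (Pi.single i 1) = n i := by
  simp [dot, Pi.single_apply]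

theorem fderiv_perp {F : Type} [NormedAddCommGroup F] [NormedSpace ℝ F] {n : K}
    {f : V → F} (hf : Differentiable ℝ f) (hinv : ∀ a : V, dot n a = 0 → ∀ x, f (x + a) = f x)
    (x a : V) (ha : dot n a = 0) : fderiv ℝ f x a = 0 :=
  fderiv_of_inv (hf x) fun t => hinv _ (by rw [dot_smul, ha, mul_zero]) x

theorem sum_single_smul (L : V →L[ℝ] V) (w : V) (i : Fin 3) :
    ∑ j, w j * L (Pi.single j 1) i = L w i := by
  have h : w = ∑ j, w j • (Pi.single j (1 : ℝ) : V) := by
    ext k
    simp [Finset.sum_apply, Pi.single_apply]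
  conv_rhs => rw [h]
  rw [map_sum, Finset.sum_apply]
  exact Finset.sum_congr rfl fun j _ => by rw [map_smul, Pi.smul_apply, smul_eq_mul]

/-- TARGET -/
theorem shear_perp {n : K} (hn : n ≠ 0) {v : V → V} (hv : ContDiff ℝ 1 v)
    (hinv : ∀ a : V, dot n a = 0 → ∀ x, v (x + a) = v x) (hdiv : ∀ x, ∑ i, D v x i i = 0)
    (hodd : ∀ x, v (-x) = -v x) (x : V) : ∑ i, (n i : ℝ) * v x i = 0 := by
  have hd : Differentiable ℝ v := hv.differentiable (by norm_num)
  have hN := (nq_pos hn).ne'
  have hdec : ∀ x b : V, fderiv ℝ v x b = (dot n b / nq n) • fderiv ℝ v x (nr n) :=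
    fun x b => fderiv_decomp hn (fderiv_perp hd hinv x) b
  have hP : ∀ x, dot n (fderiv ℝ v x (nr n)) = 0 := by
    intro x
    have h1 := hdiv x
    have h2 : ∑ i, D v x i i = dot n (fderiv ℝ v x (nr n)) / nq n := by
      rw [dot, Finset.sum_div]
      refine Finset.sum_congr rfl fun i _ => ?_
      rw [D, hdec x (Pi.single i 1), dot_single, Pi.smul_apply, smul_eq_mul]
      ring
    rw [h2, div_eq_zero_iff] at h1
    exact h1.resolve_right hN
  have hs : Differentiable ℝ (fun y => dotL n (v y)) := (dotL n).differentiable.comp hd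
  have hs0 : ∀ y, fderiv ℝ (fun y => dotL n (v y)) y = 0 := by
    intro y
    have h1 : HasFDerivAt (fun y => dotL n (v y)) ((dotL n).comp (fderiv ℝ v y)) y :=
      (dotL n).hasFDerivAt.comp y (hd y).hasFDerivAt
    rw [h1.fderiv]
    ext b
    rw [ContinuousLinearMap.comp_apply, hdec y b, map_smul, dotL_apply, hP, smul_zero]
    rfl
  have hc := is_const_of_fderiv_eq_zero hs hs0 x 0
  have h0 : v 0 = 0 := by
    have h := hodd 0
    rw [neg_zero] at h
    have h2 : (2 : ℝ) • v 0 = 0 := by
      rw [two_smul]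
      nth_rewrite 1 [h]
      exact neg_add_cancel _
    exact (smul_eq_zero.1 h2).resolve_left (by norm_num)
  rw [h0, map_zero, dotL_apply] at hc
  exact hc

/-- TARGET -/
theorem shear_transport {n : K} {v : V → V} (hv : ContDiff ℝ 1 v)
    (hinv : ∀ a : V, dot n a = 0 → ∀ x, v (x + a) = v x)
    (hperp : ∀ x, ∑ i, (n i : ℝ) * v x i = 0) (x : V) (i : Fin 3) :
    ∑ j, v x j * D v x j i = 0 := by
  have hd : Differentiable ℝ v := hv.differentiable (by norm_num)
  have h1 := fderiv_perp hd hinv x (v x) (hperp x)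
  have h2 := sum_single_smul (fderiv ℝ v x) (v x) i
  rw [h1] at h2
  exact h2

/-- a continuous function with the periods `2π` is bounded -/
theorem bdd_of_periodic {q : V → ℝ} (hq : Continuous q) (pq : Periodic3 q) :
    ∃ C : ℝ, ∀ x, |q x| ≤ C := by
  have hpi : (0 : ℝ) < 2 * Real.pi := by positivity
  obtain ⟨C, hC⟩ := (isCompact_Icc (a := (fun _ => 0 : V))
    (b := (fun _ => 2 * Real.pi : V))).exists_bound_of_continuousOn hq.continuousOn
  refine ⟨C, fun x => ?_⟩
  have hper : ∀ i : Fin 3, Function.Periodic q (Pi.single i (2 * Real.pi)) := fun i y => pq i y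
  set y : V := fun i => 2 * Real.pi * Int.fract (x i / (2 * Real.pi)) with hy
  have hyq : q x = q y := by
    have h1 : x = y + (⌊x 0 / (2 * Real.pi)⌋ • (Pi.single 0 (2 * Real.pi) : V)
        + (⌊x 1 / (2 * Real.pi)⌋ • (Pi.single 1 (2 * Real.pi) : V)
        + ⌊x 2 / (2 * Real.pi)⌋ • (Pi.single 2 (2 * Real.pi) : V))) := by
      have key : ∀ i : Fin 3, x i = 2 * Real.pi * Int.fract (x i / (2 * Real.pi))
          + ⌊x i / (2 * Real.pi)⌋ * (2 * Real.pi) := by
        intro i
        have h := Int.fract_add_floor (x i / (2 * Real.pi))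
        have h2 : x i = (x i / (2 * Real.pi)) * (2 * Real.pi) := by
          field_simp
        conv_lhs => rw [h2, ← h]
        ring
      ext i
      rw [hy]
      fin_cases i
      · have := key 0
        simp at this ⊢
        linarith
      · have := key 1
        simp at this ⊢
        linarith
      · have := key 2
        simp at this ⊢
        linarith
    conv_lhs => rw [h1]
    rw [← add_assoc, ← add_assoc]
    rw [((hper 2).zsmul _) _, ((hper 1).zsmul _) _, ((hper 0).zsmul _) _]
  rw [hyq, ← Real.norm_eq_abs]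
  apply hC
  constructor
  · intro i
    exact mul_nonneg hpi.le (Int.fract_nonneg _)
  · intro i
    calc 2 * Real.pi * Int.fract (x i / (2 * Real.pi)) ≤ 2 * Real.pi * 1 :=
          mul_le_mul_of_nonneg_left (Int.fract_lt_one _).le hpi.le
      _ = 2 * Real.pi := mul_one _

theorem clm_ext_single {L : V →L[ℝ] ℝ} (h : ∀ i, L (Pi.single i 1) = 0) : L = 0 := by
  ext w
  have hw : w = ∑ j, w j • (Pi.single j (1 : ℝ) : V) := by
    ext k
    simp [Finset.sum_apply, Pi.single_apply]
  rw [hw, map_sum]
  simp only [map_smul, h, smul_zero, Finset.sum_const_zero, zero_apply]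

/-- TARGET -/
theorem pressure_zero {n : K} (hn : n ≠ 0) {g : V → V} {q : V → ℝ} (hq : ContDiff ℝ 1 q)
    (pq : Periodic3 q) (hg : ∀ x i, fderiv ℝ q x (Pi.single i 1) = g x i)
    (hperp : ∀ x, ∑ i, (n i : ℝ) * g x i = 0)
    (hinv : ∀ a : V, dot n a = 0 → ∀ x, g (x + a) = g x) (x : V) : g x = 0 := by
  have hd : Differentiable ℝ q := hq.differentiable (by norm_num)
  obtain ⟨C, hC⟩ := bdd_of_periodic hq.continuous pq
  have hqinv : ∀ a : V, dot n a = 0 → ∀ x, q (x + a) = q x := by
    intro a ha
    have hda : Differentiable ℝ (fun y => q (y + a)) :=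
      hd.comp (differentiable_id.add_const a)
    have hcd : Differentiable ℝ (fun y => q (y + a) - q y) := hda.sub hd
    have hc0 : ∀ y, fderiv ℝ (fun y => q (y + a) - q y) y = 0 := by
      intro y
      have h1 : HasFDerivAt (fun y => q (y + a)) (fderiv ℝ q (y + a)) y := by
        have h := (hd (y + a)).hasFDerivAt.comp y ((hasFDerivAt_id y).add_const a)
        rw [ContinuousLinearMap.comp_id] at h
        exact h
      have h2 : HasFDerivAt (fun y => q (y + a) - q y) (fderiv ℝ q (y + a) - fderiv ℝ q y) y :=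
        h1.sub (hd y).hasFDerivAt
      rw [h2.fderiv]
      apply clm_ext_single
      intro i
      rw [sub_apply, hg, hg, hinv a ha y, sub_self]
    have hconst : ∀ y, q (y + a) - q y = q (0 + a) - q 0 := fun y =>
      is_const_of_fderiv_eq_zero hcd hc0 y 0
    set c := q (0 + a) - q 0 with hcdef
    have hm : ∀ (m : ℕ) (y : V), q (y + (m : ℝ) • a) = q y + m * c := by
      intro m
      induction m with
      | zero => intro y; simp
      | succ m ih =>
        intro y
        have h1 := hconst (y + (m : ℝ) • a)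
        have h2 : y + ((m + 1 : ℕ) : ℝ) • a = y + (m : ℝ) • a + a := by
          push_cast
          rw [add_smul, one_smul, add_assoc]
        rw [h2]
        have h3 := ih y
        push_cast
        linarith
    have hc : c = 0 := by
      by_contra hne
      have hpos : 0 < |c| := abs_pos.2 hne
      obtain ⟨m, hm2⟩ := exists_nat_gt (2 * C / |c|)
      have h1 := hm m 0
      have h2 : (m : ℝ) * c = q (0 + (m : ℝ) • a) - q 0 := by linarith
      have h3 : |(m : ℝ) * c| ≤ 2 * C := by
        rw [h2]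
        calc |q (0 + (m : ℝ) • a) - q 0| ≤ |q (0 + (m : ℝ) • a)| + |q 0| := abs_sub _ _
          _ ≤ C + C := add_le_add (hC _) (hC _)
          _ = 2 * C := by ring
      rw [abs_mul, Nat.abs_cast] at h3
      rw [div_lt_iff₀ hpos] at hm2
      linarith
    intro y
    have := hconst y
    rw [hc] at this
    linarith
  have hdec : fderiv ℝ q x (nr n) = 0 := by
    have hw : nr n = ∑ j, (n j : ℝ) • (Pi.single j (1 : ℝ) : V) := by
      ext k
      simp [nr, Finset.sum_apply, Pi.single_apply]
    rw [hw, map_sum]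
    simp only [map_smul, hg, smul_eq_mul]
    exact hperp x
  ext i
  rw [← hg x i, fderiv_decomp hn (fderiv_perp hd hqinv x) (Pi.single i 1), hdec, smul_zero]
  rfl

end H706T.JPZ

namespace H706T

alias shear_perp := JPZ.shear_perp
alias shear_transport := JPZ.shear_transport
alias pressure_zero := JPZ.pressure_zero

end H706T
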