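import Pool.Agent.Helper706_TE.Defs3

set_option autoImplicit false
open Set Filter Topology MeasureTheory
open scoped ComplexConjugate ContDiff

namespace H706T.JRF

theorem rf_reflW_apply (f : V) (a : W) (i : Fin 3) :
    reflW f a i = a i - ∑ j, ((2 * f i * f j : ℝ) : ℂ) * a j := by
  have h1 : reflW f a i = a i - (2 * dt (vW f) a) * (f i : ℂ) := rfl
  rw [h1]
  congr 1
  unfold dt
  rw [Finset.mul_sum, Finset.sum_mul]
  refine Finset.sum_congr rfl fun j _ => ?_
  have h2 : vW f j = (f j : ℂ) := rfl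
  rw [h2]
  push_cast
  ring

theorem rf_refl_apply (f a : V) (i : Fin 3) :
    refl f a i = a i - ∑ j, (2 * f i * f j) * a j := by
  unfold refl
  congr 1
  rw [Finset.mul_sum, Finset.sum_mul]
  refine Finset.sum_congr rfl fun j _ => ?_
  ring

theorem rf_reflW_zero (f : V) : reflW f 0 = 0 := by
  ext i
  rw [rf_reflW_apply]
  simp

theorem rf_coeff {v : V → V} (hv : Continuous v) (f : V) (k : K) :
    coeff (fun y => refl f (v y)) k = reflW f (coeff v k) := by
  have hcomp : IsCompact torus := isCompact_Icc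
  have hint : ∀ j : Fin 3, IntegrableOn
      (fun x => (v x j : ℂ) * Complex.exp (-Complex.I * (dot k x : ℂ))) torus := by
    intro j
    refine ContinuousOn.integrableOn_compact hcomp (Continuous.continuousOn ?_)
    have h1 : Continuous fun x : V => dot k x := by
      unfold dot
      fun_prop
    fun_prop
  ext i
  rw [rf_reflW_apply]
  have h1 : ∀ j, coeff v k j =
      (∫ x in torus, (v x j : ℂ) * Complex.exp (-Complex.I * (dot k x : ℂ))) /
        (2 * Real.pi) ^ 3 := fun j => rfl
  have h2 : coeff (fun y => refl f (v y)) k i =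
      (∫ x in torus, (refl f (v x) i : ℂ) * Complex.exp (-Complex.I * (dot k x : ℂ))) /
        (2 * Real.pi) ^ 3 := rfl
  rw [h2]
  simp only [h1]
  have h3 : (∫ x in torus, (refl f (v x) i : ℂ) * Complex.exp (-Complex.I * (dot k x : ℂ))) =
      (∫ x in torus, (v x i : ℂ) * Complex.exp (-Complex.I * (dot k x : ℂ))) -
      ∑ j, ((2 * f i * f j : ℝ) : ℂ) *
        (∫ x in torus, (v x j : ℂ) * Complex.exp (-Complex.I * (dot k x : ℂ))) := by
    have h4 : ∀ x, (refl f (v x) i : ℂ) * Complex.exp (-Complex.I * (dot k x : ℂ)) =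
        (v x i : ℂ) * Complex.exp (-Complex.I * (dot k x : ℂ)) -
          ∑ j, ((2 * f i * f j : ℝ) : ℂ) *
            ((v x j : ℂ) * Complex.exp (-Complex.I * (dot k x : ℂ))) := by
      intro x
      rw [rf_refl_apply]
      push_cast
      rw [sub_mul, Finset.sum_mul]
      congr 1
      refine Finset.sum_congr rfl fun j _ => ?_
      ring
    simp only [h4]
    rw [integral_sub (hint i) (integrable_finsetSum _ fun j _ => (hint j).const_mul _),
      integral_finsetSum _ fun j _ => (hint j).const_mul _]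
    congr 1
    refine Finset.sum_congr rfl fun j _ => ?_
    exact integral_const_mul _ _
  rw [h3, sub_div, Finset.sum_div]
  congr 1
  refine Finset.sum_congr rfl fun j _ => ?_
  rw [mul_div_assoc]

/-- TARGET -/
theorem op_refl {δ : ℝ} {M : K → K → W → W → W} (h : IsSymbol δ M) {n : K} {f : V}
    (hr : ∀ (l m : ℤ) (a b : W), M (l • n) (m • n) (reflW f a) (reflW f b)
      = reflW f (M (l • n) (m • n) a b)) {v : V → V} (hv : Continuous v)
    (hs : ∀ k : K, (∀ l : ℤ, k ≠ l • n) → coeff v k = 0)
    (hsum : Summable fun z : K × K => ‖M z.1 z.2 (coeff v z.1) (coeff v z.2)‖) (x : V) :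
    op M (fun y => refl f (v y)) (fun y => refl f (v y)) x = refl f (op M v v x) := by
  have hM0 : ∀ p q b, M p q 0 b = 0 := by
    intro p q b
    have h1 := h.lin₁ p q 1 0 0 b
    rw [one_smul, one_smul, add_zero] at h1
    exact left_eq_add.1 h1
  have hM0' : ∀ p q a, M p q a 0 = 0 := by
    intro p q a
    have h1 := h.lin₂ p q 1 a 0 0
    rw [one_smul, one_smul, add_zero] at h1
    exact left_eq_add.1 h1
  have hterm : ∀ z : K × K, M z.1 z.2 (coeff (fun y => refl f (v y)) z.1)
      (coeff (fun y => refl f (v y)) z.2) = reflW f (M z.1 z.2 (coeff v z.1) (coeff v z.2)) := by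
    rintro ⟨p, q⟩
    show M p q (coeff (fun y => refl f (v y)) p)
      (coeff (fun y => refl f (v y)) q) = reflW f (M p q (coeff v p) (coeff v q))
    rw [rf_coeff hv, rf_coeff hv]
    by_cases hp : ∃ l : ℤ, p = l • n
    · by_cases hq : ∃ m : ℤ, q = m • n
      · obtain ⟨l, rfl⟩ := hp
        obtain ⟨m, rfl⟩ := hq
        exact hr l m _ _
      · push Not at hq
        rw [hs q hq, rf_reflW_zero, hM0', hM0', rf_reflW_zero]
    · push Not at hp
      rw [hs p hp, rf_reflW_zero, hM0, hM0, rf_reflW_zero]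
  have hS : ∀ j : Fin 3, Summable (fun z : K × K => M z.1 z.2 (coeff v z.1) (coeff v z.2) j
      * Complex.exp (Complex.I * (dot (z.1 + z.2) x : ℂ))) := by
    intro j
    refine Summable.of_norm_bounded hsum fun z => ?_
    rw [norm_mul, mul_comm Complex.I, Complex.norm_exp_ofReal_mul_I, mul_one]
    exact PiLp.norm_apply_le _ j
  funext i
  rw [rf_refl_apply]
  unfold op
  have h1 : ∀ z : K × K, M z.1 z.2 (coeff (fun y => refl f (v y)) z.1)
      (coeff (fun y => refl f (v y)) z.2) i
      * Complex.exp (Complex.I * (dot (z.1 + z.2) x : ℂ)) =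
      M z.1 z.2 (coeff v z.1) (coeff v z.2) i
      * Complex.exp (Complex.I * (dot (z.1 + z.2) x : ℂ)) -
      ∑ j, ((2 * f i * f j : ℝ) : ℂ) * (M z.1 z.2 (coeff v z.1) (coeff v z.2) j
      * Complex.exp (Complex.I * (dot (z.1 + z.2) x : ℂ))) := by
    intro z
    rw [hterm, rf_reflW_apply, sub_mul, Finset.sum_mul]
    congr 1
    refine Finset.sum_congr rfl fun j _ => ?_
    ring
  simp only [h1]
  have h2 := ((hS i).hasSum.sub (hasSum_sum fun j (_ : j ∈ Finset.univ) =>
    (hS j).hasSum.mul_left ((2 * f i * f j : ℝ) : ℂ))).tsum_eq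
  rw [h2, Complex.sub_re, Complex.re_sum]
  congr 1
  refine Finset.sum_congr rfl fun j _ => ?_
  rw [Complex.re_ofReal_mul]

end H706T.JRF

namespace H706T

alias op_refl := JRF.op_refl

end H706T
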