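import Pool.Agent.Helper706_TE.Defs3
import Pool.Agent.Helper706_TE.IV
import Pool.Agent.Helper706_TE.IW

set_option autoImplicit false
open Set Filter Topology MeasureTheory
open scoped ComplexConjugate ContDiff

namespace H706T.JST

namespace STaux

theorem cont_slice {T : ℝ} {F : Type*} [NormedAddCommGroup F] [NormedSpace ℝ F] {u : ℝ → V → F}
    (h : ContDiffOn ℝ 1 (fun z : ℝ × V => u z.1 z.2) (Ico 0 T ×ˢ univ)) {t : ℝ}
    (ht : t ∈ Ico 0 T) : Continuous (u t) := by
  rw [← continuousOn_univ]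
  have h1 : ContinuousOn (fun x : V => ((t, x) : ℝ × V)) univ :=
    (continuous_const.prodMk continuous_id).continuousOn
  exact h.continuousOn.comp h1 (fun x _ => ⟨ht, mem_univ _⟩)

theorem D_translate (v : V → V) (a x : V) (j i : Fin 3) :
    D (fun y => v (y + a)) x j i = D v (x + a) j i := by
  unfold D
  rw [fderiv_comp_add_right]

theorem fderiv_comp_neg' {F : Type*} [NormedAddCommGroup F] [NormedSpace ℝ F] (f : V → F) (x : V) :
    fderiv ℝ (fun y : V => f (-y)) x = -fderiv ℝ f (-x) := by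
  have h := (ContinuousLinearEquiv.neg ℝ : V ≃L[ℝ] V).comp_right_fderiv (f := f) (x := x)
  have e : (f ∘ (ContinuousLinearEquiv.neg ℝ : V ≃L[ℝ] V)) = fun y : V => f (-y) := rfl
  rw [e] at h
  rw [h]
  ext y
  simp

theorem D_parity (v : V → V) (x : V) (j i : Fin 3) :
    D (fun y => -v (-y)) x j i = D v (-x) j i := by
  unfold D
  have h1 : fderiv ℝ (fun y : V => -v (-y)) x = fderiv ℝ v (-x) := by
    have e : (fun y : V => -v (-y)) = -(fun y : V => v (-y)) := rfl
    rw [e, fderiv_neg, fderiv_comp_neg', neg_neg]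
  rw [h1]

end STaux

open STaux

/-- TARGET -/
theorem sol_translate {δ T : ℝ} {M : K → K → W → W → W} (h : IsSymbol δ M) {w : ℝ → V → V}
    {q : ℝ → V → ℝ} (hw : IsSolution M T w q) (a : V) :
    IsSolution M T (fun t x => w t (x + a)) (fun t x => q t (x + a)) := by
  have hcd : ContDiff ℝ 1 (fun z : ℝ × V => ((z.1, z.2 + a) : ℝ × V)) :=
    contDiff_fst.prodMk (contDiff_snd.add contDiff_const)
  have hmt : MapsTo (fun z : ℝ × V => ((z.1, z.2 + a) : ℝ × V)) (Ico 0 T ×ˢ univ)
      (Ico 0 T ×ˢ univ) := fun z hz => ⟨hz.1, mem_univ _⟩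
  refine ⟨?_, ?_, ?_, ?_, ?_, ?_⟩
  · exact hw.contDiffOn_u.comp hcd.contDiffOn hmt
  · exact hw.contDiffOn_p.comp hcd.contDiffOn hmt
  · intro t ht i x
    show w t (x + Pi.single i (2 * Real.pi) + a) = w t (x + a)
    rw [add_right_comm]
    exact hw.periodic_u t ht i (x + a)
  · intro t ht i x
    show q t (x + Pi.single i (2 * Real.pi) + a) = q t (x + a)
    rw [add_right_comm]
    exact hw.periodic_p t ht i (x + a)
  · intro t ht x
    simp only [D_translate]
    exact hw.div_free t ht (x + a)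
  · intro t ht x i
    have hc := cont_slice hw.contDiffOn_u ht
    have e1 := op_translate h hc (hw.periodic_u t ht) hc (hw.periodic_u t ht) a x
    rw [e1]
    simp only [D_translate]
    rw [show fderiv ℝ (fun y : V => q t (y + a)) x = fderiv ℝ (q t) (x + a) from
      fderiv_comp_add_right a]
    exact hw.momentum t ht (x + a) i

/-- TARGET -/
theorem sol_parity {T : ℝ} {N : ℕ} {M : K → K → W → W → W} (h2 : Sy2 N M) {w : ℝ → V → V}
    {q : ℝ → V → ℝ} (hw : IsSolution M T w q) :
    IsSolution M T (fun t x => -w t (-x)) (fun t x => q t (-x)) := by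
  have hcd : ContDiff ℝ 1 (fun z : ℝ × V => ((z.1, -z.2) : ℝ × V)) :=
    contDiff_fst.prodMk contDiff_snd.neg
  have hmt : MapsTo (fun z : ℝ × V => ((z.1, -z.2) : ℝ × V)) (Ico 0 T ×ˢ univ)
      (Ico 0 T ×ˢ univ) := fun z hz => ⟨hz.1, mem_univ _⟩
  have hper : ∀ {F : Type} (f : V → F), Periodic3 f → ∀ (i : Fin 3) (x : V),
      f (-(x + Pi.single i (2 * Real.pi))) = f (-x) := by
    intro F f hf i x
    have := hf i (-(x + Pi.single i (2 * Real.pi)))
    rw [← this]
    congr 1
    abel
  have hact : ∀ y : V, actV 1 (fun _ => -1) y = -y := by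
    intro y
    funext i
    simp [actV]
  refine ⟨?_, ?_, ?_, ?_, ?_, ?_⟩
  · exact (hw.contDiffOn_u.comp hcd.contDiffOn hmt).neg
  · exact hw.contDiffOn_p.comp hcd.contDiffOn hmt
  · intro t ht i x
    show -w t (-(x + Pi.single i (2 * Real.pi))) = -w t (-x)
    rw [hper _ (hw.periodic_u t ht)]
  · intro t ht i x
    exact hper _ (hw.periodic_p t ht) i x
  · intro t ht x
    simp only [D_parity]
    exact hw.div_free t ht (-x)
  · intro t ht x i
    have hc := cont_slice hw.contDiffOn_u ht
    have e1 := op_act h2 hc hc 1 (fun _ => -1) (v' := fun y => -w t (-y))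
      (w' := fun y => -w t (-y)) (by intro y; rw [hact, hact, neg_neg])
      (by intro y; rw [hact, hact, neg_neg]) (-x)
    rw [hact, hact, neg_neg] at e1
    rw [e1]
    simp only [D_parity]
    have e2 : fderiv ℝ (fun y : V => q t (-y)) x = -fderiv ℝ (q t) (-x) :=
      fderiv_comp_neg' (q t) x
    rw [e2]
    have e3 : derivWithin (fun s => (-w s (-x)) i) (Ico 0 T) t =
        -derivWithin (fun s => w s (-x) i) (Ico 0 T) t := by
      have : (fun s => (-w s (-x)) i) = -(fun s => w s (-x) i) := rfl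
      rw [this, derivWithin.neg]
    rw [e3]
    have hm := hw.momentum t ht (-x) i
    rw [_root_.neg_apply, Pi.neg_apply, ← hm]
    simp only [Pi.neg_apply, neg_mul, Finset.sum_neg_distrib]
    ring

end H706T.JST

namespace H706T

alias sol_translate := JST.sol_translate
alias sol_parity := JST.sol_parity

end H706T
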