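import Pool.Agent.Helper706_TE.Sy4
import Pool.Agent.Helper706_TE.Defs3

/-!
The symbols on the multiples of one frequency and the reflection in a plane.
-/

set_option autoImplicit false

open Set Filter Topology MeasureTheory
open scoped ComplexConjugate ContDiff

namespace H706Y

open H706N H706N.JHV2
open H706T (K reflW sgr)

theorem pf_norm {k : E} (h : pe k ≠ 0) : ‖pf k‖ = 1 := by
  have hk : k ≠ 0 := by
    rintro rfl
    apply h
    have := pe_smul 0 (0 : E)
    rw [zero_smul] at this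
    rw [this]; norm_num
  have hk' : 0 < ‖k‖ := norm_pos_iff.2 hk
  have h1 : ‖cr k (po k)‖ ^ 2 = ‖k‖ ^ 2 * 1 := by
    rw [hv2_norm_sq, hv2_cr0, hv2_cr1, hv2_cr2]
    have h2 := hv2_norm_sq (po k)
    rw [po_norm h] at h2
    have h3 := k_po k
    rw [hv2_norm_sq k]
    have h4 : po k 0 ^ 2 + po k 1 ^ 2 + po k 2 ^ 2 = 1 := by linarith
    linear_combination (k 0 ^ 2 + k 1 ^ 2 + k 2 ^ 2) * h4 - (k 0 * po k 0 + k 1 * po k 1 + k 2 * po k 2) * h3
  unfold pf
  rw [norm_smul, norm_inv, norm_norm]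
  have h5 : ‖cr k (po k)‖ = ‖k‖ := by
    have h6 : ‖cr k (po k)‖ ^ 2 = ‖k‖ ^ 2 := by rw [h1, mul_one]
    exact (pow_left_inj₀ (norm_nonneg _) (norm_nonneg _) two_ne_zero).1 h6
  rw [h5, inv_mul_cancel₀ hk'.ne']

theorem k_pf (k : E) : k 0 * pf k 0 + k 1 * pf k 1 + k 2 * pf k 2 = 0 := by
  unfold pf
  simp only [PiLp.smul_apply, smul_eq_mul]
  rw [hv2_cr0, hv2_cr1, hv2_cr2]
  ring

theorem po_pf_real (k : E) : po k 0 * pf k 0 + po k 1 * pf k 1 + po k 2 * pf k 2 = 0 := by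
  unfold pf
  simp only [PiLp.smul_apply, smul_eq_mul]
  rw [hv2_cr0, hv2_cr1, hv2_cr2]
  ring

/-- `pf k` as a real vector. -/
noncomputable def pfV (k : E) : H706T.V := fun i => pf k i

theorem vW_pfV (k : E) : H706T.vW (pfV k) = toW (pf k) := rfl

theorem reflW_def (k : E) (a : W) :
    reflW (pfV k) a = a - (2 * dt (toW (pf k)) a) • toW (pf k) := rfl

theorem dt_pf_pf {k : E} (h : pe k ≠ 0) : dt (toW (pf k)) (toW (pf k)) = 1 := by
  have h2 := hv2_norm_sq (pf k)
  rw [pf_norm h] at h2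
  unfold dt
  rw [Fin.sum_univ_three, hv2_toW, hv2_toW, hv2_toW]
  have h3 : pf k 0 * pf k 0 + pf k 1 * pf k 1 + pf k 2 * pf k 2 = 1 := by nlinarith
  rw [← Complex.ofReal_mul, ← Complex.ofReal_mul,
    ← Complex.ofReal_mul, ← Complex.ofReal_add, ← Complex.ofReal_add, h3, Complex.ofReal_one]

theorem sg_not' (s : Bool) : sg (!s) = -sg s := by cases s <;> simp [sg]

theorem reflW_add (f : H706T.V) (a b : W) : reflW f (a + b) = reflW f a + reflW f b := by
  unfold reflW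
  have h : H706T.dt (H706T.vW f) (a + b) = H706T.dt (H706T.vW f) a + H706T.dt (H706T.vW f) b :=
    dt_add _ _ _
  rw [h]
  module

theorem reflW_smul (f : H706T.V) (c : ℂ) (a : W) : reflW f (c • a) = c • reflW f a := by
  unfold reflW
  have h : H706T.dt (H706T.vW f) (c • a) = c * H706T.dt (H706T.vW f) a := dt_smul _ _ _
  rw [h]
  module

theorem reflW_cj (k : E) (a : W) : reflW (pfV k) (cj a) = cj (reflW (pfV k) a) := by
  rw [reflW_def, reflW_def]
  have h1 : dt (toW (pf k)) (cj a) = conj (dt (toW (pf k)) a) := by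
    rw [← dt_cj, cj_toW]
  rw [h1]
  ext j
  simp only [PiLp.sub_apply, PiLp.smul_apply, smul_eq_mul, hv2_cj, map_sub, map_mul, map_ofNat]
  have h2 : conj (toW (pf k) j) = toW (pf k) j := by
    rw [hv2_toW, Complex.conj_ofReal]
  rw [h2]

theorem reflW_pw (s : Bool) {k : E} (h : pe k ≠ 0) : reflW (pfV k) (pw s k) = pw (!s) k := by
  rw [reflW_def]
  have h1 : dt (toW (pf k)) (pw s k) = (sg s : ℂ) := by
    unfold pw
    rw [dt_add, dt_smul, dt_smul, dt_pf_pf h, dt_comm, po_pf, mul_zero, zero_add, mul_one]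
  rw [h1]
  unfold pw
  rw [sg_not', Complex.ofReal_neg]
  module

theorem pw_line (s : Bool) (k : E) {l : ℤ} (hl : l ≠ 0) :
    pw s ((l : ℝ) • k) = if 0 < l then pw s k else cj (pw s k) := by
  rcases lt_or_gt_of_ne hl with h | h
  · rw [if_neg (by omega)]
    have h1 : (0 : ℝ) < -(l : ℝ) := by
      have : (l : ℝ) < 0 := by exact_mod_cast h
      linarith
    have h2 : (l : ℝ) • k = -((-(l : ℝ)) • k) := by rw [neg_smul, neg_neg]
    rw [h2, pw_neg]
    congr 1
    unfold pw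
    rw [po_smul h1, pf_smul h1]
  · rw [if_pos h]
    have h1 : (0 : ℝ) < (l : ℝ) := by exact_mod_cast h
    unfold pw
    rw [po_smul h1, pf_smul h1]

theorem reflW_pw_line (s : Bool) {k : E} (h : pe k ≠ 0) {l : ℤ} (hl : l ≠ 0) :
    reflW (pfV k) (pw s ((l : ℝ) • k)) = pw (!s) ((l : ℝ) • k) := by
  rw [pw_line s k hl, pw_line (!s) k hl]
  split_ifs
  · exact reflW_pw s h
  · rw [reflW_cj, reflW_pw s h]

theorem dt_refl (k : E) (a b : W) :
    dt a (reflW (pfV k) b) = dt (reflW (pfV k) a) b := by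
  have key : ∀ a b : W, dt a (reflW (pfV k) b)
      = dt a b - (2 * dt (toW (pf k)) b) * dt (toW (pf k)) a := by
    intro a b
    rw [reflW_def, sub_eq_add_neg, ← neg_smul, dt_add, dt_smul, dt_comm a (toW (pf k))]
    ring
  rw [key, dt_comm (reflW (pfV k) a) b, key, dt_comm b a]
  ring

theorem sy_refl (P : ℝ → ℝ → ℝ → ℝ) (κ N : ℝ) {k : E} (hk : pe k ≠ 0) (l m : ℤ) (a b : W) :
    sy P κ N ((l : ℝ) • k) ((m : ℝ) • k) (reflW (pfV k) a) (reflW (pfV k) b)
      = reflW (pfV k) (sy P κ N ((l : ℝ) • k) ((m : ℝ) • k) a b) := by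
  have e : (l : ℝ) • k + (m : ℝ) • k = ((l + m : ℤ) : ℝ) • k := by
    rw [← add_smul]; push_cast; rfl
  have hz : pe ((0 : ℝ) • k) = 0 := by rw [pe_smul]; norm_num
  by_cases hw : wt N ((l : ℝ) • k) ((m : ℝ) • k) = 0
  · have h0 : ∀ a b, sy P κ N ((l : ℝ) • k) ((m : ℝ) • k) a b = 0 := by
      intro a b
      by_contra h
      exact sy_supp P κ N _ _ a b h hw
    rw [h0, h0]
    unfold reflW
    have : H706T.dt (H706T.vW (pfV k)) (0 : W) = 0 := by
      unfold H706T.dt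
      simp
    rw [this, mul_zero, zero_smul, sub_zero]
  · obtain ⟨-, ⟨h2, h3, h4⟩, -⟩ := wt_supp hw
    have hl : l ≠ 0 := by rintro rfl; apply h2; rw [Int.cast_zero, hz]
    have hm : m ≠ 0 := by rintro rfl; apply h3; rw [Int.cast_zero, hz]
    have hlm : l + m ≠ 0 := by
      intro h5; apply h4; rw [e, h5, Int.cast_zero, hz]
    have k' : ∀ s₁ s₂ s₃ : Bool, PS P (!s₁) (!s₂) (!s₃) ‖(l : ℝ) • k‖ ‖(m : ℝ) • k‖
          ‖((l + m : ℤ) : ℝ) • k‖
        = PS P s₁ s₂ s₃ ‖(l : ℝ) • k‖ ‖(m : ℝ) • k‖ ‖((l + m : ℤ) : ℝ) • k‖ :=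
      fun s₁ s₂ s₃ => H706N.PS_not P s₁ s₂ s₃ _ _ _
    have k1 := k' true true true
    have k2 := k' true true false
    have k3 := k' true false true
    have k4 := k' true false false
    simp only [Bool.not_true, Bool.not_false] at k1 k2 k3 k4
    unfold sy
    simp only [Fintype.sum_bool, e, reflW_add, reflW_smul, reflW_cj, dt_refl,
      reflW_pw_line _ hk hl, reflW_pw_line _ hk hm, reflW_pw_line _ hk hlm, Bool.not_true,
      Bool.not_false]
    rw [k1, k2, k3, k4]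
    abel

end H706Y

namespace H706T

open H706Y in
/-- Existence of the symbols. -/
theorem exists_symbol' {δ : ℝ} (hδ : 0 < δ) (N : ℕ) :
    ∃ M : K → K → W → W → W, IsSymbol δ M ∧ Sy2 N M ∧
      ∀ n : K, Gen n → (N : ℝ) ^ 2 ≤ nq n →
        ∃ e f : V, ∑ i, e i ^ 2 = 1 ∧ ∑ i, (n i : ℝ) * e i = 0 ∧ Val (δ / 256) M n e ∧
          ∑ i, f i ^ 2 = 1 ∧ ∑ i, (n i : ℝ) * f i = 0 ∧ ∑ i, e i * f i = 0 ∧
          ∀ (l m : ℤ) (a b : W), M (l • n) (m • n) (reflW f a) (reflW f b)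
            = reflW f (M (l • n) (m • n) a b) := by
  have hκ : 0 ≤ δ / 256 := by positivity
  refine ⟨fun p q a b => sy P0 (δ / 256) N (kE p) (kE q) a b, ⟨?_, ?_, ?_, ?_, ?_⟩,
    ⟨?_, ?_, ?_, ?_⟩, ?_⟩
  · intro p q c a a' b
    exact sy_lin₁ _ _ _ _ _ _ _ _ _
  · intro p q c a b b'
    exact sy_lin₂ _ _ _ _ _ _ _ _ _
  · intro p q a b
    refine (sy_bdd hκ _ _ _ _ _).trans (le_of_eq ?_)
    ring
  · intro p q a b
    simp only [kE_neg]
    exact sy_herm _ _ _ _ _ _ _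
  · intro p q a b
    have h := sy_divf P0 (δ / 256) N (kE p) (kE q) a b
    rw [← kE_add] at h
    unfold H706N.kd at h
    rw [← h]
    refine Finset.sum_congr rfl fun j _ => ?_
    rw [kE_apply]
    push_cast
    rfl
  · intro p q a b h
    obtain ⟨h1, ⟨h2, h3, h4⟩, h5, h6, h7⟩ := wt_supp (sy_supp _ _ _ _ _ _ _ h)
    have hp : p ≠ 0 := by rintro rfl; exact h2 pe_kE_zero
    have hq : q ≠ 0 := by rintro rfl; exact h3 pe_kE_zero
    rw [← kE_add] at h4 h7
    have hpq : p + q ≠ 0 := by intro h8; rw [h8] at h4; exact h4 pe_kE_zero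
    have hN : (0 : ℝ) ≤ N := Nat.cast_nonneg N
    refine ⟨⟨?_, hp, hq⟩, hpq, ?_, ?_, ?_⟩
    · have e0 : (p 1 : ℝ) * q 2 - p 2 * q 1 = 0 := by
        have := congrArg (fun x : H706N.E => x 0) h1
        exact this
      have e1 : (p 2 : ℝ) * q 0 - p 0 * q 2 = 0 := by
        have := congrArg (fun x : H706N.E => x 1) h1
        exact this
      have e2 : (p 0 : ℝ) * q 1 - p 1 * q 0 = 0 := by
        have := congrArg (fun x : H706N.E => x 2) h1
        exact this
      have f0 : p 1 * q 2 - p 2 * q 1 = 0 := by exact_mod_cast e0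
      have f1 : p 2 * q 0 - p 0 * q 2 = 0 := by exact_mod_cast e1
      have f2 : p 0 * q 1 - p 1 * q 0 = 0 := by exact_mod_cast e2
      intro i j
      fin_cases i <;> fin_cases j <;> simp only [Fin.zero_eta, Fin.mk_one, Fin.reduceFinMk] <;>
        linarith
    · rw [← norm_kE]; exact pow_le_pow_left₀ hN h5 2
    · rw [← norm_kE]; exact pow_le_pow_left₀ hN h6 2
    · rw [← norm_kE]; exact pow_le_pow_left₀ hN h7 2
  · intro p q a b c
    simp only [kE_neg, kE_add]
    exact sy_skew _ _ _ _ _ _ _ _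
  · intro p q a b c
    have h := sy_hel P0 (δ / 256) N (kE p) (kE q) a b c
    rw [← kE_add, ← kE_neg, cu_kE, cu_kE, cu_kE] at h
    exact h
  · intro σ ε p q a b
    simp only [kE_act]
    exact sy_gE _ _ _ _ _ _ _ _ _
  · intro n hn hNn
    have hpe := pe_gen hn
    have hNk : (N : ℝ) ≤ ‖kE n‖ := by
      rw [← norm_kE] at hNn
      exact le_of_sq_le_sq hNn (norm_nonneg _)
    refine ⟨fun i => po (kE n) i, pfV (kE n), ?_, ?_, ?_, ?_, ?_, ?_, ?_⟩
    · have h1 := H706N.JHV2.hv2_norm_sq (po (kE n))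
      rw [po_norm hpe] at h1
      rw [Fin.sum_univ_three]
      linarith
    · rw [Fin.sum_univ_three]
      exact k_po (kE n)
    · intro l m hl hm hlm
      have h := sy_val (δ / 256) hpe hNk hl hm hlm
      simp only [← kE_smul] at h
      exact h
    · have h1 := H706N.JHV2.hv2_norm_sq (pf (kE n))
      rw [pf_norm hpe] at h1
      rw [Fin.sum_univ_three]
      have : pf (kE n) 0 ^ 2 + pf (kE n) 1 ^ 2 + pf (kE n) 2 ^ 2 = 1 := by linarith
      exact this
    · rw [Fin.sum_univ_three]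
      exact k_pf (kE n)
    · rw [Fin.sum_univ_three]
      exact po_pf_real (kE n)
    · intro l m a b
      have h := sy_refl P0 (δ / 256) N hpe l m a b
      simp only [← kE_smul] at h
      exact h

end H706T
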