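import Pool.Agent.Helper706_TE.Main5
import Pool.Agent.Helper706_TE.Sy5
import Pool.Agent.Helper706_TE.ST
import Pool.Agent.Helper706_TE.CS
import Pool.Agent.Helper706_TE.PZ
import Pool.Agent.Helper706_TE.RF

/-!
Reduction of the equations for odd shear data to a scalar equation.
-/

set_option autoImplicit false

open Set Filter Topology MeasureTheory
open scoped ComplexConjugate ContDiff

namespace H706T

open Pool.Agent.H708R2.EulerSign (contDiff_slice)

variable {δ κ : ℝ} {N : ℕ} {M : K → K → W → W → W} {T : ℝ} {w u : ℝ → V → V} {q p : ℝ → V → ℝ}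
  {n : K} {e f : V} {g : ℝ → ℝ}

theorem dot_add_r (k : K) (x y : V) : dot k (x + y) = dot k x + dot k y := by
  simp only [dot, Pi.add_apply, mul_add, Finset.sum_add_distrib]

theorem dot_neg_r (k : K) (x : V) : dot k (-x) = -dot k x := by
  simp only [dot, Pi.neg_apply, mul_neg, Finset.sum_neg_distrib]

theorem M_zero_left (h : IsSymbol δ M) (p q : K) (b : W) : M p q 0 b = 0 := by
  have := h.lin₁ p q 1 0 0 b
  rw [one_smul, one_smul, add_zero] at this
  have h2 : M p q 0 b + 0 = M p q 0 b + M p q 0 b := by rw [add_zero]; exact this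
  exact (add_left_cancel h2).symm

theorem M_zero_right (h : IsSymbol δ M) (p q : K) (a : W) : M p q a 0 = 0 := by
  have := h.lin₂ p q 1 a 0 0
  rw [one_smul, one_smul, add_zero] at this
  have h2 : M p q a 0 + 0 = M p q a 0 + M p q a 0 := by rw [add_zero]; exact this
  exact (add_left_cancel h2).symm

theorem ud_Ico {t : ℝ} (ht : t ∈ Ico 0 T) : UniqueDiffWithinAt ℝ (Ico 0 T) t :=
  uniqueDiffOn_Ico 0 T t ht

/-- Everything we assume on the shear datum. -/
structure Shear (δ : ℝ) (N : ℕ) (M : K → K → W → W → W) (T : ℝ) (w : ℝ → V → V) (q : ℝ → V → ℝ)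
    (n : K) (e f : V) (g : ℝ → ℝ) : Prop where
  dpos : 0 ≤ δ
  sy : IsSymbol δ M
  sy2 : Sy2 N M
  sol : IsSolution M T w q
  nne : n ≠ 0
  eun : ∑ i, e i ^ 2 = 1
  nee : ∑ i, (n i : ℝ) * e i = 0
  fun' : ∑ i, f i ^ 2 = 1
  nf : ∑ i, (n i : ℝ) * f i = 0
  ef : ∑ i, e i * f i = 0
  rfl' : ∀ (l m : ℤ) (a b : W), M (l • n) (m • n) (reflW f a) (reflW f b)
            = reflW f (M (l • n) (m • n) a b)
  per : ∀ φ, g (φ + 2 * Real.pi) = g φ
  odd : ∀ φ, g (-φ) = -g φ
  ini : ∀ x, w 0 x = g (dot n x) • e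

namespace Shear

variable (S : Shear δ N M T w q n e f g)
include S

theorem slice {t : ℝ} (ht : t ∈ Ico 0 T) : ContDiff ℝ 1 (w t) :=
  contDiff_slice S.sol.contDiffOn_u ht

theorem sliceP {t : ℝ} (ht : t ∈ Ico 0 T) : ContDiff ℝ 1 (q t) := by
  have h1 : (q t) = (fun z : ℝ × V => q z.1 z.2) ∘ (fun x => (t, x)) := rfl
  rw [h1, ← contDiffOn_univ]
  exact S.sol.contDiffOn_p.comp (contDiff_const.prodMk contDiff_id).contDiffOn
    fun x _ => ⟨ht, mem_univ _⟩

theorem inv {a : V} (ha : ∃ m : ℤ, dot n a = 2 * Real.pi * m) {t : ℝ} (ht : t ∈ Ico 0 T) (x : V) :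
    w t (x + a) = w t x := by
  obtain ⟨m, hm⟩ := ha
  have hp : Function.Periodic g (2 * Real.pi) := S.per
  have h0 : (fun x => w 0 (x + a)) = w 0 := by
    funext x
    rw [S.ini, S.ini, dot_add_r, hm, mul_comm (2 * Real.pi)]
    have := hp.int_mul m (dot n x)
    rw [this]
  have h1 := unique' S.dpos S.sy S.sy2 (sol_translate S.sy S.sol a) S.sol h0 t ht
  exact congrFun h1 x

theorem inv0 {a : V} (ha : dot n a = 0) {t : ℝ} (ht : t ∈ Ico 0 T) (x : V) :
    w t (x + a) = w t x :=
  S.inv ⟨0, by rw [ha]; simp⟩ ht x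

theorem odd' {t : ℝ} (ht : t ∈ Ico 0 T) (x : V) : w t (-x) = -w t x := by
  have h0 : (fun x => -w 0 (-x)) = w 0 := by
    funext x
    rw [S.ini, S.ini, dot_neg_r, S.odd, neg_smul, neg_neg]
  have h1 := unique' S.dpos S.sy S.sy2 (sol_parity S.sy2 S.sol) S.sol h0 t ht
  have h2 : -w t (-x) = w t x := congrFun h1 x
  rw [← h2, neg_neg]

theorem perp {t : ℝ} (ht : t ∈ Ico 0 T) (x : V) : ∑ i, (n i : ℝ) * w t x i = 0 :=
  shear_perp S.nne (S.slice ht) (fun _ ha x => S.inv0 ha ht x) (S.sol.div_free t ht)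
    (fun x => S.odd' ht x) x

theorem transp {t : ℝ} (ht : t ∈ Ico 0 T) (x : V) (i : Fin 3) :
    ∑ j, w t x j * D (w t) x j i = 0 :=
  shear_transport (S.slice ht) (fun _ ha x => S.inv0 ha ht x) (fun x => S.perp ht x) x i

theorem supp {t : ℝ} (ht : t ∈ Ico 0 T) (k : K) (hk : ∀ l : ℤ, k ≠ l • n) : coeff (w t) k = 0 :=
  coeff_supp (S.slice ht).continuous (S.sol.periodic_u t ht) (fun _ ha x => S.inv ha ht x) k hk

theorem summ {t : ℝ} (ht : t ∈ Ico 0 T) :
    Summable fun z : K × K => ‖M z.1 z.2 (coeff (w t) z.1) (coeff (w t) z.2)‖ :=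
  sym_summable S.sy S.sy2 (S.slice ht) (S.sol.periodic_u t ht) (S.slice ht) (S.sol.periodic_u t ht)

theorem op_perp {t : ℝ} (ht : t ∈ Ico 0 T) (x : V) :
    ∑ i, (n i : ℝ) * op M (w t) (w t) x i = 0 := by
  have hs := S.summ ht
  have hsi : ∀ i : Fin 3, Summable fun z : K × K => M z.1 z.2 (coeff (w t) z.1) (coeff (w t) z.2) i
      * Complex.exp (Complex.I * (dot (z.1 + z.2) x : ℂ)) := by
    intro i
    refine Summable.of_norm_bounded hs fun z => ?_
    exact JSF.norm_term _ _ _
  have h1 : ∀ i : Fin 3, (n i : ℝ) * op M (w t) (w t) x i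
      = (∑' z : K × K, (n i : ℂ) * (M z.1 z.2 (coeff (w t) z.1) (coeff (w t) z.2) i
      * Complex.exp (Complex.I * (dot (z.1 + z.2) x : ℂ)))).re := by
    intro i
    rw [tsum_mul_left]
    unfold op
    rw [← Complex.ofReal_intCast, Complex.re_ofReal_mul]
  rw [Finset.sum_congr rfl fun i _ => h1 i, ← Complex.re_sum, ← Summable.tsum_finsetSum
    (fun i _ => (hsi i).mul_left _)]
  have h2 : ∀ z : K × K, ∑ i, (n i : ℂ) * (M z.1 z.2 (coeff (w t) z.1) (coeff (w t) z.2) i
      * Complex.exp (Complex.I * (dot (z.1 + z.2) x : ℂ))) = 0 := by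
    intro z
    have h3 : ∑ i, (n i : ℂ) * M z.1 z.2 (coeff (w t) z.1) (coeff (w t) z.2) i = 0 := by
      by_cases hz1 : ∃ l : ℤ, z.1 = l • n
      · by_cases hz2 : ∃ m : ℤ, z.2 = m • n
        · obtain ⟨l, hl⟩ := hz1
          obtain ⟨m, hm⟩ := hz2
          by_cases hz : M z.1 z.2 (coeff (w t) z.1) (coeff (w t) z.2) = 0
          · rw [hz]; simp
          · have h4 := (S.sy2.supp _ _ _ _ hz).2.1
            have h5 : l + m ≠ 0 := by
              intro h6
              apply h4
              rw [hl, hm, ← add_smul, h6, zero_smul]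
            have h7 := S.sy.divf z.1 z.2 (coeff (w t) z.1) (coeff (w t) z.2)
            have h8 : ∀ j, (((z.1 + z.2) j : ℤ) : ℂ) = ((l + m : ℤ) : ℂ) * (n j : ℂ) := by
              intro j
              rw [hl, hm, ← add_smul, Pi.smul_apply, smul_eq_mul]
              push_cast
              ring
            simp only [h8, mul_assoc] at h7
            rw [← Finset.mul_sum] at h7
            have h9 : ((l + m : ℤ) : ℂ) ≠ 0 := by exact_mod_cast h5
            exact (mul_eq_zero.1 h7).resolve_left h9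
        · push Not at hz2
          rw [S.supp ht z.2 hz2, M_zero_right S.sy]; simp
      · push Not at hz1
        rw [S.supp ht z.1 hz1, M_zero_left S.sy]; simp
    have h4 : ∀ i, (n i : ℂ) * (M z.1 z.2 (coeff (w t) z.1) (coeff (w t) z.2) i
      * Complex.exp (Complex.I * (dot (z.1 + z.2) x : ℂ)))
      = ((n i : ℂ) * M z.1 z.2 (coeff (w t) z.1) (coeff (w t) z.2) i)
        * Complex.exp (Complex.I * (dot (z.1 + z.2) x : ℂ)) := fun i => (mul_assoc _ _ _).symm
    rw [Finset.sum_congr rfl fun i _ => h4 i, ← Finset.sum_mul, h3, zero_mul]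
  simp only [h2, tsum_zero, Complex.zero_re]

/-- The time derivative. -/
theorem dW_comp (i : Fin 3) {t : ℝ} (ht : t ∈ Ico 0 T) (x : V) :
    HasDerivWithinAt (fun s => w s x i) (derivWithin (fun s => w s x i) (Ico 0 T) t) (Ico 0 T) t := by
  refine DifferentiableWithinAt.hasDerivWithinAt ?_
  have h1 : ContDiffOn ℝ 1 (fun s : ℝ => (fun z : ℝ × V => w z.1 z.2) (s, x)) (Ico 0 T) :=
    S.sol.contDiffOn_u.comp (contDiff_id.prodMk contDiff_const).contDiffOn
      fun s hs => ⟨hs, mem_univ _⟩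
  have h2 : ContDiffOn ℝ 1 (fun s : ℝ => w s x i) (Ico 0 T) := contDiffOn_pi.1 h1 i
  exact (h2.differentiableOn one_ne_zero) t ht

theorem pres {t : ℝ} (ht : t ∈ Ico 0 T) (x : V) (i : Fin 3) :
    fderiv ℝ (q t) x (Pi.single i 1) = 0 := by
  have hg : ∀ x i, fderiv ℝ (q t) x (Pi.single i 1)
      = op M (w t) (w t) x i - derivWithin (fun s => w s x i) (Ico 0 T) t := by
    intro x i
    have h1 := S.sol.momentum t ht x i
    rw [S.transp ht x i] at h1
    linarith
  have h2 := pressure_zero S.nne (g := fun x i => op M (w t) (w t) x i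
    - derivWithin (fun s => w s x i) (Ico 0 T) t) (S.sliceP ht) (S.sol.periodic_p t ht) hg ?_ ?_ x
  · rw [hg]
    exact congrFun h2 i
  · intro x
    simp only [mul_sub]
    rw [Finset.sum_sub_distrib, S.op_perp ht x, zero_sub, neg_eq_zero]
    have h3 : HasDerivWithinAt (fun s => ∑ i, (n i : ℝ) * w s x i)
        (∑ i, (n i : ℝ) * derivWithin (fun s => w s x i) (Ico 0 T) t) (Ico 0 T) t := by
      refine HasDerivWithinAt.fun_sum fun i _ => ?_
      exact (S.dW_comp i ht x).const_mul _
    have h4 : HasDerivWithinAt (fun s => ∑ i, (n i : ℝ) * w s x i) 0 (Ico 0 T) t :=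
      (hasDerivWithinAt_const t (Ico 0 T) (0 : ℝ)).congr (fun s hs => S.perp hs x) (S.perp ht x)
    exact (ud_Ico ht).eq_deriv _ h3 h4
  · intro a ha x
    funext i
    have h3 : op M (w t) (w t) (x + a) = op M (w t) (w t) x := by
      have h4 := op_translate S.sy (S.slice ht).continuous (S.sol.periodic_u t ht)
        (S.slice ht).continuous (S.sol.periodic_u t ht) a x
      have h5 : (fun y => w t (y + a)) = w t := funext fun y => S.inv0 ha ht y
      rw [h5] at h4
      exact h4.symm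
    have h4 : derivWithin (fun s => w s (x + a) i) (Ico 0 T) t
        = derivWithin (fun s => w s x i) (Ico 0 T) t := by
      refine derivWithin_congr (fun s hs => ?_) ?_
      · rw [S.inv0 ha hs]
      · rw [S.inv0 ha ht]
    rw [h3, h4]

/-- The equation without pressure. -/
theorem eqn {t : ℝ} (ht : t ∈ Ico 0 T) (x : V) (i : Fin 3) :
    derivWithin (fun s => w s x i) (Ico 0 T) t = op M (w t) (w t) x i := by
  have h1 := S.sol.momentum t ht x i
  rw [S.transp ht x i, S.pres ht x i] at h1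
  linarith

end Shear

theorem refl_contDiff (f : V) : ContDiff ℝ 1 (refl f) := by
  refine contDiff_pi.2 fun i => ?_
  unfold refl
  fun_prop

theorem refl_dot (hnf : ∑ i, (n i : ℝ) * f i = 0) (a : V) :
    ∑ i, (n i : ℝ) * refl f a i = ∑ i, (n i : ℝ) * a i := by
  unfold refl
  have : ∀ i, (n i : ℝ) * (a i - 2 * (∑ j, f j * a j) * f i)
      = (n i : ℝ) * a i - 2 * (∑ j, f j * a j) * ((n i : ℝ) * f i) := fun i => by ring
  rw [Finset.sum_congr rfl fun i _ => this i, Finset.sum_sub_distrib, ← Finset.mul_sum, hnf,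
    mul_zero, sub_zero]

/-- The reflection as a continuous linear map. -/
noncomputable def reflL (f : V) : V →L[ℝ] V :=
  ContinuousLinearMap.pi fun i =>
    (ContinuousLinearMap.proj i : V →L[ℝ] ℝ)
      - (2 * f i) • ∑ j, f j • (ContinuousLinearMap.proj j : V →L[ℝ] ℝ)

theorem reflL_apply (f a : V) : reflL f a = refl f a := by
  funext i
  simp only [reflL, refl, ContinuousLinearMap.coe_pi', sub_apply,
    ContinuousLinearMap.proj_apply, smul_apply, smul_eq_mul,
    sum_apply]
  ring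

namespace Shear

variable (S : Shear δ N M T w q n e f g)
include S

theorem refl_inv {a : V} (ha : dot n a = 0) {t : ℝ} (ht : t ∈ Ico 0 T) (x : V) :
    refl f (w t (x + a)) = refl f (w t x) := by
  rw [S.inv0 ha ht]

theorem refl_slice {t : ℝ} (ht : t ∈ Ico 0 T) : ContDiff ℝ 1 (fun x => refl f (w t x)) :=
  (refl_contDiff f).comp (S.slice ht)

theorem refl_sol : IsSolution M T (fun t x => refl f (w t x)) (fun _ _ => 0) := by
  refine ⟨(refl_contDiff f).comp_contDiffOn S.sol.contDiffOn_u, contDiffOn_const,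
    fun t ht i x => ?_, fun t ht i x => rfl, fun t ht x => ?_, fun t ht x i => ?_⟩
  · rw [S.sol.periodic_u t ht i x]
  · have hd : Differentiable ℝ (w t) := (S.slice ht).differentiable one_ne_zero
    have h1 : HasFDerivAt (fun x => refl f (w t x)) ((reflL f).comp (fderiv ℝ (w t) x)) x := by
      have := (reflL f).hasFDerivAt.comp x (hd x).hasFDerivAt
      refine this.congr_of_eventuallyEq ?_
      filter_upwards with y
      exact (reflL_apply f (w t y)).symm
    have h2 : ∀ j i, D (fun x => refl f (w t x)) x j i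
        = D (w t) x j i - 2 * (∑ l, f l * D (w t) x j l) * f i := by
      intro j i
      unfold D
      rw [h1.fderiv, ContinuousLinearMap.comp_apply, reflL_apply]
      rfl
    have h3 : fderiv ℝ (w t) x f = 0 := by
      refine JPZ.fderiv_perp hd (fun a ha x => S.inv0 ha ht x) x f ?_
      exact S.nf
    have h4 : ∀ l, ∑ i, f i * D (w t) x i l = 0 := by
      intro l
      have := JPZ.sum_single_smul (fderiv ℝ (w t) x) f l
      rw [h3] at this
      exact this
    simp only [h2]
    rw [Finset.sum_sub_distrib, S.sol.div_free t ht x, zero_sub, neg_eq_zero]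
    have h5 : ∀ i, 2 * (∑ l, f l * D (w t) x i l) * f i
        = ∑ l, 2 * f l * (f i * D (w t) x i l) := by
      intro i
      rw [Finset.mul_sum, Finset.sum_mul]
      refine Finset.sum_congr rfl fun l _ => ?_
      ring
    rw [Finset.sum_congr rfl fun i _ => h5 i, Finset.sum_comm]
    refine Finset.sum_eq_zero fun l _ => ?_
    rw [← Finset.mul_sum, h4, mul_zero]
  · have h1 : ∑ j, refl f (w t x) j * D (fun x => refl f (w t x)) x j i = 0 :=
      shear_transport (S.refl_slice ht) (fun a ha x => S.refl_inv ha ht x)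
        (fun x => by rw [refl_dot S.nf]; exact S.perp ht x) x i
    have h2 : HasDerivWithinAt (fun s => refl f (w s x) i)
        (refl f (fun i => derivWithin (fun s => w s x i) (Ico 0 T) t) i) (Ico 0 T) t := by
      unfold refl
      refine (S.dW_comp i ht x).sub (((HasDerivWithinAt.fun_sum fun j _ =>
        (S.dW_comp j ht x).const_mul (f j)).const_mul 2).mul_const (f i))
    have h3 : (fun i => derivWithin (fun s => w s x i) (Ico 0 T) t) = op M (w t) (w t) x :=
      funext fun i => S.eqn ht x i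
    rw [h1, h2.derivWithin (ud_Ico ht), h3,
      op_refl S.sy S.rfl' (S.slice ht).continuous (fun k hk => S.supp ht k hk) (S.summ ht) x]
    simp

theorem f_zero {t : ℝ} (ht : t ∈ Ico 0 T) (x : V) : ∑ i, f i * w t x i = 0 := by
  have h0 : (fun x => refl f (w 0 x)) = w 0 := by
    funext x i
    unfold refl
    have h1 : ∑ j, f j * w 0 x j = 0 := by
      rw [S.ini]
      have : ∀ j, f j * (g (dot n x) • e) j = g (dot n x) * (e j * f j) := by
        intro j
        rw [Pi.smul_apply, smul_eq_mul]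
        ring
      rw [Finset.sum_congr rfl fun j _ => this j, ← Finset.mul_sum, S.ef, mul_zero]
    rw [h1]
    ring
  have h1 := congrFun (unique' S.dpos S.sy S.sy2 S.refl_sol S.sol h0 t ht) x
  obtain ⟨i, hi⟩ : ∃ i, f i ≠ 0 := by
    by_contra hc
    push Not at hc
    have := S.fun'
    simp [hc] at this
  have h2 := congrFun h1 i
  simp only [refl] at h2
  have h3 : (2 * ∑ j, f j * w t x j) * f i = 0 := by linarith
  have h4 := (mul_eq_zero.1 h3).resolve_right hi
  linarith

/-- The solution is parallel to `e`. -/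
theorem par {t : ℝ} (ht : t ∈ Ico 0 T) (x : V) : w t x = (∑ i, e i * w t x i) • e := by
  set A : Matrix (Fin 3) (Fin 3) ℝ := Matrix.of ![fun i => (n i : ℝ), e, f] with hA
  have hAA : A * A.transpose = Matrix.diagonal ![nq n, 1, 1] := by
    have h1 := S.eun
    have h2 := S.nee
    have h3 := S.fun'
    have h4 := S.nf
    have h5 := S.ef
    rw [Fin.sum_univ_three] at h1 h2 h3 h4 h5
    have h6 : nq n = (n 0 : ℝ) ^ 2 + (n 1 : ℝ) ^ 2 + (n 2 : ℝ) ^ 2 := by
      unfold nq
      rw [Fin.sum_univ_three]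
    have key : ∀ i j, (A * A.transpose) i j = A i 0 * A j 0 + A i 1 * A j 1 + A i 2 * A j 2 := by
      intro i j
      rw [Matrix.mul_apply, Fin.sum_univ_three]
      rfl
    ext i j
    rw [key]
    fin_cases i <;> fin_cases j
    · change (n 0 : ℝ) * n 0 + n 1 * n 1 + n 2 * n 2 = nq n
      rw [h6]; ring
    · change (n 0 : ℝ) * e 0 + n 1 * e 1 + n 2 * e 2 = 0
      linarith
    · change (n 0 : ℝ) * f 0 + n 1 * f 1 + n 2 * f 2 = 0
      linarith
    · change e 0 * n 0 + e 1 * n 1 + e 2 * n 2 = 0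
      linarith
    · change e 0 * e 0 + e 1 * e 1 + e 2 * e 2 = 1
      linarith
    · change e 0 * f 0 + e 1 * f 1 + e 2 * f 2 = 0
      linarith
    · change f 0 * n 0 + f 1 * n 1 + f 2 * n 2 = 0
      linarith
    · change f 0 * e 0 + f 1 * e 1 + f 2 * e 2 = 0
      linarith
    · change f 0 * f 0 + f 1 * f 1 + f 2 * f 2 = 1
      linarith
  have hdet : A.det ≠ 0 := by
    intro h0
    have h1 := congrArg Matrix.det hAA
    rw [Matrix.det_mul, h0, zero_mul, Matrix.det_diagonal, Fin.prod_univ_three] at h1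
    have h2 := JPZ.nq_pos S.nne
    simp at h1
    linarith
  set r : V := w t x - (∑ i, e i * w t x i) • e with hr
  have hAr : A.mulVec r = 0 := by
    have hn1 := S.perp ht x
    have hf1 := S.f_zero ht x
    have h1 := S.eun
    have h2 := S.nee
    have h5 := S.ef
    rw [Fin.sum_univ_three] at h1 h2 h5 hn1 hf1
    have hr' : ∀ i, r i = w t x i - (e 0 * w t x 0 + e 1 * w t x 1 + e 2 * w t x 2) * e i := by
      intro i
      rw [hr, Pi.sub_apply, Pi.smul_apply, smul_eq_mul, Fin.sum_univ_three]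
    funext i
    rw [Matrix.mulVec, dotProduct, Fin.sum_univ_three, hr', hr', hr']
    fin_cases i
    · change (n 0 : ℝ) * (w t x 0 - (e 0 * w t x 0 + e 1 * w t x 1 + e 2 * w t x 2) * e 0)
        + n 1 * (w t x 1 - (e 0 * w t x 0 + e 1 * w t x 1 + e 2 * w t x 2) * e 1)
        + n 2 * (w t x 2 - (e 0 * w t x 0 + e 1 * w t x 1 + e 2 * w t x 2) * e 2) = 0
      linear_combination hn1 - (e 0 * w t x 0 + e 1 * w t x 1 + e 2 * w t x 2) * h2
    · change e 0 * (w t x 0 - (e 0 * w t x 0 + e 1 * w t x 1 + e 2 * w t x 2) * e 0)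
        + e 1 * (w t x 1 - (e 0 * w t x 0 + e 1 * w t x 1 + e 2 * w t x 2) * e 1)
        + e 2 * (w t x 2 - (e 0 * w t x 0 + e 1 * w t x 1 + e 2 * w t x 2) * e 2) = 0
      linear_combination -(e 0 * w t x 0 + e 1 * w t x 1 + e 2 * w t x 2) * h1
    · change f 0 * (w t x 0 - (e 0 * w t x 0 + e 1 * w t x 1 + e 2 * w t x 2) * e 0)
        + f 1 * (w t x 1 - (e 0 * w t x 0 + e 1 * w t x 1 + e 2 * w t x 2) * e 1)
        + f 2 * (w t x 2 - (e 0 * w t x 0 + e 1 * w t x 1 + e 2 * w t x 2) * e 2) = 0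
      linear_combination hf1 - (e 0 * w t x 0 + e 1 * w t x 1 + e 2 * w t x 2) * h5
  have hr0 := Matrix.eq_zero_of_mulVec_eq_zero hdet hAr
  rw [hr, sub_eq_zero] at hr0
  exact hr0

end Shear

end H706T
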