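import Pool.Agent.Helper706_TE.Defs3

set_option autoImplicit false
open Set Filter Topology MeasureTheory
open scoped ComplexConjugate ContDiff

namespace H706T.JSO

/-! ### Auxiliary lemmas on sequences -/

section seq

/-- the tail sums -/
noncomputable def SOU (b : ℕ → ℝ) (p : ℕ) : ℝ := ∑' l, b (l + p)

variable {b : ℕ → ℝ}

theorem SOU_succ (hb : Summable b) (p : ℕ) : SOU b p = b p + SOU b (p + 1) := by
  unfold SOU
  rw [((summable_nat_add_iff p).2 hb).tsum_eq_zero_add, zero_add]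
  congr 1
  refine tsum_congr fun l => ?_
  congr 1
  omega

theorem SOU_zero : SOU b 0 = ∑' l, b l := by
  unfold SOU
  simp

theorem SOU_range (hb : Summable b) (n : ℕ) : ∑ l ∈ Finset.range n, b l + SOU b n = SOU b 0 := by
  rw [SOU_zero]
  exact hb.sum_add_tsum_nat_add n

theorem SOU_nonneg (h0 : ∀ l, 0 ≤ b l) (p : ℕ) : 0 ≤ SOU b p := tsum_nonneg fun l => h0 _

theorem SOU_anti (hb : Summable b) (h0 : ∀ l, 0 ≤ b l) : Antitone (SOU b) := by
  refine antitone_nat_of_succ_le fun p => ?_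
  rw [SOU_succ hb p]
  linarith [h0 p]

theorem SOU_abs (hb : Summable fun l => |b l|) (p : ℕ) : |SOU b p| ≤ SOU (fun l => |b l|) p := by
  unfold SOU
  have h : Summable fun l => ‖b (l + p)‖ := (summable_nat_add_iff p).2 hb
  exact norm_tsum_le_tsum_norm h

theorem SOU_Ico (hb : Summable b) (p n : ℕ) (hn : 1 ≤ n) :
    ∑ l ∈ Finset.Ico 1 n, b (p + l) = SOU b (p + 1) - SOU b (p + n) := by
  induction n, hn using Nat.le_induction with
  | base => simp
  | succ n hn ih =>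
    rw [Finset.sum_Ico_succ_top hn, ih, SOU_succ hb (p + n)]
    have : p + n + 1 = p + (n + 1) := by omega
    rw [this]
    ring

theorem sum_le_SOU (hb : Summable b) (h0 : ∀ l, 0 ≤ b l) (h n : ℕ) :
    ∑ m ∈ Finset.Ico h n, b m ≤ SOU b h := by
  rw [Finset.sum_Ico_eq_sum_range]
  unfold SOU
  have h1 : ∀ m ∈ Finset.range (n - h), b (h + m) = b (m + h) := fun m _ => by rw [add_comm]
  rw [Finset.sum_congr rfl h1]
  exact ((summable_nat_add_iff h).2 hb).sum_le_tsum _ fun m _ => h0 _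

/-- telescoping -/
theorem SOU_sq (hb : Summable fun l => |b l|) :
    ∑' p, b p * SOU b (p + 1) = (SOU b 0 ^ 2 - ∑' l, b l ^ 2) / 2 := by
  have hb' : Summable b := hb.of_abs
  set A := SOU (fun l => |b l|) 0 with hA
  have hA0 : 0 ≤ A := SOU_nonneg (fun l => abs_nonneg _) 0
  have hU : ∀ p, |SOU b p| ≤ A := fun p => (SOU_abs hb p).trans
    (SOU_anti hb (fun l => abs_nonneg _) (Nat.zero_le p))
  have hbA : ∀ p, |b p| ≤ A := by
    intro p
    rw [hA, SOU_zero]
    exact hb.le_tsum p fun _ _ => abs_nonneg _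
  have s1 : Summable fun p => b p * SOU b (p + 1) := by
    refine Summable.of_norm_bounded (hb.mul_right A) fun p => ?_
    rw [Real.norm_eq_abs, abs_mul]
    exact mul_le_mul_of_nonneg_left (hU _) (abs_nonneg _)
  have s2 : Summable fun p => b p ^ 2 := by
    refine Summable.of_norm_bounded (hb.mul_right A) fun p => ?_
    rw [Real.norm_eq_abs, sq, abs_mul]
    exact mul_le_mul_of_nonneg_left (hbA _) (abs_nonneg _)
  have s3 : Summable fun p => b p ^ 2 + 2 * (b p * SOU b (p + 1)) := s2.add (s1.mul_left 2)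
  have h1 : HasSum (fun p => b p ^ 2 + 2 * (b p * SOU b (p + 1))) (SOU b 0 ^ 2) := by
    rw [s3.hasSum_iff_tendsto_nat]
    have h2 : ∀ n, ∑ p ∈ Finset.range n, (b p ^ 2 + 2 * (b p * SOU b (p + 1))) =
        SOU b 0 ^ 2 - SOU b n ^ 2 := by
      intro n
      induction n with
      | zero => simp
      | succ n ih =>
        rw [Finset.sum_range_succ, ih]
        have := SOU_succ hb' n
        rw [this]
        ring
    simp_rw [h2]
    have h3 : Tendsto (SOU b) atTop (𝓝 0) := tendsto_sum_nat_add b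
    have h4 := (tendsto_const_nhds (x := SOU b 0 ^ 2)).sub (h3.pow 2)
    simpa using h4
  have h2 := h1.tsum_eq
  rw [s2.tsum_add (s1.mul_left 2), tsum_mul_left] at h2
  linarith

/-- the sums over triangles -/
theorem SO_conv (hb : Summable fun l => |b l|) (n : ℕ) :
    |∑ l ∈ Finset.range n, ∑ k ∈ Finset.range (l + 1), b k * b (l - k) - SOU b 0 ^ 2| ≤
      3 * (SOU (fun l => |b l|) 0 * SOU (fun l => |b l|) (n / 2)) := by
  have hb' : Summable b := hb.of_abs
  set R := SOU (fun l => |b l|) with hR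
  have hR0 : ∀ p, 0 ≤ R p := SOU_nonneg fun l => abs_nonneg _
  have hRa : Antitone R := SOU_anti hb fun l => abs_nonneg _
  rw [Finset.sum_range_diag_flip n (fun p q => b p * b q)]
  have h1 : ∀ m ∈ Finset.range n, ∑ k ∈ Finset.range (n - m), b m * b k =
      b m * SOU b 0 - b m * SOU b (n - m) := by
    intro m _
    rw [← Finset.mul_sum, ← SOU_range hb' (n - m)]
    ring
  rw [Finset.sum_congr rfl h1, Finset.sum_sub_distrib, ← Finset.sum_mul]
  have h2 : ∑ m ∈ Finset.range n, b m = SOU b 0 - SOU b n := by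
    rw [← SOU_range hb' n]
    ring
  rw [h2]
  have h3 : (SOU b 0 - SOU b n) * SOU b 0 - ∑ m ∈ Finset.range n, b m * SOU b (n - m) -
      SOU b 0 ^ 2 = -(SOU b n * SOU b 0 + ∑ m ∈ Finset.range n, b m * SOU b (n - m)) := by ring
  rw [h3, abs_neg]
  have h4 : |SOU b n * SOU b 0| ≤ R 0 * R (n / 2) := by
    rw [abs_mul, mul_comm]
    exact mul_le_mul (SOU_abs hb 0) ((SOU_abs hb n).trans (hRa (Nat.div_le_self n 2)))
      (abs_nonneg _) (hR0 0)
  have h5 : |∑ m ∈ Finset.range n, b m * SOU b (n - m)| ≤ 2 * (R 0 * R (n / 2)) := by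
    refine (Finset.abs_sum_le_sum_abs _ _).trans ?_
    have h6 : ∀ m ∈ Finset.range n, |b m * SOU b (n - m)| ≤
        |b m| * R (n / 2) + R 0 * (if n / 2 ≤ m then |b m| else 0) := by
      intro m hm
      rw [Finset.mem_range] at hm
      rw [abs_mul]
      have h7 := SOU_abs hb (n - m)
      by_cases hc : n / 2 ≤ m
      · rw [if_pos hc]
        have h8 : |b m| * |SOU b (n - m)| ≤ |b m| * R 0 :=
          mul_le_mul_of_nonneg_left (h7.trans (hRa (Nat.zero_le _))) (abs_nonneg _)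
        have h9 : 0 ≤ |b m| * R (n / 2) := mul_nonneg (abs_nonneg _) (hR0 _)
        linarith
      · rw [if_neg hc]
        have h8 : |b m| * |SOU b (n - m)| ≤ |b m| * R (n / 2) :=
          mul_le_mul_of_nonneg_left (h7.trans (hRa (by omega))) (abs_nonneg _)
        linarith
    refine (Finset.sum_le_sum h6).trans ?_
    rw [Finset.sum_add_distrib, ← Finset.sum_mul, ← Finset.mul_sum, ← Finset.sum_filter]
    have h7 : ∑ m ∈ Finset.range n, |b m| ≤ R 0 := by
      have := sum_le_SOU hb (fun l => abs_nonneg _) 0 n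
      rwa [← Finset.range_eq_Ico] at this
    have h8 : ∑ m ∈ (Finset.range n).filter (fun m => n / 2 ≤ m), |b m| ≤ R (n / 2) := by
      have := sum_le_SOU hb (fun l => abs_nonneg _) (n / 2) n
      have h9 : (Finset.range n).filter (fun m => n / 2 ≤ m) = Finset.Ico (n / 2) n := by
        ext m
        simp only [Finset.mem_filter, Finset.mem_range, Finset.mem_Ico]
        tauto
      rwa [h9]
    have h9 := mul_le_mul_of_nonneg_right h7 (hR0 (n / 2))
    have h10 := mul_le_mul_of_nonneg_left h8 (hR0 0)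
    linarith
  refine (abs_add_le _ _).trans ?_
  linarith

/-- the bracket in the equation -/
noncomputable def SOc (b : ℕ → ℝ) (l : ℕ) : ℝ :=
  ∑ m ∈ Finset.Ico 1 l, b (l - m) * b m - ∑' m : ℕ, b (m + 1) * b (l + m + 1)

theorem SO_sum (h0 : b 0 = 0) (hb : Summable fun l => |b l|) (n : ℕ) (hn : 1 ≤ n) :
    |∑ l ∈ Finset.Ico 1 n, SOc b l - (SOU b 0 ^ 2 + ∑' l, b l ^ 2) / 2| ≤
      4 * (SOU (fun l => |b l|) 0 * SOU (fun l => |b l|) (n / 2)) := by
  have hb' : Summable b := hb.of_abs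
  set R := SOU (fun l => |b l|) with hR
  have hR0 : ∀ p, 0 ≤ R p := SOU_nonneg fun l => abs_nonneg _
  have hRa : Antitone R := SOU_anti hb fun l => abs_nonneg _
  have hU : ∀ p, |SOU b p| ≤ R 0 := fun p => (SOU_abs hb p).trans (hRa (Nat.zero_le p))
  have hbA : ∀ p, |b p| ≤ R 0 := by
    intro p
    rw [hR, SOU_zero]
    exact hb.le_tsum p fun _ _ => abs_nonneg _
  unfold SOc
  rw [Finset.sum_sub_distrib]
  have h1 : ∑ l ∈ Finset.Ico 1 n, ∑ m ∈ Finset.Ico 1 l, b (l - m) * b m =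
      ∑ l ∈ Finset.range n, ∑ k ∈ Finset.range (l + 1), b k * b (l - k) := by
    rw [Finset.sum_range_eq_add_Ico _ hn]
    have : ∑ k ∈ Finset.range (0 + 1), b k * b (0 - k) = 0 := by simp [h0]
    rw [this, zero_add]
    refine Finset.sum_congr rfl fun l hl => ?_
    rw [Finset.mem_Ico] at hl
    rw [Finset.sum_range_succ, Finset.sum_range_eq_add_Ico _ hl.1, Nat.sub_self, h0, mul_zero,
      zero_mul, zero_add, add_zero]
    refine Finset.sum_congr rfl fun m _ => ?_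
    ring
  have hs : ∀ q, Summable fun p => b p * b (p + q) := by
    intro q
    refine Summable.of_norm_bounded (hb.mul_right (R 0)) fun p => ?_
    rw [Real.norm_eq_abs, abs_mul]
    exact mul_le_mul_of_nonneg_left (hbA _) (abs_nonneg _)
  have h2 : ∀ l, ∑' m : ℕ, b (m + 1) * b (l + m + 1) = ∑' p : ℕ, b p * b (p + l) := by
    intro l
    rw [(hs l).tsum_eq_zero_add, h0, zero_mul, zero_add]
    refine tsum_congr fun m => ?_
    have : l + m + 1 = m + 1 + l := by omega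
    rw [this]
  have s1 : Summable fun p => b p * SOU b (p + 1) := by
    refine Summable.of_norm_bounded (hb.mul_right (R 0)) fun p => ?_
    rw [Real.norm_eq_abs, abs_mul]
    exact mul_le_mul_of_nonneg_left (hU _) (abs_nonneg _)
  have s2 : Summable fun p => b p * SOU b (p + n) := by
    refine Summable.of_norm_bounded (hb.mul_right (R 0)) fun p => ?_
    rw [Real.norm_eq_abs, abs_mul]
    exact mul_le_mul_of_nonneg_left (hU _) (abs_nonneg _)
  have h3 : ∑ l ∈ Finset.Ico 1 n, ∑' m : ℕ, b (m + 1) * b (l + m + 1) =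
      ∑' p, b p * SOU b (p + 1) - ∑' p, b p * SOU b (p + n) := by
    rw [Finset.sum_congr rfl fun l _ => h2 l, ← Summable.tsum_finsetSum fun l _ => hs l,
      ← s1.tsum_sub s2]
    refine tsum_congr fun p => ?_
    rw [← Finset.mul_sum, SOU_Ico hb' p n hn]
    ring
  have h4 : |∑' p, b p * SOU b (p + n)| ≤ R 0 * R (n / 2) := by
    have h5 : ∀ p, |b p * SOU b (p + n)| ≤ |b p| * R (n / 2) := by
      intro p
      rw [abs_mul]
      refine mul_le_mul_of_nonneg_left ((SOU_abs hb _).trans (hRa ?_)) (abs_nonneg _)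
      have := Nat.div_le_self n 2
      omega
    have h6 : Summable fun p => |b p| * R (n / 2) := hb.mul_right _
    have h7 : Summable fun p => ‖b p * SOU b (p + n)‖ := Summable.of_norm_bounded h6 fun p => by
      rw [norm_norm]
      exact h5 p
    refine (norm_tsum_le_tsum_norm h7).trans ?_
    refine (h7.tsum_le_tsum h5 h6).trans ?_
    rw [tsum_mul_right, hR, SOU_zero]
  have h5 := SO_conv hb n
  rw [h1, h3, SOU_sq hb]
  rw [abs_le] at h4 h5 ⊢
  constructor <;> linarith [h4.1, h4.2, h5.1, h5.2]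

theorem SO_amgm (h0 : b 0 = 0) {δ : ℝ} (hδ : 0 < δ) (l : ℕ) :
    |b l| ≤ (δ * ((l : ℝ) ^ 2 * b l ^ 2) + δ⁻¹ * (1 / (l : ℝ) ^ 2)) / 2 := by
  rcases Nat.eq_zero_or_pos l with rfl | hl
  · simp [h0]
  · have hl' : (0 : ℝ) < l := by exact_mod_cast hl
    have hw : 0 < δ * (l : ℝ) ^ 2 := by positivity
    have h1 : δ⁻¹ * (1 / (l : ℝ) ^ 2) = 1 / (δ * (l : ℝ) ^ 2) := by
      field_simp
    have h2 : δ * ((l : ℝ) ^ 2 * b l ^ 2) = (δ * (l : ℝ) ^ 2) * |b l| ^ 2 := by
      rw [sq_abs]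
      ring
    rw [h1, h2]
    set w := δ * (l : ℝ) ^ 2
    have h3 : w * (w * |b l| ^ 2 + 1 / w) = (w * |b l|) ^ 2 + 1 := by
      field_simp
    have h4 : 0 ≤ (w * |b l| - 1) ^ 2 := sq_nonneg _
    have h5 : w * (2 * |b l|) ≤ w * (w * |b l| ^ 2 + 1 / w) := by
      rw [h3]
      nlinarith
    have h6 := le_of_mul_le_mul_left h5 hw
    linarith

theorem SO_sq_summable : Summable fun l : ℕ => 1 / (l : ℝ) ^ 2 :=
  Real.summable_one_div_nat_pow.2 one_lt_two

theorem SO_summable (h0 : b 0 = 0) (h : Summable fun l : ℕ => (l : ℝ) ^ 2 * b l ^ 2) :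
    Summable fun l => |b l| := by
  refine Summable.of_nonneg_of_le (fun l => abs_nonneg _) (fun l => SO_amgm h0 one_pos l) ?_
  exact ((h.mul_left 1).add (SO_sq_summable.mul_left _)).div_const 2

theorem SO_tail (h0 : b 0 = 0) (h : Summable fun l : ℕ => (l : ℝ) ^ 2 * b l ^ 2) {C : ℝ}
    (hC : ∑' l : ℕ, (l : ℝ) ^ 2 * b l ^ 2 ≤ C) {δ : ℝ} (hδ : 0 < δ) (p : ℕ) :
    SOU (fun l => |b l|) p ≤ (δ * C + δ⁻¹ * SOU (fun l : ℕ => 1 / (l : ℝ) ^ 2) p) / 2 := by
  have h1 : SOU (fun l => |b l|) p ≤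
      SOU (fun l => (δ * ((l : ℝ) ^ 2 * b l ^ 2) + δ⁻¹ * (1 / (l : ℝ) ^ 2)) / 2) p := by
    unfold SOU
    refine Summable.tsum_le_tsum (fun l => SO_amgm h0 hδ _)
      ((summable_nat_add_iff p).2 (SO_summable h0 h)) ?_
    exact (summable_nat_add_iff p).2
      (((h.mul_left δ).add (SO_sq_summable.mul_left δ⁻¹)).div_const 2)
  refine h1.trans ?_
  have h2 : SOU (fun l => (δ * ((l : ℝ) ^ 2 * b l ^ 2) + δ⁻¹ * (1 / (l : ℝ) ^ 2)) / 2) p =
      (δ * SOU (fun l : ℕ => (l : ℝ) ^ 2 * b l ^ 2) p +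
        δ⁻¹ * SOU (fun l : ℕ => 1 / (l : ℝ) ^ 2) p) / 2 := by
    unfold SOU
    rw [tsum_div_const, Summable.tsum_add, tsum_mul_left, tsum_mul_left]
    · exact (summable_nat_add_iff (f := fun l : ℕ => δ * ((l : ℝ) ^ 2 * b l ^ 2)) p).2
        (h.mul_left δ)
    · exact (summable_nat_add_iff (f := fun l : ℕ => δ⁻¹ * (1 / (l : ℝ) ^ 2)) p).2
        (SO_sq_summable.mul_left δ⁻¹)
  rw [h2]
  have h3 : SOU (fun l : ℕ => (l : ℝ) ^ 2 * b l ^ 2) p ≤ C := by
    refine (SOU_anti h (fun l => by positivity) (Nat.zero_le p)).trans ?_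
    rw [SOU_zero]
    exact hC
  have h4 := mul_le_mul_of_nonneg_left h3 hδ.le
  linarith

theorem SO_unif (C : ℝ) {ε : ℝ} (hε : 0 < ε) : ∃ M : ℕ, ∀ b : ℕ → ℝ, b 0 = 0 →
    (Summable fun l : ℕ => (l : ℝ) ^ 2 * b l ^ 2) → ∑' l : ℕ, (l : ℝ) ^ 2 * b l ^ 2 ≤ C →
    SOU (fun l => |b l|) M ≤ ε := by
  set δ := ε / (|C| + 1) with hδd
  have hC1 : 0 < |C| + 1 := by positivity
  have hδ : 0 < δ := by positivity
  have h1 : Tendsto (fun p => δ⁻¹ * SOU (fun l : ℕ => 1 / (l : ℝ) ^ 2) p) atTop (𝓝 0) := by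
    have := (tendsto_sum_nat_add fun l : ℕ => 1 / (l : ℝ) ^ 2).const_mul δ⁻¹
    rw [mul_zero] at this
    exact this
  obtain ⟨M, hM⟩ := (h1.eventually_lt_const hε).exists
  refine ⟨M, fun b h0 h hC => ?_⟩
  have h2 := SO_tail h0 h hC hδ M
  have h3 : δ * C ≤ ε := by
    rw [hδd, div_mul_eq_mul_div, div_le_iff₀ hC1]
    exact mul_le_mul_of_nonneg_left ((le_abs_self C).trans (by linarith)) hε.le
  linarith

end seq

/-- TARGET -/
theorem lifespan {κ T E : ℝ} (hκ : 0 < κ) (hE : 0 < E) {b : ℝ → ℕ → ℝ} (hb0 : ∀ t, b t 0 = 0)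
    (hbd : ∀ T₁ < T, ∃ C : ℝ, ∀ t ∈ Icc 0 T₁, Summable (fun l : ℕ => (l : ℝ) ^ 2 * b t l ^ 2) ∧
      ∑' l : ℕ, (l : ℝ) ^ 2 * b t l ^ 2 ≤ C)
    (hcont : ∀ l, ContinuousOn (fun t => b t l) (Ico 0 T))
    (hder : ∀ t ∈ Ioo 0 T, ∀ l : ℕ, 0 < l → HasDerivAt (fun s => b s l)
      (κ * (∑ m ∈ Finset.Ico 1 l, b t (l - m) * b t m - ∑' m : ℕ, b t (m + 1) * b t (l + m + 1))) t)
    (hEn : ∀ t ∈ Ico 0 T, ∑' l : ℕ, b t l ^ 2 = E) :
    T ≤ 2 * Real.pi / (κ * Real.sqrt E) := by
  by_contra hcon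
  push Not at hcon
  set r := Real.sqrt E with hr
  have hr0 : 0 < r := Real.sqrt_pos.2 hE
  have hrE : r ^ 2 = E := Real.sq_sqrt hE.le
  set T₀ := 2 * Real.pi / (κ * r) with hT₀
  have hT₀0 : 0 < T₀ := by
    have := Real.pi_pos
    positivity
  set T₁ := (T₀ + T) / 2 with hT₁
  have h01 : T₀ < T₁ := by linarith
  have h1T : T₁ < T := by linarith
  have hT10 : 0 < T₁ := hT₀0.trans h01
  obtain ⟨C, hC⟩ := hbd T₁ h1T
  have hsum : ∀ t ∈ Icc 0 T₁, Summable fun l => |b t l| := fun t ht =>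
    SO_summable (hb0 t) (hC t ht).1
  -- bound of the sums
  obtain ⟨A, hA0, hA⟩ : ∃ A : ℝ, 0 < A ∧ ∀ t ∈ Icc 0 T₁, SOU (fun l => |b t l|) 0 ≤ A := by
    refine ⟨max 1 ((1 * C + 1⁻¹ * SOU (fun l : ℕ => 1 / (l : ℝ) ^ 2) 0) / 2),
      lt_max_of_lt_left one_pos, fun t ht => le_max_of_le_right ?_⟩
    exact SO_tail (hb0 t) (hC t ht).1 (hC t ht).2 one_pos 0
  set S : ℝ → ℝ := fun t => SOU (b t) 0 with hS
  -- partial sums
  have hpart : ∀ t ∈ Icc 0 T₁, ∀ n ≥ 1, S t - ∑ l ∈ Finset.Ico 1 n, b t l = SOU (b t) n := by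
    intro t ht n hn
    have h := SOU_range (hsum t ht).of_abs n
    rw [Finset.sum_range_eq_add_Ico _ hn, hb0, zero_add] at h
    show SOU (b t) 0 - _ = _
    linarith
  have hunif : TendstoUniformlyOn (fun (n : ℕ) s => ∑ l ∈ Finset.Ico 1 n, b s l) S atTop
      (Icc 0 T₁) := by
    rw [Metric.tendstoUniformlyOn_iff]
    intro ε hε
    obtain ⟨M, hM⟩ := SO_unif C (half_pos hε)
    filter_upwards [eventually_ge_atTop (max M 1)] with n hn t ht
    rw [Real.dist_eq, hpart t ht n (le_of_max_le_right hn)]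
    have h1 := hM (b t) (hb0 t) (hC t ht).1 (hC t ht).2
    have h2 := SOU_anti (hsum t ht) (fun l => abs_nonneg _) (le_of_max_le_left hn)
    have h3 := SOU_abs (hsum t ht) n
    linarith
  have hScont : ContinuousOn S (Icc 0 T₁) := by
    refine hunif.continuousOn (Frequently.of_forall fun n => ?_)
    exact continuousOn_finsetSum _ fun l _ =>
      (hcont l).mono fun t ht => ⟨ht.1, ht.2.trans_lt h1T⟩
  -- the derivative
  have hSder : ∀ t ∈ Ioo 0 T₁, HasDerivAt S (κ * ((S t ^ 2 + E) / 2)) t := by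
    intro t ht
    refine hasDerivAt_of_tendstoUniformlyOn (l := atTop) (s := Ioo 0 T₁)
      (f := fun (n : ℕ) s => ∑ l ∈ Finset.Ico 1 n, b s l)
      (f' := fun (n : ℕ) s => κ * ∑ l ∈ Finset.Ico 1 n, SOc (b s) l)
      (g' := fun s => κ * ((S s ^ 2 + E) / 2)) isOpen_Ioo ?_ ?_ ?_ ht
    · rw [Metric.tendstoUniformlyOn_iff]
      intro ε hε
      have hη : 0 < ε / (2 * (κ * (4 * A))) := by positivity
      obtain ⟨M, hM⟩ := SO_unif C hη
      filter_upwards [eventually_ge_atTop (max (2 * M) 1)] with n hn x hx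
      have hx' : x ∈ Icc 0 T₁ := ⟨hx.1.le, hx.2.le⟩
      have hx2 : x ∈ Ico 0 T := ⟨hx.1.le, hx.2.trans h1T⟩
      have h1 := hM (b x) (hb0 x) (hC x hx').1 (hC x hx').2
      have hMn : M ≤ n / 2 := by
        have := le_of_max_le_left hn
        omega
      have h2 := SOU_anti (hsum x hx') (fun l => abs_nonneg _) hMn
      have h3 := SO_sum (hb0 x) (hsum x hx') n (le_of_max_le_right hn)
      rw [hEn x hx2] at h3
      have h4 : SOU (fun l => |b x l|) 0 * SOU (fun l => |b x l|) (n / 2) ≤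
          A * (ε / (2 * (κ * (4 * A)))) :=
        mul_le_mul (hA x hx') (h2.trans h1) (SOU_nonneg (fun l => abs_nonneg _) _) hA0.le
      rw [Real.dist_eq, ← mul_sub, abs_mul, abs_of_pos hκ, abs_sub_comm]
      have h5 : κ * (4 * (A * (ε / (2 * (κ * (4 * A)))))) = ε / 2 := by
        field_simp
      have h6 : κ * |∑ l ∈ Finset.Ico 1 n, SOc (b x) l - (S x ^ 2 + E) / 2| ≤
          κ * (4 * (A * (ε / (2 * (κ * (4 * A)))))) :=
        mul_le_mul_of_nonneg_left (h3.trans (mul_le_mul_of_nonneg_left h4 (by norm_num))) hκ.le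
      rw [h5] at h6
      linarith
    · refine Eventually.of_forall fun n x hx => ?_
      have h1 : HasDerivAt (fun s => ∑ l ∈ Finset.Ico 1 n, b s l)
          (∑ l ∈ Finset.Ico 1 n, κ * SOc (b x) l) x := by
        refine HasDerivAt.fun_sum fun l hl => ?_
        exact hder x ⟨hx.1, hx.2.trans h1T⟩ l (Finset.mem_Ico.1 hl).1
      rw [← Finset.mul_sum] at h1
      exact h1
    · intro x hx
      exact hunif.tendsto_at ⟨hx.1.le, hx.2.le⟩
  -- the arctangent
  have hθc : ContinuousOn (fun t => Real.arctan (S t / r)) (Icc 0 T₁) :=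
    Real.continuous_arctan.comp_continuousOn (hScont.div_const r)
  have hθd : ∀ t ∈ Ioo 0 T₁, HasDerivAt (fun t => Real.arctan (S t / r)) (κ * r / 2) t := by
    intro t ht
    have h1 := ((hSder t ht).div_const r).arctan
    convert h1 using 1
    rw [← hrE]
    have h2 : 0 < S t ^ 2 + r ^ 2 := by positivity
    field_simp
    ring
  obtain ⟨c, -, hc⟩ := exists_hasDerivAt_eq_slope (fun t => Real.arctan (S t / r))
    (fun _ => κ * r / 2) hT10 hθc hθd
  have h1 := Real.arctan_lt_pi_div_two (S T₁ / r)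
  have h2 := Real.neg_pi_div_two_lt_arctan (S 0 / r)
  rw [sub_zero, eq_div_iff hT10.ne'] at hc
  have h3 : κ * r / 2 * T₁ < Real.pi := by
    rw [hc]
    linarith
  have h4 : Real.pi < κ * r / 2 * T₁ := by
    have h5 : κ * r / 2 * T₀ = Real.pi := by
      rw [hT₀]
      field_simp
    rw [← h5]
    exact mul_lt_mul_of_pos_left h01 (by positivity)
  linarith

end H706T.JSO

namespace H706T

alias lifespan := JSO.lifespan

end H706T
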