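import Pool.Agent.Helper706_TE.RD
import Pool.Agent.Helper706_TE.CD
import Pool.Agent.Helper706_TE.CP
import Pool.Agent.Helper706_TE.LC
import Pool.Agent.Helper706_TE.SO

/-!
The scalar equation for odd shear data and the blow-up.
-/

set_option autoImplicit false

open Set Filter Topology MeasureTheory
open scoped ComplexConjugate ContDiff

namespace H706T

variable {δ κ : ℝ} {N : ℕ} {M : K → K → W → W → W} {T : ℝ} {w u : ℝ → V → V} {q p : ℝ → V → ℝ}
  {n : K} {e f : V} {g : ℝ → ℝ}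

/-- The functional `a ↦ -Im (e·a)`. -/
noncomputable def bL (e : V) : W →L[ℝ] ℝ :=
  ∑ j, (-(e j)) • (Complex.imCLM.comp ((EuclideanSpace.proj j : W →L[ℂ] ℂ).restrictScalars ℝ))

theorem bL_apply (e : V) (a : W) : bL e a = ∑ j, -(e j) * (a j).im := by
  simp [bL]

theorem vW_apply (e : V) (j : Fin 3) : vW e j = (e j : ℂ) := rfl

theorem bL_smul (he : ∑ i, e i ^ 2 = 1) (c : ℂ) : bL e (c • vW e) = -c.im := by
  rw [bL_apply]
  have h1 : ∀ j, -(e j) * ((c • vW e) j).im = (-c.im) * e j ^ 2 := by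
    intro j
    rw [PiLp.smul_apply, vW_apply, smul_eq_mul, Complex.im_mul_ofReal]
    ring
  rw [Finset.sum_congr rfl fun j _ => h1 j, ← Finset.mul_sum, he, mul_one]

theorem norm_vW (he : ∑ i, e i ^ 2 = 1) : ‖vW e‖ = 1 := by
  rw [EuclideanSpace.norm_eq]
  have h1 : ∀ i, ‖vW e i‖ ^ 2 = e i ^ 2 := by
    intro i
    rw [vW_apply, Complex.norm_real, Real.norm_eq_abs, sq_abs]
  rw [Finset.sum_congr rfl fun i _ => h1 i, he, Real.sqrt_one]

/-- The Fourier coefficients of the profile. -/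
noncomputable def bc (w : ℝ → V → V) (n : K) (e : V) (t : ℝ) (l : ℤ) : ℝ :=
  bL e (coeff (w t) (l • n))

theorem smul_inj (hn : n ≠ 0) : Function.Injective fun l : ℤ => l • n := by
  intro l m h
  obtain ⟨i, hi⟩ := Function.ne_iff.1 hn
  have h1 := congrFun h i
  simp only [Pi.smul_apply, smul_eq_mul] at h1
  exact mul_right_cancel₀ hi h1

theorem nq_smul (l : ℤ) (n : K) : nq (l • n) = (l : ℝ) ^ 2 * nq n := by
  unfold nq
  rw [Finset.mul_sum]
  refine Finset.sum_congr rfl fun i _ => ?_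
  rw [Pi.smul_apply, smul_eq_mul]
  push_cast
  ring

namespace Shear

variable (S : Shear δ N M T w q n e f g)
include S

theorem coeff_par {t : ℝ} (ht : t ∈ Ico 0 T) (k : K) : ∃ c : ℂ, coeff (w t) k = c • vW e := by
  refine ⟨(∫ x in torus, ((∑ i, e i * w t x i : ℝ) : ℂ) * Complex.exp (-Complex.I * (dot k x : ℂ)))
    / (2 * Real.pi) ^ 3, ?_⟩
  ext i
  rw [JCB.coeff_apply, PiLp.smul_apply, vW_apply, smul_eq_mul, div_mul_eq_mul_div,
    ← integral_mul_const]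
  congr 2
  funext x
  have h1 := congrFun (S.par ht x) i
  rw [Pi.smul_apply, smul_eq_mul] at h1
  have h2 : (w t x i : ℂ) = ((∑ i, e i * w t x i : ℝ) : ℂ) * (e i : ℂ) := by
    rw [← Complex.ofReal_mul, ← h1]
  rw [h2]
  ring

theorem coeff_odd {t : ℝ} (ht : t ∈ Ico 0 T) (k : K) : coeff (w t) (-k) = -coeff (w t) k := by
  have h1 := JIW.coeff_act (v := w t) (v' := w t) (S.slice ht).continuous 1 (fun _ => -1) ?_ k
  · have e1 : actK 1 (fun _ => -1) k = -k := by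
      funext i
      simp [actK]
    have e2 : ∀ a : W, actW 1 (fun _ => -1) a = -a := by
      intro a
      ext i
      simp [actW]
    rw [e1, e2] at h1
    exact h1
  · intro x
    have e1 : ∀ y : V, actV 1 (fun _ => -1) y = -y := by
      intro y
      funext i
      simp [actV]
    rw [e1, e1]
    exact S.odd' ht x

theorem coeff_bc {t : ℝ} (ht : t ∈ Ico 0 T) (l : ℤ) :
    coeff (w t) (l • n) = (-Complex.I * (bc w n e t l : ℂ)) • vW e := by
  obtain ⟨c, hc⟩ := S.coeff_par ht (l • n)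
  have h1 : cj (coeff (w t) (l • n)) = -coeff (w t) (l • n) := by
    rw [← coeff_neg, S.coeff_odd ht]
  obtain ⟨i, hi⟩ : ∃ i, e i ≠ 0 := by
    by_contra hc
    push Not at hc
    have := S.eun
    simp [hc] at this
  rw [hc] at h1
  have h2 : conj (c * (e i : ℂ)) = -(c * (e i : ℂ)) := by
    have := congrArg (fun a : W => a i) h1
    exact this
  rw [map_mul, Complex.conj_ofReal] at h2
  have h3 : (e i : ℂ) ≠ 0 := by exact_mod_cast hi
  have h4 : conj c = -c := by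
    apply mul_right_cancel₀ h3
    rw [h2]; ring
  have h5 : c.re = 0 := by
    have := congrArg Complex.re h4
    rw [Complex.conj_re, Complex.neg_re] at this
    linarith
  have h6 : bc w n e t l = -c.im := by
    unfold bc
    rw [hc, bL_smul S.eun]
  rw [hc, h6]
  congr 1
  apply Complex.ext
  · simp [h5]
  · simp

theorem bc_neg {t : ℝ} (ht : t ∈ Ico 0 T) (l : ℤ) : bc w n e t (-l) = -bc w n e t l := by
  unfold bc
  rw [neg_smul, S.coeff_odd ht, map_neg]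

theorem bc_zero {t : ℝ} (ht : t ∈ Ico 0 T) : bc w n e t 0 = 0 := by
  have := S.bc_neg ht 0
  rw [neg_zero] at this
  linarith

theorem norm_bc {t : ℝ} (ht : t ∈ Ico 0 T) (l : ℤ) :
    ‖coeff (w t) (l • n)‖ ^ 2 = bc w n e t l ^ 2 := by
  rw [S.coeff_bc ht, norm_smul, norm_vW S.eun, mul_one, norm_mul, norm_neg, Complex.norm_I, one_mul,
    Complex.norm_real, Real.norm_eq_abs, sq_abs]

theorem one_le_nq : 1 ≤ nq n := JLS.one_le_nq S.nne

theorem bc_sq {t : ℝ} (ht : t ∈ Ico 0 T) : Summable fun l : ℤ => (l : ℝ) ^ 2 * bc w n e t l ^ 2 := by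
  have h1 := (coeff_sq (S.slice ht) (S.sol.periodic_u t ht)).1.comp_injective (smul_inj S.nne)
  refine Summable.of_nonneg_of_le (fun l => by positivity) (fun l => ?_) h1
  simp only [Function.comp]
  rw [nq_smul, S.norm_bc ht]
  have := S.one_le_nq
  have h3 : 0 ≤ (l : ℝ) ^ 2 * bc w n e t l ^ 2 := by positivity
  calc (l : ℝ) ^ 2 * bc w n e t l ^ 2 = 1 * ((l : ℝ) ^ 2 * bc w n e t l ^ 2) := by ring
    _ ≤ nq n * ((l : ℝ) ^ 2 * bc w n e t l ^ 2) := mul_le_mul_of_nonneg_right this h3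
    _ = (l : ℝ) ^ 2 * nq n * bc w n e t l ^ 2 := by ring

theorem bc_summable {t : ℝ} (ht : t ∈ Ico 0 T) : Summable fun l : ℤ => bc w n e t l := by
  have h1 : Summable fun l : ℤ => ((l : ℝ) ^ 2)⁻¹ + (l : ℝ) ^ 2 * bc w n e t l ^ 2 :=
    JLS.int_sum.summable.add (S.bc_sq ht)
  refine Summable.of_norm_bounded h1 fun l => ?_
  rw [Real.norm_eq_abs]
  by_cases hl : l = 0
  · subst hl
    rw [S.bc_zero ht]
    simp
  · have h2 : (0 : ℝ) < (l : ℝ) ^ 2 := by
      have : (l : ℝ) ≠ 0 := by exact_mod_cast hl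
      positivity
    set L : ℝ := |(l : ℝ)| with hL
    have hL0 : 0 < L := abs_pos.2 (by exact_mod_cast hl)
    have h3 : (l : ℝ) ^ 2 = L ^ 2 := (sq_abs _).symm
    rw [h3, ← sq_abs (bc w n e t l)]
    have h4 : |bc w n e t l| = L⁻¹ * (L * |bc w n e t l|) := by
      field_simp
    have h5 : 2 * (L⁻¹ * (L * |bc w n e t l|)) ≤ (L⁻¹) ^ 2 + (L * |bc w n e t l|) ^ 2 := by
      nlinarith [sq_nonneg (L⁻¹ - L * |bc w n e t l|)]
    have h6 : 0 ≤ L⁻¹ * (L * |bc w n e t l|) := by positivity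
    have h7 : (L ^ 2)⁻¹ = (L⁻¹) ^ 2 := (inv_pow _ _).symm
    rw [h7]
    nlinarith

theorem bc_bound {t B : ℝ} (ht : t ∈ Ico 0 T) (hB : ∀ x i j, |D (w t) x j i| ≤ B) :
    Summable (fun l : ℕ => (l : ℝ) ^ 2 * bc w n e t l ^ 2) ∧
      ∑' l : ℕ, (l : ℝ) ^ 2 * bc w n e t l ^ 2 ≤ (3 * B) ^ 2 := by
  obtain ⟨h1, h2⟩ := coeff_sq (S.slice ht) (S.sol.periodic_u t ht)
  have hinj : Function.Injective fun l : ℕ => (l : ℤ) • n :=
    (smul_inj S.nne).comp Nat.cast_injective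
  have h3 := h1.comp_injective hinj
  have h4 : ∀ l : ℕ, (l : ℝ) ^ 2 * bc w n e t l ^ 2
      ≤ ((fun k => nq k * ‖coeff (w t) k‖ ^ 2) ∘ fun l : ℕ => (l : ℤ) • n) l := by
    intro l
    simp only [Function.comp]
    rw [nq_smul, S.norm_bc ht]
    have := S.one_le_nq
    have h3 : 0 ≤ (l : ℝ) ^ 2 * bc w n e t l ^ 2 := by positivity
    calc (l : ℝ) ^ 2 * bc w n e t l ^ 2 = 1 * ((l : ℝ) ^ 2 * bc w n e t l ^ 2) := by ring
      _ ≤ nq n * ((l : ℝ) ^ 2 * bc w n e t l ^ 2) := mul_le_mul_of_nonneg_right this h3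
      _ = ((l : ℤ) : ℝ) ^ 2 * nq n * bc w n e t l ^ 2 := by push_cast; ring
  have h5 : Summable (fun l : ℕ => (l : ℝ) ^ 2 * bc w n e t l ^ 2) :=
    Summable.of_nonneg_of_le (fun l => by positivity) h4 h3
  refine ⟨h5, (h5.tsum_le_tsum h4 h3).trans ?_⟩
  refine le_trans ?_ (h2 B hB)
  exact tsum_comp_le_tsum_of_inj h1 (fun k => mul_nonneg (JLS.nq_nonneg k) (sq_nonneg _)) hinj

theorem bc_cont (l : ℤ) : ContinuousOn (fun t => bc w n e t l) (Ico 0 T) :=
  (bL e).continuous.comp_continuousOn (coeff_deriv S.sol.contDiffOn_u (l • n)).1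

theorem bc_deriv (hv : Val κ M n e) {t : ℝ} (ht : t ∈ Ioo 0 T) {l : ℕ} (hl : 0 < l) :
    HasDerivAt (fun s => bc w n e s l)
      (κ * (∑ m ∈ Finset.Ico 1 l, bc w n e t ((l - m : ℕ) : ℤ) * bc w n e t m
        - ∑' m : ℕ, bc w n e t ((m + 1 : ℕ) : ℤ) * bc w n e t ((l + m + 1 : ℕ) : ℤ))) t := by
  have htI : t ∈ Ico 0 T := ⟨ht.1.le, ht.2⟩
  have h1 := (coeff_deriv S.sol.contDiffOn_u ((l : ℤ) • n)).2 t ht
  have h2 : (fun x i => derivWithin (fun s => w s x i) (Ico 0 T) t) = op M (w t) (w t) := by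
    funext x i
    exact S.eqn htI x i
  rw [h2, coeff_op S.sy (S.summ htI)] at h1
  have hvL : ValL κ (fun _ _ => 1) M n e := by
    intro l m hl hm hlm
    rw [hv l m hl hm hlm, mul_one]
  have hLW : LW (fun _ _ => 1) := ⟨fun _ _ => rfl, fun _ _ => rfl, fun _ _ => rfl, fun _ _ => by simp⟩
  have h3 := line_conv S.sy S.sy2 S.nne hLW hvL (S.bc_summable htI) (S.bc_neg htI)
    (a := coeff (w t)) (S.coeff_bc htI) (S.supp htI) hl
  rw [h3] at h1
  have h4 := (bL e).hasFDerivAt.comp_hasDerivAt t h1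
  rw [bL_smul S.eun] at h4
  refine h4.congr_deriv ?_
  have h5 : ∀ r : ℝ, -((-Complex.I * (r : ℂ)).im) = r := by
    intro r
    simp
  rw [h5]
  simp only [one_mul]
  have h6 : ∑ m ∈ Finset.Ico 1 l, bc w n e t ((l : ℤ) - m) * bc w n e t m
      = ∑ m ∈ Finset.Ico 1 l, bc w n e t ((l - m : ℕ) : ℤ) * bc w n e t m := by
    refine Finset.sum_congr rfl fun m hm => ?_
    rw [Nat.cast_sub (Finset.mem_Ico.1 hm).2.le]
  rw [h6]
  push_cast
  rfl

theorem bc_energy {t : ℝ} (ht : t ∈ Ico 0 T) :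
    ∑' l : ℕ, bc w n e t l ^ 2
      = (((2 * Real.pi) ^ 3)⁻¹ * ∫ x in torus, ∑ i, w t x i ^ 2) / 2 := by
  have h1 := coeff_sq0 (S.slice ht).continuous (S.sol.periodic_u t ht)
  have h2 : HasSum ((fun k => ‖coeff (w t) k‖ ^ 2) ∘ fun l : ℤ => l • n)
      (((2 * Real.pi) ^ 3)⁻¹ * ∫ x in torus, ∑ i, w t x i ^ 2) := by
    rw [(smul_inj S.nne).hasSum_iff]
    · exact h1
    · intro k hk
      rw [S.supp ht k]
      · simp
      · intro l hl
        exact hk ⟨l, hl.symm⟩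
  have h3 : HasSum (fun l : ℤ => bc w n e t l ^ 2)
      (((2 * Real.pi) ^ 3)⁻¹ * ∫ x in torus, ∑ i, w t x i ^ 2) := by
    refine h2.congr_fun fun l => ?_
    simp only [Function.comp]
    rw [S.norm_bc ht]
  have h4 := h3.nat_add_neg
  rw [S.bc_zero ht] at h4
  have h5 : HasSum (fun l : ℕ => 2 * bc w n e t l ^ 2)
      (((2 * Real.pi) ^ 3)⁻¹ * (∫ x in torus, ∑ i, w t x i ^ 2) + 0 ^ 2) := by
    refine h4.congr_fun fun l => ?_
    rw [S.bc_neg ht]
    ring
  have h6 := h5.div_const 2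
  have h7 : (fun l : ℕ => bc w n e t l ^ 2) = fun l : ℕ => 2 * bc w n e t l ^ 2 / 2 := by
    funext l
    ring
  rw [h7, h6.tsum_eq]
  ring

/-- The blow-up. -/
theorem blowup (hκ : 0 < κ) (hv : Val κ M n e)
    (hU : 0 < ∫ x in torus, ∑ i, w 0 x i ^ 2) :
    T ≤ 2 * Real.pi / (κ * Real.sqrt ((((2 * Real.pi) ^ 3)⁻¹ *
      ∫ x in torus, ∑ i, w 0 x i ^ 2) / 2)) := by
  have hpi := Real.pi_pos
  set b : ℝ → ℕ → ℝ := fun t l => if l = 0 then 0 else bc w n e t l with hb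
  have hbI : ∀ t ∈ Ico 0 T, ∀ l : ℕ, b t l = bc w n e t l := by
    intro t ht l
    simp only [hb]
    split_ifs with h
    · rw [h, Nat.cast_zero, S.bc_zero ht]
    · rfl
  refine lifespan hκ (by positivity) (b := b) ?_ ?_ ?_ ?_ ?_
  · intro t
    simp only [hb, if_true]
  · intro T₁ hT
    obtain ⟨B, hB⟩ := grad_bdd S.sol hT
    refine ⟨(3 * B) ^ 2, fun t ht => ?_⟩
    have htI : t ∈ Ico 0 T := ⟨ht.1, ht.2.trans_lt hT⟩
    simp only [hbI t htI]
    exact S.bc_bound htI (hB t ht)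
  · intro l
    exact (S.bc_cont l).congr fun t ht => hbI t ht l
  · intro t ht l hl
    have htI : t ∈ Ico 0 T := ⟨ht.1.le, ht.2⟩
    have h1 := S.bc_deriv hv ht hl
    have h2 : (fun s => b s l) = fun s => bc w n e s l := by
      funext s
      simp only [hb, if_neg hl.ne']
    rw [h2]
    simp only [hbI t htI]
    exact h1
  · intro t ht
    simp only [hbI t ht]
    rw [S.bc_energy ht, energy_const S.dpos S.sy S.sy2 S.sol ht]

end Shear

end H706T
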