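import Pool.Agent.Helper706_TE.Sy6

/-!
Symbols of negative order: existence.
-/

set_option autoImplicit false

open Set Filter Topology MeasureTheory
open scoped ComplexConjugate ContDiff

namespace H706T

/-- The weighted symbol. -/
noncomputable def wsy (s : ℝ) (lam : ℕ → ℕ → ℝ) (M : K → K → W → W → W) : K → K → W → W → W :=
  fun p q a b => ((Lam s lam p q / 12 : ℝ) : ℂ) • M p q a b

variable {s δ κ : ℝ} {N : ℕ} {lam : ℕ → ℕ → ℝ} {M : K → K → W → W → W}

theorem dt_smul_l (z : ℂ) (a b : W) : dt (z • a) b = z * dt a b := by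
  unfold dt
  rw [Finset.mul_sum]
  refine Finset.sum_congr rfl fun j _ => ?_
  rw [PiLp.smul_apply, smul_eq_mul, mul_assoc]

theorem cj_smul_r (r : ℝ) (a : W) : cj ((r : ℂ) • a) = (r : ℂ) • cj a := by
  ext j
  change conj ((r : ℂ) * a j) = (r : ℂ) * conj (a j)
  rw [map_mul, Complex.conj_ofReal]

theorem wsy_le (hs : 0 ≤ s) (hw : Wt s lam) (h : IsSymbol δ M) (h2 : Sy2 N M) (p q : K) (a b : W) :
    ‖wsy s lam M p q a b‖ ≤ ‖M p q a b‖ := by
  unfold wsy
  by_cases hz : M p q a b = 0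
  · rw [hz, smul_zero]
  · obtain ⟨hc, hpq, -⟩ := h2.supp p q a b hz
    rw [norm_smul, Complex.norm_real, Real.norm_eq_abs,
      abs_of_nonneg (div_nonneg (Lam_nonneg hw p q) (by norm_num))]
    have h1 := Lam_le hs hw hc hpq
    have h3 : Lam s lam p q / 12 ≤ 1 := by linarith
    calc Lam s lam p q / 12 * ‖M p q a b‖ ≤ 1 * ‖M p q a b‖ :=
          mul_le_mul_of_nonneg_right h3 (norm_nonneg _)
      _ = ‖M p q a b‖ := one_mul _

theorem wsy_order (hs : 0 ≤ s) (hδ : 0 ≤ δ) (hw : Wt s lam) (h : IsSymbol δ M) (h2 : Sy2 N M)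
    (p q k : K) (a b : W) (hk : k = p ∨ k = q ∨ k = p + q) :
    Real.sqrt (nq k) ^ s * ‖wsy s lam M p q a b‖ ≤ δ * (‖a‖ * ‖b‖) := by
  unfold wsy
  by_cases hz : M p q a b = 0
  · rw [hz, smul_zero, norm_zero, mul_zero]
    positivity
  · obtain ⟨hc, hpq, -⟩ := h2.supp p q a b hz
    rw [norm_smul, Complex.norm_real, Real.norm_eq_abs,
      abs_of_nonneg (div_nonneg (Lam_nonneg hw p q) (by norm_num))]
    have h1 := Lam_bdd hs hw hc hpq hk
    have h3 : Real.sqrt (nq k) ^ s * (Lam s lam p q / 12) ≤ 1 := by linarith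
    calc Real.sqrt (nq k) ^ s * (Lam s lam p q / 12 * ‖M p q a b‖)
        = (Real.sqrt (nq k) ^ s * (Lam s lam p q / 12)) * ‖M p q a b‖ := by ring
      _ ≤ 1 * ‖M p q a b‖ := mul_le_mul_of_nonneg_right h3 (norm_nonneg _)
      _ = ‖M p q a b‖ := one_mul _
      _ ≤ δ * (‖a‖ * ‖b‖) := h.bdd p q a b

theorem wsy_symbol (hs : 0 ≤ s) (hw : Wt s lam) (h : IsSymbol δ M) (h2 : Sy2 N M) :
    IsSymbol δ (wsy s lam M) := by
  refine ⟨fun p q c a a' b => ?_, fun p q c a b b' => ?_, fun p q a b => ?_, fun p q a b => ?_,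
    fun p q a b => ?_⟩
  · unfold wsy
    rw [h.lin₁, smul_add, smul_smul, smul_smul, mul_comm c]
  · unfold wsy
    rw [h.lin₂, smul_add, smul_smul, smul_smul, mul_comm c]
  · exact (wsy_le hs hw h h2 p q a b).trans (h.bdd p q a b)
  · unfold wsy
    rw [h.real, Lam_neg, cj_smul_r]
  · unfold wsy
    have h1 := h.divf p q a b
    have h3 : ∀ j, (((p + q) j : ℤ) : ℂ) * (((Lam s lam p q / 12 : ℝ) : ℂ) • M p q a b) j
        = ((Lam s lam p q / 12 : ℝ) : ℂ) * ((((p + q) j : ℤ) : ℂ) * M p q a b j) := by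
      intro j
      rw [PiLp.smul_apply, smul_eq_mul]
      ring
    rw [Finset.sum_congr rfl fun j _ => h3 j, ← Finset.mul_sum, h1, mul_zero]

theorem wsy_sy2 (hw : Wt s lam) (h2 : Sy2 N M) : Sy2 N (wsy s lam M) := by
  refine ⟨fun p q a b hne => ?_, fun p q a b c => ?_, fun p q a b c => ?_, fun σ ε p q a b => ?_⟩
  · refine h2.supp p q a b ?_
    intro hz
    apply hne
    unfold wsy
    rw [hz, smul_zero]
  · unfold wsy
    rw [Lam_third hw, dt_smul_l, dt_smul_l, h2.skew, map_mul, Complex.conj_ofReal]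
    ring
  · unfold wsy
    rw [Lam_swap hw p q, Lam_p1 hw, Lam_p2 hw, Lam_p3 hw, Lam_p4 hw]
    rw [← smul_add, ← smul_add, ← smul_add, dt_smul_l, dt_smul_l, dt_smul_l, ← mul_add, ← mul_add,
      h2.hel, mul_zero]
  · unfold wsy
    rw [Lam_act, h2.eqv]
    exact (H706Y.actW_smul σ ε _ _).symm

theorem mu_sum {l m k : ℕ} (hl : 0 < l) (hm : 0 < m) (hk : k = l + m) : mu lam l m k = lam l m := by
  unfold mu
  rw [if_neg (by omega), if_pos hk]

/-- The weights on the multiples of one frequency. -/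
noncomputable def LL (lam : ℕ → ℕ → ℝ) (l m : ℤ) : ℝ :=
  mu lam l.natAbs m.natAbs (l + m).natAbs / 12

theorem LL_nat {l m : ℕ} (hl : 0 < l) (hm : 0 < m) : LL lam l m = lam l m / 12 := by
  unfold LL
  rw [mu_sum (by simpa using hl) (by simpa using hm)]
  · simp
  · omega

theorem mu_le (hs : 0 ≤ s) (hw : Wt s lam) (l m k : ℕ) : mu lam l m k ≤ 12 := by
  by_cases h0 : l = 0 ∨ m = 0 ∨ k = 0
  · unfold mu
    rw [if_pos h0]
    norm_num
  · push Not at h0
    obtain ⟨hl, hm, hk⟩ := h0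
    have h1 := mu_bdd hs hw (Nat.pos_of_ne_zero hl) (Nat.pos_of_ne_zero hm)
      (Nat.pos_of_ne_zero hk) (j := l) (Or.inl rfl)
    have h2 : 1 ≤ (l : ℝ) ^ s :=
      Real.one_le_rpow (by exact_mod_cast Nat.pos_of_ne_zero hl) hs
    have h3 := mu_nonneg hw l m k
    nlinarith

theorem LL_LW (hs : 0 ≤ s) (hw : Wt s lam) : LW (LL lam) := by
  refine ⟨fun l m => ?_, fun l m => ?_, fun l m => ?_, fun l m => ?_⟩
  · unfold LL
    rw [add_comm m l, mu_swap lam hw.symm]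
  · unfold LL
    rw [Int.natAbs_neg, Int.natAbs_neg, ← neg_add, Int.natAbs_neg]
  · unfold LL
    have : -l + (l + m) = m := by ring
    rw [Int.natAbs_neg, this, mu_rot lam hw.symm]
  · unfold LL
    rw [abs_of_nonneg (div_nonneg (mu_nonneg hw _ _ _) (by norm_num))]
    have := mu_le hs hw l.natAbs m.natAbs (l + m).natAbs
    linarith

theorem reflW_smul' (f : V) (c : ℂ) (a : W) : reflW f (c • a) = c • reflW f a :=
  H706Y.reflW_smul f c a

/-- Existence of the symbols of negative order. -/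
theorem exists_symbolN {s : ℝ} (hs : 0 ≤ s) {lam : ℕ → ℕ → ℝ} (hw : Wt s lam) {δ : ℝ} (hδ : 0 < δ)
    (N : ℕ) :
    ∃ M : K → K → W → W → W, IsSymbol δ M ∧ Sy2 N M ∧
      (∀ p q k a b, (k = p ∨ k = q ∨ k = p + q) →
        Real.sqrt (nq k) ^ s * ‖M p q a b‖ ≤ δ * (‖a‖ * ‖b‖)) ∧
      ∀ n : K, Gen n → (N : ℝ) ^ 2 ≤ nq n →
        ∃ e f : V, ∑ i, e i ^ 2 = 1 ∧ ∑ i, (n i : ℝ) * e i = 0 ∧
          ValL (δ / 256 * Real.sqrt (nq n) ^ (-s)) (LL lam) M n e ∧
          ∑ i, f i ^ 2 = 1 ∧ ∑ i, (n i : ℝ) * f i = 0 ∧ ∑ i, e i * f i = 0 ∧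
          ∀ (l m : ℤ) (a b : W), M (l • n) (m • n) (reflW f a) (reflW f b)
            = reflW f (M (l • n) (m • n) a b) := by
  obtain ⟨M, h, h2, hM⟩ := exists_symbol' hδ N
  refine ⟨wsy s lam M, wsy_symbol hs hw h h2, wsy_sy2 hw h2,
    fun p q k a b hk => wsy_order hs hδ.le hw h h2 p q k a b hk, fun n hn hN => ?_⟩
  obtain ⟨e, f, he1, he2, hval, hf1, hf2, hef, hrf⟩ := hM n hn hN
  have hn0 : n ≠ 0 := by
    obtain ⟨i, j, hi, -, -⟩ := hn
    rintro rfl
    exact hi rfl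
  refine ⟨e, f, he1, he2, fun l m hl hm hlm => ?_, hf1, hf2, hef, fun l m a b => ?_⟩
  · unfold wsy
    rw [Lam_swap hw (l • n) (m • n), ← smul_add, hval l m hl hm hlm, Lam_line hw hn0 hl hm hlm,
      smul_smul]
    congr 1
    unfold LL
    push_cast
    ring
  · unfold wsy
    rw [hrf, reflW_smul']

end H706T
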