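import Pool.Agent.Helper706_TE.Defs4

set_option autoImplicit false
open Set Filter Topology MeasureTheory
open scoped ComplexConjugate ContDiff

namespace H706T.JWA

/-- the weights by Euclidean recursion -/
noncomputable def lam0 (s : ℝ) (j m : ℕ) : ℝ :=
  if _h0 : j = 0 ∨ m = 0 then 0
  else if _h1 : j = m then (2 : ℝ) ^ (-(3 / 4) : ℝ) * (m : ℝ) ^ (-s)
  else if _h2 : m < j then
    ((j : ℝ) + m) ^ (1 / 4 : ℝ) * (1 / 2 * (m : ℝ) ^ (1 / 4 : ℝ) * (j : ℝ) ^ (-(1 / 2) - s)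
      + 1 / 2 * ((j : ℝ) - m) ^ (-(1 / 4) : ℝ) * lam0 s (j - m) m)
  else ((m : ℝ) + j) ^ (1 / 4 : ℝ) * (1 / 2 * (j : ℝ) ^ (1 / 4 : ℝ) * (m : ℝ) ^ (-(1 / 2) - s)
      + 1 / 2 * ((m : ℝ) - j) ^ (-(1 / 4) : ℝ) * lam0 s (m - j) j)
termination_by j + m

theorem lam0_zero (s : ℝ) (j m : ℕ) (h : j = 0 ∨ m = 0) : lam0 s j m = 0 := by
  rw [lam0, dif_pos h]

theorem lam0_diag (s : ℝ) (m : ℕ) (h : 0 < m) :
    lam0 s m m = (2 : ℝ) ^ (-(3 / 4) : ℝ) * (m : ℝ) ^ (-s) := by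
  rw [lam0, dif_neg (by omega), dif_pos rfl]

theorem lam0_lt (s : ℝ) (j m : ℕ) (h : 0 < m) (hj : m < j) :
    lam0 s j m = ((j : ℝ) + m) ^ (1 / 4 : ℝ) * (1 / 2 * (m : ℝ) ^ (1 / 4 : ℝ) *
      (j : ℝ) ^ (-(1 / 2) - s) + 1 / 2 * ((j : ℝ) - m) ^ (-(1 / 4) : ℝ) * lam0 s (j - m) m) := by
  rw [lam0, dif_neg (by omega), dif_neg (by omega), dif_pos hj]

theorem lam0_gt (s : ℝ) (j m : ℕ) (h : 0 < j) (hj : j < m) :
    lam0 s j m = ((m : ℝ) + j) ^ (1 / 4 : ℝ) * (1 / 2 * (j : ℝ) ^ (1 / 4 : ℝ) *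
      (m : ℝ) ^ (-(1 / 2) - s) + 1 / 2 * ((m : ℝ) - j) ^ (-(1 / 4) : ℝ) * lam0 s (m - j) j) := by
  rw [lam0, dif_neg (by omega), dif_neg (by omega), dif_neg (by omega)]

theorem lam0_symm (s : ℝ) (j m : ℕ) : lam0 s j m = lam0 s m j := by
  rcases Nat.eq_zero_or_pos j with hj | hj
  · rw [lam0_zero s j m (Or.inl hj), lam0_zero s m j (Or.inr hj)]
  rcases Nat.eq_zero_or_pos m with hm | hm
  · rw [lam0_zero s j m (Or.inr hm), lam0_zero s m j (Or.inl hm)]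
  rcases lt_trichotomy j m with h | h | h
  · rw [lam0_gt s j m hj h, lam0_lt s m j hj h]
  · rw [h]
  · rw [lam0_lt s j m hm h, lam0_gt s m j hm h]

theorem lam0_nonneg_aux (s : ℝ) : ∀ n j m : ℕ, j + m ≤ n → m ≤ j → 0 ≤ lam0 s j m := by
  intro n
  induction n with
  | zero =>
    intro j m h _
    rw [lam0_zero s j m (by omega)]
  | succ n ih =>
    intro j m h hjm
    rcases Nat.eq_zero_or_pos m with hm | hm
    · rw [lam0_zero s j m (Or.inr hm)]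
    rcases Nat.lt_or_eq_of_le hjm with hj | hj
    · have h1 : 0 ≤ lam0 s (j - m) m := by
        rcases le_total m (j - m) with h2 | h2
        · exact ih (j - m) m (by omega) h2
        · rw [lam0_symm]
          exact ih m (j - m) (by omega) h2
      rw [lam0_lt s j m hm hj]
      have h3 : (0 : ℝ) ≤ (j : ℝ) - m := by
        have : (m : ℝ) < j := by exact_mod_cast hj
        linarith
      positivity
    · subst hj
      rw [lam0_diag s m hm]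
      positivity

theorem lam0_nonneg (s : ℝ) (j m : ℕ) : 0 ≤ lam0 s j m := by
  rcases le_total m j with h | h
  · exact lam0_nonneg_aux s (j + m) j m le_rfl h
  · rw [lam0_symm]
    exact lam0_nonneg_aux s (m + j) m j le_rfl h

theorem lam0_homog_aux (s : ℝ) (c : ℕ) (hc : 0 < c) : ∀ n j m : ℕ, j + m ≤ n → m ≤ j →
    lam0 s (c * j) (c * m) = (c : ℝ) ^ (-s) * lam0 s j m := by
  have hc' : (0 : ℝ) < c := by exact_mod_cast hc
  intro n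
  induction n with
  | zero =>
    intro j m h _
    rw [lam0_zero s j m (by omega), lam0_zero s (c * j) (c * m) (by
      left
      have : j = 0 := by omega
      rw [this, Nat.mul_zero])]
    ring
  | succ n ih =>
    intro j m h hjm
    rcases Nat.eq_zero_or_pos m with hm | hm
    · rw [lam0_zero s j m (Or.inr hm), lam0_zero s (c * j) (c * m) (by right; rw [hm, Nat.mul_zero])]
      ring
    have hm' : (0 : ℝ) < m := by exact_mod_cast hm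
    rcases Nat.lt_or_eq_of_le hjm with hj | hj
    · have hj' : (m : ℝ) < j := by exact_mod_cast hj
      have hj0 : (0 : ℝ) < j := by linarith
      have h1 : lam0 s (c * (j - m)) (c * m) = (c : ℝ) ^ (-s) * lam0 s (j - m) m := by
        rcases le_total m (j - m) with h2 | h2
        · exact ih (j - m) m (by omega) h2
        · rw [lam0_symm, lam0_symm s (j - m) m]
          exact ih m (j - m) (by omega) h2
      have h2 : c * j - c * m = c * (j - m) := by rw [Nat.mul_sub]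
      rw [lam0_lt s (c * j) (c * m) (Nat.mul_pos hc hm) (Nat.mul_lt_mul_of_pos_left hj hc),
        lam0_lt s j m hm hj, h2, h1]
      push_cast
      have e1 : (c : ℝ) * j + c * m = c * (j + m) := by ring
      have e2 : (c : ℝ) * j - c * m = c * (j - m) := by ring
      rw [e1, e2, Real.mul_rpow hc'.le (by positivity), Real.mul_rpow hc'.le hm'.le,
        Real.mul_rpow hc'.le hj0.le, Real.mul_rpow hc'.le (by linarith : (0 : ℝ) ≤ (j : ℝ) - m)]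
      have e3 : (c : ℝ) ^ (1 / 4 : ℝ) * (c : ℝ) ^ (1 / 4 : ℝ) * (c : ℝ) ^ (-(1 / 2) - s) =
          (c : ℝ) ^ (-s) := by
        rw [← Real.rpow_add hc', ← Real.rpow_add hc']
        congr 1
        ring
      have e4 : (c : ℝ) ^ (1 / 4 : ℝ) * (c : ℝ) ^ (-(1 / 4) : ℝ) = 1 := by
        rw [← Real.rpow_add hc']
        norm_num
      calc (c : ℝ) ^ (1 / 4 : ℝ) * ((j : ℝ) + m) ^ (1 / 4 : ℝ) *
            (1 / 2 * ((c : ℝ) ^ (1 / 4 : ℝ) * (m : ℝ) ^ (1 / 4 : ℝ)) *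
              ((c : ℝ) ^ (-(1 / 2) - s) * (j : ℝ) ^ (-(1 / 2) - s)) +
              1 / 2 * ((c : ℝ) ^ (-(1 / 4) : ℝ) * ((j : ℝ) - m) ^ (-(1 / 4) : ℝ)) *
                ((c : ℝ) ^ (-s) * lam0 s (j - m) m))
          = ((c : ℝ) ^ (1 / 4 : ℝ) * (c : ℝ) ^ (1 / 4 : ℝ) * (c : ℝ) ^ (-(1 / 2) - s)) *
              (((j : ℝ) + m) ^ (1 / 4 : ℝ) * (1 / 2 * (m : ℝ) ^ (1 / 4 : ℝ) *
                (j : ℝ) ^ (-(1 / 2) - s))) +
            ((c : ℝ) ^ (1 / 4 : ℝ) * (c : ℝ) ^ (-(1 / 4) : ℝ)) * ((c : ℝ) ^ (-s) *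
              (((j : ℝ) + m) ^ (1 / 4 : ℝ) * (1 / 2 * ((j : ℝ) - m) ^ (-(1 / 4) : ℝ) *
                lam0 s (j - m) m))) := by ring
        _ = _ := by rw [e3, e4]; ring
    · subst hj
      rw [lam0_diag s m hm, lam0_diag s (c * m) (Nat.mul_pos hc hm)]
      push_cast
      rw [Real.mul_rpow hc'.le hm'.le]
      ring

theorem lam0_homog (s : ℝ) (c j m : ℕ) (hc : 0 < c) :
    lam0 s (c * j) (c * m) = (c : ℝ) ^ (-s) * lam0 s j m := by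
  rcases le_total m j with h | h
  · exact lam0_homog_aux s c hc (j + m) j m le_rfl h
  · rw [lam0_symm, lam0_symm s j m]
    exact lam0_homog_aux s c hc (m + j) m j le_rfl h

theorem r4 (x y : ℝ) (hx : 0 ≤ x) (hy : 0 ≤ y) (h : x ≤ y ^ 4) : x ^ (1 / 4 : ℝ) ≤ y := by
  calc x ^ (1 / 4 : ℝ) ≤ (y ^ 4) ^ (1 / 4 : ℝ) := Real.rpow_le_rpow hx h (by norm_num)
    _ = y := by
      rw [← Real.rpow_natCast, ← Real.rpow_mul hy]
      norm_num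

theorem num1 : (2 : ℝ) ^ (1 / 4 : ℝ) ≤ 1.19 := r4 _ _ (by norm_num) (by norm_num) (by norm_num)

theorem num2 : (3 / 2 : ℝ) ^ (1 / 4 : ℝ) ≤ 1.1068 :=
  r4 _ _ (by norm_num) (by norm_num) (by norm_num)

theorem num3 : (3 : ℝ) ^ (1 / 4 : ℝ) ≤ 1.3161 := r4 _ _ (by norm_num) (by norm_num) (by norm_num)

theorem num4 : (2 : ℝ) ^ (3 / 4 : ℝ) ≤ 1.682 := by
  have : (2 : ℝ) ^ (3 / 4 : ℝ) = (8 : ℝ) ^ (1 / 4 : ℝ) := by
    rw [show (8 : ℝ) = (2 : ℝ) ^ (3 : ℝ) by norm_num, ← Real.rpow_mul (by norm_num)]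
    norm_num
  rw [this]
  exact r4 _ _ (by norm_num) (by norm_num) (by norm_num)

theorem num5 : (2 : ℝ) ^ (1 / 2 : ℝ) ≤ 1.4143 := by
  have : (2 : ℝ) ^ (1 / 2 : ℝ) = (4 : ℝ) ^ (1 / 4 : ℝ) := by
    rw [show (4 : ℝ) = (2 : ℝ) ^ (2 : ℝ) by norm_num, ← Real.rpow_mul (by norm_num)]
    norm_num
  rw [this]
  exact r4 _ _ (by norm_num) (by norm_num) (by norm_num)

/-- negative powers of numbers which are at least half of `x` -/
theorem half_pow {x y a : ℝ} (hx : 0 < x) (hy : x / 2 ≤ y) (ha : 0 ≤ a) :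
    y ^ (-a) ≤ 2 ^ a * x ^ (-a) := by
  calc y ^ (-a) ≤ (x / 2) ^ (-a) :=
        Real.rpow_le_rpow_of_nonpos (by positivity) hy (by linarith)
    _ = 2 ^ a * x ^ (-a) := by
      rw [Real.div_rpow hx.le (by norm_num), Real.rpow_neg (by norm_num : (0 : ℝ) ≤ 2)]
      field_simp

theorem case1 {s x y : ℝ} (hs : 0 ≤ s) (hs' : s < 1 / 4) (hx : 0 < x) (hy : 0 < y)
    (h : 2 * y ≤ x) {l : ℝ} (hl : l ≤ 10 * (y ^ (1 / 4 : ℝ) * (x - y) ^ (-(1 / 4) - s))) :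
    (x + y) ^ (1 / 4 : ℝ) * (1 / 2 * y ^ (1 / 4 : ℝ) * x ^ (-(1 / 2) - s)
      + 1 / 2 * (x - y) ^ (-(1 / 4) : ℝ) * l) ≤ 10 * (y ^ (1 / 4 : ℝ) * x ^ (-(1 / 4) - s)) := by
  have hxy : 0 < x - y := by linarith
  have e1 : (x - y) ^ (-(1 / 4) : ℝ) * (x - y) ^ (-(1 / 4) - s) = (x - y) ^ (-(1 / 2 + s)) := by
    rw [← Real.rpow_add hxy]
    congr 1
    ring
  have b1 : (x - y) ^ (-(1 / 2 + s)) ≤ 2 ^ (1 / 2 + s) * x ^ (-(1 / 2 + s)) :=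
    half_pow hx (by linarith) (by linarith)
  have b2 : (2 : ℝ) ^ (1 / 2 + s) ≤ 1.682 :=
    le_trans (Real.rpow_le_rpow_of_exponent_le (by norm_num) (by linarith)) num4
  have b3 : (x + y) ^ (1 / 4 : ℝ) ≤ 1.1068 * x ^ (1 / 4 : ℝ) := by
    calc (x + y) ^ (1 / 4 : ℝ) ≤ (3 / 2 * x) ^ (1 / 4 : ℝ) :=
          Real.rpow_le_rpow (by linarith) (by linarith) (by norm_num)
      _ = (3 / 2 : ℝ) ^ (1 / 4 : ℝ) * x ^ (1 / 4 : ℝ) := Real.mul_rpow (by norm_num) hx.le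
      _ ≤ _ := mul_le_mul_of_nonneg_right num2 (by positivity)
  have e2 : x ^ (-(1 / 2) - s) = x ^ (-(1 / 2 + s)) := by
    congr 1
    ring
  have e3 : x ^ (1 / 4 : ℝ) * x ^ (-(1 / 2 + s)) = x ^ (-(1 / 4) - s) := by
    rw [← Real.rpow_add hx]
    congr 1
    ring
  have hX : 0 < x ^ (-(1 / 2 + s)) := by positivity
  have hY : 0 < y ^ (1 / 4 : ℝ) := by positivity
  have step : 1 / 2 * y ^ (1 / 4 : ℝ) * x ^ (-(1 / 2) - s) + 1 / 2 * (x - y) ^ (-(1 / 4) : ℝ) * l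
      ≤ 8.91 * (y ^ (1 / 4 : ℝ) * x ^ (-(1 / 2 + s))) := by
    have h1 : 1 / 2 * (x - y) ^ (-(1 / 4) : ℝ) * l ≤
        1 / 2 * (x - y) ^ (-(1 / 4) : ℝ) * (10 * (y ^ (1 / 4 : ℝ) * (x - y) ^ (-(1 / 4) - s))) :=
      mul_le_mul_of_nonneg_left hl (by positivity)
    have h2 : 1 / 2 * (x - y) ^ (-(1 / 4) : ℝ) * (10 * (y ^ (1 / 4 : ℝ) *
        (x - y) ^ (-(1 / 4) - s))) = 5 * y ^ (1 / 4 : ℝ) * (x - y) ^ (-(1 / 2 + s)) := by
      rw [← e1]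
      ring
    have h3 : (x - y) ^ (-(1 / 2 + s)) ≤ 1.682 * x ^ (-(1 / 2 + s)) :=
      le_trans b1 (mul_le_mul_of_nonneg_right b2 hX.le)
    have h4 : 5 * y ^ (1 / 4 : ℝ) * (x - y) ^ (-(1 / 2 + s)) ≤
        5 * y ^ (1 / 4 : ℝ) * (1.682 * x ^ (-(1 / 2 + s))) :=
      mul_le_mul_of_nonneg_left h3 (by positivity)
    rw [e2]
    nlinarith
  calc (x + y) ^ (1 / 4 : ℝ) * (1 / 2 * y ^ (1 / 4 : ℝ) * x ^ (-(1 / 2) - s)
      + 1 / 2 * (x - y) ^ (-(1 / 4) : ℝ) * l)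
      ≤ (x + y) ^ (1 / 4 : ℝ) * (8.91 * (y ^ (1 / 4 : ℝ) * x ^ (-(1 / 2 + s)))) :=
        mul_le_mul_of_nonneg_left step (by positivity)
    _ ≤ (1.1068 * x ^ (1 / 4 : ℝ)) * (8.91 * (y ^ (1 / 4 : ℝ) * x ^ (-(1 / 2 + s)))) :=
        mul_le_mul_of_nonneg_right b3 (by positivity)
    _ = (1.1068 * 8.91) * (y ^ (1 / 4 : ℝ) * (x ^ (1 / 4 : ℝ) * x ^ (-(1 / 2 + s)))) := by ring
    _ = (1.1068 * 8.91) * (y ^ (1 / 4 : ℝ) * x ^ (-(1 / 4) - s)) := by rw [e3]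
    _ ≤ _ := mul_le_mul_of_nonneg_right (by norm_num) (by positivity)

theorem case2 {s x y : ℝ} (hs : 0 ≤ s) (hs' : s < 1 / 4) (hx : 0 < x) (hy : 0 < y)
    (h : x ≤ 2 * y) (hyx : y < x) {l : ℝ}
    (hl : l ≤ 10 * ((x - y) ^ (1 / 4 : ℝ) * y ^ (-(1 / 4) - s))) :
    (x + y) ^ (1 / 4 : ℝ) * (1 / 2 * y ^ (1 / 4 : ℝ) * x ^ (-(1 / 2) - s)
      + 1 / 2 * (x - y) ^ (-(1 / 4) : ℝ) * l) ≤ 10 * (y ^ (1 / 4 : ℝ) * x ^ (-(1 / 4) - s)) := by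
  have hxy : 0 < x - y := by linarith
  have e1 : (x - y) ^ (-(1 / 4) : ℝ) * (x - y) ^ (1 / 4 : ℝ) = 1 := by
    rw [← Real.rpow_add hxy]
    norm_num
  have b3 : (x + y) ^ (1 / 4 : ℝ) ≤ 1.19 * x ^ (1 / 4 : ℝ) := by
    calc (x + y) ^ (1 / 4 : ℝ) ≤ (2 * x) ^ (1 / 4 : ℝ) :=
          Real.rpow_le_rpow (by linarith) (by linarith) (by norm_num)
      _ = (2 : ℝ) ^ (1 / 4 : ℝ) * x ^ (1 / 4 : ℝ) := Real.mul_rpow (by norm_num) hx.le
      _ ≤ _ := mul_le_mul_of_nonneg_right num1 (by positivity)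
  have b4 : (x + y) ^ (1 / 4 : ℝ) ≤ 1.3161 * y ^ (1 / 4 : ℝ) := by
    calc (x + y) ^ (1 / 4 : ℝ) ≤ (3 * y) ^ (1 / 4 : ℝ) :=
          Real.rpow_le_rpow (by linarith) (by linarith) (by norm_num)
      _ = (3 : ℝ) ^ (1 / 4 : ℝ) * y ^ (1 / 4 : ℝ) := Real.mul_rpow (by norm_num) hy.le
      _ ≤ _ := mul_le_mul_of_nonneg_right num3 (by positivity)
  have b5 : y ^ (-(1 / 4 + s)) ≤ 2 ^ (1 / 4 + s) * x ^ (-(1 / 4 + s)) :=
    half_pow hx (by linarith) (by linarith)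
  have b6 : (2 : ℝ) ^ (1 / 4 + s) ≤ 1.4143 :=
    le_trans (Real.rpow_le_rpow_of_exponent_le (by norm_num) (by linarith)) num5
  have b7 : y ^ (-(1 / 4 + s)) ≤ 1.4143 * x ^ (-(1 / 4 + s)) :=
    le_trans b5 (mul_le_mul_of_nonneg_right b6 (by positivity))
  have e2 : x ^ (-(1 / 4) - s) = x ^ (-(1 / 4 + s)) := by
    congr 1
    ring
  have e2' : y ^ (-(1 / 4) - s) = y ^ (-(1 / 4 + s)) := by
    congr 1
    ring
  have e3 : x ^ (1 / 4 : ℝ) * x ^ (-(1 / 2) - s) = x ^ (-(1 / 4 + s)) := by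
    rw [← Real.rpow_add hx]
    congr 1
    ring
  rw [e2'] at hl
  rw [e2]
  have h1 : 1 / 2 * (x - y) ^ (-(1 / 4) : ℝ) * l ≤ 5 * y ^ (-(1 / 4 + s)) := by
    calc 1 / 2 * (x - y) ^ (-(1 / 4) : ℝ) * l
        ≤ 1 / 2 * (x - y) ^ (-(1 / 4) : ℝ) *
          (10 * ((x - y) ^ (1 / 4 : ℝ) * y ^ (-(1 / 4 + s)))) :=
          mul_le_mul_of_nonneg_left hl (by positivity)
      _ = 5 * ((x - y) ^ (-(1 / 4) : ℝ) * (x - y) ^ (1 / 4 : ℝ)) * y ^ (-(1 / 4 + s)) := by ring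
      _ = _ := by rw [e1, mul_one]
  have t1 : (x + y) ^ (1 / 4 : ℝ) * (1 / 2 * y ^ (1 / 4 : ℝ) * x ^ (-(1 / 2) - s)) ≤
      0.595 * (y ^ (1 / 4 : ℝ) * x ^ (-(1 / 4 + s))) := by
    calc (x + y) ^ (1 / 4 : ℝ) * (1 / 2 * y ^ (1 / 4 : ℝ) * x ^ (-(1 / 2) - s))
        ≤ (1.19 * x ^ (1 / 4 : ℝ)) * (1 / 2 * y ^ (1 / 4 : ℝ) * x ^ (-(1 / 2) - s)) :=
          mul_le_mul_of_nonneg_right b3 (by positivity)
      _ = 0.595 * (y ^ (1 / 4 : ℝ) * (x ^ (1 / 4 : ℝ) * x ^ (-(1 / 2) - s))) := by ring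
      _ = _ := by rw [e3]
  have t2 : (x + y) ^ (1 / 4 : ℝ) * (5 * y ^ (-(1 / 4 + s))) ≤
      9.4 * (y ^ (1 / 4 : ℝ) * x ^ (-(1 / 4 + s))) := by
    calc (x + y) ^ (1 / 4 : ℝ) * (5 * y ^ (-(1 / 4 + s)))
        ≤ (1.3161 * y ^ (1 / 4 : ℝ)) * (5 * (1.4143 * x ^ (-(1 / 4 + s)))) :=
          mul_le_mul b4 (by linarith) (by positivity) (by positivity)
      _ = (1.3161 * 5 * 1.4143) * (y ^ (1 / 4 : ℝ) * x ^ (-(1 / 4 + s))) := by ring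
      _ ≤ _ := mul_le_mul_of_nonneg_right (by norm_num) (by positivity)
  calc (x + y) ^ (1 / 4 : ℝ) * (1 / 2 * y ^ (1 / 4 : ℝ) * x ^ (-(1 / 2) - s)
      + 1 / 2 * (x - y) ^ (-(1 / 4) : ℝ) * l)
      ≤ (x + y) ^ (1 / 4 : ℝ) * (1 / 2 * y ^ (1 / 4 : ℝ) * x ^ (-(1 / 2) - s)
        + 5 * y ^ (-(1 / 4 + s))) :=
        mul_le_mul_of_nonneg_left (by linarith) (by positivity)
    _ = (x + y) ^ (1 / 4 : ℝ) * (1 / 2 * y ^ (1 / 4 : ℝ) * x ^ (-(1 / 2) - s))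
        + (x + y) ^ (1 / 4 : ℝ) * (5 * y ^ (-(1 / 4 + s))) := by ring
    _ ≤ 0.595 * (y ^ (1 / 4 : ℝ) * x ^ (-(1 / 4 + s)))
        + 9.4 * (y ^ (1 / 4 : ℝ) * x ^ (-(1 / 4 + s))) := add_le_add t1 t2
    _ = 9.995 * (y ^ (1 / 4 : ℝ) * x ^ (-(1 / 4 + s))) := by ring
    _ ≤ _ := mul_le_mul_of_nonneg_right (by norm_num) (by positivity)

theorem lam0_bdd_aux {s : ℝ} (hs : 0 ≤ s) (hs' : s < 1 / 4) : ∀ n j m : ℕ, j + m ≤ n → 0 < m →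
    m ≤ j → lam0 s j m ≤ 10 * ((m : ℝ) ^ (1 / 4 : ℝ) * (j : ℝ) ^ (-(1 / 4) - s)) := by
  intro n
  induction n with
  | zero =>
    intro j m h hm _
    omega
  | succ n ih =>
    intro j m h hm hjm
    have hm' : (0 : ℝ) < m := by exact_mod_cast hm
    rcases Nat.lt_or_eq_of_le hjm with hj | hj
    · have hj' : (m : ℝ) < j := by exact_mod_cast hj
      have hj0 : (0 : ℝ) < j := by linarith
      rw [lam0_lt s j m hm hj]
      rcases le_total (2 * m) j with h2 | h2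
      · apply case1 hs hs' hj0 hm' (by exact_mod_cast h2)
        have := ih (j - m) m (by omega) hm (by omega)
        rw [Nat.cast_sub hjm] at this
        exact this
      · apply case2 hs hs' hj0 hm' (by exact_mod_cast h2) hj'
        have := ih m (j - m) (by omega) (by omega) (by omega)
        rw [Nat.cast_sub hjm] at this
        rw [lam0_symm]
        exact this
    · subst hj
      rw [lam0_diag s m hm]
      have e1 : (m : ℝ) ^ (1 / 4 : ℝ) * (m : ℝ) ^ (-(1 / 4) - s) = (m : ℝ) ^ (-s) := by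
        rw [← Real.rpow_add hm']
        congr 1
        ring
      rw [e1]
      apply mul_le_mul_of_nonneg_right _ (by positivity)
      calc (2 : ℝ) ^ (-(3 / 4) : ℝ) ≤ 1 :=
            Real.rpow_le_one_of_one_le_of_nonpos (by norm_num) (by norm_num)
        _ ≤ 10 := by norm_num

theorem lam0_bdd_le {s : ℝ} (hs : 0 ≤ s) (hs' : s < 1 / 4) (j m : ℕ) (hm : 0 < m) (h : m ≤ j) :
    lam0 s j m ≤ 12 * ((j : ℝ) + m) ^ (-s) := by
  have hm' : (0 : ℝ) < m := by exact_mod_cast hm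
  have hj' : (m : ℝ) ≤ j := by exact_mod_cast h
  have hj0 : (0 : ℝ) < j := by linarith
  have h1 := lam0_bdd_aux hs hs' (j + m) j m le_rfl hm h
  have h2 : (m : ℝ) ^ (1 / 4 : ℝ) ≤ (j : ℝ) ^ (1 / 4 : ℝ) :=
    Real.rpow_le_rpow hm'.le hj' (by norm_num)
  have e1 : (j : ℝ) ^ (1 / 4 : ℝ) * (j : ℝ) ^ (-(1 / 4) - s) = (j : ℝ) ^ (-s) := by
    rw [← Real.rpow_add hj0]
    congr 1
    ring
  have h3 : (m : ℝ) ^ (1 / 4 : ℝ) * (j : ℝ) ^ (-(1 / 4) - s) ≤ (j : ℝ) ^ (-s) := by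
    rw [← e1]
    exact mul_le_mul_of_nonneg_right h2 (by positivity)
  have h4 : (j : ℝ) ^ (-s) ≤ 2 ^ s * ((j : ℝ) + m) ^ (-s) :=
    half_pow (by positivity) (by linarith) hs
  have h5 : (2 : ℝ) ^ s ≤ 1.19 :=
    le_trans (Real.rpow_le_rpow_of_exponent_le (by norm_num) (by linarith)) num1
  have h6 : 0 < ((j : ℝ) + m) ^ (-s) := by positivity
  have h7 : (j : ℝ) ^ (-s) ≤ 1.19 * ((j : ℝ) + m) ^ (-s) :=
    le_trans h4 (mul_le_mul_of_nonneg_right h5 h6.le)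
  linarith

/-- TARGET -/
theorem exists_lam {s : ℝ} (hs : 0 ≤ s) (hs' : s < 1 / 4) : ∃ lam : ℕ → ℕ → ℝ, Wt s lam := by
  refine ⟨lam0 s, lam0_nonneg s, lam0_symm s, ?_, fun c j m hc => lam0_homog s c j m hc, ?_, ?_⟩
  · intro j m hj hm
    rcases le_total m j with h | h
    · exact lam0_bdd_le hs hs' j m hm h
    · rw [lam0_symm, add_comm]
      exact lam0_bdd_le hs hs' m j hj h
  · intro m hm
    have hm' : (0 : ℝ) < m := by exact_mod_cast hm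
    rw [lam0_diag s m hm, Real.mul_rpow (by norm_num) hm'.le]
    have e1 : (2 : ℝ) ^ (-(3 / 4) : ℝ) * (2 : ℝ) ^ (-(1 / 4) : ℝ) = 1 / 2 := by
      rw [← Real.rpow_add (by norm_num)]
      norm_num
    have e2 : (m : ℝ) ^ (-s) * (m : ℝ) ^ (-(1 / 4) : ℝ) = (m : ℝ) ^ (-s - 1 / 4) := by
      rw [← Real.rpow_add hm']
      congr 1
    calc (2 : ℝ) ^ (-(3 / 4) : ℝ) * (m : ℝ) ^ (-s) *
          ((2 : ℝ) ^ (-(1 / 4) : ℝ) * (m : ℝ) ^ (-(1 / 4) : ℝ))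
        = ((2 : ℝ) ^ (-(3 / 4) : ℝ) * (2 : ℝ) ^ (-(1 / 4) : ℝ)) *
          ((m : ℝ) ^ (-s) * (m : ℝ) ^ (-(1 / 4) : ℝ)) := by ring
      _ = _ := by rw [e1, e2]
  · intro j m hm hj
    have hm' : (0 : ℝ) < m := by exact_mod_cast hm
    have hj' : (m : ℝ) < j := by exact_mod_cast hj
    rw [lam0_lt s j m hm hj]
    have e1 : ((j : ℝ) + m) ^ (1 / 4 : ℝ) * ((j : ℝ) + m) ^ (-(1 / 4) : ℝ) = 1 := by
      rw [← Real.rpow_add (by linarith)]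
      norm_num
    calc 2 * (((j : ℝ) + m) ^ (1 / 4 : ℝ) * (1 / 2 * (m : ℝ) ^ (1 / 4 : ℝ) *
          (j : ℝ) ^ (-(1 / 2) - s) + 1 / 2 * ((j : ℝ) - m) ^ (-(1 / 4) : ℝ) * lam0 s (j - m) m) *
            ((j : ℝ) + m) ^ (-(1 / 4) : ℝ)) - lam0 s (j - m) m * ((j : ℝ) - m) ^ (-(1 / 4) : ℝ)
        = (((j : ℝ) + m) ^ (1 / 4 : ℝ) * ((j : ℝ) + m) ^ (-(1 / 4) : ℝ)) *
            ((m : ℝ) ^ (1 / 4 : ℝ) * (j : ℝ) ^ (-(1 / 2) - s)
              + ((j : ℝ) - m) ^ (-(1 / 4) : ℝ) * lam0 s (j - m) m)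
          - lam0 s (j - m) m * ((j : ℝ) - m) ^ (-(1 / 4) : ℝ) := by ring
      _ = _ := by rw [e1]; ring

end H706T.JWA

namespace H706T

alias exists_lam := JWA.exists_lam

end H706T
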