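import Pool.Agent.Helper706_TE.Defs4

set_option autoImplicit false
open Set Filter Topology MeasureTheory
open scoped ComplexConjugate ContDiff

namespace H706T.JWB

/-- TARGET -/
theorem flux_identity {s : ℝ} (hs : 0 ≤ s) (hs' : s < 1 / 4) {lam : ℕ → ℕ → ℝ} (h : Wt s lam)
    {b : ℕ → ℝ} (h0 : b 0 = 0) (hb : Summable fun l : ℕ => |b l|) :
    Summable (fun l : ℕ => |(l : ℝ) ^ (-(1 / 4) : ℝ) * qt lam b l|) ∧
    Summable (fun z : ℕ × ℕ => |((z.1 : ℝ) * z.2) ^ (1 / 4 : ℝ)
      * ((max z.1 z.2 : ℕ) : ℝ) ^ (-(3 / 4) - s) * (b z.1 * b z.2)|) ∧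
    ∑' l : ℕ, (l : ℝ) ^ (-(1 / 4) : ℝ) * qt lam b l
      = 1 / 2 * ∑' z : ℕ × ℕ, ((z.1 : ℝ) * z.2) ^ (1 / 4 : ℝ)
        * ((max z.1 z.2 : ℕ) : ℝ) ^ (-(3 / 4) - s) * (b z.1 * b z.2) := by
  classical
  have hBB : Summable (fun z : ℕ × ℕ => |b z.1| * |b z.2|) :=
    Summable.mul_of_nonneg hb hb (fun _ => abs_nonneg _) (fun _ => abs_nonneg _)
  have hpow1 : ∀ (x e : ℝ), 1 ≤ x → e ≤ 0 → x ^ e ≤ 1 := fun x e hx he =>
    Real.rpow_le_one_of_one_le_of_nonpos hx he
  have hlam : ∀ j m, 0 < j → 0 < m → |lam j m| ≤ 12 := by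
    intro j m hj hm
    rw [abs_of_nonneg (h.nonneg j m)]
    refine (h.bdd j m hj hm).trans ?_
    have hj' : (1 : ℝ) ≤ j := by exact_mod_cast hj
    have hm' : (1 : ℝ) ≤ m := by exact_mod_cast hm
    have := hpow1 ((j : ℝ) + m) (-s) (by linarith) (by linarith)
    linarith
  obtain ⟨F, hFdef⟩ : ∃ F : ℕ × ℕ → ℝ, ∀ j m, F (j, m) =
      ((j : ℝ) + m) ^ (-(1 / 4) : ℝ) * (lam j m * (b j * b m)) :=
    ⟨fun z => ((z.1 : ℝ) + z.2) ^ (-(1 / 4) : ℝ) * (lam z.1 z.2 * (b z.1 * b z.2)),
      fun _ _ => rfl⟩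
  obtain ⟨G, hGdef⟩ : ∃ G : ℕ × ℕ → ℝ, ∀ j m, G (j, m) =
      if m < j then ((j : ℝ) - m) ^ (-(1 / 4) : ℝ) * (lam (j - m) m * (b m * b j)) else 0 :=
    ⟨fun z => if z.2 < z.1 then
        ((z.1 : ℝ) - z.2) ^ (-(1 / 4) : ℝ) * (lam (z.1 - z.2) z.2 * (b z.2 * b z.1)) else 0,
      fun _ _ => rfl⟩
  obtain ⟨H, hHdef⟩ : ∃ H : ℕ × ℕ → ℝ, ∀ z, H z = ((z.1 : ℝ) * z.2) ^ (1 / 4 : ℝ)
      * ((max z.1 z.2 : ℕ) : ℝ) ^ (-(3 / 4) - s) * (b z.1 * b z.2) := ⟨_, fun _ => rfl⟩
  -- bounds
  have hFb : ∀ z, |F z| ≤ 12 * (|b z.1| * |b z.2|) := by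
    rintro ⟨j, m⟩
    rw [hFdef]
    simp only
    rcases Nat.eq_zero_or_pos j with rfl | hj
    · simp [h0]
    rcases Nat.eq_zero_or_pos m with rfl | hm
    · simp [h0]
    have hj' : (1 : ℝ) ≤ j := by exact_mod_cast hj
    have hm' : (1 : ℝ) ≤ m := by exact_mod_cast hm
    rw [abs_mul, abs_mul, abs_mul, abs_of_nonneg (Real.rpow_nonneg (by linarith) _)]
    have h1 := hpow1 ((j : ℝ) + m) (-(1 / 4)) (by linarith) (by norm_num)
    have h2 := hlam j m hj hm
    have h3 : (0 : ℝ) ≤ |b j| * |b m| := by positivity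
    calc ((j : ℝ) + m) ^ (-(1 / 4) : ℝ) * (|lam j m| * (|b j| * |b m|))
        ≤ 1 * (12 * (|b j| * |b m|)) := by
          apply mul_le_mul h1 (mul_le_mul_of_nonneg_right h2 h3) (by positivity) (by norm_num)
      _ = _ := by ring
  have hGb : ∀ z, |G z| ≤ 12 * (|b z.1| * |b z.2|) := by
    rintro ⟨j, m⟩
    rw [hGdef]
    simp only
    split_ifs with hjm
    · rcases Nat.eq_zero_or_pos m with rfl | hm
      · simp [h0]
      have hjm' : (m : ℝ) + 1 ≤ j := by exact_mod_cast hjm
      rw [abs_mul, abs_mul, abs_mul, abs_of_nonneg (Real.rpow_nonneg (by linarith) _)]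
      have h1 := hpow1 ((j : ℝ) - m) (-(1 / 4)) (by linarith) (by norm_num)
      have h2 := hlam (j - m) m (by omega) hm
      have h3 : (0 : ℝ) ≤ |b m| * |b j| := by positivity
      calc ((j : ℝ) - m) ^ (-(1 / 4) : ℝ) * (|lam (j - m) m| * (|b m| * |b j|))
          ≤ 1 * (12 * (|b m| * |b j|)) := by
            apply mul_le_mul h1 (mul_le_mul_of_nonneg_right h2 h3) (by positivity) (by norm_num)
        _ = _ := by ring
    · rw [abs_zero]; positivity
  have hHb : ∀ z, |H z| ≤ |b z.1| * |b z.2| := by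
    rintro ⟨j, m⟩
    rw [hHdef]
    simp only
    rcases Nat.eq_zero_or_pos j with rfl | hj
    · simp [h0]
    rcases Nat.eq_zero_or_pos m with rfl | hm
    · simp [h0]
    have hj' : (1 : ℝ) ≤ j := by exact_mod_cast hj
    have hm' : (1 : ℝ) ≤ m := by exact_mod_cast hm
    have hM : (1 : ℝ) ≤ ((max j m : ℕ) : ℝ) := by exact_mod_cast (le_max_of_le_left hj)
    have hjM : (j : ℝ) ≤ ((max j m : ℕ) : ℝ) := by exact_mod_cast (le_max_left j m)
    have hmM : (m : ℝ) ≤ ((max j m : ℕ) : ℝ) := by exact_mod_cast (le_max_right j m)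
    set M : ℝ := ((max j m : ℕ) : ℝ) with hMdef
    rw [abs_mul, abs_mul, abs_mul, abs_of_nonneg (Real.rpow_nonneg (by positivity) _),
      abs_of_nonneg (Real.rpow_nonneg (by linarith) _)]
    have h1 : ((j : ℝ) * m) ^ (1 / 4 : ℝ) ≤ M ^ (1 / 2 : ℝ) := by
      calc ((j : ℝ) * m) ^ (1 / 4 : ℝ) ≤ (M * M) ^ (1 / 4 : ℝ) := by
            apply Real.rpow_le_rpow (by positivity) _ (by norm_num)
            exact mul_le_mul hjM hmM (by linarith) (by linarith)
        _ = M ^ (1 / 2 : ℝ) := by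
            rw [Real.mul_rpow (by linarith) (by linarith), ← Real.rpow_add (by linarith)]
            norm_num
    have h2 : ((j : ℝ) * m) ^ (1 / 4 : ℝ) * M ^ (-(3 / 4) - s) ≤ 1 := by
      calc ((j : ℝ) * m) ^ (1 / 4 : ℝ) * M ^ (-(3 / 4) - s)
          ≤ M ^ (1 / 2 : ℝ) * M ^ (-(3 / 4) - s) := by
            apply mul_le_mul_of_nonneg_right h1 (Real.rpow_nonneg (by linarith) _)
        _ = M ^ (1 / 2 + (-(3 / 4) - s)) := by rw [← Real.rpow_add (by linarith)]
        _ ≤ 1 := hpow1 _ _ hM (by linarith)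
    calc _ ≤ 1 * (|b j| * |b m|) := by
          apply mul_le_mul_of_nonneg_right h2 (by positivity)
      _ = _ := by ring
  have hF : Summable F := Summable.of_abs
    (Summable.of_nonneg_of_le (fun _ => abs_nonneg _) hFb (hBB.mul_left 12))
  have hG : Summable G := Summable.of_abs
    (Summable.of_nonneg_of_le (fun _ => abs_nonneg _) hGb (hBB.mul_left 12))
  have hH : Summable H := Summable.of_abs
    (Summable.of_nonneg_of_le (fun _ => abs_nonneg _) hHb hBB)
  -- the injection
  let e : ℕ × ℕ → ℕ × ℕ := fun z => (z.1 + z.2, z.2)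
  have he : Function.Injective e := by
    rintro ⟨a, c⟩ ⟨a', c'⟩ hh
    simp only [e, Prod.mk.injEq] at hh
    obtain ⟨h1, h2⟩ := hh
    subst h2
    simp only [Prod.mk.injEq, and_true]
    omega
  have hGe : Summable (G ∘ e) := hG.comp_injective he
  have hGsum : ∑' z, (G ∘ e) z = ∑' z, G z := by
    apply he.tsum_eq
    rintro ⟨j, m⟩ hz
    rw [Function.mem_support, hGdef] at hz
    have hjm : m < j := by
      by_contra hc
      rw [if_neg hc] at hz
      exact hz rfl
    exact ⟨(j - m, m), by simp only [e, Prod.mk.injEq, and_true]; omega⟩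
  -- symmetry
  have hFsymm : ∀ j m, F (j, m) = F (m, j) := by
    intro j m
    rw [hFdef, hFdef, h.symm j m, add_comm (j : ℝ) m, mul_comm (b j) (b m)]
  have hHsymm : ∀ j m, H (j, m) = H (m, j) := by
    intro j m
    rw [hHdef, hHdef]
    simp only
    rw [mul_comm (j : ℝ) m, max_comm j m, mul_comm (b j) (b m)]
  -- key identity
  have key : ∀ l : ℕ, (l : ℝ) ^ (-(1 / 4) : ℝ) * qt lam b l
      = ∑ z ∈ Finset.HasAntidiagonal.antidiagonal l, F z - ∑' m : ℕ, (G ∘ e) (l, m) := by
    intro l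
    unfold qt
    rw [mul_sub]
    congr 1
    · rw [Finset.Nat.sum_antidiagonal_eq_sum_range_succ_mk, Finset.mul_sum]
      have hsub : Finset.Ico 1 l ⊆ Finset.range l.succ := by
        intro x hx
        rw [Finset.mem_Ico] at hx
        rw [Finset.mem_range]
        omega
      rw [← Finset.sum_subset hsub]
      · apply Finset.sum_congr rfl
        intro m hm
        rw [Finset.mem_Ico] at hm
        rw [hFsymm, hFdef]
        have : ((l - m : ℕ) : ℝ) + m = l := by
          rw [Nat.cast_sub (by omega)]; ring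
        rw [this]
      · intro x hx hx'
        rw [Finset.mem_range] at hx
        rw [Finset.mem_Ico] at hx'
        have : x = 0 ∨ x = l := by omega
        rcases this with rfl | rfl
        · rw [hFdef]; simp [h0]
        · rw [hFdef]; simp [h0]
    · have hs1 : Summable (fun m : ℕ => (G ∘ e) (l, m)) := hGe.prod_factor l
      rw [hs1.tsum_eq_zero_add]
      have hz : (G ∘ e) (l, 0) = 0 := by
        simp only [Function.comp, e]
        rw [hGdef]
        split_ifs
        · simp [h0]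
        · rfl
      rw [hz, zero_add, ← tsum_mul_left]
      apply tsum_congr
      intro m
      simp only [Function.comp, e]
      rw [hGdef]
      rcases Nat.eq_zero_or_pos l with rfl | hl
      · rw [if_neg (by omega)]
        rw [Nat.cast_zero, Real.zero_rpow (by norm_num), zero_mul]
      · rw [if_pos (by omega)]
        have h1 : ((l + (m + 1) : ℕ) : ℝ) - ((m + 1 : ℕ) : ℝ) = l := by push_cast; ring
        have h2 : l + (m + 1) - (m + 1) = l := by omega
        rw [h1, h2, ← add_assoc]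
  -- first summability and the sum
  have hFs : HasSum (fun l : ℕ => ∑ z ∈ Finset.HasAntidiagonal.antidiagonal l, F z) (∑' z, F z) := by
    have h1 := (Finset.HasAntidiagonal.sigmaAntidiagonalEquivProd (A := ℕ)).hasSum_iff.mpr hF.hasSum
    have h2 := h1.sigma (f := fun x => F (Finset.HasAntidiagonal.sigmaAntidiagonalEquivProd (A := ℕ) x))
      (g := fun l : ℕ => ∑ z ∈ Finset.HasAntidiagonal.antidiagonal l, F z) ?_
    · exact h2
    · intro l
      have := hasSum_fintype (fun c : Finset.HasAntidiagonal.antidiagonal l =>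
        F (Finset.HasAntidiagonal.sigmaAntidiagonalEquivProd (A := ℕ) ⟨l, c⟩))
      convert this using 1
      exact (Finset.sum_coe_sort (Finset.HasAntidiagonal.antidiagonal l) F).symm
  have hGs : HasSum (fun l : ℕ => ∑' m : ℕ, (G ∘ e) (l, m)) (∑' z, G z) := by
    rw [← hGsum]
    exact hGe.hasSum.prod_fiberwise (fun l => (hGe.prod_factor l).hasSum)
  have hQ : HasSum (fun l : ℕ => (l : ℝ) ^ (-(1 / 4) : ℝ) * qt lam b l)
      (∑' z, F z - ∑' z, G z) := by
    have := hFs.sub hGs
    exact this.congr_fun key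
  refine ⟨hQ.summable.abs, ?_, ?_⟩
  · have := hH.abs
    exact this.congr (fun z => by rw [hHdef])
  · rw [hQ.tsum_eq]
    have hHr : (∑' z : ℕ × ℕ, ((z.1 : ℝ) * z.2) ^ (1 / 4 : ℝ)
        * ((max z.1 z.2 : ℕ) : ℝ) ^ (-(3 / 4) - s) * (b z.1 * b z.2)) = ∑' z, H z :=
      tsum_congr (fun z => (hHdef z).symm)
    rw [hHr]
    -- generic splitting for symmetric functions
    have split : ∀ f : ℕ × ℕ → ℝ, Summable f → (∀ j m, f (j, m) = f (m, j)) →
        ∑' z, f z = ∑' z, ((if z.1 = z.2 then f z else 0) + 2 * (if z.2 < z.1 then f z else 0)) ∧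
        Summable (fun z => if z.1 = z.2 then f z else 0) ∧
        Summable (fun z => if z.2 < z.1 then f z else 0) := by
      intro f hf hsy
      have hle : ∀ (P : ℕ × ℕ → Prop) [DecidablePred P],
          Summable (fun z => if P z then f z else 0) := by
        intro P _
        have := hf.indicator {z | P z}
        refine this.congr (fun z => ?_)
        simp only [Set.indicator, Set.mem_ofPred_eq]
        by_cases hc : P z
        · exact (if_pos hc).trans (if_pos hc).symm
        · exact (if_neg hc).trans (if_neg hc).symm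
      have h1 := hle (fun z => z.1 = z.2)
      have h2 := hle (fun z => z.2 < z.1)
      have h3 := hle (fun z => z.1 < z.2)
      refine ⟨?_, h1, h2⟩
      have hsw : ∑' z : ℕ × ℕ, (if z.1 < z.2 then f z else 0)
          = ∑' z : ℕ × ℕ, (if z.2 < z.1 then f z else 0) := by
        rw [← (Equiv.prodComm ℕ ℕ).tsum_eq (fun z : ℕ × ℕ => if z.1 < z.2 then f z else 0)]
        apply tsum_congr
        rintro ⟨j, m⟩
        simp only [Equiv.prodComm_apply, Prod.swap_prod_mk]
        rw [hsy]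
      have hdec : ∀ z : ℕ × ℕ, f z = (if z.1 = z.2 then f z else 0)
          + (if z.2 < z.1 then f z else 0) + (if z.1 < z.2 then f z else 0) := by
        intro z
        rcases lt_trichotomy z.1 z.2 with hlt | heq | hgt
        · rw [if_neg (by omega), if_neg (by omega), if_pos hlt]; ring
        · rw [if_pos heq, if_neg (by omega), if_neg (by omega)]; ring
        · rw [if_neg (by omega), if_pos hgt, if_neg (by omega)]; ring
      rw [tsum_congr hdec, (h1.add h2).tsum_add h3, h1.tsum_add h2, hsw,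
        h1.tsum_add (h2.mul_left 2), tsum_mul_left]
      ring
    obtain ⟨hF1, hF2, hF3⟩ := split F hF hFsymm
    obtain ⟨hH1, hH2, hH3⟩ := split H hH hHsymm
    rw [hF1, hH1, ← (hF2.add (hF3.mul_left 2)).tsum_sub hG, ← tsum_mul_left]
    apply tsum_congr
    rintro ⟨j, m⟩
    simp only
    rcases lt_trichotomy j m with hlt | heq | hgt
    · rw [if_neg (by omega), if_neg (by omega), if_neg (by omega), if_neg (by omega), hGdef,
        if_neg (by omega)]
      ring
    · subst heq
      rw [if_pos rfl, if_neg (by omega), if_pos rfl, if_neg (by omega), hGdef, if_neg (by omega)]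
      rcases Nat.eq_zero_or_pos j with rfl | hj
      · rw [hFdef, hHdef]; simp [h0]
      have hj' : (0 : ℝ) < j := by exact_mod_cast hj
      have hd := h.diag j hj
      rw [hFdef, hHdef]
      simp only [max_self]
      have e1 : ((j : ℝ) * j) ^ (1 / 4 : ℝ) * (j : ℝ) ^ (-(3 / 4) - s) = (j : ℝ) ^ (-s - 1 / 4) := by
        rw [Real.mul_rpow hj'.le hj'.le, ← Real.rpow_add hj', ← Real.rpow_add hj']
        congr 1
        ring
      rw [e1, ← two_mul (j : ℝ)]
      have : (2 * (j : ℝ)) ^ (-(1 / 4) : ℝ) * (lam j j * (b j * b j))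
          = (lam j j * (2 * (j : ℝ)) ^ (-(1 / 4) : ℝ)) * (b j * b j) := by ring
      rw [this, hd]
      ring
    · rw [if_neg (by omega), if_pos hgt, if_neg (by omega), if_pos hgt, hGdef, if_pos hgt]
      rcases Nat.eq_zero_or_pos m with rfl | hm
      · rw [hFdef, hHdef]; simp [h0]
      have hm' : (0 : ℝ) < m := by exact_mod_cast hm
      have hj' : (0 : ℝ) < j := lt_trans hm' (by exact_mod_cast hgt)
      have hr := h.recu j m hm hgt
      rw [hFdef, hHdef]
      simp only [max_eq_left hgt.le]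
      have e1 : ((j : ℝ) * m) ^ (1 / 4 : ℝ) * (j : ℝ) ^ (-(3 / 4) - s)
          = (m : ℝ) ^ (1 / 4 : ℝ) * (j : ℝ) ^ (-(1 / 2) - s) := by
        rw [Real.mul_rpow hj'.le hm'.le]
        have : (j : ℝ) ^ (-(1 / 2) - s) = (j : ℝ) ^ (1 / 4 : ℝ) * (j : ℝ) ^ (-(3 / 4) - s) := by
          rw [← Real.rpow_add hj']
          congr 1
          ring
        rw [this]
        ring
      rw [e1, ← hr]
      ring

end H706T.JWB

namespace H706T

alias flux_identity := JWB.flux_identity

end H706T
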