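import Pool.Agent.Helper706_TE.Defs4

set_option autoImplicit false
open Set Filter Topology MeasureTheory
open scoped ComplexConjugate ContDiff

namespace H706T.JWC

/-- the exponent inequality -/
theorem aux_ineq {a p : ℝ} (ha : 0 < a) (ha1 : a ≤ 1) (hp : 1 / 2 ≤ p) (hp1 : p < 1) :
    2 * (1 - p) * (1 - a ^ (1 / 2 : ℝ)) ^ 2 ≤ (1 - a ^ p) * (1 - a ^ (1 - p)) := by
  have h1 : a ^ (1 / 2 : ℝ) ≤ 1 := Real.rpow_le_one ha.le ha1 (by norm_num)
  have h2 : a ^ p ≤ a ^ (1 / 2 : ℝ) := Real.rpow_le_rpow_of_exponent_ge ha ha1 hp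
  have h3 : a ^ (1 - p) ≤ 1 + (2 * (1 - p)) * (a ^ (1 / 2 : ℝ) - 1) := by
    have h := rpow_one_add_le_one_add_mul_self (s := a ^ (1 / 2 : ℝ) - 1)
      (by linarith [Real.rpow_nonneg ha.le (1 / 2 : ℝ)]) (p := 2 * (1 - p)) (by linarith) (by linarith)
    have e : (1 + (a ^ (1 / 2 : ℝ) - 1)) ^ (2 * (1 - p)) = a ^ (1 - p) := by
      rw [show 1 + (a ^ (1 / 2 : ℝ) - 1) = a ^ (1 / 2 : ℝ) by ring, ← Real.rpow_mul ha.le]
      congr 1
      ring
    rw [e] at h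
    exact h
  have h4 : 2 * (1 - p) * (1 - a ^ (1 / 2 : ℝ)) ≤ 1 - a ^ (1 - p) := by linarith
  have h5 : 1 - a ^ (1 / 2 : ℝ) ≤ 1 - a ^ p := by linarith
  calc 2 * (1 - p) * (1 - a ^ (1 / 2 : ℝ)) ^ 2
      = (1 - a ^ (1 / 2 : ℝ)) * (2 * (1 - p) * (1 - a ^ (1 / 2 : ℝ))) := by ring
    _ ≤ (1 - a ^ p) * (1 - a ^ (1 - p)) :=
        mul_le_mul h5 h4 (by
          have : 0 ≤ 1 - p := by linarith
          have : 0 ≤ 1 - a ^ (1 / 2 : ℝ) := by linarith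
          positivity) (by linarith)

theorem aux_step {x y p : ℝ} (hx : 0 < x) (hxy : x ≤ y) (hp : 1 / 2 ≤ p) (hp1 : p < 1) :
    2 * (1 - p) * (x ^ (-(1 / 2) : ℝ) - y ^ (-(1 / 2) : ℝ)) ^ 2
      ≤ (x ^ (-p) - y ^ (-p)) * (x ^ (p - 1) - y ^ (p - 1)) := by
  have hy : 0 < y := lt_of_lt_of_le hx hxy
  have key := aux_ineq (a := x / y) (div_pos hx hy) ((div_le_one hy).2 hxy) hp hp1
  have hq : ∀ q : ℝ, y ^ (-q) = x ^ (-q) * (x / y) ^ q := by
    intro q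
    rw [Real.div_rpow hx.le hy.le, Real.rpow_neg hy.le, Real.rpow_neg hx.le]
    have := (Real.rpow_pos_of_pos hx q).ne'
    field_simp
  have e1 : x ^ (-(1 / 2) : ℝ) - y ^ (-(1 / 2) : ℝ) = x ^ (-(1 / 2) : ℝ) * (1 - (x / y) ^ (1 / 2 : ℝ)) := by
    rw [hq]; ring
  have e2 : x ^ (-p) - y ^ (-p) = x ^ (-p) * (1 - (x / y) ^ p) := by rw [hq]; ring
  have e3 : x ^ (p - 1) - y ^ (p - 1) = x ^ (p - 1) * (1 - (x / y) ^ (1 - p)) := by
    have := hq (1 - p)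
    rw [show -(1 - p) = p - 1 by ring] at this
    rw [this]; ring
  have e4 : (x ^ (-(1 / 2) : ℝ)) ^ 2 = x ^ (-1 : ℝ) := by
    rw [← Real.rpow_natCast, ← Real.rpow_mul hx.le]; norm_num
  have e5 : x ^ (-p) * x ^ (p - 1) = x ^ (-1 : ℝ) := by
    rw [← Real.rpow_add hx]; congr 1; ring
  rw [e1, e2, e3]
  calc 2 * (1 - p) * (x ^ (-(1 / 2) : ℝ) * (1 - (x / y) ^ (1 / 2 : ℝ))) ^ 2
      = (x ^ (-(1 / 2) : ℝ)) ^ 2 * (2 * (1 - p) * (1 - (x / y) ^ (1 / 2 : ℝ)) ^ 2) := by ring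
    _ = x ^ (-1 : ℝ) * (2 * (1 - p) * (1 - (x / y) ^ (1 / 2 : ℝ)) ^ 2) := by rw [e4]
    _ ≤ x ^ (-1 : ℝ) * ((1 - (x / y) ^ p) * (1 - (x / y) ^ (1 - p))) :=
        mul_le_mul_of_nonneg_left key (Real.rpow_nonneg hx.le _)
    _ = x ^ (-p) * (1 - (x / y) ^ p) * (x ^ (p - 1) * (1 - (x / y) ^ (1 - p))) := by
        rw [← e5]; ring

/-- Cauchy-Schwarz step -/
theorem aux_cs {P R a G β c d : ℝ} (hR : 0 ≤ R) (hc : 0 ≤ c) (hβ : 0 ≤ β) (hd : 0 ≤ d)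
    (h1 : P ^ 2 ≤ c * R) (h2 : a ^ 2 ≤ β * d) :
    (P + a * G) ^ 2 ≤ (c + d) * (R + β * G ^ 2) := by
  have h3 : (a * G) ^ 2 ≤ d * (β * G ^ 2) := by nlinarith [sq_nonneg G]
  have h4 : 0 ≤ c * (β * G ^ 2) := by positivity
  have h5 : 0 ≤ d * R := by positivity
  have h6 : (P * (a * G)) ^ 2 ≤ (c * (β * G ^ 2)) * (d * R) := by
    calc (P * (a * G)) ^ 2 = P ^ 2 * (a * G) ^ 2 := by ring
      _ ≤ (c * R) * (d * (β * G ^ 2)) := mul_le_mul h1 h3 (sq_nonneg _) (by positivity)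
      _ = _ := by ring
  have h7 : 2 * (P * (a * G)) ≤ c * (β * G ^ 2) + d * R := by
    have h8 : (2 * (P * (a * G))) ^ 2 ≤ (c * (β * G ^ 2) + d * R) ^ 2 := by
      nlinarith [sq_nonneg (c * (β * G ^ 2) - d * R)]
    exact le_trans (le_abs_self _) (abs_le_of_sq_le_sq h8 (by positivity))
  nlinarith [h1, h3, h7]

theorem fin_ineq {p : ℝ} (hp : 1 / 2 ≤ p) (hp1 : p < 1) {b : ℕ → ℝ} (h0 : b 0 = 0) (K : ℕ) (hK : 1 ≤ K) :
    2 * (1 - p) * (∑ l ∈ Finset.range (K + 1), (l : ℝ) ^ (-(1 / 4) : ℝ) * b l) ^ 2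
      ≤ ∑ j ∈ Finset.range (K + 1), ∑ m ∈ Finset.range (K + 1), ((j : ℝ) * m) ^ (1 / 4 : ℝ)
        * ((max j m : ℕ) : ℝ) ^ (-p) * (b j * b m) := by
  set g : ℕ → ℝ := fun j => (j : ℝ) ^ (1 / 4 : ℝ) * b j with hg
  set G : ℕ → ℝ := fun N => ∑ j ∈ Finset.range (N + 1), g j with hG
  set al : ℕ → ℝ := fun N => (N : ℝ) ^ (-(1 / 2) : ℝ) - ((N : ℝ) + 1) ^ (-(1 / 2) : ℝ) with hal
  set be : ℕ → ℝ := fun N => (N : ℝ) ^ (-p) - ((N : ℝ) + 1) ^ (-p) with hbe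
  set P : ℕ → ℝ := fun M => ∑ N ∈ Finset.Ico 1 M, al N * G N with hP
  set R : ℕ → ℝ := fun M => ∑ N ∈ Finset.Ico 1 M, be N * G N ^ 2 with hR
  have hGs : ∀ M, G (M + 1) = G M + g (M + 1) := fun M => Finset.sum_range_succ _ _
  have hG0 : G 0 = 0 := by simp [hG, hg, h0]
  have hPs : ∀ M, 1 ≤ M → P (M + 1) = P M + al M * G M := fun M hM =>
    Finset.sum_Ico_succ_top hM _
  have hRs : ∀ M, 1 ≤ M → R (M + 1) = R M + be M * G M ^ 2 := fun M hM =>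
    Finset.sum_Ico_succ_top hM _
  -- (i)
  have hS : ∀ M, 1 ≤ M → ∑ l ∈ Finset.range (M + 1), (l : ℝ) ^ (-(1 / 4) : ℝ) * b l
      = P M + (M : ℝ) ^ (-(1 / 2) : ℝ) * G M := by
    intro M hM
    induction M, hM using Nat.le_induction with
    | base =>
      simp [hP, hG, hg, h0, Finset.sum_range_succ]
    | succ M hM ih =>
      rw [Finset.sum_range_succ, ih, hPs M hM, hGs M]
      have hM0 : (0 : ℝ) < ((M + 1 : ℕ) : ℝ) := by positivity
      have e : ((M + 1 : ℕ) : ℝ) ^ (-(1 / 2) : ℝ) * ((M + 1 : ℕ) : ℝ) ^ (1 / 4 : ℝ)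
          = ((M + 1 : ℕ) : ℝ) ^ (-(1 / 4) : ℝ) := by
        rw [← Real.rpow_add hM0]; norm_num
      simp only [hg, hal]
      rw [← e]
      push_cast
      ring
  -- (ii)
  have hQ : ∀ M, 1 ≤ M → ∑ j ∈ Finset.range (M + 1), ∑ m ∈ Finset.range (M + 1),
      ((j : ℝ) * m) ^ (1 / 4 : ℝ) * ((max j m : ℕ) : ℝ) ^ (-p) * (b j * b m)
      = R M + (M : ℝ) ^ (-p) * G M ^ 2 := by
    intro M hM
    induction M, hM using Nat.le_induction with
    | base =>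
      simp [hR, hG, hg, h0, Finset.sum_range_succ]
      ring
    | succ M hM ih =>
      rw [Finset.sum_range_succ (n := M + 1)]
      have hrow : ∑ j ∈ Finset.range (M + 1), ∑ m ∈ Finset.range (M + 1 + 1),
          ((j : ℝ) * m) ^ (1 / 4 : ℝ) * ((max j m : ℕ) : ℝ) ^ (-p) * (b j * b m)
          = (R M + (M : ℝ) ^ (-p) * G M ^ 2)
            + ((M + 1 : ℕ) : ℝ) ^ (-p) * g (M + 1) * G M := by
        have : ∀ j ∈ Finset.range (M + 1), ∑ m ∈ Finset.range (M + 1 + 1),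
            ((j : ℝ) * m) ^ (1 / 4 : ℝ) * ((max j m : ℕ) : ℝ) ^ (-p) * (b j * b m)
            = ∑ m ∈ Finset.range (M + 1),
            ((j : ℝ) * m) ^ (1 / 4 : ℝ) * ((max j m : ℕ) : ℝ) ^ (-p) * (b j * b m)
              + ((M + 1 : ℕ) : ℝ) ^ (-p) * g (M + 1) * g j := by
          intro j hj
          rw [Finset.sum_range_succ]
          have hj' : max j (M + 1) = M + 1 := max_eq_right (Finset.mem_range.1 hj).le
          rw [hj', Real.mul_rpow (by positivity) (by positivity)]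
          simp only [hg]
          ring
        rw [Finset.sum_congr rfl this, Finset.sum_add_distrib, ih, ← Finset.mul_sum]
      have hcol : ∑ m ∈ Finset.range (M + 1 + 1),
          (((M + 1 : ℕ) : ℝ) * m) ^ (1 / 4 : ℝ) * ((max (M + 1) m : ℕ) : ℝ) ^ (-p) * (b (M + 1) * b m)
          = ((M + 1 : ℕ) : ℝ) ^ (-p) * g (M + 1) * G (M + 1) := by
        have : ∀ m ∈ Finset.range (M + 1 + 1),
            (((M + 1 : ℕ) : ℝ) * m) ^ (1 / 4 : ℝ) * ((max (M + 1) m : ℕ) : ℝ) ^ (-p) * (b (M + 1) * b m)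
            = ((M + 1 : ℕ) : ℝ) ^ (-p) * g (M + 1) * g m := by
          intro m hm
          have hm' : max (M + 1) m = M + 1 := max_eq_left (Nat.lt_succ_iff.1 (Finset.mem_range.1 hm))
          rw [hm', Real.mul_rpow (by positivity) (by positivity)]
          simp only [hg]
          ring
        rw [Finset.sum_congr rfl this, ← Finset.mul_sum]
      rw [hrow, hcol, hRs M hM, hGs M]
      simp only [hbe]
      push_cast
      ring
  -- (iii)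
  have hPR : ∀ M, 1 ≤ M → 0 ≤ R M ∧
      2 * (1 - p) * P M ^ 2 ≤ (1 - (M : ℝ) ^ (p - 1)) * R M := by
    intro M hM
    induction M, hM using Nat.le_induction with
    | base => simp [hP, hR]
    | succ M hM ih =>
      have hM0 : (0 : ℝ) < (M : ℝ) := by exact_mod_cast hM
      have hst := aux_step (x := (M : ℝ)) (y := (M : ℝ) + 1) hM0 (by linarith) hp hp1
      have hbe0 : 0 ≤ be M := by
        simp only [hbe]
        have := Real.rpow_le_rpow_of_nonpos hM0 (by linarith : (M : ℝ) ≤ (M : ℝ) + 1) (by linarith : -p ≤ 0)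
        linarith
      have hde0 : 0 ≤ (M : ℝ) ^ (p - 1) - ((M : ℝ) + 1) ^ (p - 1) := by
        have := Real.rpow_le_rpow_of_nonpos hM0 (by linarith : (M : ℝ) ≤ (M : ℝ) + 1) (by linarith : p - 1 ≤ 0)
        linarith
      have hu1 : (M : ℝ) ^ (p - 1) ≤ 1 :=
        Real.rpow_le_one_of_one_le_of_nonpos (by exact_mod_cast hM) (by linarith)
      have h2p : 0 < 2 * (1 - p) := by linarith
      refine ⟨by rw [hRs M hM]; have := ih.1; positivity, ?_⟩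
      rw [hRs M hM, hPs M hM]
      have key := aux_cs (P := P M) (R := R M) (a := al M) (G := G M) (β := be M)
        (c := (1 - (M : ℝ) ^ (p - 1)) / (2 * (1 - p)))
        (d := ((M : ℝ) ^ (p - 1) - ((M : ℝ) + 1) ^ (p - 1)) / (2 * (1 - p)))
        ih.1 (div_nonneg (by linarith) h2p.le) hbe0 (div_nonneg hde0 h2p.le)
        (by
          rw [div_mul_eq_mul_div, le_div_iff₀ h2p]
          linarith [ih.2])
        (by
          rw [mul_div_assoc', le_div_iff₀ h2p]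
          simp only [hal, hbe]
          linarith [hst])
      rw [← add_div, div_mul_eq_mul_div, le_div_iff₀ h2p] at key
      push_cast
      calc 2 * (1 - p) * (P M + al M * G M) ^ 2 = (P M + al M * G M) ^ 2 * (2 * (1 - p)) := by ring
        _ ≤ _ := key
        _ = _ := by ring
  rw [hS K hK, hQ K hK]
  obtain ⟨hR0, hPRK⟩ := hPR K hK
  have hK0 : (0 : ℝ) < (K : ℝ) := by exact_mod_cast hK
  have h2p : 0 < 2 * (1 - p) := by linarith
  have hu1 : (K : ℝ) ^ (p - 1) ≤ 1 :=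
    Real.rpow_le_one_of_one_le_of_nonpos (by exact_mod_cast hK) (by linarith)
  have hu0 : 0 < (K : ℝ) ^ (p - 1) := Real.rpow_pos_of_pos hK0 _
  have hKp : 0 ≤ (K : ℝ) ^ (-p) := Real.rpow_nonneg hK0.le _
  have key := aux_cs (P := P K) (R := R K) (a := (K : ℝ) ^ (-(1 / 2) : ℝ)) (G := G K) (β := (K : ℝ) ^ (-p))
    (c := (1 - (K : ℝ) ^ (p - 1)) / (2 * (1 - p)))
    (d := (K : ℝ) ^ (p - 1))
    hR0 (div_nonneg (by linarith) h2p.le) hKp hu0.le
    (by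
      rw [div_mul_eq_mul_div, le_div_iff₀ h2p]
      linarith [hPRK])
    (by
      have e4 : ((K : ℝ) ^ (-(1 / 2) : ℝ)) ^ 2 = (K : ℝ) ^ (-1 : ℝ) := by
        rw [← Real.rpow_natCast, ← Real.rpow_mul hK0.le]; norm_num
      have e5 : (K : ℝ) ^ (-p) * (K : ℝ) ^ (p - 1) = (K : ℝ) ^ (-1 : ℝ) := by
        rw [← Real.rpow_add hK0]; congr 1; ring
      rw [e4, e5])
  have hbr : 2 * (1 - p) * ((1 - (K : ℝ) ^ (p - 1)) / (2 * (1 - p)) + (K : ℝ) ^ (p - 1)) ≤ 1 := by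
    rw [mul_add, mul_div_cancel₀ _ h2p.ne']
    nlinarith
  have hQ0 : 0 ≤ R K + (K : ℝ) ^ (-p) * G K ^ 2 := by positivity
  calc 2 * (1 - p) * (P K + (K : ℝ) ^ (-(1 / 2) : ℝ) * G K) ^ 2
      ≤ 2 * (1 - p) * (((1 - (K : ℝ) ^ (p - 1)) / (2 * (1 - p)) + (K : ℝ) ^ (p - 1))
          * (R K + (K : ℝ) ^ (-p) * G K ^ 2)) := mul_le_mul_of_nonneg_left key h2p.le
    _ = (2 * (1 - p) * ((1 - (K : ℝ) ^ (p - 1)) / (2 * (1 - p)) + (K : ℝ) ^ (p - 1)))
          * (R K + (K : ℝ) ^ (-p) * G K ^ 2) := by ring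
    _ ≤ 1 * (R K + (K : ℝ) ^ (-p) * G K ^ 2) := mul_le_mul_of_nonneg_right hbr hQ0
    _ = _ := one_mul _

/-- TARGET -/
theorem coercive {s : ℝ} (hs : 0 ≤ s) (hs' : s < 1 / 4) {b : ℕ → ℝ} (h0 : b 0 = 0)
    (hb : Summable fun l : ℕ => |b l|)
    (hb2 : Summable (fun z : ℕ × ℕ => |((z.1 : ℝ) * z.2) ^ (1 / 4 : ℝ)
      * ((max z.1 z.2 : ℕ) : ℝ) ^ (-(3 / 4) - s) * (b z.1 * b z.2)|)) :
    (1 - 4 * s) / 4 * (∑' l : ℕ, (l : ℝ) ^ (-(1 / 4) : ℝ) * b l) ^ 2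
      ≤ ∑' z : ℕ × ℕ, ((z.1 : ℝ) * z.2) ^ (1 / 4 : ℝ)
        * ((max z.1 z.2 : ℕ) : ℝ) ^ (-(3 / 4) - s) * (b z.1 * b z.2) := by
  have hp : (1 : ℝ) / 2 ≤ 3 / 4 + s := by linarith
  have hp1 : 3 / 4 + s < 1 := by linarith
  have hsS : Summable fun l : ℕ => (l : ℝ) ^ (-(1 / 4) : ℝ) * b l := by
    refine Summable.of_norm_bounded hb ?_
    intro l
    rw [norm_mul, Real.norm_eq_abs, Real.norm_eq_abs]
    rcases Nat.eq_zero_or_pos l with rfl | hl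
    · simp [h0]
    · have h1 : |(l : ℝ) ^ (-(1 / 4) : ℝ)| ≤ 1 := by
        rw [abs_of_nonneg (Real.rpow_nonneg (by positivity) _)]
        exact Real.rpow_le_one_of_one_le_of_nonpos (by exact_mod_cast hl) (by norm_num)
      calc |(l : ℝ) ^ (-(1 / 4) : ℝ)| * |b l| ≤ 1 * |b l| :=
            mul_le_mul_of_nonneg_right h1 (abs_nonneg _)
        _ = |b l| := one_mul _
  have hT1 : Tendsto (fun K : ℕ => (1 - 4 * s) / 4
      * (∑ l ∈ Finset.range (K + 1), (l : ℝ) ^ (-(1 / 4) : ℝ) * b l) ^ 2) atTop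
      (𝓝 ((1 - 4 * s) / 4 * (∑' l : ℕ, (l : ℝ) ^ (-(1 / 4) : ℝ) * b l) ^ 2)) := by
    have := (hsS.hasSum.tendsto_sum_nat).comp (tendsto_add_atTop_nat 1)
    exact (this.pow 2).const_mul _
  have hT2 : Tendsto (fun K : ℕ => ∑ j ∈ Finset.range (K + 1), ∑ m ∈ Finset.range (K + 1),
      ((j : ℝ) * m) ^ (1 / 4 : ℝ) * ((max j m : ℕ) : ℝ) ^ (-(3 / 4) - s) * (b j * b m)) atTop
      (𝓝 (∑' z : ℕ × ℕ, ((z.1 : ℝ) * z.2) ^ (1 / 4 : ℝ)
        * ((max z.1 z.2 : ℕ) : ℝ) ^ (-(3 / 4) - s) * (b z.1 * b z.2))) := by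
    have hs2 := (summable_abs_iff.1 hb2).hasSum
    have hfs : Tendsto (fun K : ℕ => Finset.range (K + 1) ×ˢ Finset.range (K + 1)) atTop atTop := by
      rw [tendsto_atTop]
      intro F
      rw [eventually_atTop]
      refine ⟨F.sup (fun z => max z.1 z.2), fun K hK => ?_⟩
      intro z hz
      have := Finset.le_sup (f := fun z : ℕ × ℕ => max z.1 z.2) hz
      have h2 : max z.1 z.2 ≤ K := le_trans this hK
      simp only [Finset.mem_product, Finset.mem_range]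
      exact ⟨Nat.lt_succ_of_le (le_trans (le_max_left _ _) h2), Nat.lt_succ_of_le (le_trans (le_max_right _ _) h2)⟩
    have := hs2.comp hfs
    refine this.congr ?_
    intro K
    simp only [Function.comp_apply]
    rw [Finset.sum_product]
  refine le_of_tendsto_of_tendsto hT1 hT2 ?_
  filter_upwards [eventually_ge_atTop 1] with K hK
  have key := fin_ineq hp hp1 h0 K hK
  rw [show -(3 / 4 + s) = -(3 / 4) - s by ring] at key
  refine le_trans ?_ key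
  exact mul_le_mul_of_nonneg_right (by linarith) (sq_nonneg _)

end H706T.JWC

namespace H706T

alias coercive := JWC.coercive

end H706T
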