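import Pool.Agent.Helper706_TE.Defs4
import Pool.Agent.Helper706_TE.WB
import Pool.Agent.Helper706_TE.WC

set_option autoImplicit false
open Set Filter Topology MeasureTheory
open scoped ComplexConjugate ContDiff

namespace H706T.JWD

/-! ### Auxiliary lemmas on sequences -/

section seq

/-- the tail sums -/
noncomputable def WDU (b : ℕ → ℝ) (p : ℕ) : ℝ := ∑' l, b (l + p)

variable {b : ℕ → ℝ}

theorem WDU_succ (hb : Summable b) (p : ℕ) : WDU b p = b p + WDU b (p + 1) := by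
  unfold WDU
  rw [((summable_nat_add_iff p).2 hb).tsum_eq_zero_add, zero_add]
  congr 1
  refine tsum_congr fun l => ?_
  congr 1
  omega

theorem WDU_zero : WDU b 0 = ∑' l, b l := by
  unfold WDU
  simp

theorem WDU_range (hb : Summable b) (n : ℕ) : ∑ l ∈ Finset.range n, b l + WDU b n = WDU b 0 := by
  rw [WDU_zero]
  exact hb.sum_add_tsum_nat_add n

theorem WDU_nonneg (h0 : ∀ l, 0 ≤ b l) (p : ℕ) : 0 ≤ WDU b p := tsum_nonneg fun l => h0 _

theorem WDU_anti (hb : Summable b) (h0 : ∀ l, 0 ≤ b l) : Antitone (WDU b) := by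
  refine antitone_nat_of_succ_le fun p => ?_
  rw [WDU_succ hb p]
  linarith [h0 p]

theorem WDU_abs (hb : Summable fun l => |b l|) (p : ℕ) : |WDU b p| ≤ WDU (fun l => |b l|) p := by
  unfold WDU
  have h : Summable fun l => ‖b (l + p)‖ := (summable_nat_add_iff p).2 hb
  exact norm_tsum_le_tsum_norm h

theorem WDU_Ico (hb : Summable b) (p n : ℕ) (hn : 1 ≤ n) :
    ∑ l ∈ Finset.Ico 1 n, b (p + l) = WDU b (p + 1) - WDU b (p + n) := by
  induction n, hn using Nat.le_induction with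
  | base => simp
  | succ n hn ih =>
    rw [Finset.sum_Ico_succ_top hn, ih, WDU_succ hb (p + n)]
    have : p + n + 1 = p + (n + 1) := by omega
    rw [this]
    ring

theorem sum_le_WDU (hb : Summable b) (h0 : ∀ l, 0 ≤ b l) (h n : ℕ) :
    ∑ m ∈ Finset.Ico h n, b m ≤ WDU b h := by
  rw [Finset.sum_Ico_eq_sum_range]
  unfold WDU
  have h1 : ∀ m ∈ Finset.range (n - h), b (h + m) = b (m + h) := fun m _ => by rw [add_comm]
  rw [Finset.sum_congr rfl h1]
  exact ((summable_nat_add_iff h).2 hb).sum_le_tsum _ fun m _ => h0 _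

theorem WD_amgm (h0 : b 0 = 0) {δ : ℝ} (hδ : 0 < δ) (l : ℕ) :
    |b l| ≤ (δ * ((l : ℝ) ^ 2 * b l ^ 2) + δ⁻¹ * (1 / (l : ℝ) ^ 2)) / 2 := by
  rcases Nat.eq_zero_or_pos l with rfl | hl
  · simp [h0]
  · have hl' : (0 : ℝ) < l := by exact_mod_cast hl
    have hw : 0 < δ * (l : ℝ) ^ 2 := by positivity
    have h1 : δ⁻¹ * (1 / (l : ℝ) ^ 2) = 1 / (δ * (l : ℝ) ^ 2) := by
      field_simp
    have h2 : δ * ((l : ℝ) ^ 2 * b l ^ 2) = (δ * (l : ℝ) ^ 2) * |b l| ^ 2 := by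
      rw [sq_abs]
      ring
    rw [h1, h2]
    set w := δ * (l : ℝ) ^ 2
    have h3 : w * (w * |b l| ^ 2 + 1 / w) = (w * |b l|) ^ 2 + 1 := by
      field_simp
    have h4 : 0 ≤ (w * |b l| - 1) ^ 2 := sq_nonneg _
    have h5 : w * (2 * |b l|) ≤ w * (w * |b l| ^ 2 + 1 / w) := by
      rw [h3]
      nlinarith
    have h6 := le_of_mul_le_mul_left h5 hw
    linarith

theorem WD_sq_summable : Summable fun l : ℕ => 1 / (l : ℝ) ^ 2 :=
  Real.summable_one_div_nat_pow.2 one_lt_two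

theorem WD_summable (h0 : b 0 = 0) (h : Summable fun l : ℕ => (l : ℝ) ^ 2 * b l ^ 2) :
    Summable fun l => |b l| := by
  refine Summable.of_nonneg_of_le (fun l => abs_nonneg _) (fun l => WD_amgm h0 one_pos l) ?_
  exact ((h.mul_left 1).add (WD_sq_summable.mul_left _)).div_const 2

theorem WD_tail (h0 : b 0 = 0) (h : Summable fun l : ℕ => (l : ℝ) ^ 2 * b l ^ 2) {C : ℝ}
    (hC : ∑' l : ℕ, (l : ℝ) ^ 2 * b l ^ 2 ≤ C) {δ : ℝ} (hδ : 0 < δ) (p : ℕ) :
    WDU (fun l => |b l|) p ≤ (δ * C + δ⁻¹ * WDU (fun l : ℕ => 1 / (l : ℝ) ^ 2) p) / 2 := by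
  have h1 : WDU (fun l => |b l|) p ≤
      WDU (fun l => (δ * ((l : ℝ) ^ 2 * b l ^ 2) + δ⁻¹ * (1 / (l : ℝ) ^ 2)) / 2) p := by
    unfold WDU
    refine Summable.tsum_le_tsum (fun l => WD_amgm h0 hδ _)
      ((summable_nat_add_iff p).2 (WD_summable h0 h)) ?_
    exact (summable_nat_add_iff p).2
      (((h.mul_left δ).add (WD_sq_summable.mul_left δ⁻¹)).div_const 2)
  refine h1.trans ?_
  have h2 : WDU (fun l => (δ * ((l : ℝ) ^ 2 * b l ^ 2) + δ⁻¹ * (1 / (l : ℝ) ^ 2)) / 2) p =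
      (δ * WDU (fun l : ℕ => (l : ℝ) ^ 2 * b l ^ 2) p +
        δ⁻¹ * WDU (fun l : ℕ => 1 / (l : ℝ) ^ 2) p) / 2 := by
    unfold WDU
    rw [tsum_div_const, Summable.tsum_add, tsum_mul_left, tsum_mul_left]
    · exact (summable_nat_add_iff (f := fun l : ℕ => δ * ((l : ℝ) ^ 2 * b l ^ 2)) p).2
        (h.mul_left δ)
    · exact (summable_nat_add_iff (f := fun l : ℕ => δ⁻¹ * (1 / (l : ℝ) ^ 2)) p).2
        (WD_sq_summable.mul_left δ⁻¹)
  rw [h2]
  have h3 : WDU (fun l : ℕ => (l : ℝ) ^ 2 * b l ^ 2) p ≤ C := by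
    refine (WDU_anti h (fun l => by positivity) (Nat.zero_le p)).trans ?_
    rw [WDU_zero]
    exact hC
  have h4 := mul_le_mul_of_nonneg_left h3 hδ.le
  linarith

theorem WD_unif (C : ℝ) {ε : ℝ} (hε : 0 < ε) : ∃ M : ℕ, ∀ b : ℕ → ℝ, b 0 = 0 →
    (Summable fun l : ℕ => (l : ℝ) ^ 2 * b l ^ 2) → ∑' l : ℕ, (l : ℝ) ^ 2 * b l ^ 2 ≤ C →
    WDU (fun l => |b l|) M ≤ ε := by
  set δ := ε / (|C| + 1) with hδd
  have hC1 : 0 < |C| + 1 := by positivity
  have hδ : 0 < δ := by positivity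
  have h1 : Tendsto (fun p => δ⁻¹ * WDU (fun l : ℕ => 1 / (l : ℝ) ^ 2) p) atTop (𝓝 0) := by
    have := (tendsto_sum_nat_add fun l : ℕ => 1 / (l : ℝ) ^ 2).const_mul δ⁻¹
    rw [mul_zero] at this
    exact this
  obtain ⟨M, hM⟩ := (h1.eventually_lt_const hε).exists
  refine ⟨M, fun b h0 h hC => ?_⟩
  have h2 := WD_tail h0 h hC hδ M
  have h3 : δ * C ≤ ε := by
    rw [hδd, div_mul_eq_mul_div, div_le_iff₀ hC1]
    exact mul_le_mul_of_nonneg_left ((le_abs_self C).trans (by linarith)) hε.le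
  linarith

end seq

theorem WD_conv {c : ℕ → ℝ} (hc : Summable c) (h0 : ∀ l, 0 ≤ c l) (n N : ℕ) :
    ∑ l ∈ Finset.Ico n N, ∑ m ∈ Finset.Ico 1 l, c (l - m) * c m ≤
      2 * (WDU c 0 * WDU c (n / 2)) := by
  set ch : ℕ → ℝ := fun m => if n / 2 ≤ m then c m else 0 with hch
  have hch0 : ∀ m, 0 ≤ ch m := fun m => by
    simp only [hch]
    split_ifs
    · exact h0 m
    · exact le_rfl
  have hchs : Summable ch := by
    refine Summable.of_nonneg_of_le hch0 (fun m => ?_) hc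
    simp only [hch]
    split_ifs
    · exact le_rfl
    · exact h0 m
  have hnc : Summable fun l => ‖c l‖ := hc.norm
  have hnch : Summable fun l => ‖ch l‖ := hchs.norm
  have e1 := tsum_mul_tsum_eq_tsum_sum_antidiagonal_of_summable_norm hnch hnc
  have e2 := summable_norm_sum_mul_antidiagonal_of_summable_norm hnch hnc
  have e3 : Summable fun l => ∑ kl ∈ Finset.HasAntidiagonal.antidiagonal l, ch kl.1 * c kl.2 := e2.of_norm
  have e4 : ∑' m, ch m = WDU c (n / 2) := by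
    have h1 := hchs.sum_add_tsum_nat_add (n / 2)
    have h2 : ∑ m ∈ Finset.range (n / 2), ch m = 0 := by
      refine Finset.sum_eq_zero fun m hm => ?_
      rw [Finset.mem_range] at hm
      simp only [hch]
      rw [if_neg (by omega)]
    rw [h2, zero_add] at h1
    rw [← h1]
    unfold WDU
    refine tsum_congr fun m => ?_
    simp only [hch]
    rw [if_pos (by omega)]
  rw [e4, ← WDU_zero (b := c)] at e1
  have key : ∀ l ∈ Finset.Ico n N, ∑ m ∈ Finset.Ico 1 l, c (l - m) * c m ≤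
      2 * ∑ kl ∈ Finset.HasAntidiagonal.antidiagonal l, ch kl.1 * c kl.2 := by
    intro l hl
    rw [Finset.mem_Ico] at hl
    rw [Finset.Nat.sum_antidiagonal_eq_sum_range_succ_mk]
    have k1 : ∑ m ∈ Finset.Ico 1 l, c (l - m) * c m ≤
        ∑ m ∈ Finset.range (l + 1), (ch m * c (l - m) + ch (l - m) * c (l - (l - m))) := by
      have k2 : ∑ m ∈ Finset.Ico 1 l, c (l - m) * c m ≤
          ∑ m ∈ Finset.Ico 1 l, (ch m * c (l - m) + ch (l - m) * c (l - (l - m))) := by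
        refine Finset.sum_le_sum fun m hm => ?_
        rw [Finset.mem_Ico] at hm
        have k3 : l - (l - m) = m := by omega
        rw [k3]
        by_cases k4 : n / 2 ≤ m
        · have k5 : ch m = c m := by simp only [hch]; rw [if_pos k4]
          rw [k5]
          have := mul_nonneg (hch0 (l - m)) (h0 m)
          linarith
        · have k5 : ch (l - m) = c (l - m) := by
            simp only [hch]; rw [if_pos (by omega)]
          rw [k5]
          have := mul_nonneg (hch0 m) (h0 (l - m))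
          linarith
      refine k2.trans (Finset.sum_le_sum_of_subset_of_nonneg ?_ ?_)
      · intro m hm
        rw [Finset.mem_Ico] at hm
        rw [Finset.mem_range]
        omega
      · intro m _ _
        exact add_nonneg (mul_nonneg (hch0 _) (h0 _)) (mul_nonneg (hch0 _) (h0 _))
    refine k1.trans (le_of_eq ?_)
    rw [Finset.sum_add_distrib]
    have k6 : ∑ m ∈ Finset.range (l + 1), ch (l - m) * c (l - (l - m)) =
        ∑ m ∈ Finset.range (l + 1), ch m * c (l - m) := by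
      have := Finset.sum_range_reflect (fun m => ch m * c (l - m)) (l + 1)
      rw [← this]
      refine Finset.sum_congr rfl fun m _ => ?_
      have k7 : l + 1 - 1 - m = l - m := by omega
      rw [k7]
    rw [k6]
    ring
  refine (Finset.sum_le_sum key).trans ?_
  rw [← Finset.mul_sum]
  have k8 : ∑ l ∈ Finset.Ico n N, ∑ kl ∈ Finset.HasAntidiagonal.antidiagonal l, ch kl.1 * c kl.2 ≤
      ∑' l, ∑ kl ∈ Finset.HasAntidiagonal.antidiagonal l, ch kl.1 * c kl.2 :=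
    e3.sum_le_tsum _ fun l _ => Finset.sum_nonneg fun kl _ => mul_nonneg (hch0 _) (h0 _)
  rw [← e1] at k8
  linarith

theorem WD_corr {c : ℕ → ℝ} (hc : Summable c) (h0 : ∀ l, 0 ≤ c l) (n N : ℕ) :
    (∀ l, Summable fun m : ℕ => c (m + 1) * c (l + m + 1)) ∧
    ∑ l ∈ Finset.Ico n N, ∑' m : ℕ, c (m + 1) * c (l + m + 1) ≤ WDU c 0 * WDU c (n / 2) := by
  have hR0 : ∀ p, 0 ≤ WDU c p := WDU_nonneg h0
  have hRa : Antitone (WDU c) := WDU_anti hc h0
  have hcR : ∀ p, c p ≤ WDU c 0 := fun p => by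
    rw [WDU_zero]
    exact hc.le_tsum p fun _ _ => h0 _
  have hs1 : Summable fun m : ℕ => c (m + 1) := (summable_nat_add_iff 1).2 hc
  have hs : ∀ l, Summable fun m : ℕ => c (m + 1) * c (l + m + 1) := by
    intro l
    refine Summable.of_nonneg_of_le (fun m => mul_nonneg (h0 _) (h0 _)) (fun m => ?_)
      (hs1.mul_right (WDU c 0))
    exact mul_le_mul_of_nonneg_left (hcR _) (h0 _)
  refine ⟨hs, ?_⟩
  rw [← Summable.tsum_finsetSum fun l _ => hs l]
  have h1 : ∀ m : ℕ, ∑ l ∈ Finset.Ico n N, c (m + 1) * c (l + m + 1) ≤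
      c (m + 1) * WDU c (n / 2) := by
    intro m
    rw [← Finset.mul_sum]
    refine mul_le_mul_of_nonneg_left ?_ (h0 _)
    have h2 : ∑ l ∈ Finset.Ico n N, c (l + m + 1) = ∑ l ∈ Finset.Ico (n + (m + 1)) (N + (m + 1)), c l := by
      rw [← Finset.sum_Ico_add' c n N (m + 1)]
      exact Finset.sum_congr rfl fun l _ => by rw [add_assoc]
    rw [h2]
    refine (sum_le_WDU hc h0 _ _).trans (hRa ?_)
    omega
  have h3 : Summable fun m : ℕ => c (m + 1) * WDU c (n / 2) := hs1.mul_right _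
  have h4 : Summable fun m : ℕ => ∑ l ∈ Finset.Ico n N, c (m + 1) * c (l + m + 1) :=
    summable_sum fun l _ => hs l
  refine (h4.tsum_le_tsum h1 h3).trans ?_
  rw [tsum_mul_right]
  refine mul_le_mul_of_nonneg_right ?_ (hR0 _)
  have h5 : ∑' m : ℕ, c (m + 1) = WDU c 1 := rfl
  rw [h5]
  exact hRa (Nat.zero_le 1)

theorem WD_lam {s : ℝ} (hs : 0 ≤ s) {lam : ℕ → ℕ → ℝ} (h : Wt s lam) (j m : ℕ) (hj : 0 < j)
    (hm : 0 < m) : |lam j m| ≤ 12 := by
  rw [abs_of_nonneg (h.nonneg j m)]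
  refine (h.bdd j m hj hm).trans ?_
  have h1 : (1 : ℝ) ≤ (j : ℝ) + m := by
    have : (1 : ℝ) ≤ j := by exact_mod_cast hj
    have : (0 : ℝ) ≤ m := by positivity
    linarith
  have h2 : ((j : ℝ) + m) ^ (-s) ≤ 1 := Real.rpow_le_one_of_one_le_of_nonpos h1 (by linarith)
  linarith

theorem WD_wt (l : ℕ) : |(l : ℝ) ^ (-(1 / 4) : ℝ)| ≤ 1 := by
  rw [abs_of_nonneg (by positivity)]
  rcases Nat.eq_zero_or_pos l with rfl | hl
  · rw [Nat.cast_zero, Real.zero_rpow (by norm_num)]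
    exact zero_le_one
  · exact Real.rpow_le_one_of_one_le_of_nonpos (by exact_mod_cast hl) (by norm_num)

theorem WD_qt {s : ℝ} (hs : 0 ≤ s) {lam : ℕ → ℕ → ℝ} (h : Wt s lam) {b : ℕ → ℝ}
    (hb : Summable fun l : ℕ => |b l|) (l : ℕ) (hl : 0 < l) :
    |(l : ℝ) ^ (-(1 / 4) : ℝ) * qt lam b l| ≤
      12 * (∑ m ∈ Finset.Ico 1 l, |b (l - m)| * |b m| + ∑' m : ℕ, |b (m + 1)| * |b (l + m + 1)|) := by
  rw [abs_mul]
  have h1 : |(l : ℝ) ^ (-(1 / 4) : ℝ)| * |qt lam b l| ≤ 1 * |qt lam b l| :=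
    mul_le_mul_of_nonneg_right (WD_wt l) (abs_nonneg _)
  rw [one_mul] at h1
  refine h1.trans ?_
  unfold qt
  refine (abs_sub _ _).trans ?_
  rw [mul_add]
  refine add_le_add ?_ ?_
  · refine (Finset.abs_sum_le_sum_abs _ _).trans ?_
    rw [Finset.mul_sum]
    refine Finset.sum_le_sum fun m hm => ?_
    rw [Finset.mem_Ico] at hm
    rw [abs_mul, abs_mul]
    exact mul_le_mul_of_nonneg_right (WD_lam hs h _ _ (by omega) (by omega))
      (mul_nonneg (abs_nonneg _) (abs_nonneg _))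
  · have h2 := (WD_corr hb (fun l => abs_nonneg _) 0 0).1 l
    have h3 : ∀ m : ℕ, ‖lam l (m + 1) * (b (m + 1) * b (l + m + 1))‖ ≤
        12 * (|b (m + 1)| * |b (l + m + 1)|) := by
      intro m
      rw [Real.norm_eq_abs, abs_mul, abs_mul]
      exact mul_le_mul_of_nonneg_right (WD_lam hs h _ _ hl (by omega))
        (mul_nonneg (abs_nonneg _) (abs_nonneg _))
    have h4 : Summable fun m : ℕ => ‖lam l (m + 1) * (b (m + 1) * b (l + m + 1))‖ :=
      Summable.of_nonneg_of_le (fun m => norm_nonneg _) h3 (h2.mul_left 12)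
    refine (norm_tsum_le_tsum_norm h4).trans ?_
    refine (h4.tsum_le_tsum h3 (h2.mul_left 12)).trans ?_
    rw [tsum_mul_left]

theorem WD_tail2 {s : ℝ} (hs : 0 ≤ s) {lam : ℕ → ℕ → ℝ} (h : Wt s lam) {b : ℕ → ℝ}
    (hb : Summable fun l : ℕ => |b l|)
    (hx : Summable fun l : ℕ => |(l : ℝ) ^ (-(1 / 4) : ℝ) * qt lam b l|) (n : ℕ) (hn : 1 ≤ n) :
    |∑' l : ℕ, (l : ℝ) ^ (-(1 / 4) : ℝ) * qt lam b l -
      ∑ l ∈ Finset.range n, (l : ℝ) ^ (-(1 / 4) : ℝ) * qt lam b l| ≤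
      36 * (WDU (fun l => |b l|) 0 * WDU (fun l => |b l|) (n / 2)) := by
  set x : ℕ → ℝ := fun l => (l : ℝ) ^ (-(1 / 4) : ℝ) * qt lam b l with hxd
  have h1 : ∑' l : ℕ, x l - ∑ l ∈ Finset.range n, x l = WDU x n := by
    have := WDU_range hx.of_abs n
    rw [WDU_zero] at this
    linarith
  rw [h1]
  refine (WDU_abs hx n).trans ?_
  unfold WDU
  refine Real.tsum_le_of_sum_range_le (fun m => abs_nonneg _) fun N => ?_
  have h2 : ∑ l ∈ Finset.range N, |x (l + n)| = ∑ l ∈ Finset.Ico n (n + N), |x l| := by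
    rw [Finset.sum_Ico_eq_sum_range]
    have : n + N - n = N := by omega
    rw [this]
    exact Finset.sum_congr rfl fun l _ => by rw [add_comm]
  rw [h2]
  have h3 : ∑ l ∈ Finset.Ico n (n + N), |x l| ≤ ∑ l ∈ Finset.Ico n (n + N),
      12 * (∑ m ∈ Finset.Ico 1 l, |b (l - m)| * |b m| +
        ∑' m : ℕ, |b (m + 1)| * |b (l + m + 1)|) := by
    refine Finset.sum_le_sum fun l hl => ?_
    rw [Finset.mem_Ico] at hl
    exact WD_qt hs h hb l (by omega)
  refine h3.trans ?_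
  rw [← Finset.mul_sum, Finset.sum_add_distrib]
  have h4 := WD_conv hb (fun l => abs_nonneg _) n (n + N)
  have h5 := (WD_corr hb (fun l => abs_nonneg _) n (n + N)).2
  have h6 : WDU (fun l => |b l|) 0 = ∑' l, |b (l + 0)| := rfl
  have h7 : WDU (fun l => |b l|) (n / 2) = ∑' l, |b (l + n / 2)| := rfl
  rw [h6, h7] at h4 h5
  linarith

/-- TARGET -/
theorem lifespan2 {s κ T : ℝ} (hs : 0 ≤ s) (hs' : s < 1 / 4) (hκ : 0 < κ) {lam : ℕ → ℕ → ℝ}
    (h : Wt s lam) {b : ℝ → ℕ → ℝ} (hb0 : ∀ t, b t 0 = 0)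
    (hbd : ∀ T₁ < T, ∃ C : ℝ, ∀ t ∈ Icc 0 T₁, Summable (fun l : ℕ => (l : ℝ) ^ 2 * b t l ^ 2) ∧
      ∑' l : ℕ, (l : ℝ) ^ 2 * b t l ^ 2 ≤ C)
    (hcont : ∀ l, ContinuousOn (fun t => b t l) (Ico 0 T))
    (hder : ∀ t ∈ Ioo 0 T, ∀ l : ℕ, 0 < l → HasDerivAt (fun s => b s l) (κ * qt lam (b t) l) t)
    (hS : 0 < ∑' l : ℕ, (l : ℝ) ^ (-(1 / 4) : ℝ) * b 0 l) :
    T ≤ 8 / ((1 - 4 * s) * κ * ∑' l : ℕ, (l : ℝ) ^ (-(1 / 4) : ℝ) * b 0 l) := by
  by_contra hcon
  push Not at hcon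
  set S : ℝ → ℝ := fun t => ∑' l : ℕ, (l : ℝ) ^ (-(1 / 4) : ℝ) * b t l with hSd
  have hS0 : 0 < S 0 := hS
  change 8 / ((1 - 4 * s) * κ * S 0) < T at hcon
  have h4s : 0 < 1 - 4 * s := by linarith
  set a : ℝ := (1 - 4 * s) * κ / 8 with ha
  have ha0 : 0 < a := by positivity
  set T₀ := 8 / ((1 - 4 * s) * κ * S 0) with hT₀
  have hT₀0 : 0 < T₀ := by positivity
  have hTa : a * T₀ * S 0 = 1 := by
    rw [ha, hT₀]
    field_simp
  set T₁ := (T₀ + T) / 2 with hT₁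
  have h01 : T₀ < T₁ := by linarith
  have h1T : T₁ < T := by linarith
  have hT10 : 0 < T₁ := hT₀0.trans h01
  obtain ⟨C, hC⟩ := hbd T₁ h1T
  have hsum : ∀ t ∈ Icc 0 T₁, Summable fun l => |b t l| := fun t ht =>
    WD_summable (hb0 t) (hC t ht).1
  -- bound of the sums
  obtain ⟨A, hA0, hA⟩ : ∃ A : ℝ, 0 < A ∧ ∀ t ∈ Icc 0 T₁, WDU (fun l => |b t l|) 0 ≤ A := by
    refine ⟨max 1 ((1 * C + 1⁻¹ * WDU (fun l : ℕ => 1 / (l : ℝ) ^ 2) 0) / 2),
      lt_max_of_lt_left one_pos, fun t ht => le_max_of_le_right ?_⟩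
    exact WD_tail (hb0 t) (hC t ht).1 (hC t ht).2 one_pos 0
  -- the weighted sequence
  have hwle : ∀ (t : ℝ) (l : ℕ), |(l : ℝ) ^ (-(1 / 4) : ℝ) * b t l| ≤ |b t l| := by
    intro t l
    rw [abs_mul]
    have := mul_le_mul_of_nonneg_right (WD_wt l) (abs_nonneg (b t l))
    linarith
  have hwsum : ∀ t ∈ Icc 0 T₁, Summable fun l : ℕ => |(l : ℝ) ^ (-(1 / 4) : ℝ) * b t l| :=
    fun t ht => Summable.of_nonneg_of_le (fun l => abs_nonneg _) (hwle t) (hsum t ht)
  have hunif : TendstoUniformlyOn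
      (fun (n : ℕ) t => ∑ l ∈ Finset.range n, (l : ℝ) ^ (-(1 / 4) : ℝ) * b t l) S atTop
      (Icc 0 T₁) := by
    rw [Metric.tendstoUniformlyOn_iff]
    intro ε hε
    obtain ⟨M, hM⟩ := WD_unif C (half_pos hε)
    filter_upwards [eventually_ge_atTop M] with n hn t ht
    have h1 := hM (b t) (hb0 t) (hC t ht).1 (hC t ht).2
    have h2 := WDU_anti (hsum t ht) (fun l => abs_nonneg _) hn
    have h3 := WDU_abs (hwsum t ht) n
    have h4 := WDU_range (hwsum t ht).of_abs n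
    have h5 : WDU (fun l : ℕ => |(l : ℝ) ^ (-(1 / 4) : ℝ) * b t l|) n ≤
        WDU (fun l => |b t l|) n := by
      unfold WDU
      exact Summable.tsum_le_tsum (fun l => hwle t _)
        ((summable_nat_add_iff n).2 (hwsum t ht)) ((summable_nat_add_iff n).2 (hsum t ht))
    rw [WDU_zero] at h4
    have h6 : S t - ∑ l ∈ Finset.range n, (l : ℝ) ^ (-(1 / 4) : ℝ) * b t l =
        WDU (fun l : ℕ => (l : ℝ) ^ (-(1 / 4) : ℝ) * b t l) n := by
      simp only [hSd]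
      linarith
    rw [Real.dist_eq, h6]
    linarith
  have hScont : ContinuousOn S (Icc 0 T₁) := by
    refine hunif.continuousOn (Frequently.of_forall fun n => ?_)
    exact continuousOn_finsetSum _ fun l _ =>
      ((hcont l).mono fun t ht => ⟨ht.1, ht.2.trans_lt h1T⟩).const_mul _
  have hflux : ∀ t ∈ Icc 0 T₁, _ := fun t ht => flux_identity hs hs' h (hb0 t) (hsum t ht)
  set F : ℝ → ℝ := fun t => ∑' l : ℕ, (l : ℝ) ^ (-(1 / 4) : ℝ) * qt lam (b t) l with hFd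
  -- the derivative
  have hSder : ∀ t ∈ Ioo 0 T₁, HasDerivAt S (κ * F t) t := by
    intro t ht
    refine hasDerivAt_of_tendstoUniformlyOn (l := atTop) (s := Ioo 0 T₁)
      (f := fun (n : ℕ) t => ∑ l ∈ Finset.range n, (l : ℝ) ^ (-(1 / 4) : ℝ) * b t l)
      (f' := fun (n : ℕ) t => κ * ∑ l ∈ Finset.range n, (l : ℝ) ^ (-(1 / 4) : ℝ) * qt lam (b t) l)
      (g' := fun t => κ * F t) isOpen_Ioo ?_ ?_ ?_ ht
    · rw [Metric.tendstoUniformlyOn_iff]
      intro ε hε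
      have hη : 0 < ε / (2 * (κ * (36 * A))) := by positivity
      obtain ⟨M, hM⟩ := WD_unif C hη
      filter_upwards [eventually_ge_atTop (max (2 * M) 1)] with n hn x hx
      have hx' : x ∈ Icc 0 T₁ := ⟨hx.1.le, hx.2.le⟩
      have h1 := hM (b x) (hb0 x) (hC x hx').1 (hC x hx').2
      have hMn : M ≤ n / 2 := by
        have := le_of_max_le_left hn
        omega
      have h2 := WDU_anti (hsum x hx') (fun l => abs_nonneg _) hMn
      have h3 := WD_tail2 hs h (hsum x hx') (hflux x hx').1 n (le_of_max_le_right hn)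
      have h4 : WDU (fun l => |b x l|) 0 * WDU (fun l => |b x l|) (n / 2) ≤
          A * (ε / (2 * (κ * (36 * A)))) :=
        mul_le_mul (hA x hx') (h2.trans h1) (WDU_nonneg (fun l => abs_nonneg _) _) hA0.le
      rw [Real.dist_eq, ← mul_sub, abs_mul, abs_of_pos hκ]
      have h5 : κ * (36 * (A * (ε / (2 * (κ * (36 * A)))))) = ε / 2 := by
        field_simp
      have h6 : κ * |F x - ∑ l ∈ Finset.range n, (l : ℝ) ^ (-(1 / 4) : ℝ) * qt lam (b x) l| ≤
          κ * (36 * (A * (ε / (2 * (κ * (36 * A)))))) :=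
        mul_le_mul_of_nonneg_left (h3.trans (mul_le_mul_of_nonneg_left h4 (by norm_num))) hκ.le
      rw [h5] at h6
      linarith
    · refine Eventually.of_forall fun n x hx => ?_
      have h1 : HasDerivAt (fun t => ∑ l ∈ Finset.range n, (l : ℝ) ^ (-(1 / 4) : ℝ) * b t l)
          (∑ l ∈ Finset.range n, κ * ((l : ℝ) ^ (-(1 / 4) : ℝ) * qt lam (b x) l)) x := by
        refine HasDerivAt.fun_sum fun l _ => ?_
        rcases Nat.eq_zero_or_pos l with rfl | hl
        · have h2 : ((0 : ℕ) : ℝ) ^ (-(1 / 4) : ℝ) = 0 := by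
            rw [Nat.cast_zero, Real.zero_rpow (by norm_num)]
          simp only [h2, zero_mul, mul_zero]
          exact hasDerivAt_const x 0
        · have h2 := (hder x ⟨hx.1, hx.2.trans h1T⟩ l hl).const_mul ((l : ℝ) ^ (-(1 / 4) : ℝ))
          have e3 : κ * ((l : ℝ) ^ (-(1 / 4) : ℝ) * qt lam (b x) l) =
              (l : ℝ) ^ (-(1 / 4) : ℝ) * (κ * qt lam (b x) l) := by ring
          rw [e3]
          exact h2
      rw [← Finset.mul_sum] at h1
      exact h1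
    · intro x hx
      exact hunif.tendsto_at ⟨hx.1.le, hx.2.le⟩
  have hFge : ∀ t ∈ Icc 0 T₁, a * S t ^ 2 ≤ κ * F t := by
    intro t ht
    obtain ⟨f1, f2, f3⟩ := hflux t ht
    have f4 := coercive hs hs' (hb0 t) (hsum t ht) f2
    have f5 : F t = _ := f3
    rw [f5]
    have f6 : a * S t ^ 2 = κ * (1 / 2 * ((1 - 4 * s) / 4 * S t ^ 2)) := by
      rw [ha]; ring
    rw [f6]
    refine mul_le_mul_of_nonneg_left ?_ hκ.le
    exact mul_le_mul_of_nonneg_left f4 (by norm_num)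
  have hint : interior (Icc 0 T₁) = Ioo 0 T₁ := interior_Icc
  have hSmono : MonotoneOn S (Icc 0 T₁) := by
    refine monotoneOn_of_deriv_nonneg (convex_Icc 0 T₁) hScont ?_ ?_
    · rw [hint]
      exact fun t ht => (hSder t ht).differentiableAt.differentiableWithinAt
    · rw [hint]
      intro t ht
      rw [(hSder t ht).deriv]
      exact (by positivity : 0 ≤ a * S t ^ 2).trans (hFge t ⟨ht.1.le, ht.2.le⟩)
  have hSpos : ∀ t ∈ Icc 0 T₁, 0 < S t := fun t ht =>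
    hS0.trans_le (hSmono ⟨le_rfl, hT10.le⟩ ht ht.1)
  have hG : AntitoneOn (fun t => (S t)⁻¹ + a * t) (Icc 0 T₁) := by
    have hGd : ∀ t ∈ Ioo 0 T₁, HasDerivAt (fun t => (S t)⁻¹ + a * t)
        (-(κ * F t) / S t ^ 2 + a * 1) t := by
      intro t ht
      have hp := (hSpos t ⟨ht.1.le, ht.2.le⟩).ne'
      exact ((hSder t ht).fun_inv hp).add ((hasDerivAt_id t).const_mul a)
    refine antitoneOn_of_deriv_nonpos (convex_Icc 0 T₁) ?_ ?_ ?_
    · exact (hScont.inv₀ fun t ht => (hSpos t ht).ne').add (continuousOn_const.mul continuousOn_id)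
    · rw [hint]
      exact fun t ht => (hGd t ht).differentiableAt.differentiableWithinAt
    · rw [hint]
      intro t ht
      rw [(hGd t ht).deriv]
      have hp := hSpos t ⟨ht.1.le, ht.2.le⟩
      have hf := hFge t ⟨ht.1.le, ht.2.le⟩
      have h7 : a ≤ κ * F t / S t ^ 2 := by
        rw [le_div_iff₀ (by positivity)]
        exact hf
      rw [neg_div]
      linarith
  have hfin := hG ⟨le_rfl, hT10.le⟩ ⟨hT10.le, le_rfl⟩ hT10.le
  simp only [mul_zero, add_zero] at hfin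
  have hp1 : 0 < (S T₁)⁻¹ := inv_pos.2 (hSpos T₁ ⟨hT10.le, le_rfl⟩)
  have h8 : a * T₁ < (S 0)⁻¹ := by linarith
  have h9 : a * T₀ = (S 0)⁻¹ := by
    field_simp
    linarith
  have h10 : a * T₀ < a * T₁ := mul_lt_mul_of_pos_left h01 ha0
  linarith

end H706T.JWD

namespace H706T

alias lifespan2 := JWD.lifespan2

end H706T
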