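import Pool.Agent.Helper706_TE.Defs4

set_option autoImplicit false
open Set Filter Topology MeasureTheory
open scoped ComplexConjugate ContDiff

namespace H706T.JWE

namespace WE

/-- the weight -/
noncomputable def rho (l : ℕ) : ℝ := 2 ^ l * (l : ℝ) ^ 2

theorem rho_zero : rho 0 = 0 := by simp [rho]

theorem rho_pos {l : ℕ} (hl : 0 < l) : 0 < rho l := by
  have : (0 : ℝ) < l := by exact_mod_cast hl
  unfold rho; positivity

theorem rho_nonneg (l : ℕ) : 0 ≤ rho l := by unfold rho; positivity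

theorem two_pow_le_rho {l : ℕ} (hl : 0 < l) : (2 : ℝ) ^ l ≤ rho l := by
  have : (1 : ℝ) ≤ l := by exact_mod_cast hl
  unfold rho
  have h1 : (1 : ℝ) ≤ (l : ℝ) ^ 2 := one_le_pow₀ this
  have h2 : (0 : ℝ) < 2 ^ l := by positivity
  nlinarith

theorem rho_mono {l m : ℕ} (h : l ≤ m) : rho l ≤ rho m := by
  unfold rho
  have h1 : (l : ℝ) ≤ m := by exact_mod_cast h
  have h2 : (2 : ℝ) ^ l ≤ 2 ^ m := pow_le_pow_right₀ (by norm_num) h
  have h3 : (l : ℝ) ^ 2 ≤ (m : ℝ) ^ 2 := pow_le_pow_left₀ (by positivity) h1 2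
  exact mul_le_mul h2 h3 (by positivity) (by positivity)

theorem sum_inv_sq (k : ℕ) :
    ∑ m ∈ Finset.Ico 1 (k + 2), 1 / (m : ℝ) ^ 2 ≤ 2 - 1 / ((k : ℝ) + 1) := by
  induction k with
  | zero => simp; norm_num
  | succ k ih =>
    rw [Finset.sum_Ico_succ_top (by omega)]
    have hk : (0 : ℝ) ≤ k := by positivity
    have h1 : 1 / (((k + 1 + 1 : ℕ) : ℝ)) ^ 2 ≤ 1 / ((k : ℝ) + 1) - 1 / (((k + 1 : ℕ) : ℝ) + 1) := by
      push_cast
      rw [div_sub_div _ _ (by positivity) (by positivity), div_le_div_iff₀ (by positivity)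
        (by positivity)]
      nlinarith [mul_nonneg hk hk, mul_nonneg (mul_nonneg hk hk) hk]
    linarith

theorem sum_inv_sq_le (l : ℕ) : ∑ m ∈ Finset.Ico 1 l, 1 / (m : ℝ) ^ 2 ≤ 2 := by
  rcases l with _ | _ | k
  · simp
  · simp
  · have := sum_inv_sq k
    have h : 0 ≤ 1 / ((k : ℝ) + 1) := by positivity
    linarith

theorem sum_inv_sq_refl_le (l : ℕ) : ∑ m ∈ Finset.Ico 1 l, 1 / ((l - m : ℕ) : ℝ) ^ 2 ≤ 2 := by
  refine le_trans (le_of_eq ?_) (sum_inv_sq_le l)
  refine Finset.sum_bij' (fun m _ => l - m) (fun m _ => l - m) ?_ ?_ ?_ ?_ ?_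
  · intro m hm; rw [Finset.mem_Ico] at hm ⊢; omega
  · intro m hm; rw [Finset.mem_Ico] at hm ⊢; omega
  · intro m hm; rw [Finset.mem_Ico] at hm; omega
  · intro m hm; rw [Finset.mem_Ico] at hm; omega
  · intro m hm; rfl

theorem w_le {l m : ℕ} (hm : 0 < m) (hl : m < l) :
    rho l / (rho (l - m) * rho m) ≤ 2 * (1 / (m : ℝ) ^ 2 + 1 / ((l - m : ℕ) : ℝ) ^ 2) := by
  obtain ⟨j, rfl⟩ := Nat.exists_eq_add_of_lt hl
  have e : m + j + 1 - m = j + 1 := by omega
  rw [e]
  have hm' : (0 : ℝ) < m := by exact_mod_cast hm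
  have hj' : (0 : ℝ) < ((j + 1 : ℕ) : ℝ) := by positivity
  set x : ℝ := ((j + 1 : ℕ) : ℝ) with hx
  have h1 : rho (m + j + 1) = 2 ^ (j + 1) * 2 ^ m * (m + x) ^ 2 := by
    unfold rho
    rw [← pow_add, hx]
    push_cast
    congr 1
    · congr 1; omega
    · ring
  have h2 : rho (m + j + 1) / (rho (j + 1) * rho m) = (m + x) ^ 2 / (x ^ 2 * m ^ 2) := by
    rw [h1]
    unfold rho
    rw [← hx]
    field_simp
  rw [h2, div_add_div _ _ (by positivity) (by positivity), mul_div_assoc', div_le_div_iff₀ (by positivity)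
    (by positivity)]
  have h3 : (m + x) ^ 2 ≤ 2 * (x ^ 2 + (m : ℝ) ^ 2) := by nlinarith [sq_nonneg ((m : ℝ) - x)]
  have h4 : 0 ≤ (m : ℝ) ^ 2 * x ^ 2 := by positivity
  calc (m + x) ^ 2 * ((m : ℝ) ^ 2 * x ^ 2) ≤ 2 * (x ^ 2 + (m : ℝ) ^ 2) * ((m : ℝ) ^ 2 * x ^ 2) :=
        mul_le_mul_of_nonneg_right h3 h4
    _ = _ := by ring

theorem sum_w_le (l : ℕ) : ∑ m ∈ Finset.Ico 1 l, rho l / (rho (l - m) * rho m) ≤ 8 := by
  calc ∑ m ∈ Finset.Ico 1 l, rho l / (rho (l - m) * rho m)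
      ≤ ∑ m ∈ Finset.Ico 1 l, 2 * (1 / (m : ℝ) ^ 2 + 1 / ((l - m : ℕ) : ℝ) ^ 2) := by
        refine Finset.sum_le_sum fun m hm => ?_
        rw [Finset.mem_Ico] at hm
        exact w_le (by omega) hm.2
    _ = 2 * (∑ m ∈ Finset.Ico 1 l, 1 / (m : ℝ) ^ 2
          + ∑ m ∈ Finset.Ico 1 l, 1 / ((l - m : ℕ) : ℝ) ^ 2) := by
        rw [← Finset.mul_sum, Finset.sum_add_distrib]
    _ ≤ 8 := by
        have h1 := sum_inv_sq_le l
        have h2 := sum_inv_sq_refl_le l
        linarith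

theorem v_le (l m : ℕ) : rho l / (rho (m + 1) * rho (l + m + 1)) ≤ (1 / 2) ^ (m + 1) := by
  have h1 : 0 < rho (m + 1) := rho_pos (by omega)
  have h2 : 0 < rho (l + m + 1) := rho_pos (by omega)
  have h3 : rho l ≤ rho (l + m + 1) := rho_mono (by omega)
  have h4 : (2 : ℝ) ^ (m + 1) ≤ rho (m + 1) := two_pow_le_rho (by omega)
  have h5 : (0 : ℝ) < 2 ^ (m + 1) := by positivity
  rw [div_le_iff₀ (by positivity), one_div, inv_pow]
  calc rho l ≤ rho (l + m + 1) := h3
    _ = (2 ^ (m + 1))⁻¹ * (2 ^ (m + 1) * rho (l + m + 1)) := by field_simp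
    _ ≤ (2 ^ (m + 1))⁻¹ * (rho (m + 1) * rho (l + m + 1)) := by gcongr

theorem v2_le (l m : ℕ) : 1 / (rho (m + 1) * rho (l + m + 1)) ≤ (1 / 2) ^ (m + 1) := by
  have h1 : 0 < rho (m + 1) := rho_pos (by omega)
  have h2 : 0 < rho (l + m + 1) := rho_pos (by omega)
  have h3 : 1 ≤ rho (l + m + 1) :=
    le_trans (one_le_pow₀ (by norm_num : (1 : ℝ) ≤ 2)) (two_pow_le_rho (by omega))
  have h4 : (2 : ℝ) ^ (m + 1) ≤ rho (m + 1) := two_pow_le_rho (by omega)
  have h5 : (0 : ℝ) < 2 ^ (m + 1) := by positivity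
  rw [div_le_iff₀ (by positivity), one_div, inv_pow]
  calc (1 : ℝ) ≤ rho (l + m + 1) := h3
    _ = (2 ^ (m + 1))⁻¹ * (2 ^ (m + 1) * rho (l + m + 1)) := by field_simp
    _ ≤ (2 ^ (m + 1))⁻¹ * (rho (m + 1) * rho (l + m + 1)) := by gcongr

theorem hasSum_half : HasSum (fun m : ℕ => ((1 : ℝ) / 2) ^ (m + 1)) 1 := by
  have h := (hasSum_geometric_of_lt_one (by norm_num : (0 : ℝ) ≤ 1 / 2) (by norm_num)).mul_left (1 / 2)
  have e : (1 / 2 : ℝ) * (1 - 1 / 2)⁻¹ = 1 := by norm_num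
  rw [e] at h
  refine h.congr_fun ?_ |> fun h => h
  intro m
  rw [pow_succ]; ring

theorem prod_sub_le {a b c d R δ : ℝ} (ha : |a| ≤ R) (hd : |d| ≤ R)
    (hac : |a - c| ≤ δ) (hbd : |b - d| ≤ δ) : |a * b - c * d| ≤ 2 * R * δ := by
  have hR : 0 ≤ R := le_trans (abs_nonneg _) ha
  have e : a * b - c * d = a * (b - d) + (a - c) * d := by ring
  rw [e]
  calc |a * (b - d) + (a - c) * d| ≤ |a * (b - d)| + |(a - c) * d| := abs_add_le _ _
    _ = |a| * |b - d| + |a - c| * |d| := by rw [abs_mul, abs_mul]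
    _ ≤ R * δ + δ * R := by
        have hδ : 0 ≤ δ := le_trans (abs_nonneg _) hac
        gcongr
    _ = _ := by ring

theorem summ {L : ℕ → ℕ → ℝ} (hL : ∀ l m, |L l m| ≤ 1) {R : ℝ} {c : ℕ → ℝ} (hc : ∀ i, |c i| ≤ R)
    (l : ℕ) : Summable (fun m : ℕ => L l (m + 1) *
      (c (m + 1) / rho (m + 1) * (c (l + m + 1) / rho (l + m + 1)))) := by
  have hR : 0 ≤ R := le_trans (abs_nonneg _) (hc 0)
  refine Summable.of_norm_bounded (g := fun m : ℕ => R ^ 2 * ((1 : ℝ) / 2) ^ (m + 1))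
    (hasSum_half.summable.mul_left _) fun m => ?_
  have h1 : 0 < rho (m + 1) := rho_pos (by omega)
  have h2 : 0 < rho (l + m + 1) := rho_pos (by omega)
  rw [Real.norm_eq_abs, abs_mul, abs_mul, abs_div, abs_div, abs_of_pos h1, abs_of_pos h2]
  have e : |L l (m + 1)| * (|c (m + 1)| / rho (m + 1) * (|c (l + m + 1)| / rho (l + m + 1)))
      = |L l (m + 1)| * (|c (m + 1)| * |c (l + m + 1)|)
        * (1 / (rho (m + 1) * rho (l + m + 1))) := by
    field_simp
  rw [e]
  have h3 := v2_le l m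
  have h4 : |L l (m + 1)| * (|c (m + 1)| * |c (l + m + 1)|) ≤ R ^ 2 := by
    calc |L l (m + 1)| * (|c (m + 1)| * |c (l + m + 1)|) ≤ 1 * (R * R) := by
          gcongr
          · exact hL _ _
          · exact hc _
          · exact hc _
      _ = R ^ 2 := by ring
  exact mul_le_mul h4 h3 (by positivity) (by positivity)

theorem diff_le {L : ℕ → ℕ → ℝ} (hL : ∀ l m, |L l m| ≤ 1) {R δ : ℝ} {c d : ℕ → ℝ}
    (hc : ∀ i, |c i| ≤ R) (hd : ∀ i, |d i| ≤ R) (hcd : ∀ i, |c i - d i| ≤ δ) (l : ℕ) :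
    |rho l * qt L (fun i => c i / rho i) l - rho l * qt L (fun i => d i / rho i) l|
      ≤ 18 * R * δ := by
  have hR : 0 ≤ R := le_trans (abs_nonneg _) (hc 0)
  have hδ : 0 ≤ δ := le_trans (abs_nonneg _) (hcd 0)
  unfold qt
  set S1 := ∑ m ∈ Finset.Ico 1 l, rho l * (L (l - m) m *
    (c (l - m) / rho (l - m) * (c m / rho m)) - L (l - m) m *
    (d (l - m) / rho (l - m) * (d m / rho m))) with hS1
  set S2 := ∑' m : ℕ, rho l * (L l (m + 1) *
      (c (m + 1) / rho (m + 1) * (c (l + m + 1) / rho (l + m + 1))) - L l (m + 1) *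
      (d (m + 1) / rho (m + 1) * (d (l + m + 1) / rho (l + m + 1)))) with hS2
  have hE : rho l * (∑ m ∈ Finset.Ico 1 l, L (l - m) m * (c (l - m) / rho (l - m) * (c m / rho m))
      - ∑' m : ℕ, L l (m + 1) * (c (m + 1) / rho (m + 1) * (c (l + m + 1) / rho (l + m + 1))))
      - rho l * (∑ m ∈ Finset.Ico 1 l, L (l - m) m * (d (l - m) / rho (l - m) * (d m / rho m))
      - ∑' m : ℕ, L l (m + 1) * (d (m + 1) / rho (m + 1) * (d (l + m + 1) / rho (l + m + 1))))
      = S1 - S2 := by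
    rw [hS1, hS2, ← Finset.mul_sum, Finset.sum_sub_distrib, tsum_mul_left,
      (summ hL hc l).tsum_sub (summ hL hd l)]
    ring
  rw [hE]
  have h1 : |S1| ≤ 16 * R * δ := by
    calc |S1| ≤ ∑ m ∈ Finset.Ico 1 l, |rho l * (L (l - m) m *
          (c (l - m) / rho (l - m) * (c m / rho m)) - L (l - m) m *
          (d (l - m) / rho (l - m) * (d m / rho m)))| := Finset.abs_sum_le_sum_abs _ _
      _ ≤ ∑ m ∈ Finset.Ico 1 l, rho l / (rho (l - m) * rho m) * (2 * R * δ) := by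
          refine Finset.sum_le_sum fun m hm => ?_
          rw [Finset.mem_Ico] at hm
          have g1 : 0 < rho (l - m) := rho_pos (by omega)
          have g2 : 0 < rho m := rho_pos (by omega)
          have g3 := rho_nonneg l
          have e : rho l * (L (l - m) m * (c (l - m) / rho (l - m) * (c m / rho m)) - L (l - m) m *
              (d (l - m) / rho (l - m) * (d m / rho m)))
              = rho l / (rho (l - m) * rho m) * (L (l - m) m *
                (c (l - m) * c m - d (l - m) * d m)) := by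
            field_simp
          rw [e, abs_mul, abs_mul, abs_of_nonneg (by positivity : 0 ≤ rho l / (rho (l - m) * rho m))]
          refine mul_le_mul_of_nonneg_left ?_ (by positivity)
          calc |L (l - m) m| * |c (l - m) * c m - d (l - m) * d m| ≤ 1 * (2 * R * δ) := by
                apply mul_le_mul (hL _ _) (prod_sub_le (hc _) (hd _) (hcd _) (hcd _)) (abs_nonneg _)
                  zero_le_one
            _ = _ := one_mul _
      _ = (∑ m ∈ Finset.Ico 1 l, rho l / (rho (l - m) * rho m)) * (2 * R * δ) := by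
          rw [Finset.sum_mul]
      _ ≤ 8 * (2 * R * δ) := mul_le_mul_of_nonneg_right (sum_w_le l) (by positivity)
      _ = _ := by ring
  have h2 : |S2| ≤ 2 * R * δ := by
    have hs := hasSum_half.mul_right (2 * R * δ)
    rw [one_mul] at hs
    have := tsum_of_norm_bounded hs (f := fun m : ℕ => rho l * (L l (m + 1) *
      (c (m + 1) / rho (m + 1) * (c (l + m + 1) / rho (l + m + 1))) - L l (m + 1) *
      (d (m + 1) / rho (m + 1) * (d (l + m + 1) / rho (l + m + 1))))) (fun m => by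
        have g1 : 0 < rho (m + 1) := rho_pos (by omega)
        have g2 : 0 < rho (l + m + 1) := rho_pos (by omega)
        have g3 := rho_nonneg l
        have e : rho l * (L l (m + 1) *
            (c (m + 1) / rho (m + 1) * (c (l + m + 1) / rho (l + m + 1))) - L l (m + 1) *
            (d (m + 1) / rho (m + 1) * (d (l + m + 1) / rho (l + m + 1))))
            = rho l / (rho (m + 1) * rho (l + m + 1)) * (L l (m + 1) *
              (c (m + 1) * c (l + m + 1) - d (m + 1) * d (l + m + 1))) := by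
          field_simp
        rw [e, Real.norm_eq_abs, abs_mul, abs_mul,
          abs_of_nonneg (by positivity : 0 ≤ rho l / (rho (m + 1) * rho (l + m + 1)))]
        apply mul_le_mul (v_le l m) _ (by positivity) (by positivity)
        calc |L l (m + 1)| * |c (m + 1) * c (l + m + 1) - d (m + 1) * d (l + m + 1)|
            ≤ 1 * (2 * R * δ) := by
              apply mul_le_mul (hL _ _) (prod_sub_le (hc _) (hd _) (hcd _) (hcd _)) (abs_nonneg _)
                zero_le_one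
          _ = _ := one_mul _)
    exact this
  calc |S1 - S2| ≤ |S1| + |S2| := abs_sub _ _
    _ ≤ 18 * R * δ := by linarith

theorem qt_zero (L : ℕ → ℕ → ℝ) (l : ℕ) : qt L (fun i => (0 : ℝ) / rho i) l = 0 := by
  unfold qt
  simp

theorem abs_le' {L : ℕ → ℕ → ℝ} (hL : ∀ l m, |L l m| ≤ 1) {R : ℝ} {c : ℕ → ℝ}
    (hc : ∀ i, |c i| ≤ R) (l : ℕ) :
    |rho l * qt L (fun i => c i / rho i) l| ≤ 18 * R * R := by
  have hR : 0 ≤ R := le_trans (abs_nonneg _) (hc 0)
  have h := diff_le hL (d := fun _ => 0) hc (fun i => by simpa using hR) (δ := R)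
    (fun i => by simpa using hc i) l
  rw [qt_zero] at h
  simpa using h

open BoundedContinuousFunction in
/-- the vector field -/
noncomputable def FF (L : ℕ → ℕ → ℝ) (hL : ∀ l m, |L l m| ≤ 1) (κ : ℝ) (c : ℕ →ᵇ ℝ) : ℕ →ᵇ ℝ :=
  BoundedContinuousFunction.ofNormedAddCommGroupDiscrete
    (fun l => κ * (rho l * qt L (fun i => c i / rho i) l)) (|κ| * (18 * ‖c‖ * ‖c‖)) (fun l => by
      rw [Real.norm_eq_abs, abs_mul]
      exact mul_le_mul_of_nonneg_left (abs_le' hL (fun i => c.norm_coe_le_norm i) l)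
        (abs_nonneg _))

theorem FF_apply (L : ℕ → ℕ → ℝ) (hL : ∀ l m, |L l m| ≤ 1) (κ : ℝ)
    (c : BoundedContinuousFunction ℕ ℝ) (l : ℕ) :
    FF L hL κ c l = κ * (rho l * qt L (fun i => c i / rho i) l) := rfl

theorem FF_norm_le (L : ℕ → ℕ → ℝ) (hL : ∀ l m, |L l m| ≤ 1) (κ : ℝ)
    (c : BoundedContinuousFunction ℕ ℝ) {R : ℝ} (hc : ‖c‖ ≤ R) :
    ‖FF L hL κ c‖ ≤ |κ| * (18 * R * R) := by
  have hR : 0 ≤ R := le_trans (norm_nonneg _) hc
  rw [BoundedContinuousFunction.norm_le (by positivity)]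
  intro l
  rw [FF_apply, Real.norm_eq_abs, abs_mul]
  exact mul_le_mul_of_nonneg_left (abs_le' hL (fun i => (c.norm_coe_le_norm i).trans hc) l)
    (abs_nonneg _)

theorem FF_sub_le (L : ℕ → ℕ → ℝ) (hL : ∀ l m, |L l m| ≤ 1) (κ : ℝ)
    (c d : BoundedContinuousFunction ℕ ℝ) {R : ℝ} (hc : ‖c‖ ≤ R) (hd : ‖d‖ ≤ R) :
    ‖FF L hL κ c - FF L hL κ d‖ ≤ |κ| * (18 * R) * ‖c - d‖ := by
  have hR : 0 ≤ R := le_trans (norm_nonneg _) hc
  rw [BoundedContinuousFunction.norm_le (by positivity)]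
  intro l
  rw [BoundedContinuousFunction.sub_apply, FF_apply, FF_apply, ← mul_sub, Real.norm_eq_abs, abs_mul,
    mul_assoc]
  exact mul_le_mul_of_nonneg_left (diff_le hL (fun i => (c.norm_coe_le_norm i).trans hc)
    (fun i => (d.norm_coe_le_norm i).trans hd) (fun i => (c - d).norm_coe_le_norm i) l)
    (abs_nonneg _)

end WE

/-- TARGET -/
theorem local_ode {L : ℕ → ℕ → ℝ} (hL : ∀ l m, |L l m| ≤ 1) (κ A : ℝ) :
    ∃ (T C : ℝ) (b : ℝ → ℕ → ℝ), 0 < T ∧ (∀ l, b 0 l = if l = 1 then A else 0) ∧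
      (∀ t, b t 0 = 0) ∧ (∀ t ∈ Ioo (-T) T, ∀ l, |b t l| ≤ C * (1 / 2) ^ l) ∧
      ∀ t ∈ Ioo (-T) T, ∀ l, 0 < l → HasDerivAt (fun s => b s l) (κ * qt L (b t) l) t := by
  classical
  set x0 : BoundedContinuousFunction ℕ ℝ :=
    BoundedContinuousFunction.ofNormedAddCommGroupDiscrete (fun l : ℕ => if l = 1 then 2 * A else 0)
      (|2 * A|) (fun l => by
        by_cases h : l = 1
        · simp [h]
        · simp [h]) with hx0
  set R : ℝ := ‖x0‖ + 1 with hR
  have hR0 : 0 < R := by positivity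
  set LL : NNReal := ⟨|κ| * (18 * R * R), by positivity⟩ with hLL
  set KK : NNReal := ⟨|κ| * (18 * R), by positivity⟩ with hKK
  set T : ℝ := 1 / ((LL : ℝ) + 1) with hT
  have hT0 : 0 < T := by positivity
  have hball : ∀ x ∈ Metric.closedBall x0 ((1 : NNReal) : ℝ), ‖x‖ ≤ R := by
    intro x hx
    rw [Metric.mem_closedBall, dist_eq_norm] at hx
    have := norm_le_norm_add_norm_sub' x x0
    push_cast at hx
    linarith
  have hPL : IsPicardLindelof (fun _ : ℝ => WE.FF L hL κ) (tmin := -T) (tmax := T)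
      ⟨0, by constructor <;> linarith⟩ x0 1 0 LL KK := by
    apply IsPicardLindelof.of_time_independent
    · intro x hx
      exact WE.FF_norm_le L hL κ x (hball x hx)
    · rw [lipschitzOnWith_iff_norm_sub_le]
      intro x hx y hy
      exact WE.FF_sub_le L hL κ x y (hball x hx) (hball y hy)
    · have h1 : max (T - 0) (0 - -T) = T := by simp
      have h2 : (LL : ℝ) * T ≤ 1 := by
        rw [hT, mul_one_div, div_le_one (by positivity)]
        linarith
      simpa using h2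
  obtain ⟨α, hα0, hα⟩ := hPL.exists_eq_forall_mem_Icc_hasDerivWithinAt₀
  have hcont : ContinuousOn α (Icc (-T) T) := fun t ht => (hα t ht).continuousWithinAt
  obtain ⟨C, hC⟩ := isCompact_Icc.exists_bound_of_continuousOn hcont
  have hα0' : α 0 = x0 := hα0
  refine ⟨T, C, fun t l => α t l / WE.rho l, hT0, ?_, ?_, ?_, ?_⟩
  · intro l
    simp only
    rw [hα0', hx0]
    simp only [BoundedContinuousFunction.coe_ofNormedAddCommGroupDiscrete]
    by_cases h : l = 1
    · subst h; simp [WE.rho]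
    · simp [h]
  · intro t
    simp only [WE.rho_zero, div_zero]
  · intro t ht l
    have h1 : ‖α t‖ ≤ C := hC t (Ioo_subset_Icc_self ht)
    have hC0 : 0 ≤ C := le_trans (norm_nonneg _) h1
    rcases Nat.eq_zero_or_pos l with h | h
    · subst h; simp [WE.rho_zero, hC0]
    · have h2 := WE.two_pow_le_rho h
      have h3 : |α t l| ≤ C := ((α t).norm_coe_le_norm l).trans h1
      have h4 : (0 : ℝ) < 2 ^ l := by positivity
      simp only
      rw [abs_div, abs_of_pos (WE.rho_pos h), one_div, inv_pow, ← div_eq_mul_inv]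
      exact div_le_div₀ hC0 h3 h4 h2
  · intro t ht l hl
    have h1 : HasDerivAt α (WE.FF L hL κ (α t)) t :=
      (hα t (Ioo_subset_Icc_self ht)).hasDerivAt (Icc_mem_nhds ht.1 ht.2)
    have h2 : HasDerivAt (fun s => α s l) (WE.FF L hL κ (α t) l) t := by
      have h3 := (BoundedContinuousFunction.evalCLM ℝ l).hasFDerivAt.comp_hasDerivAt t h1
      exact h3
    have h3 := h2.div_const (WE.rho l)
    have h4 : WE.FF L hL κ (α t) l / WE.rho l = κ * qt L (fun i => α t i / WE.rho i) l := by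
      rw [WE.FF_apply]
      have := (WE.rho_pos hl).ne'
      field_simp
    rw [h4] at h3
    exact h3

end H706T.JWE

namespace H706T

alias local_ode := JWE.local_ode

end H706T
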