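import Pool.Agent.Helper706_TE.RE
import Pool.Agent.Helper706_TE.Sy7
import Pool.Agent.Helper706_TE.WA
import Pool.Agent.Helper706_TE.WD
import Pool.Agent.Helper706_TE.WE
import Pool.Agent.Helper706_TE.OS
import Pool.Agent.Helper706_TE.MX

/-!
Symbols of negative order: local existence and blow-up.
-/

set_option autoImplicit false

open Set Filter Topology MeasureTheory
open scoped ComplexConjugate ContDiff

namespace H706T

variable {s δ κ : ℝ} {N : ℕ} {M : K → K → W → W → W} {T : ℝ} {w u : ℝ → V → V} {q p : ℝ → V → ℝ}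
  {n : K} {e f : V} {g : ℝ → ℝ} {lam : ℕ → ℕ → ℝ} {L : ℤ → ℤ → ℝ}

/-- Fields which depend only on `n·x` and are orthogonal to `n` have no divergence. -/
theorem shear_div (hn : n ≠ 0) {v : V → V} (hv : ContDiff ℝ 1 v)
    (hinv : ∀ a : V, dot n a = 0 → ∀ x, v (x + a) = v x)
    (hperp : ∀ x, ∑ i, (n i : ℝ) * v x i = 0) (x : V) : ∑ i, D v x i i = 0 := by
  have hd : Differentiable ℝ v := hv.differentiable one_ne_zero
  have h1 : HasFDerivAt (fun y => ∑ i, (n i : ℝ) * v y i)
      (∑ i, (n i : ℝ) • ((ContinuousLinearMap.proj i : V →L[ℝ] ℝ).comp (fderiv ℝ v x))) x := by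
    refine HasFDerivAt.fun_sum fun i _ => ?_
    exact ((ContinuousLinearMap.proj i : V →L[ℝ] ℝ).hasFDerivAt.comp x
      (hd x).hasFDerivAt).const_mul _
  have h2 : (fun y => ∑ i, (n i : ℝ) * v y i) = fun _ => (0 : ℝ) := funext hperp
  rw [h2] at h1
  have h3 := h1.unique (hasFDerivAt_const (0 : ℝ) x)
  have h4 : ∀ b : V, ∑ i, (n i : ℝ) * fderiv ℝ v x b i = 0 := by
    intro b
    have := congrArg (fun L : V →L[ℝ] ℝ => L b) h3
    simpa using this
  have h5 : ∀ i, D v x i i = (nq n)⁻¹ * ((n i : ℝ) * fderiv ℝ v x (JPZ.nr n) i) := by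
    intro i
    unfold D
    rw [JPZ.fderiv_decomp hn (fun a ha => JPZ.fderiv_perp hd hinv x a ha) (Pi.single i 1),
      JPZ.dot_single, Pi.smul_apply, smul_eq_mul]
    ring
  rw [Finset.sum_congr rfl fun i _ => h5 i, ← Finset.mul_sum, h4, mul_zero]

/-- Local existence for the datum `A sin(n·x) e`. -/
theorem local_sol (h : IsSymbol δ M) (h2 : Sy2 N M) (hn : n ≠ 0)
    (hne : ∑ i, (n i : ℝ) * e i = 0) (hL : LW L) (hv : ValL κ L M n e) (A : ℝ) :
    ∃ T > 0, ∃ u : ℝ → V → V, IsSolution M T u (fun _ _ => 0) ∧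
      u 0 = fun x => (A * Real.sin (dot n x)) • e := by
  obtain ⟨T, C, b, hT, hb0, hbz, hbd, hbder⟩ :=
    local_ode (L := fun l m => L l m) (fun l m => hL.bdd l m) κ (A / 2)
  have hbc : ∀ l, ContinuousOn (fun t => b t l) (Ioo (-T) T) := by
    intro l
    by_cases hl : l = 0
    · subst hl
      simp only [hbz]
      exact continuousOn_const
    · intro t ht
      exact (hbder t ht l (Nat.pos_of_ne_zero hl)).continuousAt.continuousWithinAt
  obtain ⟨hq1, hq2⟩ := qt_props (L := fun l m => L l m) (fun l m => hL.bdd l m) hbd hbc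
  set d : ℝ → ℕ → ℝ := fun t l => if l = 0 then 0 else κ * qt (fun l m => L l m) (b t) l with hd
  set C' : ℝ := max C (|κ| * C ^ 2) with hC'
  have hC0 : 0 ≤ C' := le_max_of_le_right (by positivity)
  have hbd' : ∀ t ∈ Ioo (-T) T, ∀ l, |b t l| ≤ C' * (1 / 2) ^ l := fun t ht l =>
    (hbd t ht l).trans (mul_le_mul_of_nonneg_right (le_max_left _ _) (by positivity))
  have hdd : ∀ t ∈ Ioo (-T) T, ∀ l, |d t l| ≤ C' * ((l + 1) * (1 / 2) ^ l) := by
    intro t ht l
    simp only [hd]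
    split_ifs with hl
    · rw [abs_zero]; positivity
    · rw [abs_mul]
      calc |κ| * |qt (fun l m => L l m) (b t) l| ≤ |κ| * (C ^ 2 * ((l + 1) * (1 / 2) ^ l)) :=
            mul_le_mul_of_nonneg_left (hq1 t ht l) (abs_nonneg _)
        _ = (|κ| * C ^ 2) * ((l + 1) * (1 / 2) ^ l) := by ring
        _ ≤ C' * ((l + 1) * (1 / 2) ^ l) :=
            mul_le_mul_of_nonneg_right (le_max_right _ _) (by positivity)
  have hdc : ∀ l, ContinuousOn (fun t => d t l) (Ioo (-T) T) := by
    intro l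
    simp only [hd]
    split_ifs with hl
    · exact continuousOn_const
    · exact (hq2 l).const_smul κ
  have hdder : ∀ t ∈ Ioo (-T) T, ∀ l, HasDerivAt (fun s => b s l) (d t l) t := by
    intro t ht l
    by_cases hl : l = 0
    · subst hl
      simp only [hbz, hd, if_true]
      exact hasDerivAt_const t (0 : ℝ)
    · simp only [hd, if_neg hl]
      exact hbder t ht l (Nat.pos_of_ne_zero hl)
  obtain ⟨hP1, hP2⟩ := profile_C1 hbd' hdd hdc hdder
  set u : ℝ → V → V := fun t x => (∑' j : ℕ, 2 * b t j * Real.sin (j * dot n x)) • e with hu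
  have hsub : Ico 0 T ⊆ Ioo (-T) T := fun t ht => ⟨by linarith [ht.1], ht.2⟩
  have huC : ContDiffOn ℝ 1 (fun z : ℝ × V => u z.1 z.2) (Ioo (-T) T ×ˢ univ) := by
    have h3 : ContDiff ℝ 1 (fun z : ℝ × V => (z.1, dot n z.2)) := by
      refine contDiff_fst.prodMk ?_
      unfold dot
      fun_prop
    have h4 := hP1.comp (t := Ioo (-T) T ×ˢ (univ : Set ℝ)) h3.contDiffOn
      (s := Ioo (-T) T ×ˢ (univ : Set V)) (fun z hz => ⟨hz.1, mem_univ _⟩)
    exact h4.smul contDiffOn_const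
  have hsl : ∀ t ∈ Ico 0 T, ContDiff ℝ 1 (u t) ∧ Periodic3 (u t) := fun t ht =>
    sine_field e (hbd' t (hsub ht))
  have hinv : ∀ t, ∀ a : V, dot n a = 0 → ∀ x, u t (x + a) = u t x := by
    intro t a ha x
    simp only [hu]
    rw [dot_add_r, ha, add_zero]
  have hperp : ∀ t, ∀ x, ∑ i, (n i : ℝ) * u t x i = 0 := by
    intro t x
    simp only [hu, Pi.smul_apply, smul_eq_mul]
    have : ∀ i, (n i : ℝ) * ((∑' j : ℕ, 2 * b t j * Real.sin (j * dot n x)) * e i)
        = (∑' j : ℕ, 2 * b t j * Real.sin (j * dot n x)) * ((n i : ℝ) * e i) := fun i => by ring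
    rw [Finset.sum_congr rfl fun i _ => this i, ← Finset.mul_sum, hne, mul_zero]
  refine ⟨T, hT, u, ⟨huC.mono (prod_mono hsub subset_rfl), contDiffOn_const,
    fun t ht => (hsl t ht).2, fun t _ i x => rfl, fun t ht x => ?_, fun t ht x i => ?_⟩, ?_⟩
  · exact shear_div hn (hsl t ht).1 (hinv t) (hperp t) x
  · rw [shear_transport (hsl t ht).1 (hinv t) (hperp t) x i]
    have h3 : HasDerivAt (fun s => u s x i)
        ((∑' l : ℕ, 2 * d t l * Real.sin (l * dot n x)) * e i) t :=
      (hP2 t (hsub ht) (dot n x)).mul_const (e i)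
    rw [h3.hasDerivWithinAt.derivWithin (ud_Ico ht)]
    have h4 := op_series h h2 hn hL hv (hbz t) (hbd' t (hsub ht)) x
    have h5 : op M (u t) (u t) x
        = (∑' l : ℕ, 2 * (κ * qt (fun l m => L l m) (b t) l) * Real.sin (l * dot n x)) • e := h4
    rw [h5, Pi.smul_apply, smul_eq_mul]
    have h6 : ∑' l : ℕ, 2 * d t l * Real.sin (l * dot n x)
        = ∑' l : ℕ, 2 * (κ * qt (fun l m => L l m) (b t) l) * Real.sin (l * dot n x) := by
      refine tsum_congr fun l => ?_
      simp only [hd]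
      split_ifs with hl
      · subst hl
        simp
      · rfl
    rw [h6]
    simp
  · funext x
    simp only [hu, hb0]
    congr 1
    rw [tsum_eq_single 1]
    · rw [if_pos rfl, Nat.cast_one, one_mul]
      ring
    · intro j hj
      simp [hj]

namespace Shear

variable (S : Shear δ N M T w q n e f g)
include S

theorem bc_derivL (hL : LW L) (hv : ValL κ L M n e) {t : ℝ} (ht : t ∈ Ioo 0 T) {l : ℕ}
    (hl : 0 < l) :
    HasDerivAt (fun s => bc w n e s l)
      (κ * qt (fun l m => L l m) (fun l => bc w n e t l) l) t := by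
  have htI : t ∈ Ico 0 T := ⟨ht.1.le, ht.2⟩
  have h1 := (coeff_deriv S.sol.contDiffOn_u ((l : ℤ) • n)).2 t ht
  have h2 : (fun x i => derivWithin (fun s => w s x i) (Ico 0 T) t) = op M (w t) (w t) := by
    funext x i
    exact S.eqn htI x i
  rw [h2, coeff_op S.sy (S.summ htI)] at h1
  have h3 := line_conv S.sy S.sy2 S.nne hL hv (S.bc_summable htI) (S.bc_neg htI)
    (a := coeff (w t)) (S.coeff_bc htI) (S.supp htI) hl
  rw [h3] at h1
  have h4 := (bL e).hasFDerivAt.comp_hasDerivAt t h1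
  rw [bL_smul S.eun] at h4
  refine h4.congr_deriv ?_
  have h5 : ∀ r : ℝ, -((-Complex.I * (r : ℂ)).im) = r := by
    intro r
    simp
  rw [h5]
  unfold qt
  have h6 : ∑ m ∈ Finset.Ico 1 l, L ((l : ℤ) - m) m * (bc w n e t ((l : ℤ) - m) * bc w n e t m)
      = ∑ m ∈ Finset.Ico 1 l, L ((l - m : ℕ) : ℤ) m
        * (bc w n e t ((l - m : ℕ) : ℤ) * bc w n e t m) := by
    refine Finset.sum_congr rfl fun m hm => ?_
    rw [Nat.cast_sub (Finset.mem_Ico.1 hm).2.le]
  rw [h6]
  push_cast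
  rfl

/-- The blow-up for symbols of negative order. -/
theorem blowupN (hs : 0 ≤ s) (hs' : s < 1 / 4) (hw : Wt s lam) (hκ : 0 < κ)
    (hv : ValL κ (LL lam) M n e)
    (hS : 0 < ∑' l : ℕ, (l : ℝ) ^ (-(1 / 4) : ℝ) * bc w n e 0 l) :
    T ≤ 8 / ((1 - 4 * s) * (κ / 12) * ∑' l : ℕ, (l : ℝ) ^ (-(1 / 4) : ℝ) * bc w n e 0 l) := by
  set b : ℝ → ℕ → ℝ := fun t l => if l = 0 then 0 else bc w n e t l with hb
  have hbI : ∀ t ∈ Ico 0 T, ∀ l : ℕ, b t l = bc w n e t l := by
    intro t ht l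
    simp only [hb]
    split_ifs with h
    · rw [h, Nat.cast_zero, S.bc_zero ht]
    · rfl
  have e0 : ∑' l : ℕ, (l : ℝ) ^ (-(1 / 4) : ℝ) * b 0 l
      = ∑' l : ℕ, (l : ℝ) ^ (-(1 / 4) : ℝ) * bc w n e 0 l := by
    refine tsum_congr fun l => ?_
    simp only [hb]
    split_ifs with h
    · subst h
      rw [Nat.cast_zero, Real.zero_rpow (by norm_num), zero_mul, zero_mul]
    · rfl
  rw [← e0] at hS ⊢
  have hLW := LL_LW hs hw
  refine lifespan2 hs hs' (by positivity) hw (b := b) ?_ ?_ ?_ ?_ hS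
  · intro t
    simp only [hb, if_true]
  · intro T₁ hT
    obtain ⟨B, hB⟩ := grad_bdd S.sol hT
    refine ⟨(3 * B) ^ 2, fun t ht => ?_⟩
    have htI : t ∈ Ico 0 T := ⟨ht.1, ht.2.trans_lt hT⟩
    simp only [hbI t htI]
    exact S.bc_bound htI (hB t ht)
  · intro l
    exact (S.bc_cont l).congr fun t ht => hbI t ht l
  · intro t ht l hl
    have htI : t ∈ Ico 0 T := ⟨ht.1.le, ht.2⟩
    have h1 := S.bc_derivL hLW hv ht hl
    have h2 : (fun s => b s l) = fun s => bc w n e s l := by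
      funext s
      simp only [hb, if_neg hl.ne']
    rw [h2]
    refine h1.congr_deriv ?_
    have h3 : qt (fun l m => LL lam l m) (fun l => bc w n e t l) l = 1 / 12 * qt lam (b t) l := by
      unfold qt
      simp only [hbI t htI]
      rw [mul_sub, Finset.mul_sum, ← tsum_mul_left]
      congr 1
      · refine Finset.sum_congr rfl fun m hm => ?_
        obtain ⟨hm1, hm2⟩ := Finset.mem_Ico.1 hm
        rw [LL_nat (by omega) (by omega)]
        ring
      · refine tsum_congr fun m => ?_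
        rw [LL_nat hl (by omega)]
        ring
    rw [h3]
    ring

end Shear

end H706T
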