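import Pool.Agent.Helper706_NS.HV1
import Pool.Agent.Helper706_NS.HV2
import Pool.Agent.Helper706_NS.TC
import Pool.Agent.Helper706_NS.H11

/-!
The polarization vectors for the symbols on the torus.
-/

set_option autoImplicit false

open Set Filter Topology MeasureTheory
open scoped ComplexConjugate ContDiff

namespace H706Y

open H706N H706N.JHV2 H706N.JH11

/-- The componentwise cube. -/
noncomputable def cb (k : E) : E := !₂[k 0 ^ 3, k 1 ^ 3, k 2 ^ 3]

/-- `|k|² k³ - (k · k³) k`. -/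
noncomputable def pe (k : E) : E :=
  (k 0 ^ 2 + k 1 ^ 2 + k 2 ^ 2) • cb k - (k 0 ^ 4 + k 1 ^ 4 + k 2 ^ 4) • k

/-- The polarization direction. -/
noncomputable def po (k : E) : E := ‖pe k‖⁻¹ • pe k

/-- The second polarization direction. -/
noncomputable def pf (k : E) : E := ‖k‖⁻¹ • cr k (po k)

/-- The helical polarization vectors. -/
noncomputable def pw (s : Bool) (k : E) : W := (-Complex.I) • toW (po k) + (sg s : ℂ) • toW (pf k)

theorem cb0 (k : E) : cb k 0 = k 0 ^ 3 := rfl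
theorem cb1 (k : E) : cb k 1 = k 1 ^ 3 := rfl
theorem cb2 (k : E) : cb k 2 = k 2 ^ 3 := rfl

theorem pe_apply0 (k : E) : pe k 0
    = (k 0 ^ 2 + k 1 ^ 2 + k 2 ^ 2) * k 0 ^ 3 - (k 0 ^ 4 + k 1 ^ 4 + k 2 ^ 4) * k 0 := rfl
theorem pe_apply1 (k : E) : pe k 1
    = (k 0 ^ 2 + k 1 ^ 2 + k 2 ^ 2) * k 1 ^ 3 - (k 0 ^ 4 + k 1 ^ 4 + k 2 ^ 4) * k 1 := rfl
theorem pe_apply2 (k : E) : pe k 2
    = (k 0 ^ 2 + k 1 ^ 2 + k 2 ^ 2) * k 2 ^ 3 - (k 0 ^ 4 + k 1 ^ 4 + k 2 ^ 4) * k 2 := rfl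

theorem pe_smul (r : ℝ) (k : E) : pe (r • k) = r ^ 5 • pe k := by
  apply hv2_extE
  · rw [PiLp.smul_apply, pe_apply0 k, pe_apply0]; simp only [PiLp.smul_apply, smul_eq_mul]; ring
  · rw [PiLp.smul_apply, pe_apply1 k, pe_apply1]; simp only [PiLp.smul_apply, smul_eq_mul]; ring
  · rw [PiLp.smul_apply, pe_apply2 k, pe_apply2]; simp only [PiLp.smul_apply, smul_eq_mul]; ring

theorem po_smul {r : ℝ} (hr : 0 < r) (k : E) : po (r • k) = po k := by
  unfold po
  rw [pe_smul, norm_smul, smul_smul, Real.norm_eq_abs, abs_of_pos (pow_pos hr 5), mul_inv]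
  congr 1
  have : r ^ 5 ≠ 0 := (pow_pos hr 5).ne'
  field_simp

theorem pe_neg (k : E) : pe (-k) = -pe k := by
  have h := pe_smul (-1) k
  have e1 : (-1 : ℝ) • k = -k := by rw [neg_smul, one_smul]
  have e2 : ((-1 : ℝ) ^ 5) • pe k = -pe k := by norm_num
  rw [e1, e2] at h
  exact h

theorem po_neg (k : E) : po (-k) = -po k := by
  unfold po
  rw [pe_neg, norm_neg, smul_neg]

theorem k_pe (k : E) : k 0 * pe k 0 + k 1 * pe k 1 + k 2 * pe k 2 = 0 := by
  rw [pe_apply0, pe_apply1, pe_apply2]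
  ring

theorem k_po (k : E) : k 0 * po k 0 + k 1 * po k 1 + k 2 * po k 2 = 0 := by
  unfold po
  simp only [PiLp.smul_apply, smul_eq_mul]
  linear_combination ‖pe k‖⁻¹ * k_pe k

theorem po_norm_le (k : E) : ‖po k‖ ≤ 1 := by
  unfold po
  rw [norm_smul, norm_inv, norm_norm]
  exact inv_mul_le_one

theorem po_norm {k : E} (h : pe k ≠ 0) : ‖po k‖ = 1 := by
  unfold po
  rw [norm_smul, norm_inv, norm_norm, inv_mul_cancel₀ (norm_ne_zero_iff.2 h)]

theorem pf_norm_le (k : E) : ‖pf k‖ ≤ 1 := by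
  unfold pf
  rw [norm_smul, norm_inv, norm_norm]
  have h1 : ‖cr k (po k)‖ ≤ ‖k‖ * 1 :=
    (hv2_cr_norm _ _).trans (mul_le_mul_of_nonneg_left (po_norm_le k) (norm_nonneg _))
  calc ‖k‖⁻¹ * ‖cr k (po k)‖ ≤ ‖k‖⁻¹ * (‖k‖ * 1) :=
        mul_le_mul_of_nonneg_left h1 (inv_nonneg.2 (norm_nonneg _))
    _ ≤ 1 := by rw [mul_one]; exact inv_mul_le_one

theorem pf_neg (k : E) : pf (-k) = pf k := by
  unfold pf
  rw [norm_neg, po_neg, hv2_cr_neg_neg]

theorem pf_smul {r : ℝ} (hr : 0 < r) (k : E) : pf (r • k) = pf k := by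
  unfold pf
  rw [po_smul hr, hv2_cr_smul_left, smul_smul, norm_smul, Real.norm_eq_abs, abs_of_pos hr]
  congr 1
  rw [mul_inv, mul_assoc, mul_comm _ r, ← mul_assoc, inv_mul_cancel₀ hr.ne', one_mul]

theorem kd_po (k : E) : kd k (toW (po k)) = 0 := by
  have h := k_po k
  unfold kd
  rw [Fin.sum_univ_three, hv2_toW, hv2_toW, hv2_toW, ← Complex.ofReal_mul, ← Complex.ofReal_mul,
    ← Complex.ofReal_mul, ← Complex.ofReal_add, ← Complex.ofReal_add, h, Complex.ofReal_zero]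

theorem kd_pf (k : E) : kd k (toW (pf k)) = 0 := by
  unfold pf
  rw [hv2_toW_smul, hv2_kd_smul]
  have h1 : kd k (toW (cr k (po k))) = 0 := by
    unfold kd
    rw [Fin.sum_univ_three, hv2_toW, hv2_toW, hv2_toW, hv2_cr0, hv2_cr1, hv2_cr2]
    push_cast
    ring
  rw [h1, mul_zero]

theorem po_pf (k : E) : dt (toW (po k)) (toW (pf k)) = 0 := by
  unfold pf
  rw [hv2_toW_smul, dt_smul]
  have h1 : dt (toW (po k)) (toW (cr k (po k))) = 0 := by
    unfold dt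
    rw [Fin.sum_univ_three, hv2_toW, hv2_toW, hv2_toW, hv2_toW, hv2_toW, hv2_toW, hv2_cr0, hv2_cr1,
      hv2_cr2]
    push_cast
    ring
  rw [h1, mul_zero]

theorem cr_po (k : E) : cr k (po k) = ‖k‖ • pf k := by
  unfold pf
  rw [smul_smul]
  by_cases hk : ‖k‖ = 0
  · have h1 : cr k (po k) = 0 := by
      rw [← norm_le_zero_iff]
      calc ‖cr k (po k)‖ ≤ ‖k‖ * ‖po k‖ := hv2_cr_norm _ _
        _ = 0 := by rw [hk, zero_mul]
    rw [h1, smul_zero]
  · rw [mul_inv_cancel₀ hk, one_smul]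

theorem cr_pf (k : E) : cr k (pf k) = (-‖k‖) • po k := by
  by_cases hk : ‖k‖ = 0
  · have h1 : cr k (pf k) = 0 := by
      rw [← norm_le_zero_iff]
      calc ‖cr k (pf k)‖ ≤ ‖k‖ * ‖pf k‖ := hv2_cr_norm _ _
        _ = 0 := by rw [hk, zero_mul]
    rw [h1, hk, neg_zero, zero_smul]
  · have h2 : cr k (cr k (po k)) = (-‖k‖ ^ 2) • po k := by
      have h3 := k_po k
      have h4 := hv2_norm_sq k
      apply hv2_extE
      · rw [hv2_cr0, hv2_cr1, hv2_cr2, PiLp.smul_apply, smul_eq_mul, h4]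
        linear_combination (k 0) * h3
      · rw [hv2_cr1, hv2_cr0, hv2_cr2, PiLp.smul_apply, smul_eq_mul, h4]
        linear_combination (k 1) * h3
      · rw [hv2_cr2, hv2_cr0, hv2_cr1, PiLp.smul_apply, smul_eq_mul, h4]
        linear_combination (k 2) * h3
    have h5 : ‖k‖ • cr k (pf k) = ‖k‖ • ((-‖k‖) • po k) := by
      have h6 : cr k (‖k‖ • pf k) = ‖k‖ • cr k (pf k) := by
        apply hv2_extE
        · rw [hv2_cr0, PiLp.smul_apply, PiLp.smul_apply, PiLp.smul_apply, hv2_cr0]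
          simp only [smul_eq_mul]; ring
        · rw [hv2_cr1, PiLp.smul_apply, PiLp.smul_apply, PiLp.smul_apply, hv2_cr1]
          simp only [smul_eq_mul]; ring
        · rw [hv2_cr2, PiLp.smul_apply, PiLp.smul_apply, PiLp.smul_apply, hv2_cr2]
          simp only [smul_eq_mul]; ring
      rw [← h6, ← cr_po, h2, smul_smul]
      congr 1
      ring
    exact smul_right_injective E hk h5

theorem cj_pw (s : Bool) (k : E) :
    cj (pw s k) = Complex.I • toW (po k) + (sg s : ℂ) • toW (pf k) := by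
  unfold pw
  rw [cj_add, cj_smul, cj_smul, cj_toW, cj_toW, map_neg, Complex.conj_I, neg_neg,
    Complex.conj_ofReal]

theorem pw_neg (s : Bool) (k : E) : pw s (-k) = cj (pw s k) := by
  rw [cj_pw]
  unfold pw
  rw [po_neg, pf_neg, hv2_toW_neg, smul_neg, neg_smul, neg_neg]

theorem cu_pw (s : Bool) (k : E) : cu k (pw s k) = ((sg s * ‖k‖ : ℝ) : ℂ) • pw s k := by
  have hs : (sg s : ℂ) * (sg s : ℂ) = 1 := by
    cases s <;> simp [sg]
  have h1 : crw (toW k) (toW (po k)) = (‖k‖ : ℂ) • toW (pf k) := by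
    rw [hv2_crw_toW, cr_po, hv2_toW_smul]
  have h2 : crw (toW k) (toW (pf k)) = (-(‖k‖ : ℂ)) • toW (po k) := by
    rw [hv2_crw_toW, cr_pf, hv2_toW_smul, Complex.ofReal_neg]
  unfold cu pw
  rw [hv2_crw_add, hv2_crw_smul, hv2_crw_smul, h1, h2]
  ext j
  simp only [PiLp.smul_apply, PiLp.add_apply, smul_eq_mul, Complex.ofReal_mul]
  have hI : Complex.I * Complex.I = -1 := Complex.I_mul_I
  linear_combination (-(‖k‖ : ℂ) * toW (pf k) j) * hI - ((‖k‖ : ℂ) * toW (pf k) j) * hs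

theorem pw_cu (s : Bool) (k : E) (a : W) :
    dt (pw s k) (cu k a) = ((-(sg s * ‖k‖) : ℝ) : ℂ) * dt (pw s k) a := by
  have h1 := dt_cu k (pw s k) a
  have h2 : dt (pw s k) (cu k a) = -dt (cu k (pw s k)) a := by rw [h1, neg_neg]
  rw [h2, cu_pw, dt_comm, dt_smul, dt_comm a, Complex.ofReal_neg, neg_mul]

theorem pw_norm (s : Bool) (k : E) : ‖pw s k‖ ≤ 2 := by
  unfold pw
  have hs : ‖(sg s : ℂ)‖ = 1 := by
    cases s <;> simp [sg]
  calc ‖(-Complex.I) • toW (po k) + (sg s : ℂ) • toW (pf k)‖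
      ≤ ‖(-Complex.I) • toW (po k)‖ + ‖(sg s : ℂ) • toW (pf k)‖ := norm_add_le _ _
    _ = ‖po k‖ + ‖pf k‖ := by
        rw [norm_smul, norm_smul, hs, norm_neg, Complex.norm_I, norm_toW, norm_toW, one_mul, one_mul]
    _ ≤ 2 := by linarith [po_norm_le k, pf_norm_le k]

theorem kd_pw (s : Bool) (k : E) : kd k (cj (pw s k)) = 0 := by
  rw [cj_pw, hv2_kd_add, hv2_kd_smul, hv2_kd_smul, kd_po, kd_pf, mul_zero, mul_zero, add_zero]

theorem dt_pw_po (s : Bool) {k : E} (h : pe k ≠ 0) : dt (pw s k) (toW (po k)) = -Complex.I := by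
  have h1 : dt (toW (po k)) (toW (po k)) = 1 := by
    have h2 := hv2_norm_sq (po k)
    rw [po_norm h] at h2
    unfold dt
    rw [Fin.sum_univ_three, hv2_toW, hv2_toW, hv2_toW]
    have h3 : po k 0 * po k 0 + po k 1 * po k 1 + po k 2 * po k 2 = 1 := by nlinarith
    rw [← Complex.ofReal_mul, ← Complex.ofReal_mul,
      ← Complex.ofReal_mul, ← Complex.ofReal_add, ← Complex.ofReal_add, h3, Complex.ofReal_one]
  unfold pw
  rw [dt_comm, dt_add, dt_smul, dt_smul, h1, po_pf, mul_zero, add_zero, mul_one]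

end H706Y
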