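import Pool.Agent.Helper706_TE.Sy1

/-!
The symbols on the torus.
-/

set_option autoImplicit false

open Set Filter Topology MeasureTheory
open scoped ComplexConjugate ContDiff

namespace H706Y

open H706N H706N.JHV2 H706N.JH11

open Classical in
/-- The weights. -/
noncomputable def wt (N : ℝ) (p q : E) : ℝ :=
  if (cr p q = 0 ∧ (pe p ≠ 0 ∧ pe q ≠ 0 ∧ pe (p + q) ≠ 0) ∧ (N ≤ ‖p‖ ∧ N ≤ ‖q‖ ∧ N ≤ ‖p + q‖))
  then 1 else 0

open Classical in
/-- The coefficients. -/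
noncomputable def P0 (a b c : ℝ) : ℝ :=
  if (0 < a ∧ c = a + b) then 1 else (if (0 < a ∧ b = a + c) then -1 else 0)

/-- The symbols. -/
noncomputable def sy (P : ℝ → ℝ → ℝ → ℝ) (κ N : ℝ) (p q : E) (a b : W) : W :=
  ∑ s₁ : Bool, ∑ s₂ : Bool, ∑ s₃ : Bool,
    ((-((κ * wt N p q) * PS P s₁ s₂ s₃ ‖p‖ ‖q‖ ‖p + q‖ : ℝ) : ℂ) * (dt (pw s₁ p) a * dt (pw s₂ q) b)) •
      ((1 / 2 : ℂ) • cj (pw s₃ (p + q)))

theorem cr_swap (p q : E) : cr q p = -cr p q := by
  apply hv2_extE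
  · rw [hv2_cr0, PiLp.neg_apply, hv2_cr0]; ring
  · rw [hv2_cr1, PiLp.neg_apply, hv2_cr1]; ring
  · rw [hv2_cr2, PiLp.neg_apply, hv2_cr2]; ring

theorem cr_third (p q : E) : cr (-p) (p + q) = -cr p q := by
  apply hv2_extE
  · rw [PiLp.neg_apply, hv2_cr0 p q, hv2_cr0]; simp only [PiLp.neg_apply, PiLp.add_apply]; ring
  · rw [PiLp.neg_apply, hv2_cr1 p q, hv2_cr1]; simp only [PiLp.neg_apply, PiLp.add_apply]; ring
  · rw [PiLp.neg_apply, hv2_cr2 p q, hv2_cr2]; simp only [PiLp.neg_apply, PiLp.add_apply]; ring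

theorem wt_swap (N : ℝ) (p q : E) : wt N q p = wt N p q := by
  unfold wt
  refine if_congr ?_ rfl rfl
  rw [cr_swap p q, neg_eq_zero, add_comm q p]
  tauto

theorem wt_neg (N : ℝ) (p q : E) : wt N (-p) (-q) = wt N p q := by
  unfold wt
  have e : -p + -q = -(p + q) := by abel
  refine if_congr ?_ rfl rfl
  rw [hv2_cr_neg_neg, e, pe_neg, pe_neg, pe_neg, norm_neg, norm_neg, norm_neg]
  simp only [neg_ne_zero, ne_eq, neg_eq_zero]

theorem wt_third (N : ℝ) (p q : E) : wt N (-p) (p + q) = wt N p q := by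
  unfold wt
  have e : -p + (p + q) = q := by abel
  refine if_congr ?_ rfl rfl
  rw [cr_third, neg_eq_zero, e, pe_neg, norm_neg, neg_ne_zero]
  tauto

theorem wt_p4 (N : ℝ) (p q : E) : wt N p (-(p + q)) = wt N p q := by
  rw [← wt_neg N p (-(p + q)), neg_neg, wt_third]

theorem wt_p1 (N : ℝ) (p q : E) : wt N q (-(p + q)) = wt N p q := by
  rw [add_comm p q, wt_p4, wt_swap]

theorem wt_p2 (N : ℝ) (p q : E) : wt N (-(p + q)) p = wt N p q := by
  rw [wt_swap, wt_p4]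

theorem wt_p3 (N : ℝ) (p q : E) : wt N (-(p + q)) q = wt N p q := by
  rw [wt_swap, wt_p1]

theorem wt_le (N : ℝ) (p q : E) : |wt N p q| ≤ 1 := by
  unfold wt
  split_ifs <;> simp

theorem wt_supp {N : ℝ} {p q : E} (h : wt N p q ≠ 0) :
    cr p q = 0 ∧ (pe p ≠ 0 ∧ pe q ≠ 0 ∧ pe (p + q) ≠ 0) ∧ (N ≤ ‖p‖ ∧ N ≤ ‖q‖ ∧ N ≤ ‖p + q‖) := by
  unfold wt at h
  by_contra h1
  rw [if_neg h1] at h
  exact h rfl

theorem P0_anti (a b c : ℝ) : P0 a c b = -P0 a b c := by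
  unfold P0
  by_cases h1 : 0 < a ∧ c = a + b
  · have h2 : ¬ (0 < a ∧ b = a + c) := by
      rintro ⟨h3, h4⟩
      linarith [h1.2]
    rw [if_neg h2, if_pos h1, if_pos h1]
  · by_cases h2 : 0 < a ∧ b = a + c
    · rw [if_pos h2, if_neg h1, if_pos h2, neg_neg]
    · rw [if_neg h2, if_neg h1, if_neg h1, if_neg h2, neg_zero]

theorem P0_bd (a b c : ℝ) : |P0 a b c| ≤ 1 := by
  unfold P0
  split_ifs <;> simp

theorem PS_bd (s₁ s₂ s₃ : Bool) {a b c : ℝ} (ha : 0 ≤ a) (hb : 0 ≤ b) (hc : 0 ≤ c)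
    (h1 : a ≤ b + c) (h2 : b ≤ a + c) (h3 : c ≤ a + b) : |PS P0 s₁ s₂ s₃ a b c| ≤ 8 := by
  have hH : ∀ a b c : ℝ, 0 ≤ a → 0 ≤ b → 0 ≤ c → a ≤ b + c → b ≤ a + c → c ≤ a + b →
      |HH P0 a b c| * (a + b + c) ≤ 12 := by
    intro a b c ha hb hc h1 h2 h3
    have hAA : ∀ x y z, |AA P0 x y z| ≤ 2 := by
      intro x y z
      unfold AA
      refine (abs_add_le _ _).trans ?_
      linarith [P0_bd x y z, P0_bd y x z]
    have hs : 0 ≤ a + b + c := by positivity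
    rcases hs.eq_or_lt with h0 | h0
    · rw [← h0]; norm_num
    have hq : (a + b + c) ^ 2 ≤ 8 * (a * b + b * c + c * a) := by
      rcases le_total a b with hab | hab
      · rcases le_total b c with hbc | hbc
        · nlinarith [mul_nonneg ha hb, mul_nonneg hb hc, mul_nonneg hc ha,
            mul_nonneg (sub_nonneg.2 h3) (sub_nonneg.2 hbc), mul_nonneg (sub_nonneg.2 h3) hc,
            mul_nonneg (sub_nonneg.2 h3) ha, mul_nonneg (sub_nonneg.2 h3) hb,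
            mul_nonneg (sub_nonneg.2 hbc) hb, mul_nonneg (sub_nonneg.2 hbc) hc,
            mul_nonneg (sub_nonneg.2 hab) hb, mul_nonneg (sub_nonneg.2 hab) ha]
        · nlinarith [mul_nonneg ha hb, mul_nonneg hb hc, mul_nonneg hc ha,
            mul_nonneg (sub_nonneg.2 h2) (sub_nonneg.2 hbc), mul_nonneg (sub_nonneg.2 h2) hc,
            mul_nonneg (sub_nonneg.2 h2) ha, mul_nonneg (sub_nonneg.2 h2) hb,
            mul_nonneg (sub_nonneg.2 hbc) hb, mul_nonneg (sub_nonneg.2 hbc) hc,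
            mul_nonneg (sub_nonneg.2 hab) hb, mul_nonneg (sub_nonneg.2 hab) ha]
      · rcases le_total a c with hac | hac
        · nlinarith [mul_nonneg ha hb, mul_nonneg hb hc, mul_nonneg hc ha,
            mul_nonneg (sub_nonneg.2 h3) hc,
            mul_nonneg (sub_nonneg.2 h3) ha, mul_nonneg (sub_nonneg.2 h3) hb,
            mul_nonneg (sub_nonneg.2 hac) hc, mul_nonneg (sub_nonneg.2 hac) ha,
            mul_nonneg (sub_nonneg.2 hab) hb, mul_nonneg (sub_nonneg.2 hab) ha]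
        · nlinarith [mul_nonneg ha hb, mul_nonneg hb hc, mul_nonneg hc ha,
            mul_nonneg (sub_nonneg.2 h1) hc,
            mul_nonneg (sub_nonneg.2 h1) ha, mul_nonneg (sub_nonneg.2 h1) hb,
            mul_nonneg (sub_nonneg.2 hac) hc, mul_nonneg (sub_nonneg.2 hac) ha,
            mul_nonneg (sub_nonneg.2 hab) hb, mul_nonneg (sub_nonneg.2 hab) ha]
    have hden : 0 < 4 * (a * b + b * c + c * a) := by
      have : 0 < (a + b + c) ^ 2 := by positivity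
      linarith
    unfold HH
    rw [abs_div, abs_of_pos hden, div_mul_eq_mul_div, div_le_iff₀ hden]
    have e1 := hAA b c a
    have e2 := hAA c a b
    have e3 := hAA a b c
    have hnum : |(c - b) * AA P0 b c a + (b + c) * (AA P0 c a b - AA P0 a b c)| ≤
        6 * (a + b + c) := by
      have k1 : |c - b| ≤ a := by
        rw [abs_le]; constructor <;> linarith
      have k2 : |b + c| ≤ b + c := by
        rw [abs_of_nonneg (by linarith)]
      calc |(c - b) * AA P0 b c a + (b + c) * (AA P0 c a b - AA P0 a b c)|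
          ≤ |(c - b) * AA P0 b c a| + |(b + c) * (AA P0 c a b - AA P0 a b c)| := abs_add_le _ _
        _ = |c - b| * |AA P0 b c a| + |b + c| * |AA P0 c a b - AA P0 a b c| := by
            rw [abs_mul, abs_mul]
        _ ≤ a * 2 + (b + c) * 4 := by
            refine add_le_add (mul_le_mul k1 e1 (abs_nonneg _) ha) ?_
            refine mul_le_mul k2 ?_ (abs_nonneg _) (by linarith)
            refine (abs_sub _ _).trans ?_
            linarith
        _ ≤ _ := by linarith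
    calc |(c - b) * AA P0 b c a + (b + c) * (AA P0 c a b - AA P0 a b c)| * (a + b + c)
        ≤ (6 * (a + b + c)) * (a + b + c) := mul_le_mul_of_nonneg_right hnum hs
      _ ≤ 12 * (4 * (a * b + b * c + c * a)) := by nlinarith
  have hg : |gg P0 s₁ s₂ s₃ a b c| * (a + b + c) ≤ 12 := by
    have e1 := hH a b c ha hb hc h1 h2 h3
    have e2 := hH b c a hb hc ha (by linarith) (by linarith) (by linarith)
    have e3 := hH c a b hc ha hb (by linarith) (by linarith) (by linarith)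
    have t1 : b + c + a = a + b + c := by ring
    have t2 : c + a + b = a + b + c := by ring
    rw [t1] at e2
    rw [t2] at e3
    cases s₁ <;> cases s₂ <;> cases s₃ <;> simp only [gg, abs_neg, abs_zero, zero_mul] <;>
      first | assumption | norm_num
  unfold PS
  have hl : |2 * sg s₁ * a - sg s₂ * b - sg s₃ * c| ≤ 2 * (a + b + c) := by
    cases s₁ <;> cases s₂ <;> cases s₃ <;> simp only [sg, if_true, Bool.false_eq_true, if_false] <;>
      rw [abs_le] <;> constructor <;> linarith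
  rw [abs_div, abs_mul]
  have h3' : |(3 : ℝ)| = 3 := by norm_num
  rw [h3', div_le_iff₀ (by norm_num)]
  calc |2 * sg s₁ * a - sg s₂ * b - sg s₃ * c| * |gg P0 s₁ s₂ s₃ a b c|
      ≤ (2 * (a + b + c)) * |gg P0 s₁ s₂ s₃ a b c| :=
        mul_le_mul_of_nonneg_right hl (abs_nonneg _)
    _ = 2 * (|gg P0 s₁ s₂ s₃ a b c| * (a + b + c)) := by ring
    _ ≤ 8 * 3 := by linarith

theorem sy_lin₁ (P : ℝ → ℝ → ℝ → ℝ) (κ N : ℝ) (p q : E) (c : ℂ) (a a' b : W) :
    sy P κ N p q (a + c • a') b = sy P κ N p q a b + c • sy P κ N p q a' b := by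
  unfold sy
  simp only [Fintype.sum_bool, dt_add, dt_smul, smul_add, smul_smul, add_mul, mul_add, add_smul]
  simp only [← smul_smul]
  module

theorem sy_lin₂ (P : ℝ → ℝ → ℝ → ℝ) (κ N : ℝ) (p q : E) (c : ℂ) (a b b' : W) :
    sy P κ N p q a (b + c • b') = sy P κ N p q a b + c • sy P κ N p q a b' := by
  unfold sy
  simp only [Fintype.sum_bool, dt_add, dt_smul, smul_add, smul_smul, add_mul, mul_add, add_smul]
  simp only [← smul_smul]
  module

theorem sy_herm (P : ℝ → ℝ → ℝ → ℝ) (κ N : ℝ) (p q : E) (a b : W) :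
    sy P κ N (-p) (-q) (cj a) (cj b) = cj (sy P κ N p q a b) := by
  have e : -p + -q = -(p + q) := by abel
  unfold sy
  simp only [Fintype.sum_bool, cj_add, cj_smul, e, pw_neg, dt_cj, wt_neg, norm_neg, map_mul, map_neg,
    Complex.conj_ofReal, cj_cj]
  simp only [map_div₀, map_one, map_ofNat]

theorem sy_divf (P : ℝ → ℝ → ℝ → ℝ) (κ N : ℝ) (p q : E) (a b : W) :
    kd (p + q) (sy P κ N p q a b) = 0 := by
  unfold sy
  simp only [Fintype.sum_bool, ← dt_toW, dt_add, dt_smul]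
  simp only [dt_toW, kd_pw, mul_zero, add_zero]

theorem sy_supp (P : ℝ → ℝ → ℝ → ℝ) (κ N : ℝ) (p q : E) (a b : W)
    (h : sy P κ N p q a b ≠ 0) : wt N p q ≠ 0 := by
  intro h1
  apply h
  unfold sy
  simp only [h1, mul_zero, zero_mul, Complex.ofReal_zero, neg_zero, zero_smul,
    Finset.sum_const_zero]

theorem sy_bdd {κ : ℝ} (hκ : 0 ≤ κ) (N : ℝ) (p q : E) (a b : W) :
    ‖sy P0 κ N p q a b‖ ≤ 256 * κ * (‖a‖ * ‖b‖) := by
  have hterm : ∀ s₁ s₂ s₃ : Bool,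
      ‖((-((κ * wt N p q) * PS P0 s₁ s₂ s₃ ‖p‖ ‖q‖ ‖p + q‖ : ℝ) : ℂ)
        * (dt (pw s₁ p) a * dt (pw s₂ q) b)) • ((1 / 2 : ℂ) • cj (pw s₃ (p + q)))‖
      ≤ 32 * κ * (‖a‖ * ‖b‖) := by
    intro s₁ s₂ s₃
    rw [norm_smul, norm_smul, norm_mul, norm_mul, norm_neg, Complex.norm_real, norm_cj,
      Real.norm_eq_abs]
    have h1 : ‖dt (pw s₁ p) a‖ ≤ 2 * ‖a‖ :=
      (norm_dt _ _).trans (mul_le_mul_of_nonneg_right (pw_norm _ _) (norm_nonneg _))
    have h2 : ‖dt (pw s₂ q) b‖ ≤ 2 * ‖b‖ :=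
      (norm_dt _ _).trans (mul_le_mul_of_nonneg_right (pw_norm _ _) (norm_nonneg _))
    have h3 : ‖pw s₃ (p + q)‖ ≤ 2 := pw_norm _ _
    have h4 : |PS P0 s₁ s₂ s₃ ‖p‖ ‖q‖ ‖p + q‖| ≤ 8 := by
      refine PS_bd _ _ _ (norm_nonneg _) (norm_nonneg _) (norm_nonneg _) ?_ ?_ (norm_add_le _ _)
      · have := norm_sub_le (p + q) q
        rw [add_sub_cancel_right] at this
        linarith
      · have := norm_sub_le (p + q) p
        rw [add_sub_cancel_left] at this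
        linarith
    have h5 : ‖(1 / 2 : ℂ)‖ = 1 / 2 := by norm_num
    have h6 := wt_le N p q
    rw [h5, abs_mul, abs_mul, abs_of_nonneg hκ]
    calc κ * |wt N p q| * |PS P0 s₁ s₂ s₃ ‖p‖ ‖q‖ ‖p + q‖| * (‖dt (pw s₁ p) a‖ * ‖dt (pw s₂ q) b‖)
          * (1 / 2 * ‖pw s₃ (p + q)‖)
        ≤ κ * 1 * 8 * ((2 * ‖a‖) * (2 * ‖b‖)) * (1 / 2 * 2) := by
          gcongr
      _ = 32 * κ * (‖a‖ * ‖b‖) := by ring
  unfold sy
  refine (norm_sum_le _ _).trans ?_
  have h8 : ∀ s₁ ∈ (Finset.univ : Finset Bool), ‖∑ s₂ : Bool, ∑ s₃ : Bool,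
      ((-((κ * wt N p q) * PS P0 s₁ s₂ s₃ ‖p‖ ‖q‖ ‖p + q‖ : ℝ) : ℂ)
        * (dt (pw s₁ p) a * dt (pw s₂ q) b)) • ((1 / 2 : ℂ) • cj (pw s₃ (p + q)))‖
      ≤ 128 * κ * (‖a‖ * ‖b‖) := by
    intro s₁ _
    simp only [Fintype.sum_bool]
    refine (norm_add_le _ _).trans ?_
    have e1 := norm_add_le
      (((-((κ * wt N p q) * PS P0 s₁ true true ‖p‖ ‖q‖ ‖p + q‖ : ℝ) : ℂ)
        * (dt (pw s₁ p) a * dt (pw true q) b)) • ((1 / 2 : ℂ) • cj (pw true (p + q))))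
      (((-((κ * wt N p q) * PS P0 s₁ true false ‖p‖ ‖q‖ ‖p + q‖ : ℝ) : ℂ)
        * (dt (pw s₁ p) a * dt (pw true q) b)) • ((1 / 2 : ℂ) • cj (pw false (p + q))))
    have e2 := norm_add_le
      (((-((κ * wt N p q) * PS P0 s₁ false true ‖p‖ ‖q‖ ‖p + q‖ : ℝ) : ℂ)
        * (dt (pw s₁ p) a * dt (pw false q) b)) • ((1 / 2 : ℂ) • cj (pw true (p + q))))
      (((-((κ * wt N p q) * PS P0 s₁ false false ‖p‖ ‖q‖ ‖p + q‖ : ℝ) : ℂ)
        * (dt (pw s₁ p) a * dt (pw false q) b)) • ((1 / 2 : ℂ) • cj (pw false (p + q))))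
    linarith [hterm s₁ true true, hterm s₁ true false, hterm s₁ false true, hterm s₁ false false]
  refine (Finset.sum_le_sum h8).trans ?_
  simp only [Finset.sum_const, Finset.card_univ, Fintype.card_bool, nsmul_eq_mul]
  push_cast
  linarith

theorem sy_dt (P : ℝ → ℝ → ℝ → ℝ) (κ N : ℝ) (p q : E) (a b c : W) :
    dt (sy P κ N p q a b) (cj c) = ∑ s₁ : Bool, ∑ s₂ : Bool, ∑ s₃ : Bool,
      ((-(1 / 2 * ((κ * wt N p q) * PS P s₁ s₂ s₃ ‖p‖ ‖q‖ ‖p + q‖)) : ℝ) : ℂ) *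
        (dt (pw s₁ p) a * dt (pw s₂ q) b * conj (dt (pw s₃ (p + q)) c)) := by
  have key : ∀ (s₃ : Bool) (z : ℂ), dt (z • ((1 / 2 : ℂ) • cj (pw s₃ (p + q)))) (cj c)
      = z * (1 / 2) * conj (dt (pw s₃ (p + q)) c) := by
    intro s₃ z
    rw [dt_comm, dt_smul, dt_smul, dt_comm, dt_cj]
    ring
  have hadd : ∀ x y z : W, dt (x + y) z = dt x z + dt y z := fun x y z => by
    rw [dt_comm, dt_add, dt_comm z x, dt_comm z y]
  unfold sy
  simp only [Fintype.sum_bool, hadd, key]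
  push_cast
  ring

theorem sy_skew (P : ℝ → ℝ → ℝ → ℝ) (κ N : ℝ) (p q : E) (a b c : W) :
    dt (sy P κ N (-p) (p + q) (cj a) c) (cj b) = -conj (dt (sy P κ N p q a b) (cj c)) := by
  rw [sy_dt, sy_dt]
  have e : -p + (p + q) = q := by abel
  simp only [e, wt_third, norm_neg, pw_neg, dt_cj]
  have hh := H706N.PS_anti P
  have k : ∀ s₁ s₂ s₃ : Bool, (PS P s₁ s₃ s₂ ‖p‖ ‖p + q‖ ‖q‖) = -PS P s₁ s₂ s₃ ‖p‖ ‖q‖ ‖p + q‖ :=
    fun s₁ s₂ s₃ => hh s₁ s₂ s₃ _ _ _
  simp only [Fintype.sum_bool, k, map_add, map_mul, Complex.conj_ofReal, Complex.conj_conj]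
  push_cast
  ring

theorem sy_cu (P : ℝ → ℝ → ℝ → ℝ) (κ N : ℝ) (p q r : E) (a b c : W) (h : p + q = -r) :
    dt (sy P κ N p q a b) (cu r c) = ∑ s₁ : Bool, ∑ s₂ : Bool, ∑ s₃ : Bool,
      ((1 / 2 * (sg s₃ * ‖r‖ * ((κ * wt N p q) * PS P s₁ s₂ s₃ ‖p‖ ‖q‖ ‖p + q‖)) : ℝ) : ℂ) *
        (dt (pw s₁ p) a * dt (pw s₂ q) b * dt (pw s₃ r) c) := by
  have key : ∀ (s₃ : Bool) (z : ℂ), dt (z • ((1 / 2 : ℂ) • cj (pw s₃ (p + q)))) (cu r c)
      = z * (1 / 2) * (((-(sg s₃ * ‖r‖) : ℝ) : ℂ) * dt (pw s₃ r) c) := by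
    intro s₃ z
    rw [h, pw_neg, cj_cj, dt_comm, dt_smul, dt_smul, dt_comm, pw_cu]
    ring
  have hadd : ∀ x y z : W, dt (x + y) z = dt x z + dt y z := fun x y z => by
    rw [dt_comm, dt_add, dt_comm z x, dt_comm z y]
  unfold sy
  simp only [Fintype.sum_bool, hadd, key]
  push_cast
  ring

theorem sy_hel (P : ℝ → ℝ → ℝ → ℝ) (κ N : ℝ) (p q : E) (a b c : W) :
    dt (sy P κ N p q a b + sy P κ N q p b a) (cu (-(p + q)) c)
      + dt (sy P κ N q (-(p + q)) b c + sy P κ N (-(p + q)) q c b) (cu p a)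
      + dt (sy P κ N (-(p + q)) p c a + sy P κ N p (-(p + q)) a c) (cu q b) = 0 := by
  have hadd : ∀ x y z : W, dt (x + y) z = dt x z + dt y z := fun x y z => by
    rw [dt_comm, dt_add, dt_comm z x, dt_comm z y]
  have n1 : q + -(p + q) = -p := by abel
  have n2 : -(p + q) + q = -p := by abel
  have n3 : -(p + q) + p = -q := by abel
  have n4 : p + -(p + q) = -q := by abel
  rw [hadd, hadd, hadd,
    sy_cu P κ N p q (-(p + q)) a b c (by abel),
    sy_cu P κ N q p (-(p + q)) b a c (by abel),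
    sy_cu P κ N q (-(p + q)) p b c a (by abel),
    sy_cu P κ N (-(p + q)) q p c b a (by abel),
    sy_cu P κ N (-(p + q)) p q c a b (by abel),
    sy_cu P κ N p (-(p + q)) q a c b (by abel)]
  simp only [wt_swap N p q, wt_p1, wt_p2, wt_p3, wt_p4, norm_neg, add_comm q p, n1, n2, n3, n4]
  have hh := H706N.PS_hel P
  set A := ‖p‖
  set B := ‖q‖
  set C := ‖p + q‖
  set w := κ * wt N p q
  simp only [Fintype.sum_bool]
  have k : ∀ s₁ s₂ s₃ : Bool, ((sg s₃ * C * (PS P s₁ s₂ s₃ A B C + PS P s₂ s₁ s₃ B A C)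
      + sg s₁ * A * (PS P s₂ s₃ s₁ B C A + PS P s₃ s₂ s₁ C B A)
      + sg s₂ * B * (PS P s₃ s₁ s₂ C A B + PS P s₁ s₃ s₂ A C B) : ℝ) : ℂ) = 0 := by
    intro s₁ s₂ s₃
    rw [hh]
    simp
  have k1 := k true true true
  have k2 := k true true false
  have k3 := k true false true
  have k4 := k true false false
  have k5 := k false true true
  have k6 := k false true false
  have k7 := k false false true
  have k8 := k false false false
  push_cast at k1 k2 k3 k4 k5 k6 k7 k8 ⊢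
  set r : E := -(p + q)
  linear_combination
    (1 / 2 * (w : ℂ) * (dt (pw true p) a * dt (pw true q) b * dt (pw true r) c)) * k1
    + (1 / 2 * (w : ℂ) * (dt (pw true p) a * dt (pw true q) b * dt (pw false r) c)) * k2
    + (1 / 2 * (w : ℂ) * (dt (pw true p) a * dt (pw false q) b * dt (pw true r) c)) * k3
    + (1 / 2 * (w : ℂ) * (dt (pw true p) a * dt (pw false q) b * dt (pw false r) c)) * k4
    + (1 / 2 * (w : ℂ) * (dt (pw false p) a * dt (pw true q) b * dt (pw true r) c)) * k5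
    + (1 / 2 * (w : ℂ) * (dt (pw false p) a * dt (pw true q) b * dt (pw false r) c)) * k6
    + (1 / 2 * (w : ℂ) * (dt (pw false p) a * dt (pw false q) b * dt (pw true r) c)) * k7
    + (1 / 2 * (w : ℂ) * (dt (pw false p) a * dt (pw false q) b * dt (pw false r) c)) * k8

end H706Y
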