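import Pool.Agent.Helper706_TE.Sy2
import Pool.Agent.Helper706_TE.Defs2

/-!
Values and symmetries of the symbols on the torus.
-/

set_option autoImplicit false

open Set Filter Topology MeasureTheory
open scoped ComplexConjugate ContDiff

namespace H706Y

open H706N H706N.JHV2

theorem sgr_sq {l : ℤ} (hl : l ≠ 0) : H706T.sgr l * H706T.sgr l = 1 := by
  unfold H706T.sgr
  rcases lt_or_gt_of_ne hl with h | h
  · rw [Int.sign_eq_neg_one_of_neg h]; norm_num
  · rw [Int.sign_eq_one_of_pos h]; norm_num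

theorem po_int {l : ℤ} (hl : l ≠ 0) (k : E) : po ((l : ℝ) • k) = H706T.sgr l • po k := by
  unfold H706T.sgr
  rcases lt_or_gt_of_ne hl with h | h
  · rw [Int.sign_eq_neg_one_of_neg h]
    have h1 : (0 : ℝ) < -(l : ℝ) := by
      have : (l : ℝ) < 0 := by exact_mod_cast h
      linarith
    have h2 : (l : ℝ) • k = -((-(l : ℝ)) • k) := by rw [neg_smul, neg_neg]
    rw [h2, po_neg, po_smul h1]
    push_cast
    rw [neg_smul, one_smul]
  · rw [Int.sign_eq_one_of_pos h]
    have h1 : (0 : ℝ) < (l : ℝ) := by exact_mod_cast h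
    rw [po_smul h1]
    push_cast
    rw [one_smul]

theorem cr_smul_smul (r s : ℝ) (k : E) : cr (r • k) (s • k) = 0 := by
  apply hv2_extE
  · rw [hv2_cr0]; simp only [PiLp.smul_apply, smul_eq_mul, PiLp.zero_apply]; ring
  · rw [hv2_cr1]; simp only [PiLp.smul_apply, smul_eq_mul, PiLp.zero_apply]; ring
  · rw [hv2_cr2]; simp only [PiLp.smul_apply, smul_eq_mul, PiLp.zero_apply]; ring

theorem pe_int {l : ℤ} (hl : l ≠ 0) {k : E} (hk : pe k ≠ 0) : pe ((l : ℝ) • k) ≠ 0 := by
  rw [pe_smul]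
  have : (l : ℝ) ^ 5 ≠ 0 := pow_ne_zero 5 (by exact_mod_cast hl)
  exact smul_ne_zero this hk

theorem norm_int {l : ℤ} (k : E) : ‖(l : ℝ) • k‖ = |(l : ℝ)| * ‖k‖ := by
  rw [norm_smul, Real.norm_eq_abs]

theorem norm_int_le {l : ℤ} (hl : l ≠ 0) {k : E} {N : ℝ} (h : N ≤ ‖k‖) : N ≤ ‖(l : ℝ) • k‖ := by
  rw [norm_int]
  have h1 : (1 : ℝ) ≤ |(l : ℝ)| := by exact_mod_cast Int.one_le_abs hl
  calc N ≤ ‖k‖ := h
    _ = 1 * ‖k‖ := (one_mul _).symm
    _ ≤ |(l : ℝ)| * ‖k‖ := mul_le_mul_of_nonneg_right h1 (norm_nonneg _)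

theorem wt_line {N : ℝ} {k : E} (hk : pe k ≠ 0) (hN : N ≤ ‖k‖) {l m : ℤ} (hl : l ≠ 0) (hm : m ≠ 0)
    (hlm : l + m ≠ 0) : wt N ((l : ℝ) • k) ((m : ℝ) • k) = 1 := by
  unfold wt
  have e : (l : ℝ) • k + (m : ℝ) • k = ((l + m : ℤ) : ℝ) • k := by
    rw [← add_smul]; push_cast; rfl
  rw [if_pos]
  refine ⟨cr_smul_smul _ _ _, ⟨pe_int hl hk, pe_int hm hk, ?_⟩, norm_int_le hl hN,
    norm_int_le hm hN, ?_⟩
  · rw [e]; exact pe_int hlm hk
  · rw [e]; exact norm_int_le hlm hN

theorem dt_pw_line (s : Bool) {k : E} (hk : pe k ≠ 0) {l : ℤ} (hl : l ≠ 0) :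
    dt (pw s ((l : ℝ) • k)) (toW (po k)) = (H706T.sgr l : ℂ) * (-Complex.I) := by
  have h1 : po k = H706T.sgr l • po ((l : ℝ) • k) := by
    rw [po_int hl, smul_smul, sgr_sq hl, one_smul]
  rw [h1, hv2_toW_smul, dt_smul, dt_pw_po s (pe_int hl hk)]

theorem P0_val {l m : ℤ} (hl : l ≠ 0) (hm : m ≠ 0) (hlm : l + m ≠ 0) {r : ℝ} (hr : 0 < r) :
    (P0 (|(l : ℝ)| * r) (|(m : ℝ)| * r) (|((l + m : ℤ) : ℝ)| * r)
      + P0 (|(m : ℝ)| * r) (|(l : ℝ)| * r) (|((l + m : ℤ) : ℝ)| * r))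
      * (H706T.sgr l * H706T.sgr m * H706T.sgr (l + m))
      = if 0 < l * m then 2 * H706T.sgr l else H706T.sgr (l + m) := by
  have hl' : (0 : ℝ) < |(l : ℝ)| := abs_pos.2 (by exact_mod_cast hl)
  have hm' : (0 : ℝ) < |(m : ℝ)| := abs_pos.2 (by exact_mod_cast hm)
  have hlm' : (0 : ℝ) < |((l + m : ℤ) : ℝ)| := abs_pos.2 (by exact_mod_cast hlm)
  by_cases h : 0 < l * m
  · rw [if_pos h]
    have h1 : |((l + m : ℤ) : ℝ)| = |(l : ℝ)| + |(m : ℝ)| ∧ H706T.sgr m = H706T.sgr l ∧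
        H706T.sgr (l + m) = H706T.sgr l := by
      rcases lt_or_gt_of_ne hl with h2 | h2
      · have h3 : m < 0 := by nlinarith
        have h2' : (l : ℝ) < 0 := by exact_mod_cast h2
        have h3' : (m : ℝ) < 0 := by exact_mod_cast h3
        refine ⟨?_, ?_, ?_⟩
        · push_cast
          rw [abs_of_neg h2', abs_of_neg h3', abs_of_neg (by linarith)]; ring
        · unfold H706T.sgr; rw [Int.sign_eq_neg_one_of_neg h2, Int.sign_eq_neg_one_of_neg h3]
        · unfold H706T.sgr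
          rw [Int.sign_eq_neg_one_of_neg h2, Int.sign_eq_neg_one_of_neg (by linarith : l + m < 0)]
      · have h3 : 0 < m := by nlinarith
        have h2' : (0 : ℝ) < l := by exact_mod_cast h2
        have h3' : (0 : ℝ) < m := by exact_mod_cast h3
        refine ⟨?_, ?_, ?_⟩
        · push_cast
          rw [abs_of_pos h2', abs_of_pos h3', abs_of_pos (by linarith)]
        · unfold H706T.sgr; rw [Int.sign_eq_one_of_pos h2, Int.sign_eq_one_of_pos h3]
        · unfold H706T.sgr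
          rw [Int.sign_eq_one_of_pos h2, Int.sign_eq_one_of_pos (by linarith : 0 < l + m)]
    obtain ⟨h1, h2, h3⟩ := h1
    have e1 : P0 (|(l : ℝ)| * r) (|(m : ℝ)| * r) (|((l + m : ℤ) : ℝ)| * r) = 1 := by
      unfold P0
      rw [if_pos]
      exact ⟨by positivity, by rw [h1]; ring⟩
    have e2 : P0 (|(m : ℝ)| * r) (|(l : ℝ)| * r) (|((l + m : ℤ) : ℝ)| * r) = 1 := by
      unfold P0
      rw [if_pos]
      exact ⟨by positivity, by rw [h1]; ring⟩
    rw [e1, e2, h2, h3, sgr_sq hl]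
    ring
  · rw [if_neg h]
    have hneg : l * m < 0 := lt_of_le_of_ne (not_lt.1 h) (mul_ne_zero hl hm)
    have h1 : H706T.sgr l * H706T.sgr m = -1 := by
      unfold H706T.sgr
      rw [← Int.cast_mul, ← Int.sign_mul, Int.sign_eq_neg_one_of_neg hneg]
      norm_num
    have h2 : |(m : ℝ)| = |(l : ℝ)| + |((l + m : ℤ) : ℝ)| ∨
        |(l : ℝ)| = |(m : ℝ)| + |((l + m : ℤ) : ℝ)| := by
      rcases lt_or_gt_of_ne hl with h2 | h2
      · have h3 : 0 < m := by nlinarith
        have h2' : (l : ℝ) < 0 := by exact_mod_cast h2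
        have h3' : (0 : ℝ) < m := by exact_mod_cast h3
        push_cast
        rcases le_total 0 ((l : ℝ) + m) with h4 | h4
        · left; rw [abs_of_neg h2', abs_of_pos h3', abs_of_nonneg h4]; ring
        · right; rw [abs_of_neg h2', abs_of_pos h3', abs_of_nonpos h4]; ring
      · have h3 : m < 0 := by nlinarith
        have h2' : (0 : ℝ) < l := by exact_mod_cast h2
        have h3' : (m : ℝ) < 0 := by exact_mod_cast h3
        push_cast
        rcases le_total 0 ((l : ℝ) + m) with h4 | h4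
        · right; rw [abs_of_pos h2', abs_of_neg h3', abs_of_nonneg h4]; ring
        · left; rw [abs_of_pos h2', abs_of_neg h3', abs_of_nonpos h4]; ring
    have key : ∀ x y z : ℝ, 0 < x → 0 < y → 0 < z → y = x + z → P0 x y z = -1 ∧ P0 y x z = 0 := by
      intro x y z hx hy hz hxy
      constructor
      · unfold P0
        rw [if_neg, if_pos ⟨hx, hxy⟩]
        rintro ⟨_, h5⟩
        linarith
      · unfold P0
        rw [if_neg, if_neg]
        · rintro ⟨_, h5⟩
          linarith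
        · rintro ⟨_, h5⟩
          linarith
    have h3 : P0 (|(l : ℝ)| * r) (|(m : ℝ)| * r) (|((l + m : ℤ) : ℝ)| * r)
      + P0 (|(m : ℝ)| * r) (|(l : ℝ)| * r) (|((l + m : ℤ) : ℝ)| * r) = -1 := by
      rcases h2 with h2 | h2
      · obtain ⟨e1, e2⟩ := key (|(l : ℝ)| * r) (|(m : ℝ)| * r) (|((l + m : ℤ) : ℝ)| * r)
          (by positivity) (by positivity) (by positivity) (by rw [h2]; ring)
        rw [e1, e2]; ring
      · obtain ⟨e1, e2⟩ := key (|(m : ℝ)| * r) (|(l : ℝ)| * r) (|((l + m : ℤ) : ℝ)| * r)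
          (by positivity) (by positivity) (by positivity) (by rw [h2]; ring)
        rw [e1, e2]; ring
    rw [h3, h1]
    ring

theorem sum_cj_pw (k : E) :
    (1 / 2 : ℂ) • cj (pw true k) + (1 / 2 : ℂ) • cj (pw false k) = Complex.I • toW (po k) := by
  rw [cj_pw, cj_pw]
  have h1 : (sg true : ℂ) = 1 := by simp [sg]
  have h2 : (sg false : ℂ) = -1 := by simp [sg]
  rw [h1, h2]
  module

theorem sy_val (κ : ℝ) {N : ℝ} {k : E} (hk : pe k ≠ 0) (hN : N ≤ ‖k‖) {l m : ℤ} (hl : l ≠ 0)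
    (hm : m ≠ 0) (hlm : l + m ≠ 0) :
    sy P0 κ N ((l : ℝ) • k) ((m : ℝ) • k) (toW (po k)) (toW (po k))
      + sy P0 κ N ((m : ℝ) • k) ((l : ℝ) • k) (toW (po k)) (toW (po k))
      = (((κ * (if 0 < l * m then 2 * H706T.sgr l else H706T.sgr (l + m)) : ℝ) : ℂ) * Complex.I)
        • toW (po k) := by
  have hk0 : k ≠ 0 := by
    rintro rfl
    apply hk
    have := pe_smul 0 (0 : E)
    rw [zero_smul] at this
    rw [this]; norm_num
  have hr : 0 < ‖k‖ := norm_pos_iff.2 hk0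
  have e : (l : ℝ) • k + (m : ℝ) • k = ((l + m : ℤ) : ℝ) • k := by
    rw [← add_smul]; push_cast; rfl
  have e' : (m : ℝ) • k + (l : ℝ) • k = ((l + m : ℤ) : ℝ) • k := by
    rw [add_comm, e]
  have hml : m + l ≠ 0 := by rwa [add_comm]
  set A := |(l : ℝ)| * ‖k‖ with hA
  set B := |(m : ℝ)| * ‖k‖ with hB
  set C := |((l + m : ℤ) : ℝ)| * ‖k‖ with hC
  have hApos : 0 < A := mul_pos (abs_pos.2 (by exact_mod_cast hl)) hr
  have hBpos : 0 < B := mul_pos (abs_pos.2 (by exact_mod_cast hm)) hr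
  have hCpos : 0 < C := mul_pos (abs_pos.2 (by exact_mod_cast hlm)) hr
  have hABC : A * B + B * C + C * A ≠ 0 := by positivity
  have hsum := fun s₃ => PS_sum P0_anti s₃ hABC
  have s1 := hsum true
  have s2 := hsum false
  have hval := P0_val hl hm hlm hr
  rw [← hA, ← hB, ← hC] at hval
  have hpo : toW (po (((l + m : ℤ) : ℝ) • k)) = (H706T.sgr (l + m) : ℂ) • toW (po k) := by
    rw [po_int hlm, hv2_toW_smul]
  have hcj := sum_cj_pw (((l + m : ℤ) : ℝ) • k)
  rw [hpo] at hcj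
  unfold sy
  simp only [e, e', norm_int, wt_line hk hN hl hm hlm, wt_line hk hN hm hl hml,
    dt_pw_line _ hk hl, dt_pw_line _ hk hm, ← hA, ← hB, ← hC, Fintype.sum_bool, mul_one]
  simp only [Fintype.sum_bool] at s1 s2
  set X := (1 / 2 : ℂ) • cj (pw true (((l + m : ℤ) : ℝ) • k)) with hX
  set Y := (1 / 2 : ℂ) • cj (pw false (((l + m : ℤ) : ℝ) • k)) with hY
  rw [← hval]
  have hYX : Y = Complex.I • ((H706T.sgr (l + m) : ℂ) • toW (po k)) - X := by
    rw [← hcj]; abel
  have s1' := congrArg (fun x : ℝ => (x : ℂ)) s1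
  have s2' := congrArg (fun x : ℝ => (x : ℂ)) s2
  push_cast at s1' s2'
  rw [hYX]
  ext j
  simp only [PiLp.add_apply, PiLp.smul_apply, PiLp.sub_apply, smul_eq_mul]
  push_cast
  have hI : Complex.I * Complex.I = -1 := Complex.I_mul_I
  set sl := (H706T.sgr l : ℂ)
  set sm := (H706T.sgr m : ℂ)
  set sn := (H706T.sgr (l + m) : ℂ)
  set t := toW (po k) j
  set x := X j
  linear_combination (κ * sl * sm * x) * s1' + (κ * sl * sm * (Complex.I * (sn * t) - x)) * s2'
    + (-(κ : ℂ) * sl * sm * x * ((PS P0 true true true A B C : ℂ) + PS P0 true true true B A C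
      + PS P0 true false true A B C + PS P0 false true true B A C
      + PS P0 false true true A B C + PS P0 true false true B A C
      + PS P0 false false true A B C + PS P0 false false true B A C)
      - κ * sl * sm * (Complex.I * (sn * t) - x) * ((PS P0 true true false A B C : ℂ)
      + PS P0 true true false B A C
      + PS P0 true false false A B C + PS P0 false true false B A C
      + PS P0 false true false A B C + PS P0 true false false B A C
      + PS P0 false false false A B C + PS P0 false false false B A C)) * hI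

end H706Y
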