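import Pool.Agent.Helper706_TE.Sy5
import Pool.Agent.Helper706_TE.Defs4
import Pool.Agent.Helper706_TE.LS
import Pool.Agent.Helper706_TE.IW

/-!
Symbols of negative order.
-/

set_option autoImplicit false

open Set Filter Topology MeasureTheory
open scoped ComplexConjugate ContDiff

namespace H706T

/-- The content of a frequency. -/
def ct (k : K) : ℕ := Nat.gcd (Nat.gcd (k 0).natAbs (k 1).natAbs) (k 2).natAbs

/-- The weight of a triad of positive integers, one of which is the sum of the others. -/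
noncomputable def mu (lam : ℕ → ℕ → ℝ) (l m k : ℕ) : ℝ :=
  if l = 0 ∨ m = 0 ∨ k = 0 then 0 else
  if k = l + m then lam l m else if l = m + k then lam m k else if m = l + k then lam l k else 0

/-- The scale of a triad. -/
noncomputable def scl (p q : K) : ℝ :=
  (Real.sqrt (nq p) + Real.sqrt (nq q) + Real.sqrt (nq (p + q))) / (ct p + ct q + ct (p + q))

/-- The weight of a triad of frequencies. -/
noncomputable def Lam (s : ℝ) (lam : ℕ → ℕ → ℝ) (p q : K) : ℝ :=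
  scl p q ^ (-s) * mu lam (ct p) (ct q) (ct (p + q))

theorem ct_neg (k : K) : ct (-k) = ct k := by
  simp [ct, Int.natAbs_neg]

theorem ct_smul (l : ℤ) (k : K) : ct (l • k) = l.natAbs * ct k := by
  simp only [ct, Pi.smul_apply, smul_eq_mul, Int.natAbs_mul, Nat.gcd_mul_left]

theorem ct_eq_zero {k : K} : ct k = 0 ↔ k = 0 := by
  constructor
  · intro h
    rw [ct, Nat.gcd_eq_zero_iff, Nat.gcd_eq_zero_iff] at h
    obtain ⟨⟨h0, h1⟩, h2⟩ := h
    funext i
    fin_cases i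
    · exact Int.natAbs_eq_zero.1 h0
    · exact Int.natAbs_eq_zero.1 h1
    · exact Int.natAbs_eq_zero.1 h2
  · rintro rfl
    simp [ct]

theorem ct_pos {k : K} (h : k ≠ 0) : 0 < ct k := Nat.pos_of_ne_zero fun h' => h (ct_eq_zero.1 h')

theorem ct_act (σ : Equiv.Perm (Fin 3)) (ε : Fin 3 → ℤˣ) (k : K) : ct (actK σ ε k) = ct k := by
  have h1 : ∀ i, (actK σ ε k i).natAbs = (k (σ i)).natAbs := by
    intro i
    unfold actK
    rw [Int.natAbs_mul, Int.isUnit_iff_natAbs_eq.1 (ε i).isUnit, one_mul]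
  unfold ct
  rw [h1, h1, h1]
  rcases H706Y.perm_cases σ with ⟨s0, s1, s2⟩ | ⟨s0, s1, s2⟩ | ⟨s0, s1, s2⟩ | ⟨s0, s1, s2⟩ |
      ⟨s0, s1, s2⟩ | ⟨s0, s1, s2⟩ <;> rw [s0, s1, s2]
  · rw [Nat.gcd_assoc, Nat.gcd_comm (k 2).natAbs, ← Nat.gcd_assoc]
  · rw [Nat.gcd_comm (k 1).natAbs]
  · rw [Nat.gcd_comm _ (k 0).natAbs, ← Nat.gcd_assoc]
  · rw [Nat.gcd_assoc, Nat.gcd_comm (k 2).natAbs]
  · rw [Nat.gcd_comm _ (k 0).natAbs, Nat.gcd_comm (k 2).natAbs, ← Nat.gcd_assoc]

theorem nq_act (σ : Equiv.Perm (Fin 3)) (ε : Fin 3 → ℤˣ) (k : K) : nq (actK σ ε k) = nq k := by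
  unfold nq actK
  rw [← Equiv.sum_comp σ (fun j => (k j : ℝ) ^ 2)]
  refine Finset.sum_congr rfl fun j _ => ?_
  rcases Int.units_eq_one_or (ε j) with h | h <;> rw [h] <;> simp

theorem nq_neg (k : K) : nq (-k) = nq k := by
  unfold nq
  refine Finset.sum_congr rfl fun j _ => ?_
  rw [Pi.neg_apply]
  push_cast
  ring

theorem mu_swap (lam : ℕ → ℕ → ℝ) (hs : ∀ j m, lam j m = lam m j) (l m k : ℕ) :
    mu lam m l k = mu lam l m k := by
  unfold mu
  by_cases h0 : l = 0 ∨ m = 0 ∨ k = 0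
  · rw [if_pos h0, if_pos (by tauto)]
  · rw [if_neg h0, if_neg (by tauto)]
    push Not at h0
    obtain ⟨hl, hm, hk⟩ := h0
    by_cases h1 : k = l + m
    · rw [if_pos h1, if_pos (by omega), hs]
    · rw [if_neg h1, if_neg (by omega)]
      by_cases h2 : l = m + k
      · rw [if_neg (by omega), if_pos h2, if_pos h2]
      · rw [if_neg h2, if_neg h2]

theorem mu_rot (lam : ℕ → ℕ → ℝ) (hs : ∀ j m, lam j m = lam m j) (l m k : ℕ) :
    mu lam l k m = mu lam l m k := by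
  unfold mu
  by_cases h0 : l = 0 ∨ m = 0 ∨ k = 0
  · rw [if_pos h0, if_pos (by tauto)]
  · rw [if_neg h0, if_neg (by tauto)]
    push Not at h0
    obtain ⟨hl, hm, hk⟩ := h0
    split_ifs <;> first | rfl | exact hs _ _ | omega

section

variable {s : ℝ} {lam : ℕ → ℕ → ℝ}

theorem scl_swap (p q : K) : scl q p = scl p q := by
  unfold scl
  rw [add_comm q p]
  congr 1 <;> ring

theorem Lam_swap (h : Wt s lam) (p q : K) : Lam s lam q p = Lam s lam p q := by
  unfold Lam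
  rw [scl_swap, add_comm q p, mu_swap lam h.symm]

theorem Lam_neg (p q : K) : Lam s lam (-p) (-q) = Lam s lam p q := by
  unfold Lam scl
  have : -p + -q = -(p + q) := by abel
  rw [this, nq_neg, nq_neg, nq_neg, ct_neg, ct_neg, ct_neg]

theorem Lam_third (h : Wt s lam) (p q : K) : Lam s lam (-p) (p + q) = Lam s lam p q := by
  unfold Lam scl
  have : -p + (p + q) = q := by abel
  rw [this, nq_neg, ct_neg, mu_rot lam h.symm]
  congr 2
  congr 1 <;> ring

theorem Lam_p1 (h : Wt s lam) (p q : K) : Lam s lam q (-(p + q)) = Lam s lam p q := by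
  have h1 := Lam_third h (-q) (-p)
  rw [neg_neg] at h1
  have h2 : -q + -p = -(p + q) := by abel
  rw [h2] at h1
  rw [h1, Lam_neg, Lam_swap h]

theorem Lam_p2 (h : Wt s lam) (p q : K) : Lam s lam (-(p + q)) q = Lam s lam p q := by
  rw [Lam_swap h, Lam_p1 h]

theorem Lam_p3 (h : Wt s lam) (p q : K) : Lam s lam p (-(p + q)) = Lam s lam p q := by
  have h1 := Lam_p1 h q p
  rw [add_comm q p] at h1
  rw [h1, Lam_swap h]

theorem Lam_p4 (h : Wt s lam) (p q : K) : Lam s lam (-(p + q)) p = Lam s lam p q := by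
  rw [Lam_swap h, Lam_p3 h]

theorem Lam_act (σ : Equiv.Perm (Fin 3)) (ε : Fin 3 → ℤˣ) (p q : K) :
    Lam s lam (actK σ ε p) (actK σ ε q) = Lam s lam p q := by
  unfold Lam scl
  rw [← JIW.actK_add, nq_act, nq_act, nq_act, ct_act, ct_act, ct_act]

theorem bezout (p : K) : ∃ a : K, ∑ i, a i * p i = ct p := by
  obtain ⟨x, y, hxy⟩ : ∃ x y : ℤ, x * p 0 + y * p 1 = Nat.gcd (p 0).natAbs (p 1).natAbs := by
    refine ⟨Int.gcdA (p 0) (p 1), Int.gcdB (p 0) (p 1), ?_⟩
    have := Int.gcd_eq_gcd_ab (p 0) (p 1)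
    rw [Int.gcd_def] at this
    rw [this]
    ring
  obtain ⟨z, w, hzw⟩ : ∃ z w : ℤ, z * (Nat.gcd (p 0).natAbs (p 1).natAbs : ℤ) + w * p 2
      = Nat.gcd (Nat.gcd (p 0).natAbs (p 1).natAbs) (p 2).natAbs := by
    refine ⟨Int.gcdA (Nat.gcd (p 0).natAbs (p 1).natAbs : ℤ) (p 2),
      Int.gcdB (Nat.gcd (p 0).natAbs (p 1).natAbs : ℤ) (p 2), ?_⟩
    have := Int.gcd_eq_gcd_ab (Nat.gcd (p 0).natAbs (p 1).natAbs : ℤ) (p 2)
    rw [Int.gcd_def, Int.natAbs_natCast] at this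
    rw [this]
    ring
  refine ⟨![z * x, z * y, w], ?_⟩
  rw [Fin.sum_univ_three]
  change z * x * p 0 + z * y * p 1 + w * p 2 = (Nat.gcd (Nat.gcd (p 0).natAbs (p 1).natAbs) (p 2).natAbs : ℤ)
  rw [← hzw, ← hxy]
  ring

theorem ct_rel {p q : K} (h : col p q) :
    Real.sqrt (nq q) * ct p = ct q * Real.sqrt (nq p) := by
  obtain ⟨a, ha⟩ := bezout p
  set m : ℤ := ∑ i, a i * q i with hm
  have h1 : (ct p : ℤ) • q = m • p := by
    funext j
    rw [Pi.smul_apply, Pi.smul_apply, smul_eq_mul, smul_eq_mul, ← ha, hm, Finset.sum_mul,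
      Finset.sum_mul]
    refine Finset.sum_congr rfl fun i _ => ?_
    have := h.1 i j
    rw [mul_assoc, this]
    ring
  have hp := ct_pos h.2.1
  have h2 : ct q = m.natAbs := by
    have h3 := congrArg ct h1
    rw [ct_smul, ct_smul, Int.natAbs_natCast, mul_comm] at h3
    exact Nat.eq_of_mul_eq_mul_right hp h3
  have h4 := congrArg nq h1
  have h5 : ∀ (l : ℤ) (n : K), nq (l • n) = (l : ℝ) ^ 2 * nq n := by
    intro l n
    unfold nq
    rw [Finset.mul_sum]
    refine Finset.sum_congr rfl fun i _ => ?_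
    rw [Pi.smul_apply, smul_eq_mul]
    push_cast
    ring
  rw [h5, h5] at h4
  have h6 := congrArg Real.sqrt h4
  rw [Real.sqrt_mul (sq_nonneg _), Real.sqrt_mul (sq_nonneg _), Real.sqrt_sq_eq_abs,
    Real.sqrt_sq_eq_abs] at h6
  have h7 : |((ct p : ℤ) : ℝ)| = ct p := by
    rw [Int.cast_natCast]
    exact abs_of_nonneg (Nat.cast_nonneg _)
  have h8 : |(m : ℝ)| = ct q := by
    rw [h2, ← Int.cast_abs, Int.abs_eq_natAbs, Int.cast_natCast]
  rw [h7, h8] at h6
  linarith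

theorem col_sum {p q : K} (h : col p q) (hpq : p + q ≠ 0) : col p (p + q) := by
  refine ⟨fun i j => ?_, h.2.1, hpq⟩
  have := h.1 i j
  simp only [Pi.add_apply]
  linarith [mul_add (p i) (p j) (q j), mul_add (p j) (p i) (q i), mul_comm (p i) (p j)]

/-- The common scale. -/
theorem scl_eq {p q : K} (h : col p q) (hpq : p + q ≠ 0) :
    0 < scl p q ∧ Real.sqrt (nq p) = scl p q * ct p ∧ Real.sqrt (nq q) = scl p q * ct q ∧
      Real.sqrt (nq (p + q)) = scl p q * ct (p + q) := by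
  have h1 := ct_rel h
  have h2 := ct_rel (col_sum h hpq)
  have hp : (0 : ℝ) < ct p := by exact_mod_cast ct_pos h.2.1
  have hq : (0 : ℝ) < ct q := by exact_mod_cast ct_pos h.2.2
  have hpq' : (0 : ℝ) < ct (p + q) := by exact_mod_cast ct_pos hpq
  have hnp : 0 < Real.sqrt (nq p) := Real.sqrt_pos.2 (lt_of_lt_of_le one_pos (JLS.one_le_nq h.2.1))
  set ρ : ℝ := Real.sqrt (nq p) / ct p with hρ
  have e1 : Real.sqrt (nq p) = ρ * ct p := by rw [hρ]; field_simp
  have e2 : Real.sqrt (nq q) = ρ * ct q := by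
    have : Real.sqrt (nq q) = ct q * Real.sqrt (nq p) / ct p := by
      rw [← h1]; field_simp
    rw [this, hρ]; ring
  have e3 : Real.sqrt (nq (p + q)) = ρ * ct (p + q) := by
    have : Real.sqrt (nq (p + q)) = ct (p + q) * Real.sqrt (nq p) / ct p := by
      rw [← h2]; field_simp
    rw [this, hρ]; ring
  have e4 : scl p q = ρ := by
    unfold scl
    rw [e1, e2, e3]
    have : (ct p : ℝ) + ct q + ct (p + q) ≠ 0 := by positivity
    field_simp
  rw [e4]
  exact ⟨by positivity, e1, e2, e3⟩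

theorem mu_nonneg (h : Wt s lam) (l m k : ℕ) : 0 ≤ mu lam l m k := by
  unfold mu
  split_ifs
  · exact le_rfl
  · exact h.nonneg _ _
  · exact h.nonneg _ _
  · exact h.nonneg _ _
  · exact le_rfl

/-- The bound of the weight. -/
theorem mu_bdd (hs : 0 ≤ s) (h : Wt s lam) {l m k j : ℕ} (hl : 0 < l) (hm : 0 < m) (hk : 0 < k)
    (hj : j = l ∨ j = m ∨ j = k) : (j : ℝ) ^ s * mu lam l m k ≤ 12 := by
  have key : ∀ x y : ℕ, 0 < x → 0 < y → (j ≤ x + y) → (j : ℝ) ^ s * lam x y ≤ 12 := by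
    intro x y hx hy hle
    have h1 := h.bdd x y hx hy
    have hxy : (0 : ℝ) < (x : ℝ) + y := by positivity
    have hj1 : (j : ℝ) ≤ (x : ℝ) + y := by exact_mod_cast hle
    have h2 : (j : ℝ) ^ s ≤ ((x : ℝ) + y) ^ s := Real.rpow_le_rpow (Nat.cast_nonneg _) hj1 hs
    calc (j : ℝ) ^ s * lam x y ≤ ((x : ℝ) + y) ^ s * (12 * ((x : ℝ) + y) ^ (-s)) :=
          mul_le_mul h2 h1 (h.nonneg _ _) (Real.rpow_nonneg hxy.le _)
      _ = 12 * (((x : ℝ) + y) ^ s * ((x : ℝ) + y) ^ (-s)) := by ring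
      _ = 12 := by rw [← Real.rpow_add hxy, add_neg_cancel, Real.rpow_zero, mul_one]
  unfold mu
  rw [if_neg (by omega)]
  split_ifs with h1 h2 h3
  · exact key l m hl hm (by omega)
  · exact key m k hm hk (by omega)
  · exact key l k hl hk (by omega)
  · rw [mul_zero]; norm_num

theorem Lam_nonneg (h : Wt s lam) (p q : K) : 0 ≤ Lam s lam p q := by
  unfold Lam scl
  exact mul_nonneg (Real.rpow_nonneg (by positivity) _) (mu_nonneg h _ _ _)

theorem Lam_bdd (hs : 0 ≤ s) (h : Wt s lam) {p q k : K} (hc : col p q) (hpq : p + q ≠ 0)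
    (hk : k = p ∨ k = q ∨ k = p + q) : Real.sqrt (nq k) ^ s * Lam s lam p q ≤ 12 := by
  obtain ⟨h0, h1, h2, h3⟩ := scl_eq hc hpq
  have hk' : Real.sqrt (nq k) = scl p q * ct k := by
    rcases hk with rfl | rfl | rfl
    · exact h1
    · exact h2
    · exact h3
  have hb := mu_bdd hs h (ct_pos hc.2.1) (ct_pos hc.2.2) (ct_pos hpq) (j := ct k)
    (by rcases hk with rfl | rfl | rfl <;> simp)
  unfold Lam
  rw [hk', Real.mul_rpow h0.le (Nat.cast_nonneg _)]
  calc scl p q ^ s * (ct k : ℝ) ^ s * (scl p q ^ (-s) * mu lam (ct p) (ct q) (ct (p + q)))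
      = (scl p q ^ s * scl p q ^ (-s)) * ((ct k : ℝ) ^ s * mu lam (ct p) (ct q) (ct (p + q))) := by ring
    _ = (ct k : ℝ) ^ s * mu lam (ct p) (ct q) (ct (p + q)) := by
        rw [← Real.rpow_add h0, add_neg_cancel, Real.rpow_zero, one_mul]
    _ ≤ 12 := hb

theorem Lam_le (hs : 0 ≤ s) (h : Wt s lam) {p q : K} (hc : col p q) (hpq : p + q ≠ 0) :
    Lam s lam p q ≤ 12 := by
  have h1 := Lam_bdd hs h hc hpq (Or.inl rfl)
  have h2 : 1 ≤ Real.sqrt (nq p) ^ s := by
    refine Real.one_le_rpow ?_ hs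
    rw [Real.one_le_sqrt]
    exact JLS.one_le_nq hc.2.1
  have h3 := Lam_nonneg h p q
  nlinarith

theorem mu_homog (h : Wt s lam) {c : ℕ} (hc : 0 < c) (l m k : ℕ) :
    mu lam (l * c) (m * c) (k * c) = (c : ℝ) ^ (-s) * mu lam l m k := by
  have hc' : c ≠ 0 := hc.ne'
  have key : ∀ x y z : ℕ, x * c = y * c + z * c ↔ x = y + z := by
    intro x y z
    rw [← add_mul]
    exact Nat.mul_left_inj hc'
  unfold mu
  simp only [mul_eq_zero, hc', or_false, key]
  split_ifs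
  · rw [mul_zero]
  · rw [mul_comm l, mul_comm m, h.homog c l m hc]
  · rw [mul_comm m, mul_comm k, h.homog c m k hc]
  · rw [mul_comm l, mul_comm k, h.homog c l k hc]
  · rw [mul_zero]

/-- The weight on the multiples of one frequency. -/
theorem Lam_line (h : Wt s lam) {n : K} (hn : n ≠ 0) {l m : ℤ} (hl : l ≠ 0) (hm : m ≠ 0)
    (hlm : l + m ≠ 0) : Lam s lam (l • n) (m • n)
      = Real.sqrt (nq n) ^ (-s) * mu lam l.natAbs m.natAbs (l + m).natAbs := by
  have hc := ct_pos hn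
  have hcr : (0 : ℝ) < ct n := by exact_mod_cast hc
  have hnn : 0 < Real.sqrt (nq n) := Real.sqrt_pos.2 (lt_of_lt_of_le one_pos (JLS.one_le_nq hn))
  have h5 : ∀ l : ℤ, Real.sqrt (nq (l • n)) = (l.natAbs : ℝ) * Real.sqrt (nq n) := by
    intro l
    have : nq (l • n) = (l : ℝ) ^ 2 * nq n := by
      unfold nq
      rw [Finset.mul_sum]
      refine Finset.sum_congr rfl fun i _ => ?_
      rw [Pi.smul_apply, smul_eq_mul]
      push_cast
      ring
    rw [this, Real.sqrt_mul (sq_nonneg _), Real.sqrt_sq_eq_abs, Nat.cast_natAbs, Int.cast_abs]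
  unfold Lam scl
  rw [← add_smul, h5, h5, h5, ct_smul, ct_smul, ct_smul, mu_homog h hc, ← mul_assoc]
  congr 1
  have hl' : (0 : ℝ) < l.natAbs := by exact_mod_cast Int.natAbs_pos.2 hl
  have e1 : ((l.natAbs : ℝ) * Real.sqrt (nq n) + (m.natAbs : ℝ) * Real.sqrt (nq n)
      + ((l + m).natAbs : ℝ) * Real.sqrt (nq n)) / (((l.natAbs * ct n : ℕ) : ℝ)
        + ((m.natAbs * ct n : ℕ) : ℝ) + (((l + m).natAbs * ct n : ℕ) : ℝ))
      = Real.sqrt (nq n) / ct n := by
    push_cast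
    have : (l.natAbs : ℝ) + m.natAbs + (l + m).natAbs ≠ 0 := by positivity
    rw [← add_mul, ← add_mul, ← add_mul, ← add_mul]
    rw [mul_div_mul_left _ _ this]
  rw [e1, Real.div_rpow hnn.le hcr.le, div_mul_cancel₀]
  exact (Real.rpow_pos_of_pos hcr _).ne'

end

end H706T
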